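import Pool.Agent.P.MP_833722_gt.TG.Base

/-! The induction on the number of edges. -/

set_option autoImplicit false

namespace Pool.Agent.P.MP_833722_gt.TG

open Finset LaurentPolynomial

section

variable {V : Type} [Fintype V] [DecidableEq V]

theorem asm_one {en : ℕ → Sym2 V} {e : ℕ} (h : ¬(en e).IsDiag) : gr en {e} = 1 := by
  induction g : en e using Sym2.ind with | h a b => ?_
  have := gr_insert en g ∅
  rw [image_empty, gen_empty, rk_jn (fun r => h (g ▸ Sym2.mk_isDiag_iff.2 r)), rk_bot] at this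
  exact this

theorem asm_par {en : ℕ → Sym2 V} {e f : ℕ} (he : ¬(en e).IsDiag) (hf : ¬(en f).IsDiag)
    (h : gr en {e, f} ≤ 1) : en e = en f := by
  induction g : en e using Sym2.ind with | h a b => ?_
  induction g' : en f using Sym2.ind with | h c d => ?_
  have h1 := gr_insert en g {f}
  have h2 := asm_one hf
  have h3 : a ≠ b := fun r => he (g ▸ Sym2.mk_isDiag_iff.2 r)
  have h4 : gen ⊥ (({f} : Finset ℕ).image en) a b := by
    by_contra r
    rw [rk_jn r] at h1
    unfold gr at *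
    omega
  rw [image_singleton, g', ← insert_empty_eq, gen_insert, gen_empty] at h4
  rcases h4 with r | ⟨r, r'⟩ | ⟨r, r'⟩
  · exact (h3 r).elim
  · rw [show a = c from r, show d = b from r']
  · rw [show a = d from r, show c = b from r', Sym2.eq_swap]

/-- a negative edge spanned by the positive ones and a positive edge spanned by the negative ones
are parallel -/
theorem asm_pp (hS : PSym) (P : DP V) (hN : P.NoSep) (h2 : 2 ≤ P.E.card) (hL : P.LE)
    (h : P.PT) (h' : P.mi.PT) : ∃ e ∈ P.Ep, ∃ f ∈ P.Em, P.en e = P.en f := by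
  obtain ⟨f, hf, h⟩ := h
  obtain ⟨e, he, h'⟩ := h'
  simp only [DP.mi_Em, DP.mi_Ep, DP.mi_en] at he h'
  have hd := (hS V P).2.2.2.2.2.1 hN h2
  refine ⟨e, he, f, hf, asm_par (hd e (mem_filter.1 he).1).1 (hd f (mem_filter.1 hf).1).1 ?_⟩
  have a1 := gr_submod P.en (insert f P.Ep) (insert e P.Em)
  have a2 : gr P.en P.E ≤ gr P.en (insert f P.Ep ∪ insert e P.Em) := gr_mono _ (by
    rw [← P.Ep_union_Em]
    exact union_subset_union (subset_insert _ _) (subset_insert _ _))
  have a3 : gr P.en {e, f} ≤ gr P.en (insert f P.Ep ∩ insert e P.Em) := gr_mono _ (by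
    intro c hc
    rcases mem_insert.1 hc with rfl | hc
    · simp [he]
    · rw [mem_singleton.1 hc]; simp [hf])
  unfold DP.LE at hL
  omega

/-- the mixed case leaves one negative edge -/
theorem asm_ps (hS : PSym) (P : DP V) (hN : P.NoSep) (h2 : 2 ≤ P.E.card) (hL : P.LE)
    (h : P.PT) (h' : P.mi.sw.PT) : ∃ d, P.Em = {d} := by
  obtain ⟨e, he, h⟩ := h
  obtain ⟨f, hf, h'⟩ := h'
  simp only [DP.sw_Em, DP.sw_Ep, DP.sw_en, DP.mi_Em, DP.mi_Ep, DP.mi_en'] at hf h'
  have hd := (hS V P).2.2.2.2.2.1 hN h2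
  have hE : P.Ep ⊆ P.E := filter_subset _ _
  have hM : P.Em ⊆ P.E := filter_subset _ _
  have hn : ∀ c ∈ P.Em, c ∉ P.Ep := fun c h1 h2 => by
    have := (mem_filter.1 h1).2
    rw [(mem_filter.1 h2).2] at this
    exact absurd this (by decide)
  have b1 := P.dual _ (insert_subset (hM hf) hE)
  have b2 := P.dual _ hE
  rw [sdiff_insert, P.sdiff_Ep, card_insert_of_notMem (hn f hf)] at b1
  rw [P.sdiff_Ep] at b2
  unfold DP.LE at hL
  have hef : e = f := by
    by_contra r
    have a1 := gr_submod P.en (insert e P.Ep) (P.Em.erase f)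
    have a2 : gr P.en (P.E.erase f) ≤ gr P.en (insert e P.Ep ∪ P.Em.erase f) := gr_mono _ (by
      intro c hc
      have := mem_erase.1 hc
      rw [← P.Ep_union_Em, mem_union] at this
      simp only [mem_union, mem_insert, mem_erase]
      tauto)
    have a3 : gr P.en {e} ≤ gr P.en (insert e P.Ep ∩ P.Em.erase f) :=
      gr_mono _ (by simp [he, r])
    have a4 := asm_one (hd e (hM he)).1
    have a5 := (hd f (hM hf)).2
    omega
  subst hef
  refine ⟨e, eq_singleton_iff_unique_mem.2 ⟨he, fun c hc => by_contra fun r => ?_⟩⟩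
  have a1 := hN (P.Em.erase e) ((erase_subset _ _).trans hM) ⟨c, mem_erase.2 ⟨r, hc⟩⟩
    fun g => notMem_erase e P.Em (g ▸ hM he)
  have a2 : gr P.en (P.E \ P.Em.erase e) ≤ gr P.en (insert e P.Ep) := gr_mono _ (by
    intro c hc
    have := mem_sdiff.1 hc
    rw [← P.Ep_union_Em, mem_union] at this
    simp only [mem_insert, mem_erase] at this ⊢
    tauto)
  omega

end

theorem asm (hP : PSp) (hC : PClose) (hS : PSym) (h1 : PR1) (h2 : PR2) (h3 : PR3) (i0 : PIPure)
    (i1 : PIMain) (i2 : PISing) (i4 : PIS4) : PAsm := by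
  intro n
  obtain ⟨C0, i0⟩ := i0
  obtain ⟨C1, i1⟩ := i1
  obtain ⟨C2, i2⟩ := i2
  obtain ⟨D0, c0⟩ := hC C0 n
  obtain ⟨D1, c1⟩ := hC C1 n
  obtain ⟨D2, c2⟩ := hC C2 n
  obtain ⟨D, hD, hD'⟩ : ∃ D, D0 + D1 + D2 ≤ D ∧ 4 ^ (n + 3) ≤ D :=
    ⟨_, Nat.le_add_right _ _, Nat.le_add_left _ _⟩
  have hD1 : 1 ≤ D := (Nat.pow_pos (by norm_num)).trans_le hD'
  have key : ∀ (V : Type) [Fintype V] [DecidableEq V] (N : ℕ) (P : DP V), P.E.card = N → P.L1 →
      ∀ m ≤ 4 * n, Win P.Br m → nrm P.Br ≤ D ^ m := by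
    intro V _ _ N
    induction N using Nat.strong_induction_on with | h N ih => ?_
    intro P hN hL m hm hW
    rcases Nat.eq_zero_or_pos m with rfl | m0
    · rw [(h1 V P).2.2.2 hW, pow_zero]
    have hDm : D ≤ D ^ m := Nat.le_self_pow m0.ne' D
    have wide : ∀ f, Win f m → Win f (4 * n) := fun f h i j a b =>
      (h i j a b).trans (by exact_mod_cast hm)
    by_cases hsm : P.E.card ≤ n + 3
    · have := (h1 V P).2.1.trans (Nat.pow_le_pow_right (by norm_num) hsm)
      omega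
    by_cases hsep : ¬P.NoSep
    · simp only [DP.NoSep, not_forall, not_lt] at hsep
      obtain ⟨F, a1, a2, a3, a4⟩ := hsep
      obtain ⟨P₁, P₂, e1, e2, l1, l2, e⟩ := (h1 V P).1 F a1 hL a4
      rw [e] at hW ⊢
      obtain ⟨m₁, m₂, b1, b2, b3⟩ := hP.wmul _ _ _ (h1 V P₁).2.2.1 (h1 V P₂).2.2.1 hW
      have d1 := ih _ (by rw [e1, ← hN]; exact card_lt_card (a1.ssubset_of_ne a3)) P₁ rfl l1 m₁
        (by omega) b2
      have d2 := ih _ (by rw [e2, ← hN]; exact card_lt_card (sdiff_ssubset a1 a2)) P₂ rfl l2 m₂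
        (by omega) b3
      exact (hP.nmul _ _).trans ((Nat.mul_le_mul d1 d2).trans
        (by rw [← pow_add]; exact Nat.pow_le_pow_right hD1 b1))
    rw [not_not] at hsep
    let G : DP V → Prop := fun Q => Win Q.Br m → nrm Q.Br ≤ D ^ m
    have gsw : ∀ Q : DP V, G Q.sw → G Q := fun Q h => by simpa only [G, (hS V Q).1] using h
    have gmi : ∀ Q : DP V, G Q.mi → G Q := fun Q h => by
      simpa only [G, (hS V Q).2.1, hP.winv, hP.ninv] using h
    have gred : ∀ Q : DP V, Q.E.card = N → Q.Red → G Q := by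
      rintro Q hQ ⟨P', a1, a2, k, e | e⟩ h
      · rw [e, hP.wT] at h
        rw [e, hP.nT]
        exact ih _ (hQ ▸ a1) P' rfl a2 m hm h
      · rw [e, hP.wneg, hP.wT] at h
        rw [e, hP.nneg, hP.nT]
        exact ih _ (hQ ▸ a1) P' rfl a2 m hm h
    have lmi : ∀ Q : DP V, Q.LE → Q.mi.LE := fun Q h => by
      simpa only [DP.LE, DP.mi_E, DP.mi_en, DP.mi_Ep, DP.mi_Em, add_comm] using h
    have gpar : ∀ Q : DP V, Q.E.card = N → Q.NoSep → Q.LE →
        (∃ e ∈ Q.Ep, ∃ f ∈ Q.Em, Q.en e = Q.en f) → G Q := fun Q hQ a b ⟨e, he, f, hf, r⟩ =>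
      gred Q hQ (h2 V Q e f b.le a (by omega) he hf r)
    have gs0 : ∀ (Q : DP V) d, Q.E.card = N → Q.NoSep → Q.Ep = {d} →
        (∀ e ∈ Q.Em, Q.en e ≠ Q.en d) → ¬Tri Q.en Q.E d → Tri Q.en' Q.E d → G Q :=
      fun Q d hQ a b c t t' h => by
        have := c2 _ (i2 V Q d a (by omega) b c t t') (wide _ h)
        omega
    have gsing : ∀ (Q : DP V) d, Q.E.card = N → Q.NoSep → Q.LE → Q.Ep = {d} → G Q := by
      intro Q d hQ a b c
      have hd : d ∈ Q.Ep := by simp [c]
      by_cases p1 : ∃ e ∈ Q.Em, Q.en e = Q.en d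
      · obtain ⟨e, he, r⟩ := p1
        exact gpar Q hQ a b ⟨d, hd, e, he, r.symm⟩
      by_cases p2 : ∃ e ∈ Q.Em, Q.en' e = Q.en' d
      · obtain ⟨e, he, r⟩ := p2
        exact gsw Q (gpar Q.sw hQ ((hS V Q).2.2.2.2.1 a) ((hS V Q).2.2.2.1 b)
          ⟨e, by simpa using he, d, by simpa using hd, r⟩)
      push Not at p1 p2
      by_cases t : Tri Q.en Q.E d <;> by_cases t' : Tri Q.en' Q.E d
      · exact gred Q hQ (h3 V Q d c t t')
      · exact gmi Q (gsw _ (gs0 Q.mi.sw d hQ ((hS V Q.mi).2.2.2.2.1 a) (by simpa using c)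
          (by simpa using p2) t' t))
      · exact gs0 Q d hQ a c p1 t t'
      · intro h
        have := i4 V Q d n a (by omega) c p1 p2 t t' (wide _ h)
        omega
    have gpure : ∀ Q : DP V, Q.E.card = N → Q.NoSep → Q.Ep = ∅ → G Q := fun Q hQ a b h => by
      have := c0 _ (i0 V Q a (by omega) b) (wide _ h)
      omega
    have gmain : ∀ Q : DP V, Q.NoSep → Q.LE → ¬Q.PT → ¬Q.sw.PT → G Q := fun Q a b c d h => by
      have := c1 _ (i1 V Q a b c d) (wide _ h)
      omega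
    have gpt : ∀ Q : DP V, Q.E.card = N → Q.NoSep → Q.LE → Q.PT →
        (Q.mi.PT ∨ Q.mi.sw.PT) → G Q := by
      rintro Q hQ a b c (d | d)
      · exact gpar Q hQ a b (asm_pp hS Q a (by omega) b c d)
      · obtain ⟨e, he⟩ := asm_ps hS Q a (by omega) b c d
        exact gmi Q (gsing Q.mi e hQ a (lmi Q b) (by simpa using he))
    refine (?_ : G P) hW
    by_cases p0 : P.Ep = ∅
    · exact gpure P hN hsep p0
    by_cases p1 : P.Em = ∅
    · exact gmi P (gpure P.mi hN hsep (by simpa using p1))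
    have hE : P.LE := by
      have := hsep P.Ep (filter_subset _ _) (nonempty_iff_ne_empty.2 p0) fun e => p1 (by
        rw [← P.sdiff_Ep, e, sdiff_self, bot_eq_empty])
      rw [P.sdiff_Ep] at this
      unfold DP.LE DP.L1 at *
      omega
    by_cases q : ¬P.mi.PT ∧ ¬P.mi.sw.PT
    · exact gmi P (gmain P.mi hsep (lmi P hE) q.1 q.2)
    rw [not_and_or, not_not, not_not] at q
    by_cases q1 : P.PT
    · exact gpt P hN hsep hE q1 q
    by_cases q2 : P.sw.PT
    · exact gsw P (gpt P.sw hN ((hS V P).2.2.2.2.1 hsep) ((hS V P).2.2.2.1 hE) q2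
        (q.symm.imp id fun r => by simpa [DP.PT] using r))
    · exact gmain P hsep hE q1 q2
  exact ⟨D ^ (4 * n), fun V _ _ P hL hW => key V _ P rfl hL _ le_rfl hW⟩

end Pool.Agent.P.MP_833722_gt.TG
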