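import Pool.Agent.P.MP_833722_gt.TG.Defs

/-! Basic properties of the positive model. -/

set_option autoImplicit false

namespace Pool.Agent.P.MP_833722_gt.TG

open Finset

theorem ind_pos {p : Prop} (h : p) : ind p = 1 := if_pos h
theorem ind_neg {p : Prop} (h : ¬p) : ind p = 0 := if_neg h
theorem ind_nonneg (p : Prop) : 0 ≤ ind p := by unfold ind; split_ifs <;> norm_num
theorem ind_le_one (p : Prop) : ind p ≤ 1 := by unfold ind; split_ifs <;> norm_num
theorem ind_congr {p q : Prop} (h : p ↔ q) : ind p = ind q := by rw [propext h]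
theorem ind_mono {p q : Prop} (h : p → q) : ind p ≤ ind q := by
  by_cases hp : p
  · rw [ind_pos hp, ind_pos (h hp)]
  · rw [ind_neg hp]; exact ind_nonneg q

theorem kk_pos {t : ℝ} (h0 : 0 < t) (h1 : t < 1) : 0 < kk t := by
  unfold kk
  have : 0 < 1 - t := by linarith
  positivity

/-- `t ≤ 1 / k ≤ 1.03 t` and `98 ≤ k` -/
theorem kk_small {t : ℝ} (h0 : 0 < t) (h1 : t ≤ 1 / 100) :
    t ≤ 1 / kk t ∧ 1 / kk t ≤ 103 / 100 * t ∧ 1 / kk t ^ 2 ≤ 105 / 100 * t ^ 2 ∧ 98 ≤ kk t ∧
      kk t ≤ 1 / t := by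
  have hk := kk_pos h0 (by linarith)
  have e : kk t * t = (1 - t) ^ 2 := by unfold kk; field_simp
  have h2 : 1 / kk t ≤ 1021 / 1000 * t := by rw [div_le_iff₀ hk]; nlinarith
  refine ⟨by rw [le_div_iff₀ hk]; nlinarith, by linarith, ?_, ?_, by rw [le_div_iff₀ h0]; nlinarith⟩
  · have h3 : (1 / kk t) ^ 2 ≤ (1021 / 1000 * t) ^ 2 := pow_le_pow_left₀ (by positivity) h2 2
    rw [div_pow, one_pow] at h3
    nlinarith
  · by_contra h
    have : kk t * t ≤ 98 * t := by gcongr; linarith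
    nlinarith

theorem CtlB.mono {C C' : ℕ} {B : ℝ → ℝ} (h : CtlB C B) (hC : C ≤ C') : CtlB C' B := by
  obtain ⟨b, m, h1, h2⟩ := h
  have hC0 : 0 < C := by
    rcases Nat.eq_zero_or_pos C with rfl | g
    · have := h1 1 one_pos (by simp)
      simp only [Nat.cast_zero] at this
      linarith
    · exact g
  have hc : (C : ℝ) ≤ C' := by exact_mod_cast hC
  have hc0 : (0 : ℝ) < C := by exact_mod_cast hC0
  refine ⟨b, m, fun t ht g => ?_, fun j hj g => ?_⟩
  · obtain ⟨a1, a2⟩ := h1 t ht (le_trans (by gcongr) g)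
    exact ⟨a1.trans hc, a2⟩
  · obtain ⟨t, a1, a2, a3, a4⟩ := h2 j (hC.trans hj) g
    have ht : 0 ≤ t := le_trans (by positivity) a1
    exact ⟨t, a1, a2, a3, fun g' => le_trans (by gcongr) (a4 g')⟩

variable {V : Type} [Fintype V] [DecidableEq V] {k : ℝ} {w : Sym2 V → ℝ}
  {E E' : Finset (Sym2 V)} {ρ : Setoid V} {Φ Ψ : Setoid V → ℝ} {W W' : Finset V} {a b : V}

theorem Mg.wt {m : Sym2 V → ℕ} (h : Mg m E) {t : ℝ} (h0 : 0 ≤ t) (h1 : t ≤ 1) :
    Wt (1 - t) (wt t m) E := fun e he => by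
  have h2 := pow_le_pow_of_le_one h0 h1 (h e he).2
  have h3 := pow_nonneg h0 (m e)
  rw [pow_one] at h2
  exact ⟨(h e he).1, by unfold TG.wt; linarith, by unfold TG.wt; linarith⟩

theorem Mg.mono {m : Sym2 V → ℕ} (h : Mg m E') (hE : E ⊆ E') : Mg m E := fun e he => h e (hE he)

theorem Wt.mono {u u' : ℝ} (h : Wt u w E') (hu : u' ≤ u) (hE : E ⊆ E') : Wt u' w E :=
  fun e he => ⟨(h e (hE he)).1, hu.trans (h e (hE he)).2.1, (h e (hE he)).2.2⟩

theorem mem_nb {v : V} : a ∈ nb E v ↔ s(v, a) ∈ E := by simp [nb]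

theorem nb_mono (h : E ⊆ E') (v : V) : nb E v ⊆ nb E' v := fun _ g => mem_nb.2 (h (mem_nb.1 g))

theorem deg_mono (h : E ⊆ E') (v : V) : deg E v ≤ deg E' v := card_le_card (nb_mono h v)

theorem com_mono (h : E ⊆ E') (a b : V) : com E a b ≤ com E' a b :=
  card_le_card (inter_subset_inter (nb_mono h a) (nb_mono h b))

theorem com_comm (E : Finset (Sym2 V)) (a b : V) : com E a b = com E b a := by
  rw [com, inter_comm, com]

theorem exc_mono (h : E ⊆ E') (hW : W' ⊆ W) : exc E W ≤ exc E' W' := 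
  (sum_le_sum fun v _ => Nat.sub_le_sub_right (deg_mono h v) 2).trans
    (sum_le_sum_of_subset (sdiff_subset_sdiff Subset.rfl hW))

theorem cnt_mono (h : E ⊆ E') (hW : W' ⊆ W) (v : V) : cnt E W v ≤ cnt E' W' v := by
  refine card_le_card fun p hp => ?_
  simp only [mem_filter, mem_univ, true_and] at hp ⊢
  exact ⟨h hp.1, h hp.2.1, fun g => hp.2.2.1 (hW g), fun g => hp.2.2.2.1 (hW g), hp.2.2.2.2⟩

theorem deg_insert_of_ne {q : V} (h1 : q ≠ a) (h2 : q ≠ b) :
    deg (insert s(a, b) E) q = deg E q := by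
  unfold deg
  congr 1
  ext c
  simp [mem_nb, h1, h2]

/-! ### the functional `Z` -/

@[simp] theorem Z_empty : Z k w ∅ ρ Φ = Φ ρ := by simp [Z]

theorem Z_insert (h : s(a, b) ∉ E) :
    Z k w (insert s(a, b) E) ρ Φ = Z k w E ρ (LL k (w s(a, b)) a b Φ) := by
  unfold Z
  rw [sum_powerset_insert h, ← sum_add_distrib]
  refine sum_congr rfl fun S hS => ?_
  rw [prod_insert fun g => h (mem_powerset.1 hS g), gen_insert]
  unfold LL
  split_ifs with g
  · rw [jn_of_rel g]; ring
  · rw [rk_jn g, Nat.sub_add_comm (rk_mono (le_gen ρ S)), pow_succ, inv_neg]; ring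

theorem Z_congr (h : ∀ S ⊆ E, Φ (gen ρ S) = Ψ (gen ρ S)) : Z k w E ρ Φ = Z k w E ρ Ψ := 
  sum_congr rfl fun S hS => by rw [h S (mem_powerset.1 hS)]

theorem Z_wcongr {w' : Sym2 V → ℝ} (h : ∀ e ∈ E, w e = w' e) : Z k w E ρ Φ = Z k w' E ρ Φ := 
  sum_congr rfl fun S hS => by
    rw [prod_congr rfl fun e he => by rw [h e (mem_powerset.1 hS he)]]

theorem Z_add : Z k w E ρ (fun π => Φ π + Ψ π) = Z k w E ρ Φ + Z k w E ρ Ψ := by
  simp only [Z, mul_add, sum_add_distrib]

theorem Z_sub : Z k w E ρ (fun π => Φ π - Ψ π) = Z k w E ρ Φ - Z k w E ρ Ψ := by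
  simp only [Z, mul_sub, sum_sub_distrib]

theorem Z_smul (c : ℝ) : Z k w E ρ (fun π => c * Φ π) = c * Z k w E ρ Φ := by
  simp only [Z, mul_sum]
  exact sum_congr rfl fun _ _ => by ring

theorem Z_sum {ι : Type} (s : Finset ι) (F : ι → Setoid V → ℝ) :
    Z k w E ρ (fun π => ∑ i ∈ s, F i π) = ∑ i ∈ s, Z k w E ρ (F i) := by
  simp only [Z, mul_sum]
  exact sum_comm

theorem Z_nonneg (hk : 0 < k) (hw : Wt 0 w E) (h : ∀ S ⊆ E, 0 ≤ Φ (gen ρ S)) :
    0 ≤ Z k w E ρ Φ := by
  induction E using Finset.induction_on generalizing Φ with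
  | empty => simpa using h ∅ Subset.rfl
  | insert e E he ih =>
    induction e using Sym2.ind with | h a b => ?_
    rw [Z_insert he]
    refine ih (hw.mono le_rfl (subset_insert _ _)) fun S hS => ?_
    have h1 := h S (hS.trans (subset_insert _ _))
    have h2 := h _ (insert_subset_insert s(a, b) hS)
    have h3 := hw _ (mem_insert_self _ _)
    rw [gen_insert] at h2
    unfold LL
    split_ifs
    · exact mul_nonneg (by linarith [h3.2.2]) h1
    · exact add_nonneg h1 (mul_nonneg (div_nonneg h3.2.1 hk.le) h2)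

theorem Z_mono (hk : 0 < k) (hw : Wt 0 w E) (h : ∀ S ⊆ E, Φ (gen ρ S) ≤ Ψ (gen ρ S)) :
    Z k w E ρ Φ ≤ Z k w E ρ Ψ := by
  have := Z_nonneg (Φ := fun π => Ψ π - Φ π) hk hw fun S hS => sub_nonneg.2 (h S hS)
  rw [Z_sub] at this
  linarith

/-- identity (J) -/
theorem Z_jn (hk : k ≠ 0) (h : ¬ρ a b) : Z k w E (jn ρ a b) Φ =
    Z k w E ρ fun π => ind (¬π a b) * Φ (jn π a b) - k * (ind (π a b) * Φ π) := by
  refine sum_congr rfl fun S _ => ?_
  rw [gen_jn, rk_jn h]
  beta_reduce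
  by_cases g : gen ρ S a b
  · have h1 : rk ρ + 1 ≤ rk (gen ρ S) := rk_jn h ▸ rk_mono (jn_le (le_gen ρ S) g)
    rw [jn_of_rel g, ind_pos g, ind_neg (not_not.2 g),
      show rk (gen ρ S) - rk ρ = rk (gen ρ S) - (rk ρ + 1) + 1 by omega, pow_succ]
    field_simp
    ring
  · rw [rk_jn g, ind_pos g, ind_neg g, Nat.add_sub_add_right]; ring

theorem Z_step (hk : k ≠ 0) (he : s(a, b) ∉ E) (h : ¬ρ a b) : Z k w (insert s(a, b) E) ρ Φ =
    Z k w E ρ Φ + w s(a, b) / k * Z k w E (jn ρ a b) Φ := by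
  rw [Z_insert he, Z_jn hk h, ← Z_smul, ← Z_add]
  refine Z_congr fun S _ => ?_
  unfold LL
  split_ifs with g
  · rw [ind_pos g, ind_neg (not_not.2 g)]; field_simp; ring
  · rw [ind_pos g, ind_neg g]; ring

theorem Z_loop (he : s(a, b) ∉ E) (h : ρ a b) :
    Z k w (insert s(a, b) E) ρ Φ = (1 - w s(a, b)) * Z k w E ρ Φ := by
  rw [Z_insert he, ← Z_smul]
  exact Z_congr fun S _ => if_pos (le_gen ρ S h)

/-- monotone in the edge set -/
theorem Z_emono (hk : 0 < k) (hw : Wt 0 w E') (hE : E ⊆ E')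
    (h : ∀ a b, s(a, b) ∈ E' → s(a, b) ∉ E → ¬ρ a b) (hΦ : ∀ π, 0 ≤ Φ π) :
    Z k w E ρ Φ ≤ Z k w E' ρ Φ := by
  have key : ∀ D : Finset (Sym2 V), D ⊆ E' \ E → Z k w E ρ Φ ≤ Z k w (D ∪ E) ρ Φ := by
    intro D
    induction D using Finset.induction_on with
    | empty => simp
    | insert e D he ih =>
      induction e using Sym2.ind with | h a b => ?_
      intro hD
      have h1 := mem_sdiff.1 (hD (mem_insert_self _ _))
      have h2 := (subset_insert _ _).trans hD
      rw [insert_union, Z_step hk.ne' (by simp [he, h1.2]) (h a b h1.1 h1.2)]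
      have := mul_nonneg (div_nonneg (hw _ h1.1).2.1 hk.le) (Z_nonneg (ρ := jn ρ a b) hk
        (hw.mono le_rfl (union_subset (h2.trans sdiff_subset) hE)) fun _ _ => hΦ _)
      linarith [ih h2]
  simpa [sdiff_union_of_subset hE] using key _ Subset.rfl

/-- inequality (MI) -/
theorem Z_mi (hk : 0 < k) (hw : Wt 0 w E) (h : ¬ρ a b) (hΦ : ∀ π, 0 ≤ Φ π) :
    k * Z k w E ρ (fun π => ind (π a b) * Φ π) ≤
      Z k w E ρ fun π => ind (¬π a b) * Φ (jn π a b) := by
  have := Z_nonneg (ρ := jn ρ a b) hk hw fun _ _ => hΦ _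
  rw [Z_jn hk.ne' h, Z_sub, Z_smul] at this
  linarith

theorem LL_symm (c : ℝ) : LL k c a b Φ = LL k c b a Φ := by
  funext π
  unfold LL
  rw [jn_comm]
  by_cases h : π a b
  · rw [if_pos h, if_pos (π.symm' h)]
  · rw [if_neg h, if_neg (mt π.symm' h)]

theorem LL_comm (c c' : ℝ) (a' b' : V) :
    LL k c a b (LL k c' a' b' Φ) = LL k c' a' b' (LL k c a b Φ) := by
  funext π
  unfold LL
  by_cases h : π a b <;> by_cases g : π a' b'
  · simp only [h, g, if_true]; ring
  · simp only [h, g, if_true, if_false, le_jn π a' b' h]; ring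
  · simp only [h, g, if_true, if_false, le_jn π a b g]; ring
  · have key : ∀ {a b a' b' : V}, ¬π a' b' → jn π a b a' b' → jn π a' b' a b := by
      rintro a b a' b' g (e | e | e)
      · exact (g e).elim
      · exact Or.inr (Or.inl ⟨π.symm' e.1, π.symm' e.2⟩)
      · exact Or.inr (Or.inr ⟨e.2, e.1⟩)
    by_cases e : jn π a b a' b'
    · have e' := key g e
      have : jn π a b = jn π a' b' :=
        le_antisymm (jn_le (le_jn _ _ _) e') (jn_le (le_jn _ _ _) e)
      simp only [h, g, if_true, if_false, e, e']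
      rw [this]; ring
    · have e' : ¬jn π a' b' a b := mt (key h) e
      simp only [h, g, if_false, e, e']
      rw [jn_jn π a b]; ring

theorem LL_LL (c c' : ℝ) : LL k c a b (LL k c' a b Φ) = LL k (1 - (1 - c) * (1 - c')) a b Φ :=
  by
  funext π
  unfold LL
  by_cases h : π a b
  · simp only [h, if_true]; ring
  · simp only [h, if_false, jn_self, if_true]; ring

theorem ZI_insert {ι : Type} [DecidableEq ι] {en : ι → Sym2 V} (c : ι → ℝ) {F : Finset ι} {d : ι}
    (hd : d ∉ F) (h : en d = s(a, b)) :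
    ∑ S ∈ (insert d F).powerset, (∏ e ∈ S, -c e) * (-k)⁻¹ ^ (rk (gen ρ (S.image en)) - rk ρ) *
      Φ (gen ρ (S.image en)) =
    ∑ S ∈ F.powerset, (∏ e ∈ S, -c e) * (-k)⁻¹ ^ (rk (gen ρ (S.image en)) - rk ρ) *
      LL k (c d) a b Φ (gen ρ (S.image en)) := by
  rw [sum_powerset_insert hd, ← sum_add_distrib]
  refine sum_congr rfl fun S hS => ?_
  rw [prod_insert fun g => hd (mem_powerset.1 hS g), image_insert, h, gen_insert]
  unfold LL
  split_ifs with g
  · rw [jn_of_rel g]; ring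
  · rw [rk_jn g, Nat.sub_add_comm (rk_mono (le_gen ρ _)), pow_succ, inv_neg]; ring

/-- merging parallel edges -/
theorem Z_merge {ι : Type} [DecidableEq ι] (en : ι → Sym2 V) (c : ι → ℝ) (F : Finset ι) :
    ∑ S ∈ F.powerset, (∏ e ∈ S, -c e) * (-k)⁻¹ ^ (rk (gen ρ (S.image en)) - rk ρ) *
      Φ (gen ρ (S.image en)) =
    Z k (fun s => 1 - ∏ e ∈ F.filter (fun e => en e = s), (1 - c e)) (F.image en) ρ Φ := by
  induction F using Finset.induction_on generalizing Φ with
  | empty => simp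
  | insert d F hd ih =>
    induction h : en d using Sym2.ind with | h a b => ?_
    rw [ZI_insert c hd h, ih, image_insert, h]
    have e1 : ∀ s, s ≠ s(a, b) →
        (insert d F).filter (fun e => en e = s) = F.filter (fun e => en e = s) := fun s hs => by
      rw [filter_insert, if_neg (h ▸ hs.symm)]
    have e2 : ∏ e ∈ (insert d F).filter (fun e => en e = s(a, b)), (1 - c e) =
        (1 - c d) * ∏ e ∈ F.filter (fun e => en e = s(a, b)), (1 - c e) := by
      rw [filter_insert, if_pos h, prod_insert fun g => hd (mem_filter.1 g).1]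
    by_cases g : s(a, b) ∈ F.image en
    · rw [insert_eq_of_mem g, ← insert_erase g, Z_insert (notMem_erase _ _),
        Z_insert (notMem_erase _ _), LL_LL, e2]
      simp only [sub_sub_cancel, mul_comm (1 - c d)]
      exact Z_wcongr fun s hs => by rw [e1 s (mem_erase.1 hs).1]
    · rw [Z_insert g, e2, filter_eq_empty_iff.2 fun e he e' => g (mem_image.2 ⟨e, he, e'⟩)]
      simp only [prod_empty, mul_one, sub_sub_cancel]
      exact Z_wcongr fun s hs => by rw [e1 s fun e' => g (e' ▸ hs)]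

theorem ZM_eq (t : ℝ) (en : ℕ → Sym2 V) (F : Finset ℕ) :
    ZM k (1 - t) en F Φ = Z k (wt t (mlt en F)) (F.image en) ⊥ Φ := by
  have := Z_merge (k := k) (ρ := ⊥) (Φ := Φ) en (fun _ => 1 - t) F
  simp only [prod_const, rk_bot, Nat.sub_zero, sub_sub_cancel] at this
  exact this

theorem ZM_insert {c : ℝ} {en : ℕ → Sym2 V} {F : Finset ℕ} {e : ℕ} (he : e ∉ F)
    (h : en e = s(a, b)) : ZM k c en (insert e F) Φ = ZM k c en F (LL k c a b Φ) := by
  have := ZI_insert (k := k) (ρ := ⊥) (Φ := Φ) (fun _ => c) he h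
  simp only [prod_const, rk_bot, Nat.sub_zero] at this
  exact this

/-! ### events -/

theorem sep_pair0 (h : a ≠ b) (π : Setoid V) : Sep {a, b} ∅ π ↔ ¬π a b := by
  simp only [Sep, mem_insert, mem_singleton, notMem_empty, and_self, or_false]
  refine ⟨fun g e => h ((g a (Or.inl rfl) b (Or.inr rfl)).1 e), fun g => ?_⟩
  rintro c (rfl | rfl) d (rfl | rfl)
  · simp
  · simp [g, h]
  · exact ⟨fun e => (g (π.symm' e)).elim, fun e => (h e.symm).elim⟩
  · simp

theorem sep_pair1 (π : Setoid V) : Sep {a, b} {a, b} π ↔ π a b := by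
  simp only [Sep, mem_insert, mem_singleton]
  refine ⟨fun g => (g a (Or.inl rfl) b (Or.inr rfl)).2 (by simp), fun g => ?_⟩
  rintro c (rfl | rfl) d (rfl | rfl)
  · simp
  · simp [g]
  · simp [π.symm' g]
  · simp

theorem mu_nonneg (hk : 0 < k) (hw : Wt 0 w E) (W B : Finset V) : 0 ≤ mu k w E W B :=
  Z_nonneg hk hw fun _ _ => ind_nonneg _

theorem one_le_mu (hk : 0 < k) (hw : Wt 0 w E) (W : Finset V) : 1 ≤ mu k w E W ∅ := by
  have := Z_emono (ρ := ⊥) (Φ := fun π => ind (Sep W ∅ π)) hk hw (empty_subset _)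
    (fun a b h _ e => (hw _ h).1 (Sym2.mk_isDiag_iff.2 e)) fun _ => ind_nonneg _
  rwa [Z_empty, ind_pos (p := Sep W ∅ ⊥) fun a _ b _ => by simp] at this

theorem mu_anti (hk : 0 < k) (hw : Wt 0 w E) (h : W ⊆ W') : mu k w E W' ∅ ≤ mu k w E W ∅ := 
  Z_mono hk hw fun _ _ => ind_mono fun g a ha b hb => g a (h ha) b (h hb)

theorem nu_eq (hk : k ≠ 0) (ha : a ∈ W) (hb : b ∈ W) (h : a ≠ b) :
    nu k w E W a b = Z k w E (jn ⊥ a b) fun π => ind (Sep W {a, b} π) := by
  rw [Z_jn hk h, Z_sub, Z_smul, nu]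
  congr 2
  · refine Z_congr fun S _ => ?_
    generalize gen ⊥ S = π
    by_cases g : π a b
    · rw [ind_neg (not_not.2 g), ind_neg fun e => h (by simpa using (e a ha b hb).1 g), zero_mul]
    · rw [ind_pos g, one_mul]
      refine ind_congr ⟨fun e c hc d hd => ?_, fun e c hc d hd => ?_⟩
      · have e1 : ∀ c ∈ W, ∀ d ∈ W, π c d ↔ c = d := by simpa [Sep] using e
        simp only [jn_iff, e1 c hc d hd, e1 c hc a ha, e1 c hc b hb, e1 a ha d hd, e1 b hb d hd,
          mem_insert, mem_singleton]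
        grind
      · refine ⟨fun e1 => ?_, fun e1 => by simp at e1; rw [e1]⟩
        have := (e c hc d hd).1 (le_jn _ _ _ e1)
        simp only [mem_insert, mem_singleton] at this
        rcases this with e2 | ⟨rfl | rfl, rfl | rfl⟩
        · exact Or.inl e2
        · exact Or.inl rfl
        · exact (g e1).elim
        · exact (g (π.symm' e1)).elim
        · exact Or.inl rfl
  · refine Z_congr fun S _ => ?_
    generalize gen ⊥ S = π
    by_cases g : π a b
    · rw [ind_pos g, one_mul]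
    · rw [ind_neg g, zero_mul, ind_neg fun e => g ((e a ha b hb).2 (by simp))]

theorem nu_nonneg (hk : 0 < k) (hw : Wt 0 w E) (ha : a ∈ W) (hb : b ∈ W) (h : a ≠ b) :
    0 ≤ nu k w E W a b := by
  rw [nu_eq hk.ne' ha hb h]
  exact Z_nonneg hk hw fun _ _ => ind_nonneg _

theorem mi2 (hk : 0 < k) (hw : Wt 0 w E) (ha : a ∈ W) (hb : b ∈ W) (h : a ≠ b) :
    k * mu k w E W {a, b} ≤ mu k w E W ∅ := 
  sub_nonneg.1 (nu_nonneg hk hw ha hb h)

theorem ind_or (p q : Prop) : ind (p ∨ q) ≤ ind p + ind q := by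
  by_cases hp : p
  · rw [ind_pos hp]; linarith [ind_le_one (p ∨ q), ind_nonneg q]
  · rw [ind_neg hp, zero_add]; exact ind_mono fun h => h.resolve_left hp

/-- (MI) for events -/
theorem mi_ev (hk : 0 < k) (hw : Wt 0 w E) (h : a ≠ b) {P Q : Setoid V → Prop}
    (h1 : ∀ π, P π → π a b) (h2 : ∀ π : Setoid V, ¬π a b → P (jn π a b) → Q π) :
    k * Z k w E ⊥ (fun π => ind (P π)) ≤ Z k w E ⊥ fun π => ind (Q π) := by
  have := Z_mi (ρ := ⊥) (Φ := fun π => ind (P π)) hk hw h fun _ => ind_nonneg _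
  rw [Z_congr (Ψ := fun π => ind (P π)) fun S _ => by
    by_cases g : P (gen ⊥ S)
    · rw [ind_pos (h1 _ g), one_mul]
    · rw [ind_neg g, mul_zero]] at this
  refine this.trans (Z_mono hk hw fun S _ => ?_)
  by_cases g : gen ⊥ S a b
  · rw [ind_neg (not_not.2 g), zero_mul]; exact ind_nonneg _
  · rw [ind_pos g, one_mul]; exact ind_mono (h2 _ g)

theorem Z_or (hk : 0 < k) (hw : Wt 0 w E) (P Q : Setoid V → Prop) :
    Z k w E ρ (fun π => ind (P π ∨ Q π)) ≤
      Z k w E ρ (fun π => ind (P π)) + Z k w E ρ fun π => ind (Q π) := by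
  rw [← Z_add]
  exact Z_mono hk hw fun _ _ => ind_or _ _

theorem mi3 (hk : 0 < k) (hw : Wt 0 w E) {x y : V} (hx : x ∈ W) (ha : a ∈ W) (hy : y ∈ W)
    (h1 : x ≠ a) (h2 : x ≠ y) (h3 : a ≠ y) :
    k * mu k w E W {x, a, y} ≤ mu k w E W {x, y} + mu k w E W {a, y} := by
  refine (mi_ev hk hw h1 (fun π g => (g x hx a ha).2 (by simp)) fun π g e => ?_).trans
    (Z_or hk hw _ _)
  have hs := @π.symm'
  have ht := @π.trans'
  have hr := π.refl'
  have e1 := (e y hy x hx).2 (by simp)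
  have e2 := fun c hc d hd (r : π c d) => (e c hc d hd).1 (le_jn _ _ _ r)
  simp only [jn_iff, mem_insert, mem_singleton] at e1 e2
  simp only [Sep, mem_insert, mem_singleton]
  by_cases r : π x y
  · left; grind
  · right; grind

theorem mi22 (hk : 0 < k) (hw : Wt 0 w E) {x y : V} (hx : x ∈ W) (ha : a ∈ W) (h1 : x ≠ a)
    (h2 : x ≠ b) (h3 : x ≠ y) (h4 : a ≠ b) (h5 : a ≠ y) :
    k * Z k w E ⊥ (fun π => ind (Sep2 W {x, a} {b, y} π)) ≤ mu k w E W {b, y} := by
  refine mi_ev hk hw h1 (fun π g => (g x hx a ha).2 (by simp)) fun π g e => ?_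
  have hs := @π.symm'
  have ht := @π.trans'
  have hr := π.refl'
  simp only [Sep2, jn_iff, mem_insert, mem_singleton] at e
  simp only [Sep, mem_insert, mem_singleton]
  intro c hc d hd
  have := e c hc d hd
  have := e c hc x hx
  have := e c hc a ha
  grind

theorem mi4 (hk : 0 < k) (hw : Wt 0 w E) {x y : V} (hx : x ∈ W) (ha : a ∈ W) (hb : b ∈ W)
    (hy : y ∈ W) (h1 : x ≠ a) (h2 : x ≠ b) (h3 : x ≠ y) (h4 : a ≠ b) (h5 : a ≠ y) (h6 : b ≠ y) :
    k ^ 2 * mu k w E W {x, a, b, y} ≤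
      2 * (mu k w E W {x, y} + mu k w E W {a, y} + mu k w E W {b, y}) := by
  have := mi_ev (P := Sep W {x, a, b, y}) (Q := fun π => (Sep W {a, b, y} π ∨ Sep W {x, b, y} π) ∨
      Sep2 W {x, b} {a, y} π ∨ Sep2 W {a, b} {x, y} π) hk hw h1
    (fun π g => (g x hx a ha).2 (by simp)) fun π g e => by
      have hs := @π.symm'
      have ht := @π.trans'
      have hr := π.refl'
      have e1 := (e y hy x hx).2 (by simp)
      have e3 := (e b hb x hx).2 (by simp)
      have e2 := fun c hc d hd (r : π c d) => (e c hc d hd).1 (le_jn _ _ _ r)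
      simp only [jn_iff, mem_insert, mem_singleton] at e1 e2 e3
      simp only [Sep, Sep2, mem_insert, mem_singleton]
      by_cases r : π x y <;> by_cases r' : π x b
      · left; right; grind
      · right; right; grind
      · right; left; grind
      · left; left; grind
  have a1 := mul_le_mul_of_nonneg_left (this.trans ((Z_or hk hw _ _).trans
    (add_le_add (Z_or hk hw _ _) (Z_or hk hw _ _)))) hk.le
  have a2 := mi3 hk hw ha hb hy h4 h5 h6
  have a3 := mi3 hk hw hx hb hy h2 h3 h6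
  have a4 := mi22 hk hw hx hb h2 h1 h3 h4.symm h6
  have a5 := mi22 hk hw ha hb h4 h1.symm h5 h2.symm h6
  unfold mu at *
  nlinarith

/-- one more terminal -/
theorem mu_add {z : V} (hz : z ∉ W) : mu k w E W ∅ =
    mu k w E (insert z W) ∅ + ∑ a ∈ W, mu k w E (insert z W) {z, a} := by
  unfold mu
  rw [← Z_sum, ← Z_add]
  refine Z_congr fun S _ => ?_
  generalize gen ⊥ S = π
  have hs := @π.symm'
  have ht := @π.trans'
  have hr := π.refl'
  by_cases h : Sep W ∅ π
  · rw [ind_pos h]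
    simp only [Sep, notMem_empty, and_self, or_false] at h
    by_cases g : ∃ a ∈ W, π z a
    · obtain ⟨a, ha, g⟩ := g
      rw [ind_neg, sum_eq_single_of_mem a ha fun c hc e => ind_neg ?_, ind_pos, zero_add]
      · simp only [Sep, mem_insert, mem_singleton]; grind
      · intro e'
        have := (e' z (by simp) c (by simp [hc])).2 (by simp)
        grind
      · intro e'
        have := (e' z (by simp) a (by simp [ha])).1 g
        grind
    · rw [ind_pos, sum_eq_zero fun c hc => ind_neg fun e' =>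
        g ⟨c, hc, (e' z (by simp) c (by simp [hc])).2 (by simp)⟩, add_zero]
      simp only [Sep, mem_insert]; grind
  · rw [ind_neg h, ind_neg fun e => h fun c hc d hd => e c (by simp [hc]) d (by simp [hd]),
      sum_eq_zero fun c hc => ind_neg fun e => h fun c' hc' d hd => ?_, add_zero]
    have := e c' (by simp [hc']) d (by simp [hd])
    simp only [mem_insert, mem_singleton] at this
    grind

theorem mu_le_insert (hk : 0 < k) (hw : Wt 0 w E) (z : V) :
    mu k w E W ∅ ≤ (1 + W.card / k) * mu k w E (insert z W) ∅ := by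
  by_cases hz : z ∈ W
  · rw [insert_eq_of_mem hz]
    have := mul_nonneg (div_nonneg (Nat.cast_nonneg W.card) hk.le) (mu_nonneg hk hw W ∅)
    linarith
  · have : ∑ a ∈ W, mu k w E (insert z W) {z, a} ≤ ∑ _a ∈ W, mu k w E (insert z W) ∅ / k :=
      sum_le_sum fun a ha => by
        rw [le_div_iff₀' hk]
        exact mi2 hk hw (by simp) (by simp [ha]) fun e => hz (e ▸ ha)
    rw [sum_const, nsmul_eq_mul] at this
    rw [mu_add hz]
    calc _ ≤ mu k w E (insert z W) ∅ + W.card * (mu k w E (insert z W) ∅ / k) := by linarith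
      _ = _ := by ring

/-- an edge between terminals which are to be separated does not matter -/
theorem mu_unaff {B : Finset V} (he : s(a, b) ∉ E) (ha : a ∈ W) (hb : b ∈ W) (h : a ≠ b)
    (hB : ¬(a ∈ B ∧ b ∈ B)) : mu k w (insert s(a, b) E) W B = mu k w E W B := by
  unfold mu
  rw [Z_insert he]
  refine Z_congr fun S _ => ?_
  have key : ∀ π : Setoid V, π a b → ind (Sep W B π) = 0 := fun π g =>
    ind_neg fun e => ((e a ha b hb).1 g).elim h hB
  unfold LL
  beta_reduce
  split_ifs with g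
  · rw [key _ g, mul_zero]
  · rw [key _ (jn_self _ _ _), mul_zero, add_zero]

/-- an edge multiplies the separate mass by at most `1 + 1 / k` -/
theorem mu_insert_le (hk : 0 < k) (hw : Wt 0 w (insert s(a, b) E)) (he : s(a, b) ∉ E) :
    mu k w (insert s(a, b) E) W ∅ ≤ (1 + 1 / k) * mu k w E W ∅ := by
  unfold mu
  rw [Z_insert he, ← Z_smul]
  refine Z_mono hk (hw.mono le_rfl (subset_insert _ _)) fun S _ => ?_
  generalize gen ⊥ S = π
  have h1 := hw _ (mem_insert_self _ _)
  have h2 := ind_nonneg (Sep W ∅ π)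
  have h3 : 0 < 1 / k := by positivity
  unfold LL
  split_ifs with g
  · nlinarith [h1.2.1]
  · have h4 : ind (Sep W ∅ (jn π a b)) ≤ ind (Sep W ∅ π) := ind_mono fun e c hc d hd =>
      ⟨fun r => (e c hc d hd).1 (le_jn _ _ _ r), fun r => by simp at r; rw [r]⟩
    have := mul_le_mul (div_le_div_of_nonneg_right h1.2.2 hk.le) h4 (ind_nonneg _) h3.le
    linarith

end Pool.Agent.P.MP_833722_gt.TG
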