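import Pool.Agent.P.MP_833722_gt.TG.Base

/-! The cut case with an edge at the terminal: reduction to the estimates. -/

set_option autoImplicit false

namespace Pool.Agent.P.MP_833722_gt.TG

open Finset

theorem cc1_q {t : ℝ} (h0 : 0 < t) (h1 : t ≤ 1 / 100) : (kk t + 1) * t ^ 2 ≤ t := by
  have : (kk t + 1) * t ^ 2 = t * ((1 - t) ^ 2 + t) := by unfold kk; field_simp
  rw [this]
  have h2 : (1 - t) ^ 2 + t ≤ 1 := by nlinarith
  nlinarith

theorem cc1_r0 {t P M : ℝ} (h0 : 0 < t) (h1 : t ≤ 1 / 100) (hM : 1 ≤ M) (hP : P ≤ M) :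
    (kk t + 1) * (0 + t ^ 2 * P) / M ≤ 2 * t := by
  have hq := cc1_q h0 h1
  have hk := (kk_small h0 h1).2.2.2.1
  rw [div_le_iff₀ (by linarith)]
  have h2 : (kk t + 1) * t ^ 2 * P ≤ (kk t + 1) * t ^ 2 * M :=
    mul_le_mul_of_nonneg_left hP (by positivity)
  have h3 : (kk t + 1) * t ^ 2 * M ≤ t * M := mul_le_mul_of_nonneg_right hq (by linarith)
  nlinarith

theorem cc1_r1 {t P₁ P₂ R M : ℝ} (h0 : 0 < t) (h1 : t ≤ 1 / 100) (hM : 1 ≤ M) (hP : 0 ≤ P₂)
    (e1 : kk t * P₁ ≤ R) (e2 : kk t * R ≤ M) (e3 : kk t * P₂ ≤ M) :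
    (kk t + 1) * (P₁ + t ^ 2 * P₂) / M ≤ 2 * t := by
  have hq := cc1_q h0 h1
  obtain ⟨-, k1, k2, k3, -⟩ := kk_small h0 h1
  have hk : 0 < kk t := by linarith
  rw [div_le_iff₀ (by linarith)]
  have a1 : P₁ ≤ 1 / kk t ^ 2 * M := by
    rw [one_div, ← div_eq_inv_mul, le_div_iff₀ (by positivity)]
    have := mul_le_mul_of_nonneg_left e1 hk.le
    nlinarith
  have a2 : (kk t + 1) * P₁ ≤ (1 / kk t + 1 / kk t ^ 2) * M := by
    have := mul_le_mul_of_nonneg_left a1 (show 0 ≤ kk t + 1 by linarith)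
    refine this.trans (le_of_eq ?_)
    field_simp
  have a3 : (1 / kk t + 1 / kk t ^ 2) * M ≤ 11 / 10 * t * M :=
    mul_le_mul_of_nonneg_right (by nlinarith) (by linarith)
  have a4 : (kk t + 1) * t ^ 2 * P₂ ≤ t * P₂ := mul_le_mul_of_nonneg_right hq hP
  have a5 : 98 * P₂ ≤ M := (mul_le_mul_of_nonneg_right k3 hP).trans e3
  have a6 : t * (98 * P₂) ≤ t * M := mul_le_mul_of_nonneg_left a5 h0.le
  have a7 : 0 ≤ t * M := by positivity
  nlinarith

theorem cc1_r2 {t P₁ P₂ M M' : ℝ} (h0 : 0 < t) (h1 : t ≤ 1 / 100) (hM : 1 ≤ M') (h₁ : 0 ≤ P₁)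
    (h₂ : 0 ≤ P₂) (hP : P₂ ≤ M) (e1 : M' ≤ M) (e2 : M ≤ 4 * M') :
    kk t * P₁ / M' / 4 ≤ (kk t + 1) * (P₁ + t ^ 2 * P₂) / M ∧
      (kk t + 1) * (P₁ + t ^ 2 * P₂) / M ≤ 2 * (kk t * P₁ / M') + 2 * t := by
  have hk := (kk_small h0 h1).2.2.2.1
  have hM' : 1 ≤ M := hM.trans e1
  constructor
  · rw [div_div]
    refine div_le_div₀ (by positivity) ?_ (by linarith) (by linarith)
    have : 0 ≤ (kk t + 1) * (t ^ 2 * P₂) := by positivity
    nlinarith
  · have a1 := cc1_r0 h0 h1 hM' hP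
    have a2 : (kk t + 1) * P₁ / M ≤ 2 * (kk t * P₁ / M') := by
      rw [← mul_div_assoc]
      refine div_le_div₀ (by positivity) ?_ (by linarith) e1
      nlinarith
    rw [zero_add] at a1
    rw [mul_add, add_div]
    linarith

variable {V : Type} [Fintype V] [DecidableEq V]

omit [Fintype V] in
theorem cc1_sep3 (π : Setoid V) {x y z : V} (hxz : x ≠ z) (hyz : y ≠ z) :
    Sep {x, y, z} {x, y} π ↔ π x y ∧ ¬π y z := by
  constructor
  · intro h
    refine ⟨(h x (by simp) y (by simp)).2 (Or.inr ⟨by simp, by simp⟩), fun g => ?_⟩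
    have := (h y (by simp) z (by simp)).1 g
    simp [hyz, hxz.symm, hyz.symm] at this
  · rintro ⟨h1, h2⟩ a ha b hb
    have h3 := π.symm' h1
    have h4 : ¬π z y := fun g => h2 (π.symm' g)
    have h5 : ¬π x z := fun g => h2 (π.trans' h3 g)
    have h6 : ¬π z x := fun g => h5 (π.symm' g)
    have h7 := hxz.symm
    have h8 := hyz.symm
    simp only [mem_insert, mem_singleton] at ha hb ⊢
    rcases ha with ha | ha | ha <;> rcases hb with hb | hb | hb <;> rw [ha, hb] <;>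
      simp [h1, h2, h3, h4, h5, h6, h7, h8, hxz, hyz]

omit [Fintype V] in
theorem cc1_sep3' (π : Setoid V) {x y z : V} (hxy : x ≠ y) (hyz : y ≠ z) :
    Sep {x, y, z} {x, z} π ↔ π x z ∧ ¬π y z := by
  rw [pair_comm y z, cc1_sep3 π hxy hyz.symm]
  exact and_congr_right fun _ => not_congr ⟨π.symm', π.symm'⟩

omit [Fintype V] in
theorem cc1_sep4 (π : Setoid V) {x a y z : V} (hxy : ¬π x y) (hxz : ¬π x z) (hay : ¬π a y)
    (haz : ¬π a z) (hyz : y ≠ z) : Sep {x, a, y, z} {x, a} π ↔ π x a ∧ ¬π y z := by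
  have n1 : x ≠ y := fun e => hxy (e ▸ π.refl' x)
  have n2 : x ≠ z := fun e => hxz (e ▸ π.refl' x)
  have n3 : a ≠ y := fun e => hay (e ▸ π.refl' a)
  have n4 : a ≠ z := fun e => haz (e ▸ π.refl' a)
  constructor
  · intro h
    refine ⟨(h x (by simp) a (by simp)).2 (Or.inr ⟨by simp, by simp⟩), fun g => ?_⟩
    have := (h y (by simp) z (by simp)).1 g
    simp [hyz, n1.symm, n3.symm] at this
  · rintro ⟨h1, h2⟩ p hp q hq
    have h3 := π.symm' h1
    have h4 : ¬π z y := fun g => h2 (π.symm' g)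
    have h5 : ¬π y x := fun g => hxy (π.symm' g)
    have h6 : ¬π z x := fun g => hxz (π.symm' g)
    have h7 : ¬π y a := fun g => hay (π.symm' g)
    have h8 : ¬π z a := fun g => haz (π.symm' g)
    simp only [mem_insert, mem_singleton] at hp hq ⊢
    rcases hp with hp | hp | hp | hp <;> rcases hq with hq | hq | hq | hq <;> rw [hp, hq] <;>
      simp [h1, h2, h3, h4, h5, h6, h7, h8, hxy, hxz, hay, haz, hyz, hyz.symm, n1, n2, n3, n4,
        n1.symm, n2.symm, n3.symm, n4.symm]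

/-- the pointwise identity -/
theorem cc1_pt {t : ℝ} (h0 : 0 < t) (h1 : t < 1) {x y z : V} (hxy : x ≠ y) (hxz : x ≠ z)
    (hyz : y ≠ z) (π : Setoid V) :
    (1 - t) ^ 2 * (t / (1 - t) * LL (kk t) (1 - t) x z (fun π => ind ¬π x y) π -
      t⁻¹ * LL (kk t) (1 - t) x z (fun π => ind (π x y)) π) =
    t * (ind (Sep {y, z} ∅ π) - kk t * ind (Sep {y, z} {y, z} π)) -
      (kk t + 1) * (ind (Sep {x, y, z} {x, y} π) + t ^ 2 * ind (Sep {x, y, z} {x, z} π)) := by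
  rw [ind_congr (sep_pair0 hyz π), ind_congr (sep_pair1 π), ind_congr (cc1_sep3 π hxz hyz),
    ind_congr (cc1_sep3' π hxy hyz)]
  have hj : jn π x z x y ↔ π x y ∨ π y z := by
    rw [jn_iff]
    constructor
    · rintro (g | g | g)
      exacts [Or.inl g, Or.inr (π.symm' g.2), Or.inl g.2]
    · rintro (g | g)
      exacts [Or.inl g, Or.inr (Or.inl ⟨π.refl' x, π.symm' g⟩)]
  have hu : 1 - t ≠ 0 := by linarith
  have ht := h0.ne'
  unfold LL
  by_cases a : π x z <;> by_cases b : π x y <;> by_cases c : π y z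
  · simp [ind, a, b, c, kk]; field_simp
  · exact absurd (π.trans' (π.symm' b) a) c
  · exact absurd (π.trans' a (π.symm' c)) b
  · simp [ind, a, b, c, kk]; field_simp; ring
  · exact absurd (π.trans' b c) a
  · simp [ind, a, b, c, kk, hj]; field_simp; ring
  · simp [ind, a, b, c, kk, hj]; field_simp; ring
  · simp [ind, a, b, c, kk, hj]; field_simp; ring

theorem cc1_id {t : ℝ} (h0 : 0 < t) (h1 : t < 1) {x y z : V} (hxy : x ≠ y) (hxz : x ≠ z)
    (hyz : y ≠ z) (w : Sym2 V → ℝ) (E : Finset (Sym2 V)) :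
    (1 - t) ^ 2 * (t / (1 - t) * Z (kk t) w E ⊥ (LL (kk t) (1 - t) x z fun π => ind ¬π x y) -
      Z (kk t) w E ⊥ (LL (kk t) (1 - t) x z fun π => ind (π x y)) / t) =
    t * nu (kk t) w E {y, z} y z - (kk t + 1) *
      (mu (kk t) w E {x, y, z} {x, y} + t ^ 2 * mu (kk t) w E {x, y, z} {x, z}) := by
  have := congrArg (Z (kk t) w E ⊥) (funext (cc1_pt h0 h1 hxy hxz hyz))
  simp only [Z_smul, Z_sub, Z_add] at this
  rw [div_eq_inv_mul _ t]
  exact this

omit [Fintype V] [DecidableEq V] in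
theorem cc1_cross {σ π : Setoid V} {x y p q : V} (hs : ¬σ x y) (hπ : π ≤ σ) (hp : σ x p)
    (hq : σ y q) : ¬π p q := fun g => hs (σ.trans' hp (σ.trans' (hπ g) (σ.symm' hq)))

variable {k : ℝ} {w : Sym2 V → ℝ} {H : Finset (Sym2 V)}

theorem cc1_congr {Φ Ψ : Setoid V → ℝ} (h : ∀ π, π ≤ gen ⊥ H → Φ π = Ψ π) :
    Z k w H ⊥ Φ = Z k w H ⊥ Ψ := Z_congr fun _ hS => h _ (gen_mono le_rfl hS)

theorem cc1_le (hk : 0 < k) (hw : Wt 0 w H) {p q : Setoid V → Prop}
    (h : ∀ π, π ≤ gen ⊥ H → p π → q π) :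
    Z k w H ⊥ (fun π => ind (p π)) ≤ Z k w H ⊥ fun π => ind (q π) :=
  Z_mono hk hw fun _ hS => ind_mono (h _ (gen_mono le_rfl hS))

theorem cc1_mi (hk : 0 < k) (hw : Wt 0 w H) {a b : V} (hab : a ≠ b) {p q : Setoid V → Prop}
    (h : ∀ π, π ≤ gen ⊥ H → p (jn π a b) → q π) :
    k * Z k w H ⊥ (fun π => ind (π a b ∧ p π)) ≤ Z k w H ⊥ fun π => ind (q π) := by
  have h1 := Z_mi (ρ := ⊥) (Φ := fun π => ind (p π)) hk hw (a := a) (b := b) hab
    fun _ => ind_nonneg _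
  have e : (fun π : Setoid V => ind (π a b ∧ p π)) = fun π => ind (π a b) * ind (p π) := by
    funext π
    by_cases g : π a b <;> by_cases g' : p π <;> simp [ind, g, g']
  rw [e]
  refine h1.trans (Z_mono hk hw fun S hS => ?_)
  have h2 := ind_mono (h _ (gen_mono le_rfl hS))
  have h3 := ind_le_one (¬gen ⊥ S a b)
  have h4 := ind_nonneg (p (jn (gen ⊥ S) a b))
  nlinarith

theorem cc1_ins {a b : V} (hs : ¬gen ⊥ H a b) (Φ : Setoid V → ℝ) :
    Z k w (insert s(a, b) H) ⊥ Φ =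
      Z k w H ⊥ fun π => Φ π + w s(a, b) / k * Φ (jn π a b) := by
  rw [Z_insert fun g => hs (gen_edge _ g)]
  exact cc1_congr fun π hπ => if_neg fun g => hs (hπ g)

variable {x y z a v : V}

theorem cc1_m0 (hs : ¬gen ⊥ H x y) (ha : gen ⊥ H x a) (hz : gen ⊥ H y z) (hv : gen ⊥ H y v)
    (hyz : y ≠ z) : mu k w (insert s(a, v) H) {y, z} ∅ =
      (1 + w s(a, v) / k) * Z k w H ⊥ fun π => ind ¬π y z := by
  rw [mu, cc1_ins (cc1_cross hs le_rfl ha hv), ← Z_smul]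
  refine cc1_congr fun π hπ => ?_
  have n1 := cc1_cross hs hπ ha ((gen ⊥ H).refl' y)
  have n2 := cc1_cross hs hπ ha hz
  have e : ¬jn π a v y z ↔ ¬π y z := not_congr ⟨fun g => g.elim id fun g =>
    g.elim (fun g => absurd (π.symm' g.1) n1) fun g => absurd g.2 n2, Or.inl⟩
  rw [ind_congr (sep_pair0 hyz _), ind_congr (sep_pair0 hyz _), ind_congr e]
  ring

theorem cc1_m1 (hs : ¬gen ⊥ H x y) (ha : gen ⊥ H x a) (hz : gen ⊥ H y z) (hv : gen ⊥ H y v)
    {q : V} (hq : gen ⊥ H y q) :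
    Z k w (insert s(a, v) H) ⊥ (fun π => ind (π x q ∧ ¬π y z)) =
      w s(a, v) / k * Z k w H ⊥ fun π => ind (π x a ∧ π v q ∧ ¬π y z) := by
  rw [cc1_ins (cc1_cross hs le_rfl ha hv), ← Z_smul]
  refine cc1_congr fun π hπ => ?_
  have n1 := cc1_cross hs hπ ha ((gen ⊥ H).refl' y)
  have n2 := cc1_cross hs hπ ha hz
  have n3 := cc1_cross hs hπ ((gen ⊥ H).refl' x) hq
  have n4 := cc1_cross hs hπ ((gen ⊥ H).refl' x) hv
  have e : ¬jn π a v y z ↔ ¬π y z := not_congr ⟨fun g => g.elim id fun g =>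
    g.elim (fun g => absurd (π.symm' g.1) n1) fun g => absurd g.2 n2, Or.inl⟩
  have e' : jn π a v x q ↔ π x a ∧ π v q := ⟨fun g => g.elim (fun g => absurd g n3) fun g =>
    g.elim id fun g => absurd g.1 n4, fun g => Or.inr (Or.inl g)⟩
  rw [ind_neg fun g => n3 g.1, zero_add, ind_congr ((and_congr e' e).trans and_assoc)]

theorem cc1_Oc {t : ℝ} (h0 : 0 < t) (h1 : t < 1) {m : Sym2 V → ℕ} (hm : m s(a, v) = 1)
    (hs : ¬gen ⊥ H x y) (ha : gen ⊥ H x a) (hz : gen ⊥ H y z) (hv : gen ⊥ H y v) (hyz : y ≠ z) :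
    Oc t m (insert s(a, v) H) x y z = (kk t + 1) *
      (Z (kk t) (wt t m) H ⊥ (fun π => ind (π x a ∧ π v y ∧ ¬π y z)) +
        t ^ 2 * Z (kk t) (wt t m) H ⊥ fun π => ind (π x a ∧ π v z ∧ ¬π y z)) /
      Z (kk t) (wt t m) H ⊥ fun π => ind ¬π y z := by
  have hxy : x ≠ y := fun e => hs (e ▸ (gen ⊥ H).refl' x)
  have hxz : x ≠ z := fun e => hs ((gen ⊥ H).symm' (e ▸ hz))
  have hu : 1 - t ≠ 0 := by linarith
  have ht := h0.ne'
  have hc : wt t m s(a, v) / kk t = t / (1 - t) := by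
    rw [wt, hm, pow_one, kk]; field_simp
  have hc' : 1 + t / (1 - t) = 1 / (1 - t) := by field_simp; ring
  rw [Oc, cc1_m0 hs ha hz hv hyz, mu, mu]
  simp only [cc1_sep3 _ hxz hyz, cc1_sep3' _ hxy hyz]
  rw [cc1_m1 hs ha hz hv ((gen ⊥ H).refl' y), cc1_m1 hs ha hz hv hz, hc, hc']
  field_simp

theorem cc1_alt {m : Sym2 V → ℕ} (mg : Mg m H) (hm : m s(a, v) = 1)
    (hs : ¬gen ⊥ H x y) (ha : gen ⊥ H x a) (hz : gen ⊥ H y z) (hv : gen ⊥ H y v) (hyz : y ≠ z)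
    (n1 : a = x → v ≠ y) (n2 : a = x → s(v, y) ∉ H) (n3 : v = y → s(x, a) ∉ H)
    (c1 : a = x → com H y v ≤ com H y z) (c2 : v = y → com H x a ≤ com H y z) :
    (∀ t : ℝ, 0 < t → t ≤ 1 / 100 → Oc t m (insert s(a, v) H) x y z ≤ 2 * t) ∨
    ∃ (W : Finset V) (g h : V), g ∈ W ∧ h ∈ W ∧ y ∈ W ∧ z ∈ W ∧ W.card ≤ 5 ∧ g ≠ h ∧ g ≠ y ∧
      g ≠ z ∧ s(g, h) ∉ H ∧ com H g h ≤ com H y z ∧ ∀ t : ℝ, 0 < t → t ≤ 1 / 100 →
        om t m H W g h / 4 ≤ Oc t m (insert s(a, v) H) x y z ∧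
          Oc t m (insert s(a, v) H) x y z ≤ 2 * om t m H W g h + 2 * t := by
  have hxy : x ≠ y := fun e => hs (e ▸ (gen ⊥ H).refl' x)
  have hxz : x ≠ z := fun e => hs ((gen ⊥ H).symm' (e ▸ hz))
  have hk : ∀ {t : ℝ}, 0 < t → t ≤ 1 / 100 → 0 < kk t := fun h0 h1 => kk_pos h0 (by linarith)
  have hw : ∀ {t : ℝ}, 0 < t → t ≤ 1 / 100 → Wt 0 (wt t m) H := fun h0 h1 =>
    (mg.wt h0.le (by linarith)).mono (by linarith) Subset.rfl
  have hM : ∀ t : ℝ, (Z (kk t) (wt t m) H ⊥ fun π => ind ¬π y z) =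
      mu (kk t) (wt t m) H {y, z} ∅ := fun t => by simp only [mu, sep_pair0 hyz]
  have h2 : ∀ {t : ℝ}, 0 < t → t ≤ 1 / 100 →
      (Z (kk t) (wt t m) H ⊥ fun π => ind (π x a ∧ π v z ∧ ¬π y z)) ≤
        Z (kk t) (wt t m) H ⊥ fun π => ind ¬π y z := fun h0 h1 =>
    cc1_le (hk h0 h1) (hw h0 h1) fun π _ g => g.2.2
  have hp : ∀ {t : ℝ}, 0 < t → t ≤ 1 / 100 → ∀ p : Setoid V → Prop,
      0 ≤ Z (kk t) (wt t m) H ⊥ fun π => ind (p π) := fun h0 h1 _ =>
    Z_nonneg (hk h0 h1) (hw h0 h1) fun _ _ => ind_nonneg _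
  have hi : ∀ {t : ℝ}, 0 < t → t ≤ 1 / 100 → ∀ (W : Finset V) (q : V), W.card ≤ 3 →
      mu (kk t) (wt t m) H W ∅ ≤ 2 * mu (kk t) (wt t m) H (insert q W) ∅ := by
    intro t h0 h1 W q hW
    refine (mu_le_insert (hk h0 h1) (hw h0 h1) q).trans
      (mul_le_mul_of_nonneg_right ?_ (mu_nonneg (hk h0 h1) (hw h0 h1) _ _))
    have a1 : (W.card : ℝ) ≤ 3 := by exact_mod_cast hW
    have a2 := (kk_small h0 h1).2.2.2.1
    have : (W.card : ℝ) / kk t ≤ 1 := (div_le_one (hk h0 h1)).2 (by linarith)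
    linarith
  by_cases hax : a = x
  · by_cases hvz : v = z
    · refine Or.inl fun t h0 h1 => ?_
      have e : (fun π : Setoid V => ind (π x a ∧ π v y ∧ ¬π y z)) = fun π => 0 * ind True := by
        funext π
        rw [zero_mul, ind_neg fun g => g.2.2 (π.symm' (hvz ▸ g.2.1))]
      rw [cc1_Oc h0 (by linarith) hm hs ha hz hv hyz, e, Z_smul, zero_mul]
      exact cc1_r0 h0 h1 (hM t ▸ one_le_mu (hk h0 h1) (hw h0 h1) _) (h2 h0 h1)
    · refine Or.inr ⟨{v, y, z}, v, y, by simp, by simp, by simp, by simp,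
        card_le_three.trans (by norm_num), n1 hax, n1 hax, hvz, n2 hax,
        (com_comm H v y).trans_le (c1 hax), fun t h0 h1 => ?_⟩
      have e : mu (kk t) (wt t m) H {v, y, z} {v, y} =
          Z (kk t) (wt t m) H ⊥ fun π => ind (π x a ∧ π v y ∧ ¬π y z) := by
        simp only [mu, cc1_sep3 _ hvz hyz, hax, Setoid.refl', true_and]
      have a1 := hi h0 h1 {y, z} v (card_le_two.trans (by norm_num))
      have a2 := one_le_mu (hk h0 h1) (hw h0 h1) {v, y, z}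
      rw [cc1_Oc h0 (by linarith) hm hs ha hz hv hyz, om, e]
      refine cc1_r2 h0 h1 a2 (hp h0 h1 _) (hp h0 h1 _) (h2 h0 h1) ?_ ?_ <;> rw [hM]
      · exact mu_anti (hk h0 h1) (hw h0 h1) (subset_insert _ _)
      · linarith
  · by_cases hvy : v = y
    · refine Or.inr ⟨{x, a, y, z}, x, a, by simp, by simp, by simp, by simp,
        card_le_four.trans (by norm_num), Ne.symm hax, hxy, hxz, n3 hvy, c2 hvy,
        fun t h0 h1 => ?_⟩
      have e : mu (kk t) (wt t m) H {x, a, y, z} {x, a} =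
          Z (kk t) (wt t m) H ⊥ fun π => ind (π x a ∧ π v y ∧ ¬π y z) := by
        refine cc1_congr fun π hπ => ind_congr ?_
        rw [cc1_sep4 π (cc1_cross hs hπ ((gen ⊥ H).refl' x) ((gen ⊥ H).refl' y))
          (cc1_cross hs hπ ((gen ⊥ H).refl' x) hz) (cc1_cross hs hπ ha ((gen ⊥ H).refl' y))
          (cc1_cross hs hπ ha hz) hyz]
        simp only [hvy, Setoid.refl', true_and]
      have a1 := hi h0 h1 {y, z} a (card_le_two.trans (by norm_num))
      have a1' := hi h0 h1 {a, y, z} x card_le_three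
      have a2 := one_le_mu (hk h0 h1) (hw h0 h1) {x, a, y, z}
      rw [cc1_Oc h0 (by linarith) hm hs ha hz hv hyz, om, e]
      refine cc1_r2 h0 h1 a2 (hp h0 h1 _) (hp h0 h1 _) (h2 h0 h1) ?_ ?_ <;> rw [hM]
      · exact mu_anti (hk h0 h1) (hw h0 h1) ((subset_insert _ _).trans (subset_insert _ _))
      · linarith
    · refine Or.inl fun t h0 h1 => ?_
      have hj : ∀ π, π ≤ gen ⊥ H → ∀ p q, gen ⊥ H y p → gen ⊥ H y q → jn π x a p q → π p q :=
        fun π hπ p q hp hq g => g.elim id fun g => g.elim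
          (fun g => absurd (π.symm' g.1) (cc1_cross hs hπ ((gen ⊥ H).refl' x) hp))
          fun g => absurd g.2 (cc1_cross hs hπ ((gen ⊥ H).refl' x) hq)
      rw [cc1_Oc h0 (by linarith) hm hs ha hz hv hyz]
      refine cc1_r1 (R := Z (kk t) (wt t m) H ⊥ fun π => ind (π v y ∧ ¬π y z)) h0 h1
        (hM t ▸ one_le_mu (hk h0 h1) (hw h0 h1) _) (hp h0 h1 _) ?_ ?_ ?_
      · exact cc1_mi (hk h0 h1) (hw h0 h1) (Ne.symm hax) (p := fun π => π v y ∧ ¬π y z)
          fun π hπ g => ⟨hj π hπ _ _ hv ((gen ⊥ H).refl' y) g.1, fun g' => g.2 (Or.inl g')⟩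
      · exact cc1_mi (hk h0 h1) (hw h0 h1) hvy (p := fun π => ¬π y z)
          fun π _ g g' => g (Or.inl g')
      · exact cc1_mi (hk h0 h1) (hw h0 h1) (Ne.symm hax) (p := fun π => π v z ∧ ¬π y z)
          fun π _ g g' => g.2 (Or.inl g')

theorem cc1 (h : PCC2) : PCC := by
  obtain ⟨C, hC⟩ := h
  refine ⟨C, fun V _ _ K hax c1 c2 => ?_⟩
  obtain ⟨H, m, x, y, a₀, z, a, v, mg, hs, ha₀, ha, hz, hv, nadj, ncom, deg1⟩ := K
  dsimp only at hax c1 c2
  subst hax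
  have hav : ¬gen ⊥ H a v := cc1_cross hs le_rfl ha hv
  have hf : s(a, v) ∉ H := fun g => hav (gen_edge _ g)
  have hxy : a₀ ≠ y := fun e => hs (e ▸ (gen ⊥ H).refl' a₀)
  have hxz : a₀ ≠ z := fun e => hs ((gen ⊥ H).symm' (e ▸ hz))
  have hyz : y ≠ z := fun e => nadj (e ▸ mem_insert_self _ _)
  have nc : ∀ q, s(a₀, q) ∈ insert s(a₀, z) (insert s(a, v) H) →
      s(y, q) ∉ insert s(a₀, z) (insert s(a, v) H) := fun q g g' => by
    have : q ∈ nb (insert s(a₀, z) (insert s(a, v) H)) a₀ ∩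
        nb (insert s(a₀, z) (insert s(a, v) H)) y := mem_inter.2 ⟨mem_nb.2 g, mem_nb.2 g'⟩
    rw [card_eq_zero.1 ncom] at this
    exact notMem_empty _ this
  have hm : Function.update m s(a, v) 1 s(a, v) = 1 := Function.update_self ..
  have hm' : ∀ e ∈ H, Function.update m s(a, v) 1 e = m e := fun e he =>
    Function.update_of_ne (fun g : e = s(a, v) => hf (g ▸ he)) ..
  have mg0 : Mg (Function.update m s(a, v) 1) H := fun e he => (hm' e he).symm ▸ mg e he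
  have mg' : Mg (Function.update m s(a, v) 1) (insert s(a, v) H) := fun e he => by
    rcases mem_insert.1 he with g | g
    · rw [g, hm]
      exact ⟨fun d => hav ((Sym2.mk_isDiag_iff.1 d) ▸ (gen ⊥ H).refl' a), le_rfl⟩
    · exact mg0 e g
  refine hC V (Function.update m s(a, v) 1) H (insert s(a, v) H) a₀ y z _ mg' (subset_insert _ _)
    hxy hxz hyz (fun g => nc z (mem_insert_self _ _) (mem_insert_of_mem g))
    (gen_mono le_rfl (subset_insert _ _) hz) ?_ (fun q h1 h2 h3 => ?_) (fun t h0 h1 => ?_) ?_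
  · rw [gen_insert]
    exact Or.inr (Or.inl ⟨ha, (gen ⊥ H).symm' hv⟩)
  · rw [← deg_insert_of_ne (a := a₀) (b := z) h1 h3]
    exact deg1 q h1 h2
  · have h1' : t < 1 := by linarith
    have hw : Wt 0 (wt t (Function.update m s(a, v) 1)) (insert s(a, v) H) :=
      (mg'.wt h0.le h1'.le).mono (by linarith) Subset.rfl
    have hM := one_le_mu (kk_pos h0 h1') hw {y, z}
    have hZ : ∀ Φ : Setoid V → ℝ, Z (kk t) (wt t m) H ⊥
        (LL (kk t) (1 - t) a₀ z (LL (kk t) (1 - t) a v Φ)) =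
        Z (kk t) (wt t (Function.update m s(a, v) 1)) (insert s(a, v) H) ⊥
          (LL (kk t) (1 - t) a₀ z Φ) := fun Φ => by
      rw [Z_insert hf, LL_comm, wt, hm, pow_one]
      exact Z_wcongr fun e he => by rw [wt, wt, hm' e he]
    have e := cc1_id h0 h1' hxy hxz hyz (wt t (Function.update m s(a, v) 1)) (insert s(a, v) H)
    simp only [Cut.B, Cut.Zc, hZ]
    rw [mul_left_comm, e, gen_insert, rk_jn hav, Oc, div_mul_cancel₀ _ (by linarith), mul_assoc]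
    congr 1
    field_simp
  · refine cc1_alt mg0 hm hs ha hz hv hyz (fun e e' => nadj ?_) (fun e g => nc v ?_ ?_)
      (fun e g => nc a ?_ ?_) c1 c2
    · rw [e, e']
      exact mem_insert_of_mem (mem_insert_self _ _)
    · rw [e]
      exact mem_insert_of_mem (mem_insert_self _ _)
    · rw [show s(y, v) = s(v, y) from Sym2.eq_swap]
      exact mem_insert_of_mem (mem_insert_of_mem g)
    · exact mem_insert_of_mem (mem_insert_of_mem g)
    · rw [e, show s(y, a) = s(a, y) from Sym2.eq_swap]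
      exact mem_insert_of_mem (mem_insert_self _ _)

end Pool.Agent.P.MP_833722_gt.TG
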