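import Pool.Agent.P.MP_833722_gt.TG.Base

/-! The cut case with an edge at the terminal: estimates. -/

set_option autoImplicit false

namespace Pool.Agent.P.MP_833722_gt.TG

open Finset
open Real (exp)

theorem cc2_alg {t A B l O c μ ν : ℝ} (h0 : 0 < t) (h1 : t ≤ 1 / 100) (hμ : 0 < μ)
    (hl : l = ν / μ) (hl0 : 0 < l) (hO : 0 ≤ O) (hc : 0 ≤ c) (hA : (1 - t) * A = c * ν)
    (hB : (1 - t) ^ 2 * B = c * t * (ν - O * μ)) :
    ((O ≤ l / 2 ∨ 2 * l ≤ O) → t / 4 * A ≤ |B|) ∧ (O ≤ l / 2 → |B| ≤ 200 * A) := by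
  have e : ν = l * μ := by rw [hl]; field_simp
  have hu : 0 < 1 - t := by linarith
  obtain ⟨D, hD⟩ : ∃ D, D = c * μ / (1 - t) := ⟨_, rfl⟩
  have D0 : 0 ≤ D := by rw [hD]; positivity
  have eA : A = D * l := by
    refine mul_left_cancel₀ hu.ne' ?_
    rw [hA, hD, e]; field_simp
  have eB : (1 - t) * B = t * D * (l - O) := by
    refine mul_left_cancel₀ hu.ne' ?_
    rw [← mul_assoc, ← sq, hB, hD, e]; field_simp
  have a1 : (1 - t) * |B| = t * D * |l - O| := by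
    rw [← abs_of_pos hu, ← abs_mul, eB, abs_mul, abs_of_nonneg (mul_nonneg h0.le D0)]
  have a2 := abs_nonneg B
  have a3 : 0 ≤ t * D := mul_nonneg h0.le D0
  have a4 : 0 ≤ D * l := mul_nonneg D0 hl0.le
  rw [eA]
  refine ⟨fun h => ?_, fun h => ?_⟩
  · have : l / 2 ≤ |l - O| := by
      rcases h with h | h
      · exact le_trans (by linarith) (le_abs_self _)
      · exact le_trans (by linarith) (neg_le_abs _)
    have := mul_le_mul_of_nonneg_left this a3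
    nlinarith [mul_nonneg h0.le a2, mul_nonneg h0.le a4]
  · have : |l - O| ≤ l := abs_le.2 ⟨by linarith, by linarith⟩
    have := mul_le_mul_of_nonneg_left this a3
    nlinarith [mul_nonneg h0.le a2, mul_nonneg h0.le a4]

variable {V : Type} [Fintype V] [DecidableEq V] {m : Sym2 V → ℕ} {H H' : Finset (Sym2 V)}
  {x y z : V} {t : ℝ} {b : ℕ}

theorem cc2_wt (hm : Mg m H) (h0 : 0 < t) (h1 : t ≤ 1 / 100) :
    0 < kk t ∧ Wt (1 - t) (wt t m) H ∧ Wt 0 (wt t m) H :=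
  have h := hm.wt h0.le (by linarith)
  ⟨kk_pos h0 (by linarith), h, h.mono (by linarith) Subset.rfl⟩

theorem cc2_O0 (hm : Mg m H) (h0 : 0 < t) (h1 : t ≤ 1 / 100) : 0 ≤ Oc t m H x y z := by
  obtain ⟨k0, -, w0⟩ := cc2_wt hm h0 h1
  have a1 := mu_nonneg k0 w0 {x, y, z} {x, y}
  have a2 := mu_nonneg k0 w0 {x, y, z} {x, z}
  have a3 := mu_nonneg k0 w0 {y, z} ∅
  unfold Oc
  positivity

theorem cc2_cnt (hH : PHS) (hm : Mg m H) (hX : exc H {y, z} ≤ 2 * b + 1) (v : V)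
    (hv : v ∉ ({y, z} : Finset V)) : cnt H {y, z} v ≤ 4 * b + 4 := by
  have := (hH V H fun e he => (hm e he).1).2.1 _ v hv
  omega

/-- the normalised connection probability in the smaller graph -/
theorem cc2_om (hU : PU) (h2 : PEhi) (hH : PHS) (hm : Mg m H') (hs : H ⊆ H')
    (hX : exc H' {y, z} ≤ 2 * b + 1) {W : Finset V} {g h : V} (hg : g ∈ W) (hh : h ∈ W)
    (hy : y ∈ W) (hz : z ∈ W) (hW : W.card ≤ 5) (n1 : g ≠ h) (n2 : g ≠ y) (n3 : g ≠ z)
    (n4 : s(g, h) ∉ H) (h0 : 0 < t) (h1 : t ≤ 1 / 100) (hb : 200 * (b + 1) * t ^ 2 ≤ 1) :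
    2 * om t m H W g h + 2 * t ≤ 5 * min 1 (com H g h * t) + er 200 b t ∧
      1 - exp (-(com H g h * t / 10) + er 200 b t) ≤ om t m H W g h := by
  obtain ⟨k0, w1, w0⟩ := cc2_wt (hm.mono hs) h0 h1
  obtain ⟨k1, k2, k3, k4, k5⟩ := kk_small h0 h1
  have hW2 : ({y, z} : Finset V) ⊆ W := by
    intro q hq
    rcases mem_insert.1 hq with rfl | hq
    · exact hy
    · rwa [mem_singleton.1 hq]
  have m0 : 0 < mu (kk t) (wt t m) H W ∅ := lt_of_lt_of_le one_pos (one_le_mu k0 w0 W)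
  have b0 : (0 : ℝ) ≤ b := Nat.cast_nonneg b
  have t2 : 0 < t ^ 2 := by positivity
  have p0 : (0 : ℝ) ≤ com H g h := Nat.cast_nonneg _
  have a1 : om t m H W g h ≤ 1 := (div_le_one m0).2 (mi2 k0 w0 hg hh n1)
  have a2 := (div_le_iff₀ m0).2 ((hU V _ _ H k0 w0).1 W g h (4 * b + 4) hg hh n1 n4
    ((cnt_mono hs hW2 g).trans (cc2_cnt hH hm hX g (by simp [n2, n3]))))
  have a3 := h2 V t _ H W g h (2 * b + 1) h0 h1 w1 hg hh n1 hW ((exc_mono hs hW2).trans hX)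
    (by push_cast; linarith)
  unfold er
  constructor
  · have c1 : 2 * (com H g h : ℝ) / kk t ≤ 2 * com H g h * (103 / 100 * t) := by
      rw [div_eq_mul_one_div]; gcongr
    have c2 : 6 * ((4 * b + 4 : ℕ) : ℝ) / kk t ^ 2 ≤ 6 * (4 * b + 4) * (105 / 100 * t ^ 2) := by
      rw [div_eq_mul_one_div]; push_cast; gcongr
    have c3 : om t m H W g h ≤ _ := a2.trans (add_le_add c1 c2)
    have c4 := mul_nonneg b0 t2.le
    have c5 := mul_nonneg p0 h0.le
    push_cast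
    rcases le_total 1 (com H g h * t) with c | c
    · rw [min_eq_left c]; nlinarith
    · rw [min_eq_right c]; nlinarith
  · have c1 : exp (-(com H g h * t / 10) + 2 * t + 4 * ((2 * b + 1 : ℕ) : ℝ) * t ^ 2) ≤
        exp (-(com H g h * t / 10) + (((200 : ℕ) : ℝ) * t + (200 : ℕ) * (b + 1) * t ^ 2)) := by
      refine Real.exp_le_exp.2 ?_
      have c4 := mul_nonneg b0 t2.le
      push_cast; nlinarith
    unfold om
    rw [le_div_iff₀ m0]
    unfold nu at a3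
    nlinarith [mul_le_mul_of_nonneg_right c1 m0.le]

/-- upper bound when the terminal is far -/
theorem cc2_up (hU : PU) (hH : PHS) (hm : Mg m H) (hX : exc H {y, z} ≤ 2 * b + 1)
    (n1 : x ≠ y) (n2 : x ≠ z) {r : ℕ} (hr : ∀ n ≤ 2 * r, ¬Wk H n x y ∧ ¬Wk H n x z)
    (h0 : 0 < t) (h1 : t ≤ 1 / 100) :
    Oc t m H x y z ≤ 200 / t * (200 * (b + 1) * t ^ 2) ^ r := by
  obtain ⟨k0, w1, w0⟩ := cc2_wt hm h0 h1
  obtain ⟨k1, k2, k3, k4, k5⟩ := kk_small h0 h1
  have m0 : 0 < mu (kk t) (wt t m) H {y, z} ∅ := lt_of_lt_of_le one_pos (one_le_mu k0 w0 _)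
  have hs : ({y, z} : Finset V) ⊆ {x, y, z} := subset_insert _ _
  have a0 := mu_anti k0 w0 hs
  have c2 : (6 * ((4 * b + 4 : ℕ) : ℝ) / kk t ^ 2) ^ r ≤ (200 * (b + 1) * t ^ 2) ^ r := by
    refine pow_le_pow_left₀ (by positivity) ?_ r
    have : 6 * ((4 * b + 4 : ℕ) : ℝ) / kk t ^ 2 ≤ 6 * (4 * b + 4) * (105 / 100 * t ^ 2) := by
      rw [div_eq_mul_one_div]; push_cast; gcongr
    have : (0 : ℝ) ≤ (b + 1) * t ^ 2 := by positivity
    nlinarith
  have key : ∀ q, q ∈ ({x, y, z} : Finset V) → (∀ n ≤ 2 * r, ¬Wk H n x q) →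
      kk t * mu (kk t) (wt t m) H {x, y, z} {x, q} ≤
        (200 * (b + 1) * t ^ 2) ^ r * mu (kk t) (wt t m) H {y, z} ∅ := fun q hq h =>
    ((hU V _ _ H k0 w0).2 {y, z} (4 * b + 4) r {x, y, z} x q hs (mem_insert_self _ _) hq
      (cc2_cnt hH hm hX x (by simp [n1, n2])) (cc2_cnt hH hm hX) h).trans
      (mul_le_mul c2 a0 (mu_nonneg k0 w0 _ _) (by positivity))
  have a1 := key y (by simp) fun n hn => (hr n hn).1
  have a2 := key z (by simp) fun n hn => (hr n hn).2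
  have a3 := mu_nonneg k0 w0 {x, y, z} {x, y}
  have a4 := mu_nonneg k0 w0 {x, y, z} {x, z}
  unfold Oc
  rw [div_le_iff₀ m0, div_mul_eq_mul_div, div_mul_eq_mul_div, div_mul_eq_mul_div]
  refine div_le_div_of_nonneg_right ?_ h0.le
  have a5 : 0 ≤ (200 * (b + 1) * t ^ 2) ^ r * mu (kk t) (wt t m) H {y, z} ∅ := by positivity
  generalize mu (kk t) (wt t m) H {x, y, z} {x, y} = c1 at *
  generalize mu (kk t) (wt t m) H {x, y, z} {x, z} = c2 at *
  have a6 : t ^ 2 * c2 ≤ c2 := mul_le_of_le_one_left a4 (by nlinarith)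
  calc _ ≤ 2 * kk t * (c1 + c2) := by gcongr; linarith
    _ ≤ _ := by linarith

/-- lower bound along a shortest path -/
theorem cc2_lo (hL : PL2) (hm : Mg m H) (hX : exc H {y, z} ≤ 2 * b + 1)
    (n1 : x ≠ y) (n2 : x ≠ z) {L : ℕ} (hw : Wk H L x y ∨ Wk H L x z)
    (hr : ∀ n < L, ¬Wk H n x y ∧ ¬Wk H n x z) (h0 : 0 < t) (h1 : t ≤ 1 / 100) :
    (1 / (200 * (1 / t + b + 1))) ^ (L + 1) ≤ Oc t m H x y z := by
  obtain ⟨k0, w1, w0⟩ := cc2_wt hm h0 h1
  obtain ⟨k1, k2, k3, k4, k5⟩ := kk_small h0 h1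
  have m0 : 0 < mu (kk t) (wt t m) H {y, z} ∅ := lt_of_lt_of_le one_pos (one_le_mu k0 w0 _)
  have hs : ({y, z} : Finset V) ⊆ {x, y, z} := subset_insert _ _
  have m3 := mu_nonneg k0 w0 {x, y, z} ∅
  have b0 : (0 : ℝ) ≤ b := Nat.cast_nonneg b
  have t1 : 0 < 1 / t := by positivity
  have a0 : mu (kk t) (wt t m) H {y, z} ∅ ≤ 2 * mu (kk t) (wt t m) H {x, y, z} ∅ := by
    refine (mu_le_insert k0 w0 x).trans (mul_le_mul_of_nonneg_right ?_ m3)
    have : ((({y, z} : Finset V).card : ℕ) : ℝ) ≤ 2 := by exact_mod_cast card_le_two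
    have : ((({y, z} : Finset V).card : ℕ) : ℝ) / kk t ≤ 1 := (div_le_one k0).2 (by linarith)
    linarith
  obtain ⟨γ, hγ⟩ : ∃ γ : ℝ, γ = 1 / (200 * (1 / t + b + 1)) := ⟨_, rfl⟩
  have g0 : 0 < γ := by rw [hγ]; positivity
  have g1 : γ ≤ 1 / 4 := by rw [hγ]; gcongr; linarith
  have key : ∀ q, q ∈ ({x, y, z} : Finset V) → x ≠ q → Wk H L x q →
      γ ^ L * mu (kk t) (wt t m) H {x, y, z} ∅ ≤ mu (kk t) (wt t m) H {x, y, z} {x, q} := by
    intro q hq h3 h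
    refine le_trans (mul_le_mul_of_nonneg_right (pow_le_pow_left₀ g0.le ?_ L) m3)
      (hL V _ (1 - t) _ H {x, y, z} x q (2 * b + 1) L k0 (by linarith) w1 (mem_insert_self _ _) hq
        h3 ((exc_mono Subset.rfl hs).trans hX) h fun v hv h4 n hn => ?_)
    · have : ((({x, y, z} : Finset V).card : ℕ) : ℝ) ≤ 3 := by exact_mod_cast card_le_three
      rw [hγ, div_le_div_iff₀ (by positivity) (by positivity)]
      push_cast
      nlinarith
    · simp only [mem_insert, mem_singleton] at hv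
      rcases hv with rfl | rfl | rfl
      · exact absurd rfl h4
      · exact (hr n hn).1
      · exact (hr n hn).2
  have a3 := mu_nonneg k0 w0 {x, y, z} {x, y}
  have a4 := mu_nonneg k0 w0 {x, y, z} {x, z}
  have a5 : t ^ 2 * (γ ^ L * mu (kk t) (wt t m) H {x, y, z} ∅) ≤
      mu (kk t) (wt t m) H {x, y, z} {x, y} + t ^ 2 * mu (kk t) (wt t m) H {x, y, z} {x, z} := by
    rcases hw with h | h
    · have := key y (by simp) n1 h
      have h5 : t ^ 2 * (γ ^ L * mu (kk t) (wt t m) H {x, y, z} ∅) ≤ _ :=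
        mul_le_of_le_one_left (by positivity) (by nlinarith)
      nlinarith [mul_nonneg (sq_nonneg t) a4]
    · have := mul_le_mul_of_nonneg_left (key z (by simp) n2 h) (sq_nonneg t)
      linarith
  have a6 : 1 / 2 ≤ (kk t + 1) / t * t ^ 2 := by
    have : (kk t + 1) / t * t ^ 2 = (1 - t) ^ 2 + t := by unfold kk; field_simp
    nlinarith
  unfold Oc
  rw [← hγ, le_div_iff₀ m0]
  calc _ ≤ γ ^ L * (1 / 4) * (2 * mu (kk t) (wt t m) H {x, y, z} ∅) := by rw [pow_succ]; gcongr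
    _ = 1 / 2 * (γ ^ L * mu (kk t) (wt t m) H {x, y, z} ∅) := by ring
    _ ≤ (kk t + 1) / t * t ^ 2 * (γ ^ L * mu (kk t) (wt t m) H {x, y, z} ∅) := by gcongr
    _ ≤ _ := by rw [mul_assoc]; gcongr

theorem cc2 (hU : PU) (hL : PL2) (h1 : PElo) (h2 : PEhi) (hG : PG) (hH : PHS) (hM : PMg)
    (hT : PTwo) : PCC2 := by
  classical
  obtain ⟨C1, hC1, hG⟩ := hG
  obtain ⟨C, hC⟩ := hT 200 C1 (by norm_num) hC1
  refine ⟨C, fun V _ _ m H H' x y z B hm hs n1 n2 n3 n4 g1 g2 hd hB halt => ?_⟩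
  obtain ⟨m', G, hm', e1, e2, e3⟩ := hM V m H' y z {x} hm n3 n4 g1
    fun q q1 q2 q3 => hd q (fun h => q3 (mem_singleton.2 h)) q1 q2
  rw [card_singleton] at e2
  have hX : exc H' {y, z} ≤ 2 * be G + 1 := by omega
  have hc : cnt H' {y, z} y ≤ 2 * be G + 1 := by
    have := (hH V H' fun e he => (hm e he).1).2.2 y z n3
    omega
  obtain ⟨p', hp, hp'⟩ : ∃ p', p' ≤ com H' y z ∧ ∀ t : ℝ, 0 < t → t ≤ 1 / 100 →
      200 * (be G + 1) * t ^ 2 ≤ 1 → Oc t m H' x y z ≤ 5 * min 1 (p' * t) + er 200 (be G) t ∧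
        (1 - exp (-(p' * t / 10) + er 200 (be G) t)) / 4 ≤ Oc t m H' x y z := by
    rcases halt with h | ⟨W, g, h, a1, a2, a3, a4, a5, a6, a7, a8, a9, a10, a11⟩
    · refine ⟨0, Nat.zero_le _, fun t t0 t1 _ => ?_⟩
      have b1 := h t t0 t1
      have b2 := cc2_O0 (x := x) (y := y) (z := z) hm t0 t1
      have b3 : 2 * t ≤ er 200 (be G) t := by
        have : (0 : ℝ) ≤ (be G + 1) * t ^ 2 := by positivity
        unfold er; push_cast; nlinarith
      have b4 := Real.one_le_exp (x := er 200 (be G) t) (by linarith)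
      simp only [Nat.cast_zero, zero_mul, zero_le_one, inf_of_le_right, zero_div, neg_zero,
        zero_add, mul_zero]
      constructor <;> linarith
    · refine ⟨com H g h, a10.trans (com_mono hs y z), fun t t0 t1 t2 => ?_⟩
      have b1 := cc2_om hU h2 hH hm hs hX a1 a2 a3 a4 a5 a6 a7 a8 a9 t0 t1 t2
      have b2 := a11 t t0 t1
      constructor <;> linarith [b1.1, b1.2, b2.1, b2.2]
  have hex : ∃ n, Wk H' n x y ∨ Wk H' n x z :=
    ((gen_bot_iff _ _ _).1 g2).imp fun _ h => Or.inl h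
  have L1 := Nat.find_spec hex
  have L2 : ∀ n < Nat.find hex, ¬Wk H' n x y ∧ ¬Wk H' n x z := fun n hn =>
    not_or.1 (Nat.find_min hex hn)
  generalize Nat.find hex = L at L1 L2
  have L0 : L ≠ 0 := by
    rintro rfl
    exact L1.elim n1 n2
  refine hC B (fun t => nu (kk t) (wt t m) H' {y, z} y z / mu (kk t) (wt t m) H' {y, z} ∅)
    (fun t => Oc t m H' x y z) _ _ _ _ p' L (hG V m' m' G G hm' hm').1 hp e3 fun t t0 t1 t2 => ?_
  obtain ⟨k0, w1, w0⟩ := cc2_wt hm t0 t1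
  have m0 : 0 < mu (kk t) (wt t m) H' {y, z} ∅ := lt_of_lt_of_le one_pos (one_le_mu k0 w0 _)
  have b0 : (0 : ℝ) ≤ be G * t ^ 2 := by positivity
  have tt : 0 < t ^ 2 := by positivity
  push_cast at t2 ⊢
  have l1 := (le_div_iff₀ m0).2 (h1 V t _ H' {y, z} y z _ t0 t1 w1 (by simp) (by simp) n3 n4 hc
    (by push_cast; linarith))
  have l2 := (div_le_iff₀ m0).2 (h2 V t _ H' {y, z} y z _ t0 t1 w1 (by simp) (by simp) n3
    (card_le_two.trans (by norm_num)) hX (by push_cast; linarith))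
  have c := cc2_alg t0 t1 m0 rfl (lt_of_lt_of_le (Real.exp_pos _) l1) (cc2_O0 hm t0 t1)
    (pow_nonneg (by linarith) _) (e1 t t0 (by linarith)) (hB t t0 t1)
  refine ⟨c.1, c.2, le_trans (Real.exp_le_exp.2 ?_) l1, l2.trans (Real.exp_le_exp.2 ?_),
    (hp' t t0 t1 t2).1, (hp' t t0 t1 t2).2,
    cc2_up hU hH hm hX n1 n2 (fun n hn => L2 n (by omega)) t0 t1,
    cc2_lo hL hm hX n1 n2 L1 L2 t0 t1⟩
  · unfold er; push_cast; linarith
  · unfold er; push_cast; linarith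

end Pool.Agent.P.MP_833722_gt.TG
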