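import Pool.Agent.P.MP_833722_gt.TG.Base

/-! The main case: two networks. -/

set_option autoImplicit false

namespace Pool.Agent.P.MP_833722_gt.TG

open Finset
open Real (exp)

/-- the correction term -/
noncomputable def cmO (k o : ℝ) : ℝ := (k + 1) * o / (k + o)

theorem cm_O {k o : ℝ} (hk : 1 ≤ k) (h0 : 0 ≤ o) (h1 : o ≤ 1) :
    o ≤ cmO k o ∧ cmO k o ≤ 1 ∧ cmO k o ≤ o + 1 / k ∧ cmO k o ≤ 2 * o := by
  have h2 : 0 < k + o := by linarith
  have h3 : 1 / k * k = 1 := by field_simp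
  have h4 : 0 < 1 / k := by positivity
  unfold cmO
  refine ⟨?_, ?_, ?_, ?_⟩
  · rw [le_div_iff₀ h2]; nlinarith
  · rw [div_le_iff₀ h2]; nlinarith
  · rw [div_le_iff₀ h2]; nlinarith [mul_nonneg h4.le h0]
  · rw [div_le_iff₀ h2]; nlinarith

theorem cm_alg {k o l M t : ℝ} (hk : 1 ≤ k) (h0 : 0 ≤ o) (h1 : o ≤ 1) (l0 : 0 ≤ l) (l1 : l ≤ 1)
    (hM : 0 ≤ M) (t1 : t ≤ 1) :
    ((cmO k o ≤ l / 2 ∨ 2 * l ≤ cmO k o) →
      t / 4 * (M * l * (1 - o)) ≤ |M * (1 + o / k) * (l - cmO k o)|) ∧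
    (cmO k o ≤ l / 2 → |M * (1 + o / k) * (l - cmO k o)| ≤ 4 * (M * l * (1 - o))) := by
  obtain ⟨a1, -, -, -⟩ := cm_O hk h0 h1
  have a2 : 0 ≤ o / k := by positivity
  have a3 : o / k ≤ 1 := (div_le_one (by linarith)).2 (by linarith)
  have a4 := mul_nonneg hM l0
  rw [abs_mul, abs_of_nonneg (by positivity : 0 ≤ M * (1 + o / k))]
  constructor
  · intro h
    have a5 : l / 2 ≤ |l - cmO k o| := by
      rcases h with h | h
      · exact le_abs.2 (Or.inl (by linarith))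
      · exact le_abs.2 (Or.inr (by linarith))
    calc _ ≤ 1 / 2 * (M * l * 1) := by gcongr <;> linarith
      _ = M * 1 * (l / 2) := by ring
      _ ≤ _ := by gcongr; linarith
  · intro h
    calc _ ≤ M * 2 * l := by
          gcongr
          · linarith
          · exact abs_le.2 ⟨by linarith, by linarith⟩
      _ = 4 * (M * l * (1 / 2)) := by ring
      _ ≤ _ := by gcongr; linarith

variable {V : Type} [Fintype V] [DecidableEq V]

theorem cm_symm (N N' : Net V) : Bm N N' = Bm N' N := by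
  funext t; unfold Bm; rw [add_comm (rk (gen ⊥ N.H) - 1)]; ring

theorem cm_rk (N : Net V) : rk (gen ⊥ N.H) = rk (gen ⊥ N.H) - 1 + 1 := by
  have h := rk_mono (jn_le (π := ⊥) bot_le N.con)
  rw [rk_jn (π := ⊥) N.ne] at h
  omega

/-- what is used of one network -/
theorem cm_net (hU : PU) (hL : PL2) (h1 : PElo) (h2 : PEhi) (hH : PHS) (hM : PMg) (N : Net V) :
    ∃ (m : Sym2 V → ℕ) (G : Finset (Sym2 V)) (L : ℕ), Mg m G ∧ com N.H N.x N.y ≤ mul m G ∧
      ∀ (b : ℕ) (t : ℝ), be G ≤ b → 0 < t → t ≤ 1 / 100 → (1000 : ℕ) * (b + 1) * t ^ 2 ≤ 1 →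
        ∃ o : ℝ, 0 ≤ o ∧ o ≤ 1 ∧ 0 < N.m0 t ∧ o = kk t * N.m1 t / N.m0 t ∧
          AA t m G = (1 - t) ^ (rk (gen ⊥ N.H) - 1) * (N.m0 t * (1 - o)) ∧
          exp (-(2 * com N.H N.x N.y * t + er 1000 b t)) ≤ 1 - o ∧
          1 - o ≤ exp (-(com N.H N.x N.y * t / 10) + er 1000 b t) ∧
          o + 1 / kk t ≤ 5 * (com N.H N.x N.y * t) + er 1000 b t ∧
          o ≤ ((1000 : ℕ) * (b + 1) * t ^ 2) ^ ((L - 1) / 2) ∧
          (1 / ((1000 : ℕ) * (1 / t + b + 1))) ^ (L + 1) ≤ o := by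
  classical
  obtain ⟨m, G, g1, g2, g3, g4⟩ := hM V N.m N.H N.x N.y ∅ N.mg N.ne N.nadj N.con
    fun q a b _ => N.deg1 q a b
  have hex := (gen_bot_iff _ _ _).1 N.con
  have L0 : Nat.find hex ≠ 0 := fun h => N.ne (by have := Nat.find_spec hex; rwa [h] at this)
  refine ⟨m, G, Nat.find hex, g1, g4, fun b t hb t0 t1 ht => ?_⟩
  obtain ⟨-, k2, k3, k4, k5⟩ := kk_small t0 t1
  have k0 : 0 < kk t := by linarith
  have w1 := N.mg.wt t0.le (by linarith)
  have w0 : Wt 0 (wt t N.m) N.H := w1.mono (by linarith) Subset.rfl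
  obtain ⟨-, c2, c3⟩ := hH V N.H fun e he => (N.mg e he).1
  have hx : N.x ∈ ({N.x, N.y} : Finset V) := by simp
  have hy : N.y ∈ ({N.x, N.y} : Finset V) := by simp
  have e1 : exc N.H {N.x, N.y} ≤ 2 * b := by simp only [card_empty] at g3; omega
  have e2 : cnt N.H {N.x, N.y} N.x ≤ 2 * b := by
    have := c3 _ _ N.ne; simp only [card_empty] at g3; omega
  have m0 : 0 < N.m0 t := one_pos.trans_le (one_le_mu k0 w0 _)
  have m1 : 0 ≤ N.m1 t := mu_nonneg k0 w0 _ _
  have b0 : (0 : ℝ) ≤ b := Nat.cast_nonneg b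
  have tt : 0 < t ^ 2 := by positivity
  have bt := mul_nonneg b0 tt.le
  have p0 : 0 ≤ (com N.H N.x N.y : ℝ) * t := by positivity
  rw [Nat.cast_ofNat] at ht ⊢
  have hn : nu (kk t) (wt t N.m) N.H {N.x, N.y} N.x N.y =
      (1 - kk t * N.m1 t / N.m0 t) * N.m0 t := by
    show N.m0 t - kk t * N.m1 t = _
    field_simp
  have her : er 1000 b t = 1000 * t + 1000 * (b + 1) * t ^ 2 := by simp [er]
  refine ⟨kk t * N.m1 t / N.m0 t, by positivity, (div_le_one m0).2 (mi2 k0 w0 hx hy N.ne), m0, rfl,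
    ?_, ?_, ?_, ?_, ?_, ?_⟩
  · have := g2 t t0 (by linarith)
    rw [cm_rk, pow_succ', hn, mul_assoc] at this
    rw [mul_left_cancel₀ (by linarith) this, mul_comm (N.m0 t)]
  · have := h1 V t _ _ _ _ _ _ t0 t1 w1 hx hy N.ne N.nadj e2 (by push_cast; nlinarith)
    rw [hn] at this
    refine le_trans (Real.exp_le_exp.2 ?_) (le_of_mul_le_mul_right this m0)
    rw [her]; push_cast; nlinarith
  · have := h2 V t _ _ _ _ _ _ t0 t1 w1 hx hy N.ne (card_le_two.trans (by norm_num)) e1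
      (by push_cast; nlinarith)
    rw [hn] at this
    refine (le_of_mul_le_mul_right this m0).trans (Real.exp_le_exp.2 ?_)
    rw [her]; push_cast; nlinarith
  · have := (div_le_iff₀ m0).2 ((hU V _ _ _ k0 w0).1 _ _ _ _ hx hy N.ne N.nadj e2)
    have a1 := mul_le_mul_of_nonneg_left k2 (Nat.cast_nonneg (α := ℝ) (com N.H N.x N.y))
    have a2 := mul_le_mul_of_nonneg_left k3 b0
    rw [div_eq_mul_one_div _ (kk t), div_eq_mul_one_div _ (kk t ^ 2)] at this
    push_cast at this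
    refine (add_le_add_left this _).trans ?_
    rw [her]; nlinarith
  · have := (div_le_iff₀ m0).2 ((hU V _ _ _ k0 w0).2 _ (4 * b + 2) ((Nat.find hex - 1) / 2) _ _ _
      Subset.rfl hx hy (by omega) (fun v hv => (c2 _ v hv).trans (by omega))
      fun n hn => Nat.find_min hex (by omega))
    refine this.trans (pow_le_pow_left₀ (by positivity) ?_ _)
    have a2 := mul_le_mul_of_nonneg_left k3 b0
    rw [div_eq_mul_one_div]
    push_cast; nlinarith
  · have := hL V _ _ _ _ _ _ _ _ _ k0 (by linarith) w1 hx hy N.ne e1 (Nat.find_spec hex)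
      fun z hz h n hn => by
        rw [(mem_insert.1 hz).resolve_left h |> mem_singleton.1]; exact Nat.find_min hex hn
    have i0 : 0 < 1 / t := by positivity
    have c : (({N.x, N.y} : Finset V).card : ℝ) ≤ 2 := by exact_mod_cast card_le_two
    have q1 : 1 / (1000 * (1 / t + b + 1)) ≤ 1 := (div_le_one (by positivity)).2 (by linarith)
    refine (pow_le_pow_of_le_one (by positivity) q1 (Nat.le_succ _)).trans ?_
    rw [le_div_iff₀ m0]
    refine le_trans (mul_le_mul_of_nonneg_right (pow_le_pow_left₀ (by positivity) ?_ _) m0.le)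
      (this.trans (le_mul_of_one_le_left m1 (by linarith)))
    rw [div_le_div_iff₀ (by positivity) (by positivity)]
    push_cast
    have : 99 / 100 * (1000 * (1 / t + b + 1)) ≤ (1 - t) * (1000 * (1 / t + b + 1)) := by
      gcongr; linarith
    linarith

theorem cmain (hU : PU) (hL : PL2) (h1 : PElo) (h2 : PEhi) (hG : PG) (hH : PHS) (hM : PMg)
    (hT : PTwo) : PCMain := by
  obtain ⟨C₁, c1, hG⟩ := hG
  obtain ⟨C, hT⟩ := hT 1000 C₁ (by norm_num) c1
  refine ⟨C, fun V _ _ N N' => ?_⟩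
  wlog h : com N'.H N'.x N'.y ≤ com N.H N.x N.y generalizing N N'
  · rw [cm_symm]; exact this N' N (not_le.1 h).le
  obtain ⟨m, G, L, g1, g2, g3⟩ := cm_net hU hL h1 h2 hH hM N
  obtain ⟨m', G', L', g1', -, g3'⟩ := cm_net hU hL h1 h2 hH hM N'
  refine hT _ (fun t => 1 - kk t * N.m1 t / N.m0 t)
    (fun t => cmO (kk t) (kk t * N'.m1 t / N'.m0 t)) _ _ _ _ _ L' (hG V m m' G G' g1 g1').2 h
    (g2.trans (Nat.le_add_right _ _)) fun t t0 t1 ht => ?_
  obtain ⟨o, o0, o1, m0, ho, a1, a2, a3, -⟩ := g3 _ t (Nat.le_add_right _ _) t0 t1 ht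
  obtain ⟨o', o0', o1', m0', ho', a1', -, a3', a4', a5', a6'⟩ :=
    g3' _ t (Nat.le_add_left _ _) t0 t1 ht
  obtain ⟨-, -, -, k4, -⟩ := kk_small t0 t1
  have k0 : 0 < kk t := by linarith
  have u0 : 0 < 1 - t := by linarith
  obtain ⟨b1, b2, b3, b4⟩ := cm_O (k := kk t) (by linarith) o0' o1'
  set M := (1 - t) ^ (rk (gen ⊥ N.H) - 1 + (rk (gen ⊥ N'.H) - 1)) * (N.m0 t * N'.m0 t) with hM'
  have M0 : 0 ≤ M := by positivity
  obtain ⟨d1, d2⟩ := cm_alg (k := kk t) (l := 1 - o) (t := t) (by linarith) o0' o1' (by linarith)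
    (by linarith) M0 (by linarith)
  have e1 : AA t m G * AA t m' G' = M * (1 - o) * (1 - o') := by rw [a1, a1', hM']; ring
  have e2 : Bm N N' t = M * (1 + o' / kk t) * (1 - o - cmO (kk t) o') := by
    have f1 : N.m1 t = o * N.m0 t / kk t := by rw [ho]; field_simp
    have f2 : N'.m1 t = o' * N'.m0 t / kk t := by rw [ho']; field_simp
    have f3 : kk t + o' ≠ 0 := by linarith
    rw [Bm, hM', cmO, f1, f2]
    field_simp
    ring
  have er0 : 0 ≤ er 1000 (be G + be G') t := by unfold er; positivity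
  dsimp only
  rw [← ho, ← ho', e1, e2]
  refine ⟨d1, fun h => (d2 h).trans ?_, a2, a3, ?_, by linarith, ?_, a6'.trans b1⟩
  · exact mul_le_mul_of_nonneg_right (by norm_num)
      (mul_nonneg (mul_nonneg M0 (by linarith)) (by linarith))
  · rcases le_total 1 ((com N'.H N'.x N'.y : ℝ) * t) with h | h
    · rw [min_eq_left h]; linarith
    · rw [min_eq_right h]; linarith
  · refine b4.trans (mul_le_mul ?_ a5' o0' (by positivity))
    rw [le_div_iff₀ t0]; push_cast; linarith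

end Pool.Agent.P.MP_833722_gt.TG
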