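import Pool.Agent.P.MP_833722_gt.TG.Base

/-! The cut case: no edge at a terminal, symmetries, and the lowest term. -/

set_option autoImplicit false

namespace Pool.Agent.P.MP_833722_gt.TG

open Finset

section aux

variable {V : Type} [Fintype V] [DecidableEq V]

theorem cn_cube {t : ℝ} (h0 : 0 < t) (h1 : t ≤ 1 / 100) {m0 m1 c : ℝ} (hc : 0 ≤ c * m0)
    (h : kk t ^ 3 * m1 ≤ c * m0) : m1 / t ≤ 11 / 10 * t ^ 2 * (c * m0) := by
  obtain ⟨-, a2, a3, a4, -⟩ := kk_small h0 h1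
  have hk : 0 < kk t := by linarith
  have a5 : 1 / kk t ^ 3 ≤ 11 / 10 * t ^ 3 := by
    calc 1 / kk t ^ 3 = 1 / kk t * (1 / kk t ^ 2) := by field_simp
      _ ≤ 103 / 100 * t * (105 / 100 * t ^ 2) := by gcongr
      _ ≤ _ := by nlinarith [pow_pos h0 3]
  rw [div_le_iff₀ h0]
  calc m1 ≤ 1 / kk t ^ 3 * (c * m0) := by
        rw [one_div, inv_mul_eq_div, le_div_iff₀ (by positivity)]
        linarith
    _ ≤ 11 / 10 * t ^ 3 * (c * m0) := by gcongr
    _ = _ := by ring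

theorem cn_four {k : ℝ} {w : Sym2 V → ℝ} {E : Finset (Sym2 V)} (hk : 0 < k) (hw : Wt 0 w E)
    {x a b y : V} (h1 : x ≠ a) (h2 : x ≠ b) (h3 : x ≠ y) (h4 : a ≠ b) (h5 : a ≠ y) (h6 : b ≠ y) :
    k ^ 3 * mu k w E {x, a, b, y} {x, a, b, y} ≤ 6 * mu k w E {x, y} ∅ := by
  have hx : x ∈ ({x, a, b, y} : Finset V) := by simp
  have ha : a ∈ ({x, a, b, y} : Finset V) := by simp
  have hb : b ∈ ({x, a, b, y} : Finset V) := by simp
  have hy : y ∈ ({x, a, b, y} : Finset V) := by simp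
  have a1 := mul_le_mul_of_nonneg_left (mi4 hk hw hx ha hb hy h1 h2 h3 h4 h5 h6) hk.le
  have a2 := mi2 hk hw hx hy h3
  have a3 := mi2 hk hw ha hy h5
  have a4 := mi2 hk hw hb hy h6
  have a5 := mu_anti hk hw (W := {x, y}) (W' := {x, a, b, y}) (by
    intro q hq
    simp only [mem_insert, mem_singleton] at hq ⊢
    tauto)
  nlinarith

omit [Fintype V] in
theorem cn_sep {π : Setoid V} {x a b y : V} (h1 : π x a) (h2 : π x b) (h3 : π x y) :
    Sep {x, a, b, y} {x, a, b, y} π := by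
  have h : ∀ p ∈ ({x, a, b, y} : Finset V), π x p := by
    intro p hp
    simp only [mem_insert, mem_singleton] at hp
    rcases hp with rfl | rfl | rfl | rfl
    exacts [π.refl' _, h1, h2, h3]
  intro p hp q hq
  exact ⟨fun _ => Or.inr ⟨hp, hq⟩, fun _ => π.trans' (π.symm' (h p hp)) (h q hq)⟩

omit [Fintype V] in
/-- a path between the two sides uses one of the cut edges -/
theorem cn_cross {H S : Finset (Sym2 V)} {x y a v a' v' : V} (hs : ¬gen ⊥ H x y)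
    (hS : S ⊆ insert s(a, v) (insert s(a', v') H)) (h : gen ⊥ S x y) :
    (gen ⊥ S x a ∧ gen ⊥ S x v) ∨ (gen ⊥ S x a' ∧ gen ⊥ S x v') := by
  by_contra hc
  rw [not_or] at hc
  set π := gen ⊥ S with hπ
  set σ := gen ⊥ H with hσ
  let τ : Setoid V := ⟨fun p q => π p q ∧ (π x p → (σ x p ↔ σ x q)),
    fun p => ⟨π.refl' p, fun _ => Iff.rfl⟩,
    fun {p q} g => ⟨π.symm' g.1, fun g1 => (g.2 (π.trans' g1 (π.symm' g.1))).symm⟩,
    fun {p q r} g g' => ⟨π.trans' g.1 g'.1, fun g1 => (g.2 g1).trans (g'.2 (π.trans' g1 g.1))⟩⟩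
  have key : π ≤ τ := by
    refine gen_le bot_le fun p q hpq => ⟨gen_edge _ hpq, fun g1 => ?_⟩
    have g2 : π x q := π.trans' g1 (gen_edge _ hpq)
    have g3 := hS hpq
    simp only [mem_insert] at g3
    rcases g3 with g3 | g3 | g3
    · rcases Sym2.eq_iff.1 g3 with ⟨rfl, rfl⟩ | ⟨rfl, rfl⟩
      · exact absurd ⟨g1, g2⟩ hc.1
      · exact absurd ⟨g2, g1⟩ hc.1
    · rcases Sym2.eq_iff.1 g3 with ⟨rfl, rfl⟩ | ⟨rfl, rfl⟩
      · exact absurd ⟨g1, g2⟩ hc.2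
      · exact absurd ⟨g2, g1⟩ hc.2
    · have g4 : σ p q := gen_edge _ g3
      exact ⟨fun g => σ.trans' g g4, fun g => σ.trans' g (σ.symm' g4)⟩
  exact hs (((key h).2 (π.refl' x)).1 (σ.refl' x))

omit [Fintype V] [DecidableEq V] in
theorem cn_ne {σ : Setoid V} {x y a v : V} (hs : ¬σ x y) (ha : σ x a) (hv : σ y v) : ¬σ a v :=
  fun h => hs (σ.trans' (σ.trans' ha h) (σ.symm' hv))

/-- the graph with the cut edges -/
def Cut.F (K : Cut V) : Finset (Sym2 V) := insert s(K.a, K.v) (insert s(K.a', K.v') K.H)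

/-- its multiplicities -/
def Cut.mF (K : Cut V) (s : Sym2 V) : ℕ :=
  if s ∈ K.H then K.m s else if s(K.a, K.v) = s(K.a', K.v') then 2 else 1

theorem cn_e (K : Cut V) : s(K.a, K.v) ∉ K.H := fun h => cn_ne K.sep K.ha K.hv (gen_edge _ h)

theorem cn_f (K : Cut V) : s(K.a', K.v') ∉ K.H := fun h => cn_ne K.sep K.ha' K.hv' (gen_edge _ h)

theorem cn_mg (K : Cut V) : Mg K.mF K.F := by
  intro e he
  by_cases h : e ∈ K.H
  · rw [Cut.mF, if_pos h]
    exact K.mg e h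
  · refine ⟨?_, by rw [Cut.mF, if_neg h]; split_ifs <;> omega⟩
    simp only [Cut.F, mem_insert, h, or_false] at he
    rcases he with rfl | rfl
    · rw [Sym2.mk_isDiag_iff]
      exact fun g => cn_ne K.sep K.ha K.hv (g ▸ (gen ⊥ K.H).refl' _)
    · rw [Sym2.mk_isDiag_iff]
      exact fun g => cn_ne K.sep K.ha' K.hv' (g ▸ (gen ⊥ K.H).refl' _)

theorem cn_Zc (K : Cut V) (t : ℝ) (Φ : Setoid V → ℝ) :
    K.Zc t Φ = Z (kk t) (wt t K.mF) K.F ⊥ Φ := by
  have hw : ∀ e ∈ K.H, wt t K.m e = wt t K.mF e := fun e he => by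
    rw [wt, wt, Cut.mF, if_pos he]
  unfold Cut.Zc Cut.F
  rw [Z_wcongr hw]
  by_cases h : s(K.a, K.v) = s(K.a', K.v')
  · have h1 : LL (kk t) (1 - t) K.a' K.v' Φ = LL (kk t) (1 - t) K.a K.v Φ := by
      rcases Sym2.eq_iff.1 h with ⟨e1, e2⟩ | ⟨e1, e2⟩
      · rw [e1, e2]
      · rw [e1, e2, LL_symm]
    rw [← h, insert_idem, Z_insert (cn_e K), h1, LL_LL, wt, Cut.mF, if_neg (cn_e K), if_pos h]
    congr 2
    ring
  · rw [Z_insert (by simp only [mem_insert, not_or]; exact ⟨h, cn_e K⟩), Z_insert (cn_f K),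
      LL_comm, wt, wt, Cut.mF, Cut.mF, if_neg (cn_e K), if_neg (cn_f K), if_neg h, pow_one]

theorem cn_con (K : Cut V) : gen ⊥ K.F K.x K.y ∧ rk (gen ⊥ K.F) = rk (gen ⊥ K.H) + 1 := by
  have h1 : jn (gen ⊥ K.H) K.a' K.v' K.a K.v :=
    Or.inr (Or.inl ⟨(gen ⊥ K.H).trans' ((gen ⊥ K.H).symm' K.ha) K.ha',
      (gen ⊥ K.H).trans' ((gen ⊥ K.H).symm' K.hv') K.hv⟩)
  rw [Cut.F, gen_insert, gen_insert, jn_of_rel h1, rk_jn (cn_ne K.sep K.ha' K.hv')]
  exact ⟨Or.inr (Or.inl ⟨K.ha', (gen ⊥ K.H).symm' K.hv'⟩), rfl⟩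

theorem cn_xy (K : Cut V) : K.x ≠ K.y := fun h => K.sep (h ▸ (gen ⊥ K.H).refl' _)

theorem cn_B (K : Cut V) (t : ℝ) : K.B t = Bs t K.mF K.F K.x K.y := by
  unfold Cut.B Bs mu
  rw [cn_Zc, cn_Zc, (cn_con K).2]
  simp only [sep_pair0 (cn_xy K), sep_pair1]

theorem cn_m1 (K : Cut V) (h1 : K.a ≠ K.x) (h2 : K.a' ≠ K.x) (h3 : K.v ≠ K.y) (h4 : K.v' ≠ K.y)
    {k : ℝ} {w : Sym2 V → ℝ} (hk : 0 < k) (hw : Wt 0 w K.F) :
    k ^ 3 * mu k w K.F {K.x, K.y} {K.x, K.y} ≤ 12 * mu k w K.F {K.x, K.y} ∅ := by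
  have r := fun q => (gen ⊥ K.H).refl' q
  have n : ∀ {p q : V}, gen ⊥ K.H K.x p → gen ⊥ K.H K.y q → p ≠ q := fun hp hq g =>
    cn_ne K.sep hp hq (g ▸ r _)
  have a1 := cn_four hk hw h1.symm (n (r _) K.hv) (cn_xy K) (n K.ha K.hv) (n K.ha (r _)) h3
  have a2 := cn_four hk hw h2.symm (n (r _) K.hv') (cn_xy K) (n K.ha' K.hv') (n K.ha' (r _)) h4
  have a3 : mu k w K.F {K.x, K.y} {K.x, K.y} ≤
      mu k w K.F {K.x, K.a, K.v, K.y} {K.x, K.a, K.v, K.y} +
        mu k w K.F {K.x, K.a', K.v', K.y} {K.x, K.a', K.v', K.y} := by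
    unfold mu
    rw [← Z_add]
    refine Z_mono hk hw fun S hS => ?_
    by_cases h : gen ⊥ S K.x K.y
    · rw [ind_pos ((sep_pair1 _).2 h)]
      rcases cn_cross K.sep hS h with g | g
      · rw [ind_pos (cn_sep g.1 g.2 h)]
        exact le_add_of_nonneg_right (ind_nonneg _)
      · rw [ind_pos (cn_sep g.1 g.2 h)]
        exact le_add_of_nonneg_left (ind_nonneg _)
    · rw [ind_neg fun g => h ((sep_pair1 _).1 g)]
      exact add_nonneg (ind_nonneg _) (ind_nonneg _)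
  have a4 := mul_le_mul_of_nonneg_left a3 (pow_pos hk 3).le
  linarith

/-- exchange of the two cut edges -/
def Cut.ef (K : Cut V) : Cut V where
  H := K.H
  m := K.m
  x := K.x
  y := K.y
  a := K.a'
  v := K.v'
  a' := K.a
  v' := K.v
  mg := K.mg
  sep := K.sep
  ha := K.ha'
  ha' := K.ha
  hv := K.hv'
  hv' := K.hv
  nadj := by rw [insert_comm]; exact K.nadj
  ncom := by rw [insert_comm]; exact K.ncom
  deg1 := by rw [insert_comm]; exact K.deg1

/-- exchange of the two sides -/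
def Cut.xy (K : Cut V) : Cut V where
  H := K.H
  m := K.m
  x := K.y
  y := K.x
  a := K.v
  v := K.a
  a' := K.v'
  v' := K.a'
  mg := K.mg
  sep := fun h => K.sep ((gen ⊥ K.H).symm' h)
  ha := K.hv
  ha' := K.hv'
  hv := K.ha
  hv' := K.ha'
  nadj := by
    rw [Sym2.eq_swap (a := K.y), Sym2.eq_swap (a := K.v), Sym2.eq_swap (a := K.v')]
    exact K.nadj
  ncom := by
    rw [com_comm, Sym2.eq_swap (a := K.v), Sym2.eq_swap (a := K.v')]
    exact K.ncom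
  deg1 := fun q h1 h2 => by
    rw [Sym2.eq_swap (a := K.v), Sym2.eq_swap (a := K.v')]
    exact K.deg1 q h2 h1

theorem cn_ef (K : Cut V) : K.ef.B = K.B := by
  funext t
  simp only [Cut.B, Cut.Zc, Cut.ef]
  rw [LL_comm, LL_comm (a := K.a') (b := K.v')]

theorem cn_sw (K : Cut V) : K.xy.B = K.B := by
  funext t
  have h : ∀ π : Setoid V, π K.y K.x ↔ π K.x K.y := fun π => ⟨π.symm', π.symm'⟩
  simp only [Cut.B, Cut.Zc, Cut.xy, h, LL_symm (a := K.v) (b := K.a),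
    LL_symm (a := K.v') (b := K.a')]

end aux

theorem cn (hG : PG) (hM : PMg) (h1 : POne) : PCN := by
  obtain ⟨C₁, hC, hG⟩ := hG
  obtain ⟨C, h1⟩ := h1 1 C₁ hC
  refine ⟨C, fun V _ _ K g1 g2 g3 g4 => ?_⟩
  obtain ⟨m', G, hm, hA, -⟩ := hM V K.mF K.F K.x K.y ∅ (cn_mg K) (cn_xy K) K.nadj (cn_con K).1
    fun q a1 a2 _ => K.deg1 q a1 a2
  refine h1 _ _ _ _ (hG V m' m' G G hm hm).1 fun t t0 t1 => ?_
  have hk := kk_pos t0 (by linarith)
  have hw : Wt 0 (wt t K.mF) K.F :=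
    ((cn_mg K).wt t0.le (by linarith)).mono (by linarith) Subset.rfl
  have a1 := cn_m1 K g1 g2 g3 g4 hk hw
  have a0 := one_le_mu hk hw {K.x, K.y}
  have a2 := cn_cube t0 t1 (by positivity) a1
  have a3 := hA t t0 (by linarith)
  have a4 := mu_nonneg hk hw {K.x, K.y} {K.x, K.y}
  have a5 := (kk_small t0 t1).2.2.2
  rw [cn_B, Bs]
  rw [nu] at a3
  set m0 := mu (kk t) (wt t K.mF) K.F {K.x, K.y} ∅
  set m1 := mu (kk t) (wt t K.mF) K.F {K.x, K.y} {K.x, K.y}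
  set A := AA t m' G
  have u0 : 0 < 1 - t := by linarith
  have p0 : 0 < (1 - t) ^ rk (gen ⊥ K.F) := pow_pos u0 _
  set P := (1 - t) ^ rk (gen ⊥ K.F)
  have b0 : 0 ≤ m1 / t := by positivity
  have b1 : kk t * m1 ≤ m0 / 2 := by
    have : kk t * m1 ≤ m1 / t := by
      rw [div_eq_inv_mul, ← one_div]
      exact mul_le_mul_of_nonneg_right a5.2 a4
    have c1 : t ^ 2 * m0 ≤ (1 / 100) ^ 2 * m0 := by gcongr
    linarith
  have b2 : 0 ≤ kk t * m1 := by positivity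
  have b3 : (1 - t) * A ≤ P * m0 := by rw [a3]; nlinarith
  have b4 : P * m0 ≤ 2 * ((1 - t) * A) := by rw [a3]; nlinarith
  have b5 : 0 < A := by
    have : 0 < (1 - t) * A := by nlinarith [mul_pos p0 (show 0 < m0 by linarith)]
    exact (mul_pos_iff_of_pos_left u0).1 this
  have b6 : t * m0 ≤ t / (1 - t) * m0 := by
    gcongr
    rw [le_div_iff₀ u0]
    nlinarith
  have b7 : t / 2 * m0 ≤ t / (1 - t) * m0 - m1 / t := by
    nlinarith [mul_pos t0 (show 0 < m0 by linarith)]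
  have b8 : t / 4 * A ≤ P * (t / (1 - t) * m0 - m1 / t) := by
    have c1 := mul_le_mul_of_nonneg_left b7 p0.le
    have c2 := mul_le_mul_of_nonneg_left b3 (show 0 ≤ t / 2 by positivity)
    nlinarith [mul_pos t0 b5]
  rw [abs_of_nonneg (le_trans (by positivity) b8)]
  refine ⟨b8, ?_⟩
  have c1 : P * (t / (1 - t) * m0) ≤ t / (1 - t) * (2 * ((1 - t) * A)) := by
    rw [mul_left_comm]
    gcongr
  have c2 : t / (1 - t) * (2 * ((1 - t) * A)) = 2 * t * A := by field_simp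
  have c3 : 0 ≤ P * (m1 / t) := by positivity
  push_cast
  nlinarith

theorem cut (h1 : PCC) (h2 : PCN) : PCut := by
  obtain ⟨C₁, h1⟩ := h1
  obtain ⟨C₂, h2⟩ := h2
  refine ⟨C₁ + C₂, fun V _ _ => ?_⟩
  have key : ∀ K : Cut V, K.a = K.x → CtlB C₁ K.B := by
    intro K ha
    have n1 : K.v ≠ K.y := fun g => K.nadj (by rw [ha, g]; exact mem_insert_self _ _)
    have n2 : K.a' = K.x → K.v' ≠ K.y := fun g g' =>
      K.nadj (by rw [g, g']; exact mem_insert_of_mem (mem_insert_self _ _))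
    by_cases c1 : K.a' = K.x ∧ com K.H K.y K.v < com K.H K.y K.v'
    · rw [← cn_ef]
      exact h1 V K.ef c1.1 (fun _ => c1.2.le) fun g => absurd g n1
    by_cases c2 : K.v' = K.y ∧ com K.H K.y K.v < com K.H K.x K.a'
    · rw [← cn_sw, ← cn_ef]
      exact h1 V K.xy.ef c2.1 (fun g => absurd g n1) fun _ => c2.2.le
    exact h1 V K ha (fun g => not_lt.1 fun g' => c1 ⟨g, g'⟩) fun g => not_lt.1 fun g' => c2 ⟨g, g'⟩
  intro K
  by_cases c1 : K.a = K.x
  · exact (key K c1).mono (by omega)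
  by_cases c2 : K.a' = K.x
  · rw [← cn_ef]
    exact (key K.ef c2).mono (by omega)
  by_cases c3 : K.v = K.y
  · rw [← cn_sw]
    exact (key K.xy c3).mono (by omega)
  by_cases c4 : K.v' = K.y
  · rw [← cn_sw, ← cn_ef]
    exact (key K.xy.ef c4).mono (by omega)
  exact (h2 V K c1 c2 c3 c4).mono (by omega)

theorem cs4 (h : PU) : PCS4 := by
  intro V _ _ m H x y hm hxy hn hc
  set X := cnt H {x, y} x with hX
  set r := rk (gen ⊥ H) with hr
  have X0 : (0 : ℝ) ≤ X := Nat.cast_nonneg _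
  have r0 : (0 : ℝ) ≤ r := Nat.cast_nonneg _
  refine ⟨1 / (100 * (X + r + 1)), by positivity, fun t t0 t1 => ?_⟩
  rw [lt_div_iff₀ (by positivity)] at t1
  have t2 : t ≤ 1 / 100 := by nlinarith
  have hk := kk_pos t0 (by linarith)
  have hw : Wt 0 (wt t m) H := (hm.wt t0.le (by linarith)).mono (by linarith) Subset.rfl
  have a1 := (h V _ _ H hk hw).1 {x, y} x y X (by simp) (by simp) hxy hn le_rfl
  have a0 := one_le_mu hk hw {x, y}
  rw [Bs, ← hr]
  set m0 := mu (kk t) (wt t m) H {x, y} ∅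
  set m1 := mu (kk t) (wt t m) H {x, y} {x, y}
  have a2 : kk t ^ 3 * m1 ≤ 6 * X * m0 := by
    rw [hc, Nat.cast_zero, mul_zero, zero_div, zero_add, div_mul_eq_mul_div,
      le_div_iff₀ (by positivity)] at a1
    linarith
  have a3 := cn_cube t0 t2 (by positivity) a2
  have u0 : 0 < 1 - t := by linarith
  have b6 : t * m0 ≤ t / (1 - t) * m0 := by
    gcongr
    rw [le_div_iff₀ u0]
    nlinarith
  have b1 : t * X ≤ 1 / 100 := by nlinarith
  have b2 : t * r ≤ 1 / 100 := by nlinarith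
  have b7 : t / 2 ≤ t / (1 - t) * m0 - m1 / t := by
    have c1 : t * X * (t * m0) ≤ 1 / 100 * (t * m0) := by gcongr
    nlinarith
  have b8 : 1 / 2 ≤ (1 - t) ^ r := by
    have := one_add_mul_le_pow (a := -t) (by linarith) r
    rw [← sub_eq_add_neg] at this
    linarith
  refine le_trans ?_ (le_abs_self _)
  calc t / 4 = 1 / 2 * (t / 2) := by ring
    _ ≤ _ := by gcongr

end Pool.Agent.P.MP_833722_gt.TG
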