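import Pool.Agent.P.MP_833722_gt.TG.Defs
import Pool.Agent.P.MP_833722_gt.Lag

/-! Interpolation: a controlled Laurent polynomial of bounded span has bounded coefficients. -/

set_option autoImplicit false

namespace Pool.Agent.P.MP_833722_gt.TG

open Finset LaurentPolynomial
open Real (exp)

theorem cl_interp (L : ℕ) : ∃ K : ℝ, 0 ≤ K ∧ ∀ (c : ℕ → ℂ) (Y : ℝ),
    (∀ x : ℝ, 0 < x → x < 1 → ‖∑ i ∈ range L, c i * (x : ℂ) ^ i‖ ≤ Y) →
    ∑ i ∈ range L, ‖c i‖ ≤ K * Y := by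
  induction L with
  | zero => exact ⟨0, le_rfl, fun c Y _ => by simp⟩
  | succ L ih =>
    obtain ⟨K, hK, ih⟩ := ih
    refine ⟨K * (2 ^ L + 1) + 2 ^ L * (1 + K * (2 ^ L + 1)), by positivity, fun c Y h => ?_⟩
    have h1 := ih (fun i => c i * (2 ^ (L - i) - 1)) ((2 ^ L + 1) * Y) fun x x0 x1 => by
      have e : ∑ i ∈ range L, c i * (2 ^ (L - i) - 1) * (x : ℂ) ^ i =
          2 ^ L * ∑ i ∈ range (L + 1), c i * ((x / 2 : ℝ) : ℂ) ^ i -
            ∑ i ∈ range (L + 1), c i * (x : ℂ) ^ i := by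
        rw [mul_sum, ← sum_sub_distrib, sum_range_succ]
        have e1 : ∀ i, i ≤ L → 2 ^ L * (c i * ((x / 2 : ℝ) : ℂ) ^ i) - c i * (x : ℂ) ^ i =
            c i * (2 ^ (L - i) - 1) * (x : ℂ) ^ i := fun i hi => by
          obtain ⟨k, rfl⟩ := Nat.exists_eq_add_of_le hi
          rw [Nat.add_sub_cancel_left]
          push_cast
          rw [div_pow, pow_add]
          field_simp
        rw [e1 L le_rfl, Nat.sub_self, pow_zero, sub_self, mul_zero, zero_mul, add_zero]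
        exact sum_congr rfl fun i hi => (e1 i (mem_range.1 hi).le).symm
      rw [e]
      refine (norm_sub_le _ _).trans ?_
      rw [norm_mul, norm_pow, Complex.norm_two, add_mul, one_mul]
      exact add_le_add (mul_le_mul_of_nonneg_left (h _ (by linarith) (by linarith))
        (by positivity)) (h x x0 x1)
    have h2 : ∑ i ∈ range L, ‖c i‖ ≤ K * ((2 ^ L + 1) * Y) := by
      refine le_trans (sum_le_sum fun i hi => ?_) h1
      rw [norm_mul]
      refine le_mul_of_one_le_right (norm_nonneg _) ?_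
      refine le_trans ?_ (norm_sub_norm_le _ _)
      rw [norm_pow, Complex.norm_two, norm_one]
      have : (2 : ℝ) ^ 1 ≤ 2 ^ (L - i) :=
        pow_le_pow_right₀ (by norm_num) (by have := mem_range.1 hi; omega)
      linarith
    have h3 := h (1 / 2) (by norm_num) (by norm_num)
    rw [sum_range_succ] at h3
    have h4 : ‖∑ i ∈ range L, c i * ((1 / 2 : ℝ) : ℂ) ^ i‖ ≤ ∑ i ∈ range L, ‖c i‖ := by
      refine (norm_sum_le _ _).trans (sum_le_sum fun i _ => ?_)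
      rw [norm_mul, norm_pow, Complex.norm_real]
      exact mul_le_of_le_one_right (norm_nonneg _) (pow_le_one₀ (norm_nonneg _) (by norm_num))
    have h5 : ‖c L * ((1 / 2 : ℝ) : ℂ) ^ L‖ ≤ Y + K * ((2 ^ L + 1) * Y) := by
      have := norm_sub_le (∑ i ∈ range L, c i * ((1 / 2 : ℝ) : ℂ) ^ i +
        c L * ((1 / 2 : ℝ) : ℂ) ^ L) (∑ i ∈ range L, c i * ((1 / 2 : ℝ) : ℂ) ^ i)
      rw [add_sub_cancel_left] at this
      linarith
    rw [norm_mul, norm_pow, Complex.norm_real, Real.norm_of_nonneg (by norm_num), one_div,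
      inv_pow, mul_inv_le_iff₀ (by positivity)] at h5
    rw [sum_range_succ]
    linarith

theorem cl_ray {a : ℝ} (ha : 0 < a) :
    (ray a : ℂ) = Complex.exp (Real.pi / 4 * Complex.I) * a := by
  rw [ray, Units.val_mk0, Complex.exp_add, ← Complex.ofReal_exp, Real.exp_log ha]

theorem cl_om : ‖Complex.exp (Real.pi / 4 * Complex.I)‖ = 1 := by
  have := Complex.norm_exp_ofReal_mul_I (Real.pi / 4)
  push_cast at this
  exact this

/-- the exponents from `N` to `N + L - 1` -/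
def clW (N : ℤ) (L : ℕ) : Finset ℤ := (range L).image fun i : ℕ => N + i

theorem cl_mem {N k : ℤ} {L : ℕ} (h1 : N ≤ k) (h2 : k < N + L) : k ∈ clW N L :=
  mem_image.2 ⟨(k - N).toNat, mem_range.2 (by omega), by omega⟩

theorem cl_sum {R : Type} [AddCommMonoid R] (N : ℤ) (L : ℕ) (g : ℤ → R) :
    ∑ k ∈ clW N L, g k = ∑ i ∈ range L, g (N + i) :=
  sum_image fun _ _ _ _ e => by simpa using e

theorem cl_coef (L : ℕ) : ∃ K : ℝ, 0 ≤ K ∧ ∀ (f : ℤ[T;T⁻¹]) (N : ℤ) (M Y : ℝ), 1 ≤ M →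
    (∀ k, f.coeff k ≠ 0 → N ≤ k ∧ k < N + L) →
    (∀ a : ℝ, 0 < a → a < 1 / M → ‖evA (ray a) f‖ ≤ Y * a ^ N) → (nrm f : ℝ) ≤ K * Y * M ^ L := by
  obtain ⟨K, hK, h⟩ := cl_interp L
  refine ⟨K, hK, fun f N M Y hM hs hv => ?_⟩
  have M0 : 0 < M := by linarith
  have hs' : ∀ k, f.coeff k ≠ 0 → k ∈ clW N L := fun k hk => cl_mem (hs k hk).1 (hs k hk).2
  have h1 := h (fun i => (f.coeff (N + i) : ℂ) *
      (Complex.exp (Real.pi / 4 * Complex.I) / M) ^ i) Y fun x x0 x1 => by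
    have a0 : 0 < x / M := by positivity
    have h2 := hv (x / M) a0 (by gcongr)
    have e : evA (ray (x / M)) f = (ray (x / M) : ℂ) ^ N * ∑ i ∈ range L, (f.coeff (N + i) : ℂ) *
        (Complex.exp (Real.pi / 4 * Complex.I) / M) ^ i * (x : ℂ) ^ i := by
      rw [evA_eq_sum _ f hs', cl_sum, mul_sum]
      refine sum_congr rfl fun i _ => ?_
      simp only [zpow_add, zpow_natCast, Units.val_mul,
        Units.val_pow_eq_pow_val, Units.val_zpow_eq_zpow_val]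
      rw [mul_assoc (f.coeff (N + i) : ℂ) (_ ^ i), ← mul_pow,
        show Complex.exp (Real.pi / 4 * Complex.I) / M * x = (ray (x / M) : ℂ) by
          rw [cl_ray a0]; push_cast; ring]
      ring
    rw [e, norm_mul, norm_zpow, cl_ray a0, norm_mul, cl_om, one_mul, Complex.norm_real,
      Real.norm_of_nonneg a0.le, mul_comm] at h2
    exact le_of_mul_le_mul_right h2 (zpow_pos a0 N)
  have h3 : (nrm f : ℝ) ≤ ∑ i ∈ range L, |(f.coeff (N + i) : ℝ)| := by
    have : nrm f ≤ ∑ k ∈ clW N L, (f.coeff k).natAbs :=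
      sum_le_sum_of_subset fun k hk => hs' k (Finsupp.mem_support_iff.1 hk)
    rw [cl_sum] at this
    refine le_trans (Nat.cast_le.2 this) (le_of_eq ?_)
    push_cast
    exact sum_congr rfl fun i _ => by simp
  refine h3.trans (le_trans ?_ (mul_le_mul_of_nonneg_right h1 (by positivity)))
  rw [sum_mul]
  refine sum_le_sum fun i hi => ?_
  rw [norm_mul, norm_pow, norm_div, cl_om, Complex.norm_real, Real.norm_of_nonneg M0.le,
    Complex.norm_intCast, mul_assoc]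
  refine le_mul_of_one_le_right (abs_nonneg _) ?_
  rw [one_div, inv_pow, inv_mul_eq_div, one_le_div (by positivity)]
  exact pow_le_pow_right₀ hM (mem_range.1 hi).le

theorem cl_fin {j0 C a r : ℝ} (h0 : 0 ≤ j0) (hC : 0 ≤ C) (ha : 0 ≤ a) (hr : 0 ≤ r) :
    ∃ S0 : ℝ, ∀ S j d : ℝ, 1 ≤ S → 0 ≤ j → S ≤ 2 * j ^ 3 + d + 1 →
      j ≤ j0 + C * (a + r * Real.log S) → d ≤ 2 * j ^ 4 * (a + r * Real.log S) → S ≤ S0 := by
  obtain ⟨β, hβ⟩ : ∃ β, β = j0 + C * (a + r) := ⟨_, rfl⟩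
  obtain ⟨γ, hγ⟩ : ∃ γ, γ = 2 * β ^ 3 + 2 * β ^ 4 * (a + r) + 1 := ⟨_, rfl⟩
  have β0 : 0 ≤ β := by rw [hβ]; positivity
  have γ0 : 0 ≤ γ := by rw [hγ]; positivity
  refine ⟨γ * (2160 * γ) ^ 5, fun S j d hS hj h1 h2 h3 => ?_⟩
  have l0 := Real.log_nonneg hS
  obtain ⟨u, hu⟩ : ∃ u, u = Real.log S + 1 := ⟨_, rfl⟩
  have u1 : 1 ≤ u := by linarith
  have u0 : 0 < u := by linarith
  have a1 : a + r * Real.log S ≤ (a + r) * u := by rw [hu]; nlinarith
  have a2 : j ≤ β * u := by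
    have := mul_le_mul_of_nonneg_left a1 hC
    have := le_mul_of_one_le_right h0 u1
    rw [hβ]
    linarith
  have a3 : j ^ 3 ≤ β ^ 3 * u ^ 5 := by
    refine (pow_le_pow_left₀ hj a2 3).trans ?_
    rw [mul_pow]
    exact mul_le_mul_of_nonneg_left (pow_le_pow_right₀ u1 (by norm_num)) (by positivity)
  have a4 : j ^ 4 * (a + r * Real.log S) ≤ (β * u) ^ 4 * ((a + r) * u) :=
    mul_le_mul (pow_le_pow_left₀ hj a2 4) a1 (by positivity) (by positivity)
  have a5 : 1 ≤ u ^ 5 := one_le_pow₀ u1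
  have a6 : S ≤ γ * u ^ 5 := by
    rw [hγ]
    linarith
  have a7 : u ^ 6 / 720 ≤ S * 3 := by
    have e := Real.pow_div_factorial_le_exp u u0.le 6
    rw [show ((Nat.factorial 6 : ℕ) : ℝ) = 720 by norm_num [Nat.factorial]] at e
    refine e.trans ?_
    rw [hu, Real.exp_add, Real.exp_log (by linarith)]
    exact mul_le_mul_of_nonneg_left (by linarith [Real.exp_one_lt_d9]) (by linarith)
  have a8 : u ≤ 2160 * γ := by
    refine le_of_mul_le_mul_right ?_ (pow_pos u0 5)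
    linarith
  exact a6.trans (mul_le_mul_of_nonneg_left (pow_le_pow_left₀ u0.le a8 5) γ0)

theorem cl_scale (C b : ℕ) : ∃ j : ℕ, C + 2 ≤ j ∧ b ≤ j ^ 3 ∧ (j = C + 2 ∨ j ^ 3 ≤ 8 * b) := by
  classical
  have hex : ∃ i : ℕ, b ≤ (C + 2 + i) ^ 3 :=
    ⟨b, le_trans (by omega) (Nat.le_self_pow (by norm_num) _)⟩
  refine ⟨C + 2 + Nat.find hex, by omega, Nat.find_spec hex, ?_⟩
  rcases h : Nat.find hex with _ | i
  · exact Or.inl rfl
  · have h1 := Nat.find_min hex (m := i) (by omega)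
    right
    calc (C + 2 + (i + 1)) ^ 3 ≤ (2 * (C + 2 + i)) ^ 3 := Nat.pow_le_pow_left (by omega) 3
      _ = 8 * (C + 2 + i) ^ 3 := by ring
      _ ≤ _ := by omega

theorem cl_log {x Z K S t j W : ℝ} {L : ℕ} (hx : 0 < x) (hK : 1 ≤ K) (hS : 1 ≤ S) (hj : 0 < j)
    (ht : 1 / j ^ 2 ≤ t) (h1 : t / 4 * x ≤ W) (h2 : 4 * j ^ 2 * W ≤ Z) (h3 : Z ≤ K * S ^ L) :
    Real.log x ≤ Real.log K + L * Real.log S := by
  rw [← Real.log_pow, ← Real.log_mul (by linarith) (by positivity)]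
  refine Real.log_le_log hx (le_trans ?_ (h2.trans h3))
  rw [div_le_iff₀ (by positivity)] at ht
  have h4 := mul_le_mul_of_nonneg_left h1 (show 0 ≤ 4 * j ^ 2 by positivity)
  have h5 := mul_le_mul_of_nonneg_right ht hx.le
  linarith

theorem close (h : PSp) : PClose := by
  intro C n
  obtain ⟨K, hK, hc⟩ := cl_coef (4 * n + 5)
  obtain ⟨K2, hK2⟩ : ∃ K2 : ℝ,
    K2 = 4 * ((C + 2) ^ 2 + 8) * (K * C * (C : ℝ) ^ (4 * n + 5)) + 1 := ⟨_, rfl⟩
  have K21 : 1 ≤ K2 := by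
    rw [hK2]
    exact le_add_of_nonneg_left (by positivity)
  obtain ⟨S0, hS0⟩ := cl_fin (j0 := C + 2) (C := C) (a := Real.log K2) (r := (4 * n + 6 : ℕ))
    (by positivity) (by positivity) (Real.log_nonneg K21) (by positivity)
  refine ⟨⌈K * C * (C * S0) ^ (4 * n + 5)⌉₊, ?_⟩
  rintro f ⟨N, B, hB, b, m, h1, h2⟩ hw
  have C1 : (1 : ℝ) ≤ C := by
    rcases Nat.eq_zero_or_pos C with rfl | h0
    · have := h1 1 one_pos (by simp)
      simp only [Nat.cast_zero] at this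
      linarith [this.1, this.2]
    · exact_mod_cast h0
  obtain ⟨S, hS⟩ : ∃ S : ℝ, S = b + m + 1 := ⟨_, rfl⟩
  rw [← hS] at h1
  have b0 : (0 : ℝ) ≤ b := Nat.cast_nonneg b
  have m0 : (0 : ℝ) ≤ m := Nat.cast_nonneg m
  have S1 : 1 ≤ S := by linarith
  have M1 : 1 ≤ C * S := one_le_mul_of_one_le_of_one_le C1 S1
  have hsm : ∀ a : ℝ, 0 < a → a < 1 / (C * S) →
      ‖evA (ray a) f‖ ≤ C * a ^ N ∧ 1 / 4 * a ^ (N + 4) ≤ ‖evA (ray a) f‖ := by
    intro a a0 a1
    have a2 : a < 1 := a1.trans_le ((div_le_one (by linarith)).2 M1)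
    rw [lt_div_iff₀ (by linarith)] at a1
    have a3 : a ^ 4 ≤ a := pow_le_of_le_one a0.le a2.le (by norm_num)
    have := h1 (a ^ 4) (by positivity)
      ((mul_le_mul_of_nonneg_right a3 (by linarith)).trans a1.le)
    have aN := zpow_pos a0 N
    rw [hB a a0 a2, zpow_add₀ a0.ne', show a ^ (4 : ℤ) = a ^ 4 from zpow_natCast a 4]
    constructor <;> nlinarith [this.1, this.2]
  have hlo := h.lowa f N C (1 / (C * S)) (by positivity) fun a a0 a1 => (hsm a a0 a1).1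
  obtain ⟨i0, hi0, hi0'⟩ := h.lowb f (N + 4) (1 / 4) (1 / (C * S)) (by norm_num) (by positivity)
    fun a a0 a1 => (hsm a a0 a1).2
  have hn := hc f N (C * S) C M1 (fun k hk => ⟨not_lt.1 fun e => hk (hlo k e), by
    have := hw k i0 hk hi0'
    omega⟩) fun a a0 a1 => (hsm a a0 a1).1
  obtain ⟨j, j1, j2, j3⟩ := cl_scale C b
  obtain ⟨t, t1, t2, t3, t4⟩ := h2 j (by omega) j2
  have j1' : (C : ℝ) + 2 ≤ j := by exact_mod_cast j1
  have j0 : (0 : ℝ) < j := by linarith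
  have t0 : 0 < t := lt_of_lt_of_le (by positivity) t1
  have hBt : |B t| ≤ nrm f := by
    have a0 : 0 < √√t := Real.sqrt_pos.2 (Real.sqrt_pos.2 t0)
    have a1 : √√t < 1 := by
      rw [Real.sqrt_lt' one_pos, Real.sqrt_lt' (by norm_num)]
      linarith
    have a2 : √√t ^ 4 = t := by
      rw [show √√t ^ 4 = (√√t ^ 2) ^ 2 by ring, Real.sq_sqrt (Real.sqrt_nonneg _),
        Real.sq_sqrt t0.le]
    have := h.nev f N _ a0 a1 hlo
    rw [hB _ a0 a1, a2] at this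
    exact le_of_mul_le_mul_left this (zpow_pos a0 N)
  have hj2 : (j : ℝ) ^ 2 ≤ ((C + 2) ^ 2 + 8) * S := by
    have c0 : (0 : ℝ) ≤ (C + 2) ^ 2 := by positivity
    rcases j3 with rfl | j3
    · push_cast
      nlinarith
    · have e1 : (j : ℝ) ^ 3 ≤ 8 * b := by exact_mod_cast j3
      have e2 : (j : ℝ) ^ 2 ≤ j ^ 3 := pow_le_pow_right₀ (by linarith) (by norm_num)
      nlinarith
  have hZ : 4 * (j : ℝ) ^ 2 * (K * C * (C * S) ^ (4 * n + 5)) ≤ K2 * S ^ (4 * n + 6) := by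
    calc _ ≤ 4 * (((C + 2) ^ 2 + 8) * S) * (K * C * (C * S) ^ (4 * n + 5)) := by gcongr
      _ = 4 * ((C + 2) ^ 2 + 8) * (K * C * (C : ℝ) ^ (4 * n + 5)) * S ^ (4 * n + 6) := by
          rw [mul_pow]; ring
      _ ≤ _ := mul_le_mul_of_nonneg_right (by rw [hK2]; linarith) (by positivity)
  have L0 : 0 ≤ Real.log K2 + (4 * n + 6 : ℕ) * Real.log S :=
    add_nonneg (Real.log_nonneg K21) (mul_nonneg (by positivity) (Real.log_nonneg S1))
  have hSS : S ≤ S0 := by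
    refine hS0 S j (m - b : ℕ) S1 j0.le ?_ ?_ ?_
    · have e1 : b + m + 1 ≤ 2 * j ^ 3 + (m - b) + 1 := by omega
      rw [hS]
      exact_mod_cast e1
    · rcases j3 with rfl | j3
      · push_cast at L0 ⊢
        exact le_add_of_nonneg_right (by positivity)
      · have := cl_log (Real.exp_pos _) K21 S1 j0 t1 (((t4 j3).trans hBt).trans hn) le_rfl hZ
        rw [Real.log_exp, div_le_iff₀ (by linarith)] at this
        linarith
    · have e1 := cl_log (by positivity) K21 S1 j0 t1 ((t3.trans hBt).trans hn) le_rfl hZ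
      have e2 := Real.le_log_one_add_of_nonneg (sq_nonneg t)
      have e3 : t ^ 2 / 2 ≤ 2 * t ^ 2 / (t ^ 2 + 2) := by
        rw [div_le_div_iff₀ (by norm_num) (by positivity)]
        have : t ^ 2 ≤ 1 := by nlinarith
        nlinarith [sq_nonneg t]
      have e4 : 1 ≤ t ^ 2 * (j : ℝ) ^ 4 := by
        rw [div_le_iff₀ (by positivity)] at t1
        nlinarith
      rw [Real.log_pow] at e1
      have d0 : (0 : ℝ) ≤ (m - b : ℕ) := Nat.cast_nonneg _
      have e5 := (mul_le_mul_of_nonneg_left (e3.trans e2) d0).trans e1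
      have e6 := mul_le_mul_of_nonneg_left e5 (show 0 ≤ 2 * (j : ℝ) ^ 4 by positivity)
      have e7 := mul_le_mul_of_nonneg_left e4 d0
      linarith
  have : (nrm f : ℝ) ≤ ⌈K * C * (C * S0) ^ (4 * n + 5)⌉₊ :=
    (hn.trans (by gcongr)).trans (Nat.le_ceil _)
  exact_mod_cast this

end Pool.Agent.P.MP_833722_gt.TG
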