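import Pool.Agent.P.MP_833722_gt.TG.Defs
import Pool.Agent.P.MP_833722_gt.Potts

/-! Circles of a state, counted with the Potts model. -/

set_option autoImplicit false

namespace Pool.Agent.P.MP_833722_gt.TG

open Finset

theorem d1_two : (2 : ℂ) * 2 = Fintype.card (ZMod 4) := by
  rw [ZMod.card]; norm_num

/-- the shifted Potts model -/
noncomputable def d1T (o : ℕ) : TL ℂ ((ℕ → ZMod 4) → ℂ) 2 where
  cup i := pcup 2 (o + i)
  cap i := pcap 2 (o + i)
  loop i v := (pTL 2 d1_two).loop (o + i) v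
  z1 i v := (pTL 2 d1_two).z1 (o + i) v
  z2 i v := (pTL 2 d1_two).z2 (o + i) v
  c1 i j v h := (pTL 2 d1_two).c1 (o + i) (o + j) v (by omega)
  c2 i j v h := (pTL 2 d1_two).c2 (o + i) (o + j) v (by omega)

theorem d1_ok (σ : ℕ → Bool) : ∀ (w : List Pc) (m : ℕ), Ok 0 m w → Ok 0 m (st σ w)
  | [], _, h => h
  | .cup _ _ :: w, _, h => ⟨h.1, d1_ok σ w _ h.2⟩
  | .cap _ :: w, _, h => ⟨h.1, d1_ok σ w _ h.2⟩
  | .cr i _ :: w, m, h => by
    have h1 := h.1
    rw [st]
    split_ifs
    · exact d1_ok σ w _ h.2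
    · refine ⟨h1, by omega, ?_⟩
      rw [show m - 2 + 2 = m by omega]
      exact d1_ok σ w _ h.2

theorem d1_U (σ : ℕ → Bool) : ∀ (w : List Pc) (l : List ℕ),
    U (1 : ℂ) 1 2 l (st σ w) = 2 ^ comps l (st σ w)
  | [], _ => by simp [st, U, comps]
  | .cup _ _ :: w, _ => by simp only [st, U, comps, d1_U σ w]
  | .cap _ :: w, _ => by
    simp only [st, U, comps, d1_U σ w, pow_add]
    split_ifs <;> simp
  | .cr _ _ :: w, _ => by
    rw [st]
    split_ifs
    · exact d1_U σ w _
    · simp only [U, comps, d1_U σ w, pow_add]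
      split_ifs <;> simp

section lam

variable {V : Type} [Fintype V] [DecidableEq V]

open Classical in
/-- sum over the colourings that respect a partition -/
noncomputable def d1L (π : Setoid V) (ν : ℕ → V) (v : (ℕ → ZMod 4) → ℂ) : ℂ :=
  ∑ φ : V → ZMod 4, if π ≤ Setoid.ker φ then v (φ ∘ ν) else 0

theorem d1_congr {π : Setoid V} {ν ν' : ℕ → V} (h : ∀ k, π (ν k) (ν' k))
    (v : (ℕ → ZMod 4) → ℂ) : d1L π ν v = d1L π ν' v := by
  unfold d1L
  refine sum_congr rfl fun φ _ => ?_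
  split_ifs with g
  · congr 1
    funext k
    exact g (h k)
  · rfl

omit [Fintype V] [DecidableEq V] in
theorem d1_jn (π : Setoid V) (a b : V) (φ : V → ZMod 4) :
    jn π a b ≤ Setoid.ker φ ↔ π ≤ Setoid.ker φ ∧ φ a = φ b :=
  ⟨fun h => ⟨(le_jn _ _ _).trans h, h (jn_self _ _ _)⟩, fun h => jn_le h.1 h.2⟩

omit [Fintype V] [DecidableEq V] in
theorem d1_del (j : ℕ) (φ : V → ZMod 4) (ν : ℕ → V) : del1 j (φ ∘ ν) = φ ∘ del1 j ν := by
  funext k
  simp only [del1, Function.comp]
  split_ifs <;> rfl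

omit [Fintype V] [DecidableEq V] in
theorem d1_ins (j : ℕ) (φ : V → ZMod 4) (ν : ℕ → V) (a : V) :
    ins1 j (φ a) (φ ∘ ν) = φ ∘ ins1 j a ν := by
  funext k
  simp only [ins1, Function.comp]
  split_ifs <;> rfl

theorem d1_fresh (f : V) (F : (V → ZMod 4) → ZMod 4 → ℂ)
    (h : ∀ φ a b, F (Function.update φ f b) a = F φ a) :
    ∑ φ, ∑ a, F φ a = 4 * ∑ φ, F φ (φ f) := by
  have hi : Function.Involutive fun p : (V → ZMod 4) × ZMod 4 =>
      (Function.update p.1 f p.2, p.1 f) := by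
    intro p
    simp
  rw [← Fintype.sum_prod_type', ← Equiv.sum_comp hi.toPerm]
  simp only [Function.Involutive.coe_toPerm, h]
  rw [Fintype.sum_prod_type, mul_sum]
  refine sum_congr rfl fun φ _ => ?_
  simp [ZMod.card]

omit [Fintype V] in
theorem d1_upd {π : Setoid V} {f : V} (hπ : ∀ a, π a f → a = f) (φ : V → ZMod 4) (b : ZMod 4) :
    π ≤ Setoid.ker (Function.update φ f b) ↔ π ≤ Setoid.ker φ := by
  have key : ∀ (ψ : V → ZMod 4) (c : ZMod 4), π ≤ Setoid.ker ψ →
      π ≤ Setoid.ker (Function.update ψ f c) := by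
    intro ψ c g x y hxy
    by_cases hy : y = f
    · subst hy
      rw [hπ x hxy]
    · have hx : x ≠ f := fun e => hy (hπ y (e ▸ π.symm' hxy))
      have : ψ x = ψ y := g hxy
      show Function.update ψ f c x = Function.update ψ f c y
      rw [Function.update_of_ne hx, Function.update_of_ne hy, this]
  refine ⟨fun g => ?_, key φ b⟩
  have := key _ (φ f) g
  simpa using this

omit [Fintype V] in
theorem d1_upd' {ν : ℕ → V} {f : V} (hν : ∀ k, ν k ≠ f) (φ : V → ZMod 4) (b : ZMod 4) :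
    Function.update φ f b ∘ ν = φ ∘ ν := by
  funext k
  exact Function.update_of_ne (hν k) _ _

theorem d1_cupE (π : Setoid V) (ν : ℕ → V) (j : ℕ) (v : (ℕ → ZMod 4) → ℂ) :
    d1L π ν (pcup 2 (2 * j) v) = d1L π (del1 j ν) v := by
  simp only [d1L, pcup_even, d1_del]

theorem d1_cupO (π : Setoid V) (ν : ℕ → V) (j : ℕ) (v : (ℕ → ZMod 4) → ℂ) :
    d1L π ν (pcup 2 (2 * j + 1) v) =
      2 * d1L (jn π (ν j) (ν (j + 1))) (del1 (j + 1) ν) v := by
  classical
  simp only [d1L, pcup_odd, d1_del, d1_jn, mul_sum]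
  refine sum_congr rfl fun φ _ => ?_
  by_cases h1 : π ≤ Setoid.ker φ <;> by_cases h2 : φ (ν j) = φ (ν (j + 1)) <;> simp [h1, h2]

theorem d1_capO (π : Setoid V) (ν : ℕ → V) (j : ℕ) (v : (ℕ → ZMod 4) → ℂ) :
    d1L π ν (pcap 2 (2 * j + 1) v) = d1L π (ins1 (j + 1) (ν j) ν) v := by
  simp only [d1L, pcap_odd, ← d1_ins]
  rfl

theorem d1_capE {π : Setoid V} {ν : ℕ → V} {f : V} (hπ : ∀ a, π a f → a = f) (hν : ∀ k, ν k ≠ f)
    (j : ℕ) (v : (ℕ → ZMod 4) → ℂ) :
    d1L π ν (pcap 2 (2 * j) v) = 2 * d1L π (ins1 j f ν) v := by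
  classical
  have := d1_fresh f (fun φ a => if π ≤ Setoid.ker φ then v (ins1 j a (φ ∘ ν)) else 0)
    fun φ a b => by simp only [d1_upd hπ, d1_upd' hν]
  simp only [d1_ins] at this
  have h2 : d1L π ν (pcap 2 (2 * j) v) = 2⁻¹ * ∑ φ : V → ZMod 4, ∑ a,
      if π ≤ Setoid.ker φ then v (ins1 j a (φ ∘ ν)) else 0 := by
    simp only [d1L, pcap_even, mul_sum]
    refine sum_congr rfl fun φ _ => ?_
    split_ifs <;> simp
  rw [h2, this, d1L]
  ring

theorem d1_id {π : Setoid V} {ν : ℕ → V} {f : V} (hπ : ∀ a, π a f → a = f) (hν : ∀ k, ν k ≠ f)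
    (j : ℕ) (v : (ℕ → ZMod 4) → ℂ) :
    d1L π ν v = 4 * d1L (jn π f (ν j)) (ins1 j f (del1 j ν)) v := by
  classical
  have h1 : d1L (jn π f (ν j)) (ins1 j f (del1 j ν)) v = d1L (jn π f (ν j)) ν v := by
    refine d1_congr (fun k => ?_) v
    conv_rhs => rw [← ins1_del1 j ν]
    simp only [ins1]
    split_ifs
    · exact (jn _ _ _).refl' _
    · exact jn_self _ _ _
    · exact (jn _ _ _).refl' _
  have := d1_fresh f
    (fun φ a => if π ≤ Setoid.ker φ ∧ a = φ (ν j) then v (φ ∘ ν) else 0)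
    fun φ a b => by simp only [d1_upd hπ, d1_upd' hν, Function.update_of_ne (hν j)]
  rw [h1]
  simp only [d1L, d1_jn]
  rw [← this]
  refine sum_congr rfl fun φ _ => ?_
  by_cases g : π ≤ Setoid.ker φ <;> simp [g]

theorem d1_crO (π : Setoid V) (ν : ℕ → V) (j : ℕ) (v : (ℕ → ZMod 4) → ℂ) :
    d1L π ν (pcup 2 (2 * j + 1) (pcap 2 (2 * j + 1) v)) =
      2 * d1L (jn π (ν j) (ν (j + 1))) ν v := by
  rw [d1_cupO, d1_capO]
  congr 1
  refine d1_congr (fun k => ?_) v
  conv_rhs => rw [← ins1_del1 (j + 1) ν]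
  rw [del1_lt (Nat.lt_succ_self j)]
  simp only [ins1]
  split_ifs
  · exact (jn _ _ _).refl' _
  · exact jn_self _ _ _
  · exact (jn _ _ _).refl' _

theorem d1_count (π : Setoid V) (ν : ℕ → V) :
    d1L π ν (fun _ => 1) = 4 ^ Nat.card (Quotient π) := by
  classical
  have h1 : Nat.card {f : V → ZMod 4 // π ≤ Setoid.ker f} = 4 ^ Nat.card (Quotient π) := by
    rw [Nat.card_congr (Setoid.liftEquiv π), Nat.card_fun, Nat.card_zmod]
  rw [d1L, sum_boole, ← Fintype.card_subtype, ← Nat.card_eq_fintype_card, h1]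
  norm_num

end lam

/-- the points above `m` are alone -/
def d1t (N m : ℕ) : Setoid (Fin (N + 1)) where
  r a b := a = b ∨ (a.val ≤ m ∧ b.val ≤ m)
  iseqv := ⟨fun _ => Or.inl rfl, fun h => h.elim (fun e => Or.inl e.symm) fun e => Or.inr e.symm, by
    rintro a b c (rfl | h) (rfl | g)
    · exact Or.inl rfl
    · exact Or.inr g
    · exact Or.inr h
    · exact Or.inr ⟨h.1, g.2⟩⟩

theorem d1t_le (N m : ℕ) : d1t N m ≤ d1t N (m + 1) := by
  rintro a b (h | h)
  · exact Or.inl h
  · exact Or.inr ⟨by omega, by omega⟩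

/-- the chosen crossings -/
def d1S (o : ℕ) (σ : ℕ → Bool) (w : List Pc) : Finset ℕ :=
  (range (crs w)).filter fun n => σ n = decide ((ps w n + o) % 2 = 0)

theorem d1S_not (o : ℕ) (σ : ℕ → Bool) (w : List Pc) : crs w ∉ d1S o σ w := by simp [d1S]

theorem d1S_cr (o : ℕ) (σ : ℕ → Bool) (i : ℕ) (s : Bool) (w : List Pc) :
    d1S o σ (.cr i s :: w) = if σ (crs w) = decide ((i + o) % 2 = 0) then
      insert (crs w) (d1S o σ w) else d1S o σ w := by
  have h : (range (crs w)).filter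
      (fun n => σ n = decide ((ps (.cr i s :: w) n + o) % 2 = 0)) = d1S o σ w :=
    filter_congr fun n hn => by rw [ps, if_neg (mem_range.1 hn).ne]
  rw [d1S, crs, range_add_one, filter_insert, h, ps, if_pos rfl]

theorem d1_img {V : Type} [DecidableEq V] (en : ℕ → V) {S : Finset ℕ} {n : ℕ} (h : n ∉ S) (e : V) :
    S.image (Function.update en n e) = S.image en :=
  image_congr fun k hk => Function.update_of_ne (fun g : k = n => h (g ▸ mem_coe.1 hk)) _ _

theorem d1_main (N o : ℕ) : ∀ w : List Pc, w.length ≤ N →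
    ∃ (ν : ℕ → Fin (N + 1)) (ρ : Setoid (Fin (N + 1))) (en : ℕ → Sym2 (Fin (N + 1))) (g : ℕ),
      (∀ k, (ν k).val ≤ w.length) ∧ ρ ≤ d1t N w.length ∧
      (∀ n a b, en n = s(a, b) → d1t N w.length a b) ∧
      ∀ (σ : ℕ → Bool) (v : (ℕ → ZMod 4) → ℂ),
        d1L ⊥ (fun _ => (0 : Fin (N + 1))) ((d1T o).ev 1 1 (st σ w) v) =
          2 ^ (g + (d1S o σ w).card) * d1L (gen ρ ((d1S o σ w).image en)) ν v
  | [], _ => ⟨fun _ => 0, ⊥, fun _ => s(0, 0), 0, fun _ => le_rfl, bot_le, fun _ a b h => by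
      rcases Sym2.eq_iff.1 h with ⟨rfl, rfl⟩ | ⟨rfl, rfl⟩ <;> exact Or.inl rfl,
      fun σ v => by simp [d1S, crs, st, TL.ev]⟩
  | p :: w, hw => by
    rw [List.length_cons] at hw ⊢
    obtain ⟨ν, ρ, en, g, h1, h2, h3, H⟩ := d1_main N o w (by omega)
    let f : Fin (N + 1) := ⟨w.length + 1, by omega⟩
    have hf : f.val = w.length + 1 := rfl
    have hν : ∀ k, ν k ≠ f := fun k e => by have := h1 k; rw [e, hf] at this; omega
    have hπ : ∀ (S : Finset ℕ) a, gen ρ (S.image en) a f → a = f := by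
      intro S a h
      have : d1t N w.length a f := gen_le h2 (fun x y hxy => by
        obtain ⟨n, -, e⟩ := mem_image.1 hxy
        exact h3 n x y e) h
      rcases this with e | e
      · exact e
      · have := e.2; omega
    have h1' : ∀ k, (ν k).val ≤ w.length + 1 := fun k => (h1 k).trans (Nat.le_succ _)
    have h2' := h2.trans (d1t_le N _)
    have h3' : ∀ n a b, en n = s(a, b) → d1t N (w.length + 1) a b :=
      fun n a b e => d1t_le N _ (h3 n a b e)
    have hdel : ∀ j k, (del1 j ν k).val ≤ w.length + 1 := fun j k => by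
      simp only [del1]; split_ifs <;> exact h1' _
    have hins : ∀ (μ : ℕ → Fin (N + 1)) (j : ℕ) (a : Fin (N + 1)), a.val ≤ w.length + 1 →
        (∀ k, (μ k).val ≤ w.length + 1) → ∀ k, (ins1 j a μ k).val ≤ w.length + 1 :=
      fun μ j a ha hμ k => by
        simp only [ins1]; split_ifs
        · exact hμ _
        · exact ha
        · exact hμ _
    have hupd : ∀ (n : ℕ) (c d : Fin (N + 1)), c.val ≤ w.length + 1 → d.val ≤ w.length + 1 →
        ∀ k a b, Function.update en n s(c, d) k = s(a, b) → d1t N (w.length + 1) a b := by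
      intro n c d hc hd k a b e
      by_cases hk : k = n
      · rw [hk, Function.update_self] at e
        rcases Sym2.eq_iff.1 e with ⟨rfl, rfl⟩ | ⟨rfl, rfl⟩
        · exact Or.inr ⟨hc, hd⟩
        · exact Or.inr ⟨hd, hc⟩
      · rw [Function.update_of_ne hk] at e
        exact h3' k a b e
    match p with
    | .cup i d =>
      rcases Nat.even_or_odd' (o + i) with ⟨j, e | e⟩
      · refine ⟨del1 j ν, ρ, en, g, hdel j, h2', h3', fun σ v => ?_⟩
        have := H σ (pcup 2 (o + i) v)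
        rw [e, d1_cupE, ← e] at this
        exact this
      · refine ⟨del1 (j + 1) ν, jn ρ (ν j) (ν (j + 1)), en, g + 1, hdel _,
          jn_le h2' (Or.inr ⟨h1' _, h1' _⟩), h3', fun σ v => ?_⟩
        have := H σ (pcup 2 (o + i) v)
        rw [e, d1_cupO, ← e, ← gen_jn] at this
        refine this.trans ?_
        show _ = 2 ^ (g + 1 + (d1S o σ w).card) * d1L (gen _ ((d1S o σ w).image en)) _ v
        ring
    | .cap i =>
      rcases Nat.even_or_odd' (o + i) with ⟨j, e | e⟩
      · refine ⟨ins1 j f ν, ρ, en, g + 1, hins _ _ _ hf.le h1', h2', h3', fun σ v => ?_⟩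
        have := H σ (pcap 2 (o + i) v)
        rw [e, d1_capE (hπ _) hν, ← e] at this
        refine this.trans ?_
        show _ = 2 ^ (g + 1 + (d1S o σ w).card) * d1L (gen _ ((d1S o σ w).image en)) _ v
        ring
      · refine ⟨ins1 (j + 1) (ν j) ν, ρ, en, g, hins _ _ _ (h1' _) h1', h2', h3', fun σ v => ?_⟩
        have := H σ (pcap 2 (o + i) v)
        rw [e, d1_capO, ← e] at this
        exact this
    | .cr i s =>
      rcases Nat.even_or_odd' (o + i) with ⟨j, e | e⟩
      · refine ⟨ins1 j f (del1 j ν), ρ, Function.update en (crs w) s(f, ν j), g + 1,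
          hins _ _ _ hf.le (hdel j), h2', hupd _ _ _ hf.le (h1' _), fun σ v => ?_⟩
        rw [d1S_cr, st, decide_eq_true (show (i + o) % 2 = 0 by omega)]
        split_ifs with hσ
        · rw [H σ v, image_insert, Function.update_self, d1_img en (d1S_not o σ w), gen_insert,
            card_insert_of_notMem (d1S_not o σ w), d1_id (hπ _) hν j]
          ring
        · have := H σ (pcup 2 (o + i) (pcap 2 (o + i) v))
          rw [e, d1_cupE, d1_capE (hπ _) (fun k => by
            simp only [del1]; split_ifs <;> exact hν _), ← e] at this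
          rw [d1_img en (d1S_not o σ w)]
          refine this.trans ?_
          ring
      · refine ⟨ν, ρ, Function.update en (crs w) s(ν j, ν (j + 1)), g,
          h1', h2', hupd _ _ _ (h1' _) (h1' _), fun σ v => ?_⟩
        rw [d1S_cr, st, decide_eq_false (show ¬(i + o) % 2 = 0 by omega)]
        cases hσ : σ (crs w)
        · rw [if_neg (by simp), if_pos rfl, image_insert, Function.update_self,
            d1_img en (d1S_not o σ w), gen_insert, card_insert_of_notMem (d1S_not o σ w)]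
          have := H σ (pcup 2 (o + i) (pcap 2 (o + i) v))
          rw [e, d1_crO, ← e] at this
          refine this.trans ?_
          ring
        · rw [if_pos rfl, if_neg (by simp), d1_img en (d1S_not o σ w)]
          exact H σ v

theorem d1 : PD1 := by
  intro D o hD
  obtain ⟨ν, ρ, en, g, -, -, -, H⟩ := d1_main D.length o D le_rfl
  obtain ⟨r, r1, r2⟩ := exists_rep ρ
  refine ⟨fun e => (en e).map r, g - 2 * rk ρ, fun σ S hS => ?_⟩
  have hS' : S = d1S o σ D := hS
  have h1 := H σ fun _ => 1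
  rw [TL.ev_nil _ _ _ (d1_ok σ D 0 hD), d1_U, ← hS', d1_count] at h1
  have h2 : d1L ⊥ (fun _ => (0 : Fin (D.length + 1)))
      ((2 : ℂ) ^ comps [] (st σ D) • fun _ => (1 : ℂ)) =
      2 ^ comps [] (st σ D) * d1L ⊥ (fun _ => (0 : Fin (D.length + 1))) fun _ => 1 := by
    simp only [d1L, mul_sum]
    refine sum_congr rfl fun φ _ => ?_
    split_ifs <;> simp
  rw [h2, d1_count, show (4 : ℂ) = 2 ^ 2 by norm_num, ← pow_mul, ← pow_mul, ← pow_add,
    ← pow_add] at h1
  have h3 := Nat.pow_right_injective (le_refl 2) (by exact_mod_cast h1)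
  have h4 := (con r1 r2 (S.image en)).1
  rw [image_image] at h4
  have h5 : gr (fun e => (en e).map r) S + rk ρ = rk (gen ρ (S.image en)) := h4
  have h6 := rk_bot (V := Fin (D.length + 1))
  have h7 := card_quot_le (⊥ : Setoid (Fin (D.length + 1)))
  have h8 := card_quot_le (gen ρ (S.image en))
  rw [rk] at h6
  rw [rk.eq_1 (gen ρ (S.image en))] at h5
  omega

end Pool.Agent.P.MP_833722_gt.TG
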