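import Pool.Agent.P.MP_833722_gt.TG.Defs

/-! From diagrams to pairs of graphs. -/

set_option autoImplicit false

namespace Pool.Agent.P.MP_833722_gt.TG

open Finset LaurentPolynomial

/-- type of a crossing -/
def d2_sn : List Pc → ℕ → Bool
  | [], _ => true
  | .cup _ _ :: w, n => d2_sn w n
  | .cap _ :: w, n => d2_sn w n
  | .cr _ s :: w, n => if n = crs w then s else d2_sn w n

/-- exponent of a state -/
def d2_ex (σ : ℕ → Bool) (w : List Pc) : ℤ :=
  ∑ n ∈ range (crs w), if σ n = d2_sn w n then 1 else -1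

/-- the smoothing given by a set of crossings -/
def d2_sg (τ : ℕ → Bool) (S : Finset ℕ) (n : ℕ) : Bool := if n ∈ S then τ n else !τ n

theorem d2_congr {σ σ' : ℕ → Bool} : ∀ w : List Pc, (∀ n < crs w, σ n = σ' n) → st σ w = st σ' w
  | [], _ => rfl
  | .cup _ _ :: w, h => by simp only [st, d2_congr w h]
  | .cap _ :: w, h => by simp only [st, d2_congr w h]
  | .cr _ _ :: w, h => by
    simp only [st, d2_congr w fun n hn => h n (Nat.lt_succ_of_lt hn), h _ (Nat.lt_succ_self _)]

theorem d2_ex_cr {σ σ' : ℕ → Bool} (i : ℕ) (s : Bool) (w : List Pc)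
    (h : ∀ n < crs w, σ n = σ' n) :
    d2_ex σ (.cr i s :: w) = d2_ex σ' w + if σ (crs w) = s then 1 else -1 := by
  rw [d2_ex, crs, sum_range_succ, show d2_sn (.cr i s :: w) (crs w) = s from if_pos rfl]
  congr 1
  exact sum_congr rfl fun n hn => by
    rw [show d2_sn (.cr i s :: w) n = d2_sn w n from if_neg (mem_range.1 hn).ne,
      h n (mem_range.1 hn)]

theorem d2_sum {M : Type} [AddCommMonoid M] (τ : ℕ → Bool) : ∀ (w : List Pc)
    (F : ℤ × List Pc → M), ((states w).map F).sum =
      ∑ S ∈ (range (crs w)).powerset, F (d2_ex (d2_sg τ S) w, st (d2_sg τ S) w)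
  | [], F => by simp [states, crs, d2_ex, st]
  | .cup i d :: w, F => by rw [states, List.map_map, d2_sum τ w]; rfl
  | .cap i :: w, F => by rw [states, List.map_map, d2_sum τ w]; rfl
  | .cr i s :: w, F => by
    rw [states, List.map_append, List.sum_append, List.map_map, List.map_map, d2_sum τ w,
      d2_sum τ w, crs, range_add_one, sum_powerset_insert notMem_range_self, ← sum_add_distrib,
      ← sum_add_distrib]
    refine sum_congr rfl fun S hS => ?_
    have h1 : crs w ∉ S := fun h => notMem_range_self (mem_powerset.1 hS h)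
    have h2 : ∀ n < crs w, d2_sg τ (insert (crs w) S) n = d2_sg τ S n := fun n hn => by
      simp only [d2_sg, mem_insert, hn.ne, false_or]
    have h3 : d2_sg τ (insert (crs w) S) (crs w) = τ (crs w) := if_pos (mem_insert_self _ _)
    have h4 : d2_sg τ S (crs w) = !τ (crs w) := if_neg h1
    rw [d2_ex_cr i s w h2, d2_ex_cr i s w fun _ _ => rfl]
    simp only [st, d2_congr w h2, h3, h4, Function.comp]
    cases τ (crs w) <;> cases s <;> simp [add_comm, sub_eq_add_neg]

theorem d2_mem : ∀ (w : List Pc), ∀ p ∈ states w, ∃ σ, p.2 = st σ w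
  | [], p, hp => ⟨fun _ => true, by simp only [states, List.mem_singleton] at hp; rw [hp]; rfl⟩
  | .cup i d :: w, p, hp => by
    obtain ⟨q, hq, rfl⟩ := List.mem_map.1 hp
    obtain ⟨σ, h⟩ := d2_mem w q hq
    exact ⟨σ, by rw [st, ← h]⟩
  | .cap i :: w, p, hp => by
    obtain ⟨q, hq, rfl⟩ := List.mem_map.1 hp
    obtain ⟨σ, h⟩ := d2_mem w q hq
    exact ⟨σ, by rw [st, ← h]⟩
  | .cr i s :: w, p, hp => by
    have h1 : ∀ (σ : ℕ → Bool) b, st (Function.update σ (crs w) b) w = st σ w := fun σ b =>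
      d2_congr w fun n hn => Function.update_of_ne hn.ne _ _
    rcases List.mem_append.1 hp with hp | hp <;> obtain ⟨q, hq, rfl⟩ := List.mem_map.1 hp <;>
      obtain ⟨σ, h⟩ := d2_mem w q hq
    · exact ⟨Function.update σ (crs w) true, by simp [st, h1, h]⟩
    · exact ⟨Function.update σ (crs w) false, by simp [st, h1, h]⟩

theorem d2_sm (t : Bool) : ∀ w : List Pc, sm t w = st (fun n => decide (d2_sn w n = t)) w
  | [] => rfl
  | .cup _ _ :: w => by rw [sm, st, d2_sm t w]; rfl
  | .cap _ :: w => by rw [sm, st, d2_sm t w]; rfl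
  | .cr i s :: w => by
    have h : st (fun n => decide (d2_sn (.cr i s :: w) n = t)) w = sm t w := by
      rw [d2_sm t w]
      exact d2_congr w fun n hn => by simp only [d2_sn, if_neg hn.ne]
    rw [sm, st, h]
    simp [d2_sn]

theorem d2_ok (σ : ℕ → Bool) : ∀ {w : List Pc} {m : ℕ}, Ok 0 m w → Ok 0 m (st σ w)
  | [], _, h => h
  | .cup _ _ :: _, _, h => ⟨h.1, d2_ok σ h.2⟩
  | .cap _ :: _, _, h => ⟨h.1, d2_ok σ h.2⟩
  | .cr i s :: w, m, h => by
    rw [st]
    split_ifs
    · exact d2_ok σ h.2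
    · have := h.1
      refine ⟨this, by omega, ?_⟩
      rw [show m - 2 + 2 = m by omega]
      exact d2_ok σ h.2

theorem d2_pos (σ : ℕ → Bool) : ∀ {D : List Pc}, Ok 0 0 D → D ≠ [] → 1 ≤ comps [] (st σ D)
  | [], _, h => absurd rfl h
  | .cup _ _ :: w, h, _ =>
    comps_pos (st σ w) _ (by rw [length_ins]; exact d2_ok σ h.2) (by simp [ins])
  | .cap _ :: _, h, _ => absurd h.1 (by omega)
  | .cr _ _ :: _, h, _ => absurd h.1 (by omega)

theorem d2_forest {V : Type} [Fintype V] [DecidableEq V] (en : ℕ → Sym2 V) (F : Finset ℕ) :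
    ∃ S ⊆ F, S.card = gr en S ∧ gr en S = gr en F := by
  induction F using Finset.induction_on with
  | empty => exact ⟨∅, Subset.rfl, by simp, rfl⟩
  | insert e F he ih =>
    obtain ⟨S, h1, h2, h3⟩ := ih
    have a1 := gr_mono en (subset_insert e F)
    by_cases h : gr en (insert e F) = gr en F
    · exact ⟨S, h1.trans (subset_insert _ _), h2, h3.trans h.symm⟩
    · have a2 := gr_sub en h1 {e}
      have a3 := gr_insert_le en e S
      have a4 := gr_insert_le en e F
      rw [union_comm, union_comm S, ← insert_eq, ← insert_eq] at a2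
      exact ⟨insert e S, insert_subset_insert _ h1,
        by rw [card_insert_of_notMem fun g => he (h1 g)]; omega, by omega⟩

theorem d2 (h : PD1) : PD2 := by
  intro D hD h0 hT
  obtain ⟨en, c, h1⟩ := h D 0 hD
  obtain ⟨en', c', h2⟩ := h D 1 hD
  obtain ⟨τ, hτ⟩ : ∃ τ : ℕ → Bool, ∀ n, τ n = decide ((ps D n + 0) % 2 = 0) := ⟨_, fun _ => rfl⟩
  have hτ' : ∀ n, (!τ n) = decide ((ps D n + 1) % 2 = 0) := fun n => by
    rw [hτ, ← decide_not]
    exact decide_eq_decide.2 (by omega)
  simp only [← hτ] at h1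
  simp only [← hτ'] at h2
  have a1 : ∀ S ⊆ range (crs D),
      (comps [] (st (d2_sg τ S) D) : ℤ) = c + S.card - 2 * gr en S := fun S hS => by
    refine h1 _ _ (Finset.ext fun n => ?_)
    have := @hS n
    by_cases g : n ∈ S <;> simp_all [d2_sg]
  have a2 : ∀ S ⊆ range (crs D),
      (comps [] (st (d2_sg τ (range (crs D) \ S)) D) : ℤ) = c' + S.card - 2 * gr en' S :=
    fun S hS => by
      refine h2 _ _ (Finset.ext fun n => ?_)
      have := @hS n
      by_cases g : n ∈ S <;> by_cases g' : n < crs D <;> simp_all [d2_sg]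
  have dual : ∀ S ⊆ range (crs D),
      gr en' S + gr en (range (crs D)) = S.card + gr en (range (crs D) \ S) := fun S hS => by
    have b1 := a2 S hS
    have b2 := a2 ∅ (empty_subset _)
    rw [a1 _ sdiff_subset] at b1 b2
    have b3 := card_sdiff_add_card_eq_card hS
    rw [sdiff_empty, card_empty, gr_empty] at b2
    omega
  obtain ⟨S0, s1, s2, s3⟩ := d2_forest en (range (crs D))
  have k1 := a1 S0 s1
  have k2 := d2_pos (d2_sg τ S0) hD h0
  obtain ⟨j, hj⟩ : ∃ j : ℕ, c = j + 1 + gr en (range (crs D)) :=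
    ⟨comps [] (st (d2_sg τ S0) D) - 1, by omega⟩
  let P : DP (Fin (D.length + 1)) :=
    ⟨range (crs D), en, en', fun n => if τ n then !d2_sn D n else d2_sn D n, dual⟩
  refine ⟨P, j, ?_, ?_⟩
  · obtain ⟨p, hp, hp'⟩ := hT
    obtain ⟨σ, hσ⟩ := d2_mem D p hp
    have b1 := h1 σ _ rfl
    have b2 := gr_le_card en ((range (crs D)).filter fun n => σ n = τ n)
    have b3 := gr_mono en (filter_subset (fun n => σ n = τ n) (range (crs D)))
    have b4 := h1 (fun n => decide (d2_sn D n = true)) P.Em (filter_congr fun n _ => by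
      simp only [P]; cases τ n <;> cases d2_sn D n <;> simp)
    have b5 := h1 (fun n => decide (d2_sn D n = false)) P.Ep (filter_congr fun n _ => by
      simp only [P]; cases τ n <;> cases d2_sn D n <;> simp)
    have b6 := card_sdiff_add_card_eq_card (show P.Ep ⊆ P.E from filter_subset _ _)
    rw [P.sdiff_Ep, show P.E.card = crs D from card_range _] at b6
    rw [← d2_sm] at b4 b5
    rw [hσ] at hp'
    show gr en P.Ep + gr en P.Em ≤ gr en (range (crs D)) + 1
    omega
  · rw [bracket, d2_sum τ, DP.Br, mul_sum]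
    refine sum_congr rfl fun S hS => ?_
    have b1 := a1 S (mem_powerset.1 hS)
    have b2 := gr_le_card en S
    have b3 : gr en S ≤ gr en (range (crs D)) := gr_mono en (mem_powerset.1 hS)
    have b4 : comps [] (st (d2_sg τ S) D) - 1 =
        j + (gr en (range (crs D)) - gr en S + (S.card - gr en S)) := by omega
    have b5 : d2_ex (d2_sg τ S) D = ∑ e ∈ P.E, if decide (e ∈ S) = P.sg e then -1 else 1 :=
      sum_congr rfl fun n _ => by
        by_cases g : n ∈ S <;> cases g1 : τ n <;> cases g2 : d2_sn D n <;>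
          simp [P, d2_sg, g, g1, g2]
    simp only [b4, b5, pow_add, ← dl.eq_def]
    rw [mul_left_comm]

end Pool.Agent.P.MP_833722_gt.TG
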