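import Pool.Agent.P.MP_833722_gt.Def

/-! Diagrams of Turaev genus at most one. -/

set_option autoImplicit false

namespace Pool.Agent.P.MP_833722_gt

/-- number of crossings -/
def crs : List Pc → ℕ
  | [] => 0
  | .cup _ _ :: w => crs w
  | .cap _ :: w => crs w
  | .cr _ _ :: w => crs w + 1

/-- the all-A state (`t = true`) and the all-B state (`t = false`) -/
def sm (t : Bool) : List Pc → List Pc
  | [] => []
  | .cup i d :: w => .cup i d :: sm t w
  | .cap i :: w => .cap i :: sm t w
  | .cr i s :: w => if s = t then sm t w else .cap i :: .cup i true :: sm t w

/-- `c + 2 m ≤ s_A + s_B + 2` for the number `m` of circles of some Kauffman state.  The least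
such `m` is the number of connected pieces of the diagram, so this says that the Turaev genus
`(2 m + c - s_A - s_B) / 2` of the diagram is at most one. -/
def TuraevLeOne (D : List Pc) : Prop :=
  ∃ p ∈ states D, crs D + 2 * comps [] p.2 ≤ comps [] (sm true D) + comps [] (sm false D) + 2

end Pool.Agent.P.MP_833722_gt
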