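import Pool.Agent.P.MP_833722_gt.TG.Part
import Pool.Agent.P.MP_833722_gt.TG.Tur

/-! Definitions and the statements of the parts of the proof for Turaev genus at most one. -/

set_option autoImplicit false

namespace Pool.Agent.P.MP_833722_gt.TG

open Finset LaurentPolynomial
open Real (exp)

section model

variable {V : Type} [Fintype V] [DecidableEq V]

open Classical in
/-- indicator -/
noncomputable def ind (p : Prop) : ℝ := if p then 1 else 0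

/-- the signed sum over edge sets; it is a positive functional of `Φ` -/
noncomputable def Z (k : ℝ) (w : Sym2 V → ℝ) (E : Finset (Sym2 V)) (ρ : Setoid V)
    (Φ : Setoid V → ℝ) : ℝ :=
  ∑ S ∈ E.powerset, (∏ e ∈ S, -w e) * (-k)⁻¹ ^ (rk (gen ρ S) - rk ρ) * Φ (gen ρ S)

/-- the same sum for a multigraph, all edges having weight `c` -/
noncomputable def ZM (k c : ℝ) (en : ℕ → Sym2 V) (F : Finset ℕ) (Φ : Setoid V → ℝ) : ℝ :=
  ∑ S ∈ F.powerset, (-c) ^ S.card * (-k)⁻¹ ^ gr en S * Φ (gen ⊥ (S.image en))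

/-- multiplicity -/
def mlt (en : ℕ → Sym2 V) (F : Finset ℕ) (s : Sym2 V) : ℕ := (F.filter fun e => en e = s).card

open Classical in
/-- the action of one more edge `ab` of weight `c` -/
noncomputable def LL (k c : ℝ) (a b : V) (Φ : Setoid V → ℝ) (π : Setoid V) : ℝ :=
  if π a b then (1 - c) * Φ π else Φ π + c / k * Φ (jn π a b)

/-- among the points of `W`, exactly those of `B` are joined -/
def Sep (W B : Finset V) (π : Setoid V) : Prop :=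
  ∀ a ∈ W, ∀ b ∈ W, π a b ↔ a = b ∨ (a ∈ B ∧ b ∈ B)

/-- two blocks -/
def Sep2 (W B C : Finset V) (π : Setoid V) : Prop :=
  ∀ a ∈ W, ∀ b ∈ W, π a b ↔ a = b ∨ (a ∈ B ∧ b ∈ B) ∨ (a ∈ C ∧ b ∈ C)

/-- mass of an event -/
noncomputable def mu (k : ℝ) (w : Sym2 V → ℝ) (E : Finset (Sym2 V)) (W B : Finset V) : ℝ :=
  Z k w E ⊥ fun π => ind (Sep W B π)

/-- the mass after identifying `a` and `b` -/
noncomputable def nu (k : ℝ) (w : Sym2 V → ℝ) (E : Finset (Sym2 V)) (W : Finset V) (a b : V) : ℝ :=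
  mu k w E W ∅ - k * mu k w E W {a, b}

/-- no loops, weights in `[u, 1]` -/
def Wt (u : ℝ) (w : Sym2 V → ℝ) (E : Finset (Sym2 V)) : Prop :=
  ∀ e ∈ E, ¬e.IsDiag ∧ u ≤ w e ∧ w e ≤ 1

/-- no loops, multiplicities at least one -/
def Mg (m : Sym2 V → ℕ) (E : Finset (Sym2 V)) : Prop := ∀ e ∈ E, ¬e.IsDiag ∧ 1 ≤ m e

/-- neighbours -/
def nb (E : Finset (Sym2 V)) (v : V) : Finset V := univ.filter fun a => s(v, a) ∈ E

/-- degree -/
def deg (E : Finset (Sym2 V)) (v : V) : ℕ := (nb E v).card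

/-- number of common neighbours -/
def com (E : Finset (Sym2 V)) (a b : V) : ℕ := (nb E a ∩ nb E b).card

/-- excess degree outside `W` -/
def exc (E : Finset (Sym2 V)) (W : Finset V) : ℕ := ∑ v ∈ univ \ W, (deg E v - 2)

/-- walks `v, a, b` with `a, b` outside `W` and `b ≠ v` -/
def cnt (E : Finset (Sym2 V)) (W : Finset V) (v : V) : ℕ :=
  (univ.filter fun p : V × V =>
    s(v, p.1) ∈ E ∧ s(p.1, p.2) ∈ E ∧ p.1 ∉ W ∧ p.2 ∉ W ∧ p.2 ≠ v).card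

/-- cyclomatic number -/
noncomputable def be (E : Finset (Sym2 V)) : ℕ := E.card - rk (gen ⊥ E)

/-- number of multiple edges -/
def mul (m : Sym2 V → ℕ) (E : Finset (Sym2 V)) : ℕ := (E.filter fun e => 2 ≤ m e).card

/-- minus the square of the loop value -/
noncomputable def kk (t : ℝ) : ℝ := (1 - t) ^ 2 / t

/-- weight of an edge of multiplicity `m e` -/
noncomputable def wt (t : ℝ) (m : Sym2 V → ℕ) (e : Sym2 V) : ℝ := 1 - t ^ m e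

/-- normalised bracket of an alternating diagram -/
noncomputable def AA (t : ℝ) (m : Sym2 V → ℕ) (E : Finset (Sym2 V)) : ℝ :=
  (1 - t) ^ rk (gen ⊥ E) * Z (kk t) (wt t m) E ⊥ fun _ => 1

/-- two-terminal network -/
structure Net (V : Type) [Fintype V] [DecidableEq V] where
  H : Finset (Sym2 V)
  m : Sym2 V → ℕ
  x : V
  y : V
  mg : Mg m H
  ne : x ≠ y
  nadj : s(x, y) ∉ H
  con : gen ⊥ H x y
  deg1 : ∀ v, v ≠ x → v ≠ y → deg H v ≠ 1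

/-- terminals separate -/
noncomputable def Net.m0 (N : Net V) (t : ℝ) : ℝ := mu (kk t) (wt t N.m) N.H {N.x, N.y} ∅

/-- terminals joined -/
noncomputable def Net.m1 (N : Net V) (t : ℝ) : ℝ := mu (kk t) (wt t N.m) N.H {N.x, N.y} {N.x, N.y}

/-- bracket in the main case -/
noncomputable def Bm (N N' : Net V) (t : ℝ) : ℝ :=
  (1 - t) ^ (rk (gen ⊥ N.H) - 1 + (rk (gen ⊥ N'.H) - 1)) *
    ((N.m0 t - kk t * N.m1 t) * (N'.m0 t - kk t * N'.m1 t) - kk t * (kk t + 1) * N.m1 t * N'.m1 t)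

/-- bracket with one positive edge `xy` -/
noncomputable def Bs (t : ℝ) (m : Sym2 V → ℕ) (H : Finset (Sym2 V)) (x y : V) : ℝ :=
  (1 - t) ^ rk (gen ⊥ H) *
    (t / (1 - t) * mu (kk t) (wt t m) H {x, y} ∅ - mu (kk t) (wt t m) H {x, y} {x, y} / t)

/-- the positive edge `xy` and the edges `a v`, `a' v'` form a cut; `H` is the rest -/
structure Cut (V : Type) [Fintype V] [DecidableEq V] where
  H : Finset (Sym2 V)
  m : Sym2 V → ℕ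
  x : V
  y : V
  a : V
  v : V
  a' : V
  v' : V
  mg : Mg m H
  sep : ¬gen ⊥ H x y
  ha : gen ⊥ H x a
  ha' : gen ⊥ H x a'
  hv : gen ⊥ H y v
  hv' : gen ⊥ H y v'
  nadj : s(x, y) ∉ insert s(a, v) (insert s(a', v') H)
  ncom : com (insert s(a, v) (insert s(a', v') H)) x y = 0
  deg1 : ∀ q, q ≠ x → q ≠ y → deg (insert s(a, v) (insert s(a', v') H)) q ≠ 1

/-- mass with the two cut edges added -/
noncomputable def Cut.Zc (K : Cut V) (t : ℝ) (Φ : Setoid V → ℝ) : ℝ :=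
  Z (kk t) (wt t K.m) K.H ⊥ (LL (kk t) (1 - t) K.a K.v (LL (kk t) (1 - t) K.a' K.v' Φ))

/-- bracket in the cut case -/
noncomputable def Cut.B (K : Cut V) (t : ℝ) : ℝ :=
  (1 - t) ^ (rk (gen ⊥ K.H) + 1) *
    (t / (1 - t) * K.Zc t (fun π => ind ¬π K.x K.y) - K.Zc t (fun π => ind (π K.x K.y)) / t)

/-- the correction term in the cut case -/
noncomputable def Oc (t : ℝ) (m : Sym2 V → ℕ) (H : Finset (Sym2 V)) (x y z : V) : ℝ :=
  (kk t + 1) / t * (mu (kk t) (wt t m) H {x, y, z} {x, y} +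
    t ^ 2 * mu (kk t) (wt t m) H {x, y, z} {x, z}) / mu (kk t) (wt t m) H {y, z} ∅

/-- normalised connection probability -/
noncomputable def om (t : ℝ) (m : Sym2 V → ℕ) (H : Finset (Sym2 V)) (W : Finset V) (g h : V) : ℝ :=
  kk t * mu (kk t) (wt t m) H W {g, h} / mu (kk t) (wt t m) H W ∅

end model

/-- all exponents lie in a window of length `m` -/
def Win (f : ℤ[T;T⁻¹]) (m : ℕ) : Prop :=
  ∀ i j : ℤ, f.coeff i ≠ 0 → f.coeff j ≠ 0 → i - j ≤ m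

/-- sum of the absolute values of the coefficients -/
noncomputable def nrm (f : ℤ[T;T⁻¹]) : ℕ := ∑ i ∈ f.coeff.support, (f.coeff i).natAbs

/-- the point of modulus `a` on the ray where `A ^ 4` is negative -/
noncomputable def ray (a : ℝ) : ℂˣ :=
  Units.mk0 (Complex.exp (Real.pi / 4 * Complex.I + Real.log a)) (Complex.exp_ne_zero _)

/-- control of a function at small scales -/
def CtlB (C : ℕ) (B : ℝ → ℝ) : Prop := ∃ b m : ℕ,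
  (∀ t : ℝ, 0 < t → t * (C * (b + m + 1)) ≤ 1 → |B t| ≤ C ∧ t / 4 ≤ |B t|) ∧
  ∀ j : ℕ, C ≤ j → b ≤ j ^ 3 → ∃ t : ℝ, 1 / (j : ℝ) ^ 2 ≤ t ∧ t ≤ 1 / 2 ∧
    t / 4 * (1 + t ^ 2) ^ (m - b) ≤ |B t| ∧ (j ^ 3 ≤ 8 * b → t / 4 * exp (j / C) ≤ |B t|)

/-- control of a Laurent polynomial along the ray -/
def Ctl (C : ℕ) (f : ℤ[T;T⁻¹]) : Prop := ∃ (N : ℤ) (B : ℝ → ℝ),
  (∀ a : ℝ, 0 < a → a < 1 → ‖evA (ray a) f‖ = a ^ N * |B (a ^ 4)|) ∧ CtlB C B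

/-- growth of the alternating factor -/
def Gr (C : ℕ) (A : ℝ → ℝ) (b m : ℕ) : Prop :=
  (∀ t : ℝ, 0 < t → t ≤ 1 / 2 →
    A t ≤ exp (4 * t * b + 2 * t ^ 2 * m) ∧ (1 + t ^ 2) ^ (m - b) ≤ A t) ∧
  ∀ j : ℕ, C ≤ j → b ≤ j ^ 3 → j ^ 3 ≤ 8 * b → ∀ t : ℝ, 1 / (j : ℝ) ^ 2 ≤ t →
    t ≤ 6000 / (j : ℝ) ^ 2 → exp (j / C) ≤ A t

/-- the error term -/
noncomputable def er (C b : ℕ) (t : ℝ) : ℝ := C * t + C * (b + 1) * t ^ 2

/-- the data of the two-scale argument -/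
def Two (C : ℕ) (B l O A : ℝ → ℝ) (b p p' L : ℕ) : Prop :=
  ∀ t : ℝ, 0 < t → t ≤ 1 / 100 → C * (b + 1) * t ^ 2 ≤ 1 →
    ((O t ≤ l t / 2 ∨ 2 * l t ≤ O t) → t / 4 * A t ≤ |B t|) ∧
    (O t ≤ l t / 2 → |B t| ≤ C * A t) ∧
    exp (-(2 * p * t + er C b t)) ≤ l t ∧ l t ≤ exp (-(p * t / 10) + er C b t) ∧
    O t ≤ 5 * min 1 (p' * t) + er C b t ∧ (1 - exp (-(p' * t / 10) + er C b t)) / 4 ≤ O t ∧
    O t ≤ C / t * (C * (b + 1) * t ^ 2) ^ ((L - 1) / 2) ∧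
    (1 / (C * (1 / t + b + 1))) ^ (L + 1) ≤ O t

/-- a signed pair of graphs with dual rank functions -/
structure DP (V : Type) [Fintype V] [DecidableEq V] where
  E : Finset ℕ
  en : ℕ → Sym2 V
  en' : ℕ → Sym2 V
  sg : ℕ → Bool
  dual : ∀ S ⊆ E, gr en' S + gr en E = S.card + gr en (E \ S)

namespace DP

variable {V : Type} [Fintype V] [DecidableEq V] (P : DP V)

/-- positive edges -/
def Ep : Finset ℕ := P.E.filter fun e => P.sg e = true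

/-- negative edges -/
def Em : Finset ℕ := P.E.filter fun e => P.sg e = false

theorem dual' : ∀ S ⊆ P.E, gr P.en S + gr P.en' P.E = S.card + gr P.en' (P.E \ S) := by
  intro S hS
  have h1 := P.dual _ Subset.rfl
  have h2 := P.dual _ (sdiff_subset (s := P.E) (t := S))
  have h3 := card_sdiff_add_card_eq_card hS
  rw [Finset.sdiff_sdiff_eq_self hS] at h2
  rw [sdiff_self, bot_eq_empty, gr_empty] at h1
  omega

/-- the other colouring -/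
def sw : DP V := ⟨P.E, P.en', P.en, fun e => !P.sg e, P.dual'⟩

/-- the mirror image -/
def mi : DP V := ⟨P.E, P.en, P.en', fun e => !P.sg e, P.dual⟩

@[simp] theorem sw_E : P.sw.E = P.E := rfl
@[simp] theorem sw_en : P.sw.en = P.en' := rfl
@[simp] theorem sw_en' : P.sw.en' = P.en := rfl
@[simp] theorem sw_Ep : P.sw.Ep = P.Em := by simp [sw, Ep, Em]
@[simp] theorem sw_Em : P.sw.Em = P.Ep := by simp [sw, Ep, Em]
@[simp] theorem mi_E : P.mi.E = P.E := rfl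
@[simp] theorem mi_en : P.mi.en = P.en := rfl
@[simp] theorem mi_en' : P.mi.en' = P.en' := rfl
@[simp] theorem mi_Ep : P.mi.Ep = P.Em := by simp [mi, Ep, Em]
@[simp] theorem mi_Em : P.mi.Em = P.Ep := by simp [mi, Ep, Em]

theorem Ep_union_Em : P.Ep ∪ P.Em = P.E := by
  ext e; simp only [Ep, Em, mem_union, mem_filter]; cases P.sg e <;> simp

theorem sdiff_Ep : P.E \ P.Ep = P.Em := by
  ext e; simp only [Ep, Em, mem_sdiff, mem_filter]; cases P.sg e <;> simp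

theorem sdiff_Em : P.E \ P.Em = P.Ep := by
  ext e; simp only [Ep, Em, mem_sdiff, mem_filter]; cases P.sg e <;> simp

/-- the bracket -/
noncomputable def Br : ℤ[T;T⁻¹] :=
  ∑ S ∈ P.E.powerset, T (∑ e ∈ P.E, if decide (e ∈ S) = P.sg e then -1 else 1) *
    dl ^ (gr P.en P.E - gr P.en S + (S.card - gr P.en S))

/-- genus at most one -/
def L1 : Prop := gr P.en P.Ep + gr P.en P.Em ≤ gr P.en P.E + 1

/-- genus one -/
def LE : Prop := gr P.en P.Ep + gr P.en P.Em = gr P.en P.E + 1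

/-- no separator -/
def NoSep : Prop :=
  ∀ F ⊆ P.E, F.Nonempty → F ≠ P.E → gr P.en P.E < gr P.en F + gr P.en (P.E \ F)

/-- a negative edge is spanned by the positive ones -/
def PT : Prop := ∃ e ∈ P.Em, gr P.en (insert e P.Ep) = gr P.en P.Ep

/-- the bracket is that of a smaller pair, up to a unit -/
def Red : Prop := ∃ P' : DP V, P'.E.card < P.E.card ∧ P'.L1 ∧
  ∃ k : ℤ, P.Br = T k * P'.Br ∨ P.Br = -(T k * P'.Br)

/-- the real state sum -/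
noncomputable def RS (t : ℝ) : ℝ :=
  ∑ S ∈ P.E.powerset, ((1 - t) / t) ^ (S ∩ P.Ep).card * (-(1 - t)) ^ (S ∩ P.Em).card *
    (-kk t)⁻¹ ^ gr P.en S

/-- the negative edges seen as a two-terminal network -/
def Port (en1 : ℕ → Sym2 V) (x y : V) : Prop := ∀ S ⊆ P.Em, gr en1 S = gr P.en S ∧
  (gr P.en (P.Ep ∪ S) < gr P.en P.Ep + gr P.en S ↔ gen ⊥ (S.image en1) x y)

end DP

/-- `d` lies in a triangle -/
def Tri {V : Type} (en : ℕ → Sym2 V) (E : Finset ℕ) (d : ℕ) : Prop :=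
  ∃ e ∈ E, ∃ f ∈ E, ∃ x y z : V, x ≠ y ∧ x ≠ z ∧ y ≠ z ∧
    en d = s(x, y) ∧ en e = s(x, z) ∧ en f = s(z, y)

/-- smoothing of all crossings; a crossing is named by the number of crossings above it -/
def st (σ : ℕ → Bool) : List Pc → List Pc
  | [] => []
  | .cup i d :: w => .cup i d :: st σ w
  | .cap i :: w => .cap i :: st σ w
  | .cr i _ :: w => if σ (crs w) then st σ w else .cap i :: .cup i true :: st σ w

/-- position of a crossing -/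
def ps : List Pc → ℕ → ℕ
  | [], _ => 0
  | .cup _ _ :: w, n => ps w n
  | .cap _ :: w, n => ps w n
  | .cr i _ :: w, n => if n = crs w then i else ps w n

/-! ### Statements -/

/-- Laurent polynomials -/
structure PSp : Prop where
  nmul : ∀ f g, nrm (f * g) ≤ nrm f * nrm g
  nadd : ∀ f g, nrm (f + g) ≤ nrm f + nrm g
  nT : ∀ k f, nrm (T k * f) = nrm f
  nneg : ∀ f, nrm (-f) = nrm f
  ninv : ∀ f, nrm (invert f) = nrm f
  ndl : ∀ j : ℕ, nrm (dl ^ j) ≤ 2 ^ j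
  ncoef : ∀ f i, |(f.coeff i : ℝ)| ≤ nrm f
  nev : ∀ (f) (N : ℤ) (a : ℝ), 0 < a → a < 1 → (∀ i < N, f.coeff i = 0) →
    ‖evA (ray a) f‖ ≤ a ^ N * nrm f
  wT : ∀ k f m, Win (T k * f) m ↔ Win f m
  wneg : ∀ f m, Win (-f) m ↔ Win f m
  winv : ∀ f m, Win (invert f) m ↔ Win f m
  wmul : ∀ f g m, f ≠ 0 → g ≠ 0 → Win (f * g) m → ∃ m₁ m₂, m₁ + m₂ ≤ m ∧ Win f m₁ ∧ Win g m₂
  wdl : ∀ (j : ℕ) g m, g ≠ 0 → Win (dl ^ j * g) m → 4 * j ≤ m ∧ Win g m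
  lowa : ∀ (f) (N : ℤ) (c a₀ : ℝ), 0 < a₀ →
    (∀ a : ℝ, 0 < a → a < a₀ → ‖evA (ray a) f‖ ≤ c * a ^ N) → ∀ i < N, f.coeff i = 0
  lowb : ∀ (f) (N : ℤ) (c a₀ : ℝ), 0 < c → 0 < a₀ →
    (∀ a : ℝ, 0 < a → a < a₀ → c * a ^ N ≤ ‖evA (ray a) f‖) → ∃ i ≤ N, f.coeff i ≠ 0

/-- interpolation -/
def PClose : Prop := ∀ C n : ℕ, ∃ D : ℕ, ∀ f, Ctl C f → Win f (4 * n) → nrm f ≤ D

/-- the two-scale inequality -/
def PTS : Prop := ∀ C₀ : ℕ, ∃ C : ℕ, ∀ j : ℕ, C ≤ j → ∀ (y y' l₀ l₁ O₀ O₁ : ℝ) (L : ℕ),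
  0 ≤ y' → y' ≤ y → exp (-(2 * y + C₀ / j)) ≤ l₀ → l₁ ≤ exp (-(600 * y) + C₀ / j) →
  O₀ ≤ 5 * min 1 y' + C₀ / j → (1 - exp (-(600 * y') + C₀ / j)) / 4 ≤ O₁ →
  O₀ ≤ (j : ℝ) ^ 3 * (C₀ / j) ^ ((L - 1) / 2) → (1 / (j : ℝ) ^ 4) ^ (L + 1) ≤ O₁ →
  O₀ ≤ l₀ / 2 ∨ 2 * l₁ ≤ O₁

/-- closing the two-scale argument -/
def PTwo : Prop := ∀ C₀ C₁ : ℕ, 1 ≤ C₀ → 1 ≤ C₁ → ∃ C : ℕ,
  ∀ (B l O A : ℝ → ℝ) (b m p p' L : ℕ),
    Gr C₁ A b m → p' ≤ p → p ≤ m → Two C₀ B l O A b p p' L → CtlB C B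

/-- the one-scale argument -/
def POne : Prop := ∀ C₀ C₁ : ℕ, 1 ≤ C₁ → ∃ C : ℕ, ∀ (B A : ℝ → ℝ) (b m : ℕ), Gr C₁ A b m →
  (∀ t : ℝ, 0 < t → t ≤ 1 / 100 → t / 4 * A t ≤ |B t| ∧ |B t| ≤ C₀ * A t) → CtlB C B

/-- counting -/
def PHS : Prop := ∀ (V : Type) [Fintype V] [DecidableEq V] (E : Finset (Sym2 V)),
  (∀ e ∈ E, ¬e.IsDiag) →
  (∀ U : Finset V, U.Nonempty → (∀ v, deg E v ≠ 0 → v ∈ U) →
    ∑ v ∈ U, deg E v + 2 ≤ 2 * be E + 2 * U.card) ∧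
  (∀ W v, v ∉ W → cnt E W v ≤ 2 * exc E W + 2) ∧
  ∀ x y, x ≠ y → cnt E {x, y} x ≤ (nb E x \ nb E y).card + exc E {x, y}

/-- merging two terminals -/
def PMg : Prop := ∀ (V : Type) [Fintype V] [DecidableEq V] (m : Sym2 V → ℕ)
  (H : Finset (Sym2 V)) (y z : V) (U : Finset V), Mg m H → y ≠ z → s(y, z) ∉ H → gen ⊥ H y z →
  (∀ q, q ≠ y → q ≠ z → q ∉ U → deg H q ≠ 1) → ∃ m' G, Mg (V := V) m' G ∧
    (∀ t : ℝ, 0 < t → t < 1 →
      (1 - t) * AA t m' G = (1 - t) ^ rk (gen ⊥ H) * nu (kk t) (wt t m) H {y, z} y z) ∧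
    exc H {y, z} + (nb H y \ nb H z).card ≤ 2 * be G + U.card ∧ com H y z ≤ mul m' G

/-- upper bounds for connection probabilities -/
def PU : Prop := ∀ (V : Type) [Fintype V] [DecidableEq V] (k : ℝ) (w : Sym2 V → ℝ)
  (E : Finset (Sym2 V)), 0 < k → Wt 0 w E →
  (∀ (W : Finset V) (x y : V) (X : ℕ), x ∈ W → y ∈ W → x ≠ y → s(x, y) ∉ E → cnt E W x ≤ X →
    k * mu k w E W {x, y} ≤ (2 * com E x y / k + 6 * X / k ^ 2) * mu k w E W ∅) ∧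
  ∀ (W₀ : Finset V) (X r : ℕ) (W : Finset V) (x y : V), W₀ ⊆ W → x ∈ W → y ∈ W →
    cnt E W₀ x ≤ X → (∀ v, v ∉ W₀ → cnt E W₀ v ≤ X) → (∀ n ≤ 2 * r, ¬Wk E n x y) →
    k * mu k w E W {x, y} ≤ (6 * X / k ^ 2) ^ r * mu k w E W ∅

/-- lower bound along a shortest path -/
def PL2 : Prop := ∀ (V : Type) [Fintype V] [DecidableEq V] (k u : ℝ) (w : Sym2 V → ℝ)
  (E : Finset (Sym2 V)) (W : Finset V) (x y : V) (X L : ℕ), 0 < k → 0 ≤ u → Wt u w E →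
  x ∈ W → y ∈ W → x ≠ y → exc E W ≤ X → Wk E L x y →
  (∀ z ∈ W, z ≠ x → ∀ n < L, ¬Wk E n x z) →
  (u / (k + X + W.card + 1)) ^ L * mu k w E W ∅ ≤ mu k w E W {x, y}

/-- lower bound for the merged mass -/
def PElo : Prop := ∀ (V : Type) [Fintype V] [DecidableEq V] (t : ℝ) (w : Sym2 V → ℝ)
  (E : Finset (Sym2 V)) (W : Finset V) (x y : V) (X : ℕ), 0 < t → t ≤ 1 / 100 →
  Wt (1 - t) w E → x ∈ W → y ∈ W → x ≠ y → s(x, y) ∉ E → cnt E W x ≤ X → X * t ^ 2 ≤ 1 / 20 →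
  exp (-(2 * com E x y * t + 13 * X * t ^ 2)) * mu (kk t) w E W ∅ ≤ nu (kk t) w E W x y

/-- upper bound for the merged mass -/
def PEhi : Prop := ∀ (V : Type) [Fintype V] [DecidableEq V] (t : ℝ) (w : Sym2 V → ℝ)
  (E : Finset (Sym2 V)) (W : Finset V) (x y : V) (X : ℕ), 0 < t → t ≤ 1 / 100 →
  Wt (1 - t) w E → x ∈ W → y ∈ W → x ≠ y → W.card ≤ 5 → exc E W ≤ X →
  (X + 1) * t ^ 2 ≤ 1 / 60 →
  nu (kk t) w E W x y ≤ exp (-(com E x y * t / 10) + 2 * t + 4 * X * t ^ 2) * mu (kk t) w E W ∅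

/-- growth of the alternating factor -/
def PG : Prop := ∃ C : ℕ, 1 ≤ C ∧ ∀ (V : Type) [Fintype V] [DecidableEq V]
  (m m' : Sym2 V → ℕ) (E E' : Finset (Sym2 V)), Mg m E → Mg m' E' →
  Gr C (fun t => AA t m E) (be E) (mul m E) ∧
    Gr C (fun t => AA t m E * AA t m' E') (be E + be E') (mul m E + mul m' E')

/-- main case, graphs -/
def PCMain : Prop := ∃ C : ℕ, ∀ (V : Type) [Fintype V] [DecidableEq V] (N N' : Net V),
  CtlB C (Bm N N')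

/-- cut case with an edge at the terminal, estimates -/
def PCC2 : Prop := ∃ C : ℕ, ∀ (V : Type) [Fintype V] [DecidableEq V] (m : Sym2 V → ℕ)
  (H H' : Finset (Sym2 V)) (x y z : V) (B : ℝ → ℝ), Mg m H' → H ⊆ H' → x ≠ y → x ≠ z → y ≠ z →
  s(y, z) ∉ H' → gen ⊥ H' y z → gen ⊥ H' x y →
  (∀ q, q ≠ x → q ≠ y → q ≠ z → deg H' q ≠ 1) →
  (∀ t : ℝ, 0 < t → t ≤ 1 / 100 → (1 - t) ^ 2 * B t = (1 - t) ^ rk (gen ⊥ H') * t *
    (nu (kk t) (wt t m) H' {y, z} y z - Oc t m H' x y z * mu (kk t) (wt t m) H' {y, z} ∅)) →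
  ((∀ t : ℝ, 0 < t → t ≤ 1 / 100 → Oc t m H' x y z ≤ 2 * t) ∨
    ∃ (W : Finset V) (g h : V), g ∈ W ∧ h ∈ W ∧ y ∈ W ∧ z ∈ W ∧ W.card ≤ 5 ∧ g ≠ h ∧ g ≠ y ∧
      g ≠ z ∧ s(g, h) ∉ H ∧ com H g h ≤ com H y z ∧ ∀ t : ℝ, 0 < t → t ≤ 1 / 100 →
        om t m H W g h / 4 ≤ Oc t m H' x y z ∧ Oc t m H' x y z ≤ 2 * om t m H W g h + 2 * t) →
  CtlB C B

/-- cut case with an edge at the terminal -/
def PCC : Prop := ∃ C : ℕ, ∀ (V : Type) [Fintype V] [DecidableEq V] (K : Cut V), K.a = K.x →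
  (K.a' = K.x → com K.H K.y K.v' ≤ com K.H K.y K.v) →
  (K.v' = K.y → com K.H K.x K.a' ≤ com K.H K.y K.v) → CtlB C K.B

/-- cut case with no edge at a terminal -/
def PCN : Prop := ∃ C : ℕ, ∀ (V : Type) [Fintype V] [DecidableEq V] (K : Cut V),
  K.a ≠ K.x → K.a' ≠ K.x → K.v ≠ K.y → K.v' ≠ K.y → CtlB C K.B

/-- cut case -/
def PCut : Prop := ∃ C : ℕ, ∀ (V : Type) [Fintype V] [DecidableEq V] (K : Cut V), CtlB C K.B

/-- lowest term when the terminals are far apart -/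
def PCS4 : Prop := ∀ (V : Type) [Fintype V] [DecidableEq V] (m : Sym2 V → ℕ)
  (H : Finset (Sym2 V)) (x y : V), Mg m H → x ≠ y → s(x, y) ∉ H → com H x y = 0 →
  ∃ t₀ : ℝ, 0 < t₀ ∧ ∀ t : ℝ, 0 < t → t < t₀ → t / 4 ≤ |Bs t m H x y|

/-- symmetries -/
def PSym : Prop := ∀ (V : Type) [Fintype V] [DecidableEq V] (P : DP V),
  P.sw.Br = P.Br ∧ P.mi.Br = invert P.Br ∧ (P.L1 → P.sw.L1) ∧ (P.LE → P.sw.LE) ∧
  (P.NoSep → P.sw.NoSep) ∧ (P.NoSep → 2 ≤ P.E.card → ∀ e ∈ P.E, ¬(P.en e).IsDiag ∧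
    gr P.en (P.E.erase e) = gr P.en P.E) ∧
  (P.NoSep → ∀ v, deg (P.E.image P.en) v = 1 → (P.E.image P.en).card = 1)

/-- separators, trivial bound, units -/
def PR1 : Prop := ∀ (V : Type) [Fintype V] [DecidableEq V] (P : DP V),
  (∀ F ⊆ P.E, P.L1 → gr P.en F + gr P.en (P.E \ F) ≤ gr P.en P.E → ∃ P₁ P₂ : DP V,
    P₁.E = F ∧ P₂.E = P.E \ F ∧ P₁.L1 ∧ P₂.L1 ∧ P.Br = P₁.Br * P₂.Br) ∧
  nrm P.Br ≤ 4 ^ P.E.card ∧ P.Br ≠ 0 ∧ (Win P.Br 0 → nrm P.Br = 1)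

/-- second Reidemeister move -/
def PR2 : Prop := ∀ (V : Type) [Fintype V] [DecidableEq V] (P : DP V) (e f : ℕ), P.L1 →
  P.NoSep → 3 ≤ P.E.card → e ∈ P.Ep → f ∈ P.Em → P.en e = P.en f → P.Red

/-- the fan reduction -/
def PR3 : Prop := ∀ (V : Type) [Fintype V] [DecidableEq V] (P : DP V) (d : ℕ), P.Ep = {d} →
  Tri P.en P.E d → Tri P.en' P.E d → P.Red

/-- evaluation on the ray -/
def PEval : Prop := ∀ (V : Type) [Fintype V] [DecidableEq V] (P : DP V),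
  (∀ a : ℝ, 0 < a → a < 1 → ‖evA (ray a) P.Br‖ =
    a ^ ((P.Ep.card : ℤ) - P.Em.card - 2 * gr P.en P.E) *
      |(1 - a ^ 4) ^ gr P.en P.E * P.RS (a ^ 4)|) ∧
  (P.Ep = ∅ → ∀ t : ℝ, P.RS t = ZM (kk t) (1 - t) P.en P.E fun _ => 1) ∧
  ∀ (d : ℕ) (x y : V), P.Ep = {d} → P.en d = s(x, y) → ∀ t : ℝ, 0 < t → t < 1 →
    P.RS t = -(t / (1 - t) * ZM (kk t) (1 - t) P.en P.Em (fun π => ind ¬π x y) -
      ZM (kk t) (1 - t) P.en P.Em (fun π => ind (π x y)) / t)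

/-- the port -/
def PPort : Prop := ∀ (V : Type) [Fintype V] [DecidableEq V] (P : DP V), P.NoSep → P.LE →
  ¬P.PT → ∃ (en1 : ℕ → Sym2 V) (N : Net V), N.H = P.Em.image en1 ∧ N.m = mlt en1 P.Em ∧
    P.Port en1 N.x N.y

/-- alternating case -/
def PIPure : Prop := ∃ C : ℕ, ∀ (V : Type) [Fintype V] [DecidableEq V] (P : DP V),
  P.NoSep → 2 ≤ P.E.card → P.Ep = ∅ → Ctl C P.Br

/-- main case -/
def PIMain : Prop := ∃ C : ℕ, ∀ (V : Type) [Fintype V] [DecidableEq V] (P : DP V),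
  P.NoSep → P.LE → ¬P.PT → ¬P.sw.PT → Ctl C P.Br

/-- one positive edge, in a triad -/
def PISing : Prop := ∃ C : ℕ, ∀ (V : Type) [Fintype V] [DecidableEq V] (P : DP V) (d : ℕ),
  P.NoSep → 3 ≤ P.E.card → P.Ep = {d} → (∀ e ∈ P.Em, P.en e ≠ P.en d) →
  ¬Tri P.en P.E d → Tri P.en' P.E d → Ctl C P.Br

/-- one positive edge, in no triangle and no triad -/
def PIS4 : Prop := ∀ (V : Type) [Fintype V] [DecidableEq V] (P : DP V) (d n : ℕ),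
  P.NoSep → 3 ≤ P.E.card → P.Ep = {d} → (∀ e ∈ P.Em, P.en e ≠ P.en d) →
  (∀ e ∈ P.Em, P.en' e ≠ P.en' d) → ¬Tri P.en P.E d → ¬Tri P.en' P.E d →
  Win P.Br (4 * n) → P.E.card ≤ n + 3

/-- the bound for pairs -/
def PAsm : Prop := ∀ n : ℕ, ∃ D : ℕ, ∀ (V : Type) [Fintype V] [DecidableEq V] (P : DP V),
  P.L1 → Win P.Br (4 * n) → nrm P.Br ≤ D

/-- circles of a state, counted in the graph of one colour -/
def PD1 : Prop := ∀ (D : List Pc) (o : ℕ), Ok 0 0 D →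
  ∃ (en : ℕ → Sym2 (Fin (D.length + 1))) (c : ℤ), ∀ (σ : ℕ → Bool) (S : Finset ℕ),
    S = ((range (crs D)).filter fun n => σ n = decide ((ps D n + o) % 2 = 0)) →
    (comps [] (st σ D) : ℤ) = c + S.card - 2 * gr en S

/-- from diagrams to pairs -/
def PD2 : Prop := ∀ D : List Pc, Ok 0 0 D → D ≠ [] → TuraevLeOne D →
  ∃ (P : DP (Fin (D.length + 1))) (j : ℕ), P.L1 ∧ bracket D = dl ^ j * P.Br

end Pool.Agent.P.MP_833722_gt.TG
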