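import Pool.Agent.P.MP_833722_gt.TG.Base

/-! Upper bound for the merged mass. -/

set_option autoImplicit false

namespace Pool.Agent.P.MP_833722_gt.TG

open Finset
open Real (exp)

variable {V : Type} [Fintype V] [DecidableEq V] {k t : ℝ} {w : Sym2 V → ℝ}
  {E F : Finset (Sym2 V)} {W : Finset V} {x y z : V}

theorem ehi_nu (hk : 0 < k) (ht : t ≤ 1) (hw : Wt (1 - t) w (insert s(z, x) F)) (hx : x ∈ W)
    (hy : y ∈ W) (hxy : x ≠ y) (hz : z ∉ W) (h1 : s(z, x) ∉ F) (h2 : s(z, y) ∈ F) :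
    nu k w (insert s(z, x) F) W x y ≤ (1 + t / k) * nu k w F W x y := by
  have zx : z ≠ x := fun e => hz (e ▸ hx)
  have zy : z ≠ y := fun e => hz (e ▸ hy)
  have r1 : ∀ q, q ≠ z → ¬jn ⊥ x y z q := fun q hq h => by
    rcases (jn_iff _ _ _ _ _).1 h with h | h | h
    exacts [hq h.symm, zx h.1, zy h.1]
  have w0 : Wt 0 w F := hw.mono (by linarith) (subset_insert _ _)
  have w1 : Wt 0 w (F.erase s(z, y)) := w0.mono le_rfl (erase_subset _ _)
  have b1 := (hw _ (mem_insert_self _ _)).2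
  have b2 := (hw _ (mem_insert_of_mem h2)).2
  have n0 := nu_nonneg hk w0 hx hy hxy
  rw [nu_eq hk.ne' hx hy hxy] at n0 ⊢
  rw [nu_eq hk.ne' hx hy hxy, Z_step hk.ne' h1 (r1 x zx.symm)]
  set G : Setoid V → ℝ := fun π => ind (Sep W {x, y} π) with hG
  have a1 : Z k w F (jn (jn ⊥ x y) z x) G =
      (1 - w s(z, y)) * Z k w (F.erase s(z, y)) (jn (jn ⊥ x y) z x) G := by
    conv_lhs => rw [← insert_erase h2]
    exact Z_loop (notMem_erase _ _) (Setoid.trans' _ (jn_self _ z x) (le_jn _ z x (jn_self _ x y)))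
  have a2 : Z k w (F.erase s(z, y)) (jn (jn ⊥ x y) z x) G ≤
      Z k w (F.erase s(z, y)) (jn ⊥ x y) G := by
    rw [Z_jn hk.ne' (r1 x zx.symm)]
    refine Z_mono hk w1 fun S _ => ?_
    set π := gen (jn ⊥ x y) S
    have p0 : π x y := le_gen _ S (jn_self _ x y)
    have p1 : G (jn π z x) ≤ G π := ind_mono fun h a ha b hb =>
      ⟨fun e => (h a ha b hb).1 (le_jn _ z x e), by
        simp only [mem_insert, mem_singleton]
        rintro (rfl | ⟨rfl | rfl, rfl | rfl⟩)
        exacts [Setoid.refl' _ _, Setoid.refl' _ _, p0, Setoid.symm' _ p0, Setoid.refl' _ _]⟩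
    have p2 := mul_le_of_le_one_left (ind_nonneg (Sep W {x, y} (jn π z x))) (ind_le_one ¬π z x)
    have p3 := mul_nonneg hk.le (mul_nonneg (ind_nonneg (π z x)) (ind_nonneg (Sep W {x, y} π)))
    simp only [hG] at p1 ⊢
    linarith
  have a3 : Z k w (F.erase s(z, y)) (jn ⊥ x y) G ≤ Z k w F (jn ⊥ x y) G := by
    refine Z_emono hk w0 (erase_subset _ _) (fun a b h3 h4 => ?_) fun π => ind_nonneg _
    have e : s(a, b) = s(z, y) := by
      by_contra e
      exact h4 (mem_erase.2 ⟨e, h3⟩)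
    rcases Sym2.eq_iff.1 e with ⟨rfl, rfl⟩ | ⟨rfl, rfl⟩
    exacts [r1 _ zy.symm, fun h => r1 _ zy.symm (Setoid.symm' _ h)]
  have a4 : 0 ≤ Z k w (F.erase s(z, y)) (jn (jn ⊥ x y) z x) G :=
    Z_nonneg hk w1 fun _ _ => ind_nonneg _
  have a5 : Z k w F (jn (jn ⊥ x y) z x) G ≤ t * Z k w F (jn ⊥ x y) G := by
    rw [a1]
    exact mul_le_mul (by linarith [b2.1]) (a2.trans a3) a4 (by linarith [b2.1, b2.2])
  have a6 : w s(z, x) / k * Z k w F (jn (jn ⊥ x y) z x) G ≤ 1 / k * (t * Z k w F (jn ⊥ x y) G) :=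
    mul_le_mul (div_le_div_of_nonneg_right b1.2 hk.le) a5
      (Z_nonneg hk w0 fun _ _ => ind_nonneg _) (by positivity)
  calc _ ≤ Z k w F (jn ⊥ x y) G + 1 / k * (t * Z k w F (jn ⊥ x y) G) := by linarith
    _ = _ := by ring

theorem ehi_mu (hU : PU) (h0 : 0 < t) (ht : t ≤ 1 / 100) (hw : Wt (1 - t) w (insert s(z, x) F))
    (hx : x ∈ W) (hz : z ∉ W) (hW : W.card ≤ 5) (h1 : s(z, x) ∉ F) {X : ℕ}
    (hc : cnt F (insert z W) z ≤ 2 * X + 2) (hd : (deg F z : ℝ) ≤ kk t / 8)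
    (hX : (X + 1) * t ^ 2 ≤ 1 / 60) :
    (1 + 2 / 5 * t) * mu (kk t) w F W ∅ ≤ mu (kk t) w (insert s(z, x) F) W ∅ := by
  obtain ⟨k1, -, k3, k4, -⟩ := kk_small h0 ht
  set k := kk t
  have hk : 0 < k := by linarith
  have zx : z ≠ x := fun e => hz (e ▸ hx)
  have w0 : Wt 0 w F := hw.mono (by linarith) (subset_insert _ _)
  have b1 := (hw _ (mem_insert_self _ _)).2
  have m1 := mu_nonneg hk w0 (insert z W) ∅
  have a1 : nu k w F (insert z W) z x ≤ Z k w F (jn ⊥ z x) fun π => ind (Sep W ∅ π) := by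
    rw [nu_eq hk.ne' (mem_insert_self _ _) (mem_insert_of_mem hx) zx]
    refine Z_mono hk w0 fun S _ => ind_mono fun h a ha b hb => ?_
    rw [h a (mem_insert_of_mem ha) b (mem_insert_of_mem hb)]
    have az : a ≠ z := fun e => hz (e ▸ ha)
    have bz : b ≠ z := fun e => hz (e ▸ hb)
    simp only [mem_insert, mem_singleton, az, bz, false_or, notMem_empty, and_self, or_false]
    exact ⟨fun h => h.elim id fun h => h.1.trans h.2.symm, Or.inl⟩
  have a2 := (hU V k w F hk w0).1 (insert z W) z x _ (mem_insert_self _ _) (mem_insert_of_mem hx)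
    zx h1 hc
  have a3 : 2 * (com F z x : ℝ) / k ≤ 1 / 4 := by
    have : (com F z x : ℝ) ≤ deg F z := by exact_mod_cast card_le_card inter_subset_left
    rw [div_le_iff₀ hk]
    linarith
  have a4 : 6 * ((2 * X + 2 : ℕ) : ℝ) / k ^ 2 ≤ 1 / 4 := by
    have := mul_le_mul_of_nonneg_left k3 (show (0 : ℝ) ≤ 12 * (X + 1) by positivity)
    calc _ = 12 * ((X : ℝ) + 1) * (1 / k ^ 2) := by push_cast; ring
      _ ≤ _ := by linarith
  have a5 : mu k w F (insert z W) ∅ / 2 ≤ nu k w F (insert z W) z x := by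
    have := mul_le_mul_of_nonneg_right (add_le_add a3 a4) m1
    unfold nu
    linarith
  have a6 : mu k w F W ∅ ≤ 11 / 10 * mu k w F (insert z W) ∅ := by
    refine (mu_le_insert hk w0 z).trans (mul_le_mul_of_nonneg_right ?_ m1)
    have : (W.card : ℝ) ≤ 5 := by exact_mod_cast hW
    have : (W.card : ℝ) / k ≤ 1 / 10 := by rw [div_le_iff₀ hk]; linarith
    linarith
  have a7 : 9 / 10 * t ≤ w s(z, x) / k := by
    rw [div_eq_mul_one_div (w _)]
    exact mul_le_mul (by linarith [b1.1]) k1 h0.le (by linarith [b1.1])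
  have a8 := mul_le_mul a7 (a5.trans a1) (by positivity) (by linarith [a7])
  have a9 := mul_le_mul_of_nonneg_left a6 h0.le
  have a10 := mul_nonneg h0.le m1
  unfold mu at *
  rw [Z_step hk.ne' h1 zx]
  linarith

theorem ehi_ind (hU : PU) (hH : PHS) (h0 : 0 < t) (ht : t ≤ 1 / 100) (hw : Wt (1 - t) w E)
    (hx : x ∈ W) (hy : y ∈ W) (hxy : x ≠ y) (hW : W.card ≤ 5) {X : ℕ} (hE : exc E W ≤ X)
    (hX : (X + 1) * t ^ 2 ≤ 1 / 60) (A : Finset V) :
    ∀ F ⊆ E, (∀ z ∈ A, z ∉ W ∧ (deg E z : ℝ) ≤ kk t / 8 ∧ s(z, x) ∈ F ∧ s(z, y) ∈ F) →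
      nu (kk t) w F W x y ≤ exp (-(A.card * t / 10)) * mu (kk t) w F W ∅ := by
  obtain ⟨-, k2, -, k4, -⟩ := kk_small h0 ht
  have hk : 0 < kk t := by linarith
  induction A using Finset.induction_on with
  | empty =>
    intro F hF _
    have := mul_nonneg hk.le (mu_nonneg hk (hw.mono (by linarith) hF) W {x, y})
    simp only [card_empty, Nat.cast_zero, zero_mul, zero_div, neg_zero, Real.exp_zero, one_mul, nu]
    linarith
  | insert z A hzA ih =>
    intro F hF hA
    obtain ⟨z1, z2, z3, z4⟩ := hA z (mem_insert_self _ _)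
    have zx : z ≠ x := fun e => z1 (e ▸ hx)
    have zy : z ≠ y := fun e => z1 (e ▸ hy)
    have s0 : F.erase s(z, x) ⊆ E := (erase_subset _ _).trans hF
    have w1 : Wt (1 - t) w (insert s(z, x) (F.erase s(z, x))) :=
      hw.mono le_rfl (by rwa [insert_erase z3])
    have i1 := ih _ s0 fun q hq => by
      obtain ⟨q1, q2, q3, q4⟩ := hA q (mem_insert_of_mem hq)
      have qz : q ≠ z := fun e => hzA (e ▸ hq)
      refine ⟨q1, q2, mem_erase.2 ⟨fun e => ?_, q3⟩, mem_erase.2 ⟨fun e => ?_, q4⟩⟩ <;>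
        rcases Sym2.eq_iff.1 e with h | h
      exacts [qz h.1, zx h.2.symm, qz h.1, zy h.2.symm]
    have i2 := ehi_nu hk (by linarith) w1 hx hy hxy z1 (notMem_erase _ _)
      (mem_erase.2 ⟨fun e => (Sym2.eq_iff.1 e).elim (fun h => hxy h.2.symm) fun h => zx h.1, z4⟩)
    have i3 := ehi_mu hU h0 ht w1 hx z1 hW (notMem_erase _ _) (X := X)
      ((cnt_mono s0 (subset_insert _ _) z).trans
        (((hH V E fun e he => (hw e he).1).2.1 W z z1).trans (by omega)))
      (le_trans (by exact_mod_cast deg_mono s0 z) z2) hX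
    rw [insert_erase z3] at i2 i3
    have m0 := mu_nonneg hk (hw.mono (u' := 0) (by linarith) s0) W ∅
    have e1 : 1 + t / kk t ≤ exp (-(t / 10)) * (1 + 2 / 5 * t) := by
      have p1 := Real.add_one_le_exp (-(t / 10))
      have p2 : t / kk t ≤ t * (103 / 100 * t) := by
        rw [div_eq_mul_one_div]
        exact mul_le_mul_of_nonneg_left k2 h0.le
      have p3 := mul_le_mul_of_nonneg_right p1 (show 0 ≤ 1 + 2 / 5 * t by positivity)
      nlinarith
    have e2 : exp (-(((insert z A).card : ℕ) * t / 10)) =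
        exp (-(A.card * t / 10)) * exp (-(t / 10)) := by
      rw [card_insert_of_notMem hzA, ← Real.exp_add]
      congr 1
      push_cast
      ring
    calc _ ≤ (1 + t / kk t) * (exp (-(A.card * t / 10)) * mu (kk t) w (F.erase s(z, x)) W ∅) :=
          i2.trans (mul_le_mul_of_nonneg_left i1 (by positivity))
      _ ≤ exp (-(t / 10)) * (1 + 2 / 5 * t) *
          (exp (-(A.card * t / 10)) * mu (kk t) w (F.erase s(z, x)) W ∅) :=
          mul_le_mul_of_nonneg_right e1 (by positivity)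
      _ = exp (-(A.card * t / 10)) * exp (-(t / 10)) *
          ((1 + 2 / 5 * t) * mu (kk t) w (F.erase s(z, x)) W ∅) := by ring
      _ ≤ _ := by rw [e2]; exact mul_le_mul_of_nonneg_left i3 (by positivity)

theorem ehi (hU : PU) (hH : PHS) : PEhi := by
  intro V _ _ t w E W x y X h0 ht hw hx hy hxy hW hE hX
  obtain ⟨-, k2, -, k4, -⟩ := kk_small h0 ht
  have hk : 0 < kk t := by linarith
  set A := ((nb E x ∩ nb E y) \ W).filter fun z => (deg E z : ℝ) ≤ kk t / 8 with hA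
  set B := (univ \ W).filter fun z => ¬(deg E z : ℝ) ≤ kk t / 8 with hB
  have main := ehi_ind hU hH h0 ht hw hx hy hxy hW hE hX A E Subset.rfl fun z hz => by
    simp only [hA, mem_filter, mem_sdiff, mem_inter, mem_nb] at hz
    exact ⟨hz.1.2, hz.2, Sym2.eq_swap ▸ hz.1.1.1, Sym2.eq_swap ▸ hz.1.1.2⟩
  have c1 : com E x y ≤ A.card + B.card + 5 := by
    refine (card_le_card (t := A ∪ B ∪ W) fun z hz => ?_).trans
      ((card_union_le _ _).trans (add_le_add (card_union_le _ _) hW))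
    simp only [hA, hB, mem_union, mem_filter, mem_sdiff, mem_univ, true_and]
    tauto
  have c2 : (B.card : ℝ) * (kk t / 10) ≤ X := by
    calc _ = ∑ _z ∈ B, kk t / 10 := by rw [sum_const, nsmul_eq_mul]
      _ ≤ ∑ z ∈ B, ((deg E z - 2 : ℕ) : ℝ) := sum_le_sum fun z hz => by
          have p1 := not_le.1 (mem_filter.1 hz).2
          have p2 : (deg E z : ℝ) ≤ ((deg E z - 2 : ℕ) : ℝ) + 2 := by
            exact_mod_cast (by omega : deg E z ≤ deg E z - 2 + 2)
          linarith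
      _ ≤ ∑ z ∈ univ \ W, ((deg E z - 2 : ℕ) : ℝ) :=
          sum_le_sum_of_subset_of_nonneg (filter_subset _ _) fun _ _ _ => Nat.cast_nonneg _
      _ ≤ X := by exact_mod_cast hE
  have c3 : (B.card : ℝ) ≤ 11 * X * t := by
    have p1 : (B.card : ℝ) ≤ 10 * X * (1 / kk t) := by
      rw [mul_one_div, le_div_iff₀ hk]
      linarith
    have p2 := mul_le_mul_of_nonneg_left k2 (show (0 : ℝ) ≤ 10 * X by positivity)
    have p3 : (0 : ℝ) ≤ X * t := by positivity
    linarith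
  refine main.trans (mul_le_mul_of_nonneg_right (Real.exp_le_exp.2 ?_)
    (mu_nonneg hk (hw.mono (by linarith) Subset.rfl) W ∅))
  have c4 : (com E x y : ℝ) ≤ A.card + B.card + 5 := by exact_mod_cast c1
  have c5 := mul_le_mul_of_nonneg_right (c4.trans (add_le_add (add_le_add le_rfl c3) le_rfl)) h0.le
  have c6 : (0 : ℝ) ≤ X * t ^ 2 := by positivity
  nlinarith

end Pool.Agent.P.MP_833722_gt.TG
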