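import Pool.Agent.P.MP_833722_gt.TG.Base

/-! Lower bound for the merged mass. -/

set_option autoImplicit false

namespace Pool.Agent.P.MP_833722_gt.TG

open Finset
open Real (exp)

variable {V : Type} [Fintype V] [DecidableEq V] {k : ℝ} {w : Sym2 V → ℝ}
  {F : Finset (Sym2 V)} {W : Finset V}

theorem elo_mu (hk : 0 < k) (D : Finset (Sym2 V)) (hw : Wt 0 w (F ∪ D)) :
    mu k w (F ∪ D) W ∅ ≤ exp (D.card * (1 / k)) * mu k w F W ∅ := by
  induction D using Finset.induction_on with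
  | empty => simp
  | insert e D he ih =>
    have w0 : Wt 0 w (F ∪ D) := hw.mono le_rfl (union_subset_union_right (subset_insert _ _))
    have a1 := ih w0
    have a2 : 1 + 1 / k ≤ exp (1 / k) := by linarith [Real.add_one_le_exp (1 / k)]
    have a3 : (0 : ℝ) < 1 / k := by positivity
    have a4 : mu k w (F ∪ insert e D) W ∅ ≤ exp (1 / k) * mu k w (F ∪ D) W ∅ := by
      have m := mu_nonneg hk w0 W ∅
      rw [union_insert] at hw ⊢
      by_cases h : e ∈ F ∪ D
      · rw [insert_eq_of_mem h]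
        exact le_mul_of_one_le_left m (by linarith)
      · induction e using Sym2.ind with
        | h a b => exact (mu_insert_le hk hw h).trans (mul_le_mul_of_nonneg_right a2 m)
    rw [card_insert_of_notMem he, Nat.cast_succ, add_mul, one_mul, add_comm, Real.exp_add,
      mul_assoc]
    exact a4.trans (mul_le_mul_of_nonneg_left a1 (Real.exp_pos _).le)

theorem elo_exp {s : ℝ} (h0 : 0 ≤ s) (h1 : s ≤ 1 / 2) : exp (-(2 * s)) ≤ 1 - s := by
  have a1 := Real.add_one_le_exp (2 * s)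
  rw [Real.exp_neg, inv_le_comm₀ (Real.exp_pos _) (by linarith), inv_le_iff_one_le_mul₀
    (by linarith)]
  have := mul_le_mul_of_nonneg_right a1 (show 0 ≤ 1 - s by linarith)
  nlinarith [mul_nonneg h0 (show 0 ≤ 1 - 2 * s by linarith)]

theorem elo (h : PU) : PElo := by
  intro V _ _ t w E W x y X h0 ht hw hx hy hxy hn hc hX
  obtain ⟨-, k2, k3, k4, -⟩ := kk_small h0 ht
  set k := kk t
  have hk : 0 < k := by linarith
  have w0 : Wt 0 w E := hw.mono (by linarith) Subset.rfl
  set D := (nb E x ∩ nb E y).image fun z => s(x, z) with hD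
  have d1 : D ⊆ E := fun e he => by
    obtain ⟨z, hz, rfl⟩ := mem_image.1 he
    exact mem_nb.1 (mem_inter.1 hz).1
  have d2 : (D.card : ℝ) ≤ com E x y := by exact_mod_cast card_image_le
  have w1 : Wt 0 w (E \ D) := w0.mono le_rfl sdiff_subset
  have m := mu_nonneg hk w1 W ∅
  have a1 := elo_mu (W := W) (F := E \ D) hk D (by rwa [sdiff_union_of_subset d1])
  rw [sdiff_union_of_subset d1] at a1
  have a2 : nu k w (E \ D) W x y ≤ nu k w E W x y := by
    rw [nu_eq hk.ne' hx hy hxy, nu_eq hk.ne' hx hy hxy]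
    refine Z_emono hk w0 sdiff_subset (fun a b h3 h4 => ?_) fun π => ind_nonneg _
    have h5 : s(a, b) ∈ D := by
      by_contra e
      exact h4 (mem_sdiff.2 ⟨h3, e⟩)
    obtain ⟨z, hz, e⟩ := mem_image.1 h5
    have z1 := mem_nb.1 (mem_inter.1 hz).1
    have zx : x ≠ z := fun g => (hw _ z1).1 (Sym2.mk_isDiag_iff.2 g)
    have zy : y ≠ z := fun g => hn (g ▸ z1)
    have r : ¬jn ⊥ x y z x := fun g => by
      rcases (jn_iff _ _ _ _ _).1 g with g | g | g
      exacts [zx g.symm, zx g.1.symm, zy g.1.symm]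
    rcases Sym2.eq_iff.1 e with ⟨rfl, rfl⟩ | ⟨rfl, rfl⟩
    exacts [fun g => r (Setoid.symm' _ g), r]
  have a3 : com (E \ D) x y = 0 := by
    refine card_eq_zero.2 (eq_empty_of_forall_notMem fun z hz => ?_)
    have z1 := mem_sdiff.1 (mem_nb.1 (mem_inter.1 hz).1)
    have z2 := mem_sdiff.1 (mem_nb.1 (mem_inter.1 hz).2)
    exact z1.2 (mem_image.2 ⟨z, mem_inter.2 ⟨mem_nb.2 z1.1, mem_nb.2 z2.1⟩, rfl⟩)
  have a4 := (h V k w (E \ D) hk w1).1 W x y X hx hy hxy (fun g => hn (mem_sdiff.1 g).1)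
    ((cnt_mono sdiff_subset Subset.rfl x).trans hc)
  rw [a3] at a4
  have x0 : (0 : ℝ) ≤ X := Nat.cast_nonneg X
  have a5 : 6 * (X : ℝ) / k ^ 2 ≤ 13 / 2 * (X * t ^ 2) := by
    have := mul_le_mul_of_nonneg_left k3 x0
    have := mul_nonneg x0 (sq_nonneg t)
    calc _ = 6 * ((X : ℝ) * (1 / k ^ 2)) := by ring
      _ ≤ _ := by linarith
  have a6 := elo_exp (s := 13 / 2 * (X * t ^ 2)) (by positivity) (by linarith)
  have a7 : (1 - 13 / 2 * (X * t ^ 2)) * mu k w (E \ D) W ∅ ≤ nu k w (E \ D) W x y := by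
    have := mul_le_mul_of_nonneg_right a5 m
    unfold nu
    simp only [Nat.cast_zero, mul_zero, zero_div, zero_add] at a4
    linarith
  have a8 : (D.card : ℝ) * (1 / k) ≤ 2 * com E x y * t := by
    have := mul_le_mul d2 (show 1 / k ≤ 2 * t by linarith) (by positivity) (Nat.cast_nonneg _)
    linarith
  calc _ ≤ exp (-(2 * com E x y * t + 13 * X * t ^ 2)) *
        (exp (D.card * (1 / k)) * mu k w (E \ D) W ∅) :=
        mul_le_mul_of_nonneg_left a1 (Real.exp_pos _).le
    _ ≤ exp (-(2 * (13 / 2 * (X * t ^ 2)))) * mu k w (E \ D) W ∅ := by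
        rw [← mul_assoc, ← Real.exp_add]
        exact mul_le_mul_of_nonneg_right (Real.exp_le_exp.2 (by linarith)) m
    _ ≤ _ := ((mul_le_mul_of_nonneg_right a6 m).trans a7).trans a2

end Pool.Agent.P.MP_833722_gt.TG
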