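import Pool.Agent.P.MP_833722_gt.TG.Defs

/-! Evaluation of the bracket on the ray. -/

set_option autoImplicit false

namespace Pool.Agent.P.MP_833722_gt.TG

open Finset LaurentPolynomial

variable {V : Type} [Fintype V] [DecidableEq V]

theorem ev_exp (P : DP V) (S : Finset ℕ) :
    (∑ e ∈ P.E, if decide (e ∈ S) = P.sg e then -1 else 1 : ℤ) =
      (P.Ep.card : ℤ) - P.Em.card - (2 * (S ∩ P.Ep).card : ℕ) + (2 * (S ∩ P.Em).card : ℕ) := by
  rw [show S ∩ P.Ep = P.E.filter fun e => e ∈ S ∧ P.sg e = true by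
      ext e; simp only [DP.Ep, mem_inter, mem_filter]; tauto,
    show S ∩ P.Em = P.E.filter fun e => e ∈ S ∧ P.sg e = false by
      ext e; simp only [DP.Em, mem_inter, mem_filter]; tauto]
  simp only [DP.Ep, DP.Em, card_filter]
  push_cast
  simp only [mul_sum, ← sum_sub_distrib, ← sum_add_distrib]
  refine sum_congr rfl fun e _ => ?_
  by_cases h : e ∈ S <;> cases P.sg e <;> simp [h]

theorem ev_card (P : DP V) {S : Finset ℕ} (h : S ⊆ P.E) :
    S.card = (S ∩ P.Ep).card + (S ∩ P.Em).card := by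
  rw [← card_union_of_disjoint, ← inter_union_distrib_left, P.Ep_union_Em, inter_eq_left.2 h]
  refine disjoint_left.2 fun e h1 h2 => ?_
  simp only [DP.Ep, DP.Em, mem_inter, mem_filter] at h1 h2
  simp [h1.2.2] at h2

theorem ev_norm {a : ℝ} (h : 0 < a) : ‖(ray a : ℂ)‖ = a := by
  simp [ray, Complex.norm_exp, Real.exp_log h, -Complex.ofReal_log]

theorem ev_four {a : ℝ} (h : 0 < a) : (ray a : ℂ) ^ 4 = -((a ^ 4 : ℝ) : ℂ) := by
  have e : Complex.exp (Real.log a : ℝ) = a := by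
    rw [← Complex.ofReal_exp, Real.exp_log h]
  rw [ray, Units.val_mk0, Complex.exp_add, mul_pow, e, ← Complex.exp_nat_mul,
    show ((4 : ℕ) : ℂ) * (Real.pi / 4 * Complex.I) = Real.pi * Complex.I by push_cast; ring,
    Complex.exp_pi_mul_I]
  push_cast
  ring

theorem ev_term {A t : ℂ} (hA : A ≠ 0) (ht : 1 - t ≠ 0) (h : A ^ 4 = -t) (n : ℤ) {p m r s : ℕ}
    (h1 : r ≤ s) (h2 : r ≤ p + m) :
    A ^ (n - (2 * p : ℕ) + (2 * m : ℕ)) * (-A ^ 2 - A⁻¹ ^ 2) ^ (s - r + (p + m - r)) =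
      A ^ n * (-A ^ 2 - A⁻¹ ^ 2) ^ s *
        (((1 - t) / t) ^ p * (-(1 - t)) ^ m * (-((1 - t) ^ 2 / t))⁻¹ ^ r) := by
  have e : t = -A ^ 4 := by rw [h, neg_neg]
  set δ := -A ^ 2 - A⁻¹ ^ 2 with hδ
  have e1 : (1 - t) / t = δ / A ^ 2 := by rw [hδ, e]; field_simp; ring
  have e2 : -(1 - t) = δ * A ^ 2 := by rw [hδ, e]; field_simp; ring
  have e3 : -((1 - t) ^ 2 / t) = δ ^ 2 := by rw [hδ, e]; field_simp; ring
  have d0 : δ ≠ 0 := fun g => ht (by rw [g, zero_mul, neg_eq_zero] at e2; exact e2)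
  have e4 : δ ^ (s - r + (p + m - r)) = δ ^ s * δ ^ p * δ ^ m / (δ ^ 2) ^ r := by
    rw [eq_div_iff (by positivity), ← pow_mul, ← pow_add, ← pow_add, ← pow_add]
    congr 1
    omega
  rw [e1, e2, e3, e4, zpow_add₀ hA, zpow_sub₀ hA, zpow_natCast, zpow_natCast, pow_mul, pow_mul,
    div_pow, mul_pow, inv_pow]
  field_simp

theorem ev_one (P : DP V) {a : ℝ} (a0 : 0 < a) (a1 : a < 1) : ‖evA (ray a) P.Br‖ =
    a ^ ((P.Ep.card : ℤ) - P.Em.card - 2 * gr P.en P.E) *
      |(1 - a ^ 4) ^ gr P.en P.E * P.RS (a ^ 4)| := by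
  have u0 : 0 < 1 - a ^ 4 := sub_pos.2 (pow_lt_one₀ a0.le a1 (by norm_num))
  have A0 := (ray a).ne_zero
  have h4 := ev_four a0
  have e : evA (ray a) P.Br = (ray a : ℂ) ^ ((P.Ep.card : ℤ) - P.Em.card) *
      (-(ray a : ℂ) ^ 2 - (ray a : ℂ)⁻¹ ^ 2) ^ gr P.en P.E * (P.RS (a ^ 4) : ℝ) := by
    rw [DP.Br, map_sum, DP.RS, Complex.ofReal_sum, mul_sum]
    refine sum_congr rfl fun S hS => ?_
    rw [mem_powerset] at hS
    have h1 := gr_le_card P.en S
    rw [ev_card P hS] at h1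
    rw [map_mul, map_pow, evA_T, evA_dl, ev_exp, Units.val_zpow_eq_zpow_val,
      Units.val_inv_eq_inv_val, ev_card P hS,
      ev_term A0 (by exact_mod_cast u0.ne') h4 _ (gr_mono _ hS) h1, kk]
    push_cast
    rfl
  have e' : -(ray a : ℂ) ^ 2 - (ray a : ℂ)⁻¹ ^ 2 = -((1 - a ^ 4 : ℝ) : ℂ) / (ray a : ℂ) ^ 2 := by
    rw [Complex.ofReal_sub, ← neg_eq_iff_eq_neg.2 h4]
    field_simp
    push_cast
    ring
  rw [e, e', norm_mul, norm_mul, norm_zpow, norm_pow, norm_div, norm_neg, norm_pow, ev_norm a0,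
    Complex.norm_real, Complex.norm_real, Real.norm_eq_abs, Real.norm_eq_abs, abs_mul, abs_pow,
    zpow_sub₀ a0.ne' _ (2 * _), zpow_mul, zpow_natCast, zpow_ofNat, div_pow]
  ring

theorem eval : PEval := by
  refine fun V _ _ P => ⟨fun a => ev_one P, fun h t => ?_, fun d x y h hd t t0 t1 => ?_⟩
  · refine sum_congr rfl fun S hS => ?_
    have := ev_card P (mem_powerset.1 hS)
    rw [h] at this ⊢
    simp only [inter_empty, card_empty, zero_add] at this
    simp [← this]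
  · have u0 : 1 - t ≠ 0 := by linarith
    have h1 : d ∉ P.Em := by
      have : d ∈ P.Ep := h ▸ mem_singleton_self d
      simp only [DP.Ep, DP.Em, mem_filter] at this ⊢
      simp [this.2]
    rw [DP.RS, ← P.Ep_union_Em, h, ← insert_eq, sum_powerset_insert h1, ZM, ZM, mul_sum, sum_div,
      ← sum_sub_distrib, ← sum_neg_distrib, ← sum_add_distrib]
    refine sum_congr rfl fun S hS => ?_
    rw [mem_powerset] at hS
    have h2 : d ∉ S := fun g => h1 (hS g)
    rw [inter_singleton_of_notMem h2, inter_singleton_of_mem (mem_insert_self _ _),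
      insert_inter_of_notMem h1, inter_eq_left.2 hS, gr_insert _ hd, card_empty, card_singleton]
    by_cases g : gen ⊥ (S.image P.en) x y
    · rw [jn_of_rel g, ← gr]
      simp only [ind, g, not_true, if_true, if_false]
      field_simp
      ring
    · rw [rk_jn g, ← gr, pow_succ (-kk t)⁻¹]
      simp only [ind, g, not_false_iff, if_true, if_false]
      generalize (-kk t)⁻¹ ^ gr P.en S = z
      unfold kk
      field_simp
      ring

end Pool.Agent.P.MP_833722_gt.TG
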