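import Pool.Agent.P.MP_833722_gt.TG.Base
import Pool.Agent.P.MP_833722_gt.Main

/-! From pairs to Jones polynomials. -/

set_option autoImplicit false

namespace Pool.Agent.P.MP_833722_gt.TG

open LaurentPolynomial

theorem fin_coef (hP : PSp) (h1 : PR1) (hA : PAsm) (hD : PD2) (n : ℕ) : ∃ K : ℝ, ∀ D : List Pc,
    Valid [] D → TuraevLeOne D → SpanLe (jones D) n → ∀ i, |((jones D).coeff i : ℝ)| ≤ K := by
  obtain ⟨B, hB⟩ := hA n
  refine ⟨(2 ^ n * B + 1 : ℕ), fun D hv ht hn i => (hP.ncoef _ i).trans (Nat.cast_le.2 ?_)⟩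
  have hW : Win (jones D) (4 * n) := fun i j a b => by simpa using hn i j a b
  have e : nrm (jones D) = nrm (bracket D) ∧ Win (bracket D) (4 * n) := by
    unfold jones at hW ⊢
    rcases neg_one_pow_eq_or ℤ[T;T⁻¹] (writhe [] D).natAbs with r | r <;> rw [r] at hW ⊢
    · rw [one_mul] at hW ⊢
      exact ⟨hP.nT _ _, (hP.wT _ _ _).1 hW⟩
    · rw [neg_one_mul, neg_mul] at hW ⊢
      exact ⟨(hP.nneg _).trans (hP.nT _ _), (hP.wT _ _ _).1 ((hP.wneg _ _).1 hW)⟩
  rw [e.1]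
  by_cases h0 : D = []
  · subst h0
    have := hP.ndl 0
    simp only [bracket, states, comps, List.map_cons, List.map_nil, List.sum_cons, List.sum_nil,
      T_zero, one_mul, add_zero, Nat.zero_sub, pow_zero] at this ⊢
    omega
  · obtain ⟨P, j, hL, r⟩ := hD D hv.ok h0 ht
    have e2 := e.2
    rw [r] at e2 ⊢
    obtain ⟨a1, a2⟩ := hP.wdl j _ _ (h1 _ P).2.2.1 e2
    have a3 : 2 ^ j ≤ 2 ^ n := Nat.pow_le_pow_right (by norm_num) (by omega)
    exact ((hP.nmul _ _).trans (Nat.mul_le_mul ((hP.ndl j).trans a3) (hB _ P hL a2))).trans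
      (Nat.le_succ _)

end Pool.Agent.P.MP_833722_gt.TG
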