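import Pool.Agent.P.MP_833722_gt.TG.Base

/-! Growth of the alternating factor. -/

set_option autoImplicit false

namespace Pool.Agent.P.MP_833722_gt.TG

open Finset
open Real (exp)

variable {V : Type} [Fintype V] [DecidableEq V] {m : Sym2 V → ℕ} {E : Finset (Sym2 V)} {a b : V}
  {t : ℝ}

theorem g_one {k : ℝ} {w : Sym2 V → ℝ} (h : a ≠ b) :
    Z k w E ⊥ (fun _ => 1) = mu k w E {a, b} ∅ + mu k w E {a, b} {a, b} := by
  rw [mu, mu, ← Z_add]
  refine Z_congr fun S _ => ?_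
  rw [ind_congr (sep_pair0 h _), ind_congr (sep_pair1 _)]
  by_cases g : gen ⊥ S a b
  · rw [ind_pos g, ind_neg (not_not.2 g), zero_add]
  · rw [ind_pos g, ind_neg g, add_zero]

theorem g_ins {k : ℝ} {w : Sym2 V → ℝ} (hk : k ≠ 0) (h : a ≠ b) (he : s(a, b) ∉ E) :
    Z k w (insert s(a, b) E) ⊥ (fun _ => 1) = mu k w E {a, b} ∅ + mu k w E {a, b} {a, b} +
      w s(a, b) / k * (mu k w E {a, b} ∅ - k * mu k w E {a, b} {a, b}) := by
  rw [Z_step hk he h, g_one h, Z_jn hk h, mu, mu, ← Z_smul k, ← Z_sub]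
  congr 2
  refine Z_congr fun S _ => ?_
  rw [ind_congr (sep_pair0 h _), ind_congr (sep_pair1 _), mul_one, mul_one]

theorem g_zero {k : ℝ} {w : Sym2 V → ℝ} (h : ¬gen ⊥ E a b) : mu k w E {a, b} {a, b} = 0 := by
  have e : mu k w E {a, b} {a, b} = Z k w E ⊥ fun _ => 0 * 1 :=
    Z_congr fun S hS => by
      rw [ind_neg fun g => h (gen_mono le_rfl hS ((sep_pair1 _).1 g)), zero_mul]
  rw [e, Z_smul, zero_mul]

theorem g_rk (E : Finset (Sym2 V)) : rk (gen ⊥ E) ≤ E.card := by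
  simpa using rk_gen_le ⊥ E

omit [Fintype V] in
theorem g_ne (hm : Mg m (insert s(a, b) E)) : a ≠ b := fun h =>
  (hm _ (mem_insert_self _ _)).1 (Sym2.mk_isDiag_iff.2 h)

omit [Fintype V] in
theorem g_mul (e : Sym2 V) (he : e ∉ E) :
    mul m (insert e E) = mul m E + if 2 ≤ m e then 1 else 0 := by
  unfold mul
  rw [filter_insert]
  split_ifs
  · exact card_insert_of_notMem fun h => he (mem_filter.1 h).1
  · rfl

theorem g_empty : AA t m ∅ = 1 := by simp [AA]

/-- an edge which joins two components -/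
theorem g_bridge (h0 : 0 < t) (h1 : t ≤ 1 / 2) (hm : Mg m (insert s(a, b) E)) (he : s(a, b) ∉ E)
    (hn : ¬gen ⊥ E a b) : be (insert s(a, b) E) = be E ∧ ∃ (f : ℝ) (c : ℕ),
      AA t m (insert s(a, b) E) = f * AA t m E ∧ mul m (insert s(a, b) E) = mul m E + c ∧
        (1 + t ^ 2) ^ c ≤ f ∧ f ≤ exp (2 * t ^ 2 * c) := by
  have u0 : 0 < 1 - t := by linarith
  have hr : rk (gen ⊥ (insert s(a, b) E)) = rk (gen ⊥ E) + 1 := by rw [gen_insert, rk_jn hn]
  refine ⟨by rw [be, be, hr, card_insert_of_notMem he]; omega,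
    1 - t + wt t m s(a, b) * t / (1 - t), _, ?_, g_mul _ he, ?_⟩
  · rw [AA, AA, hr, g_ins (kk_pos h0 (by linarith)).ne' (g_ne hm) he, g_one (g_ne hm), g_zero hn,
      kk]
    field_simp
    ring
  · have m1 := (hm _ (mem_insert_self _ _)).2
    unfold wt
    split_ifs with h
    · have p1 : t ^ m s(a, b) ≤ t ^ 2 := pow_le_pow_of_le_one h0.le (by linarith) h
      have p2 : 0 ≤ t ^ m s(a, b) := by positivity
      have p3 : (1 - t ^ m s(a, b)) * t / (1 - t) ≤ t + 2 * t ^ 2 := by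
        rw [div_le_iff₀ u0]; nlinarith [mul_nonneg p2 h0.le, sq_nonneg t]
      have p4 : t + t ^ 2 ≤ (1 - t ^ m s(a, b)) * t / (1 - t) := by
        rw [le_div_iff₀ u0]; nlinarith
      have := Real.add_one_le_exp (2 * t ^ 2)
      rw [pow_one, Nat.cast_one, mul_one]
      constructor <;> linarith
    · rw [show m s(a, b) = 1 by omega, pow_one, mul_div_cancel_left₀ _ u0.ne']
      simp

/-- an edge which closes a cycle -/
theorem g_cycle (h0 : 0 < t) (h1 : t < 1) (hm : Mg m (insert s(a, b) E)) (he : s(a, b) ∉ E)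
    (hn : gen ⊥ E a b) : be (insert s(a, b) E) = be E + 1 ∧ ∃ r : ℝ, 0 < r ∧
      AA t m E = r * (mu (kk t) (wt t m) E {a, b} ∅ + mu (kk t) (wt t m) E {a, b} {a, b}) ∧
      AA t m (insert s(a, b) E) = AA t m E + r * (wt t m s(a, b) / kk t *
        (mu (kk t) (wt t m) E {a, b} ∅ - kk t * mu (kk t) (wt t m) E {a, b} {a, b})) := by
  have hr : rk (gen ⊥ (insert s(a, b) E)) = rk (gen ⊥ E) := by rw [gen_insert, jn_of_rel hn]
  have := g_rk E
  refine ⟨by rw [be, be, hr, card_insert_of_notMem he]; omega, (1 - t) ^ rk (gen ⊥ E),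
    pow_pos (by linarith) _, by rw [AA, g_one (g_ne hm)], ?_⟩
  rw [AA, AA, hr, g_ins (kk_pos h0 h1).ne' (g_ne hm) he, g_one (g_ne hm)]
  ring

theorem g_cycle' (h0 : 0 < t) (h1 : t ≤ 1 / 2) (hm : Mg m (insert s(a, b) E)) (he : s(a, b) ∉ E)
    (hn : gen ⊥ E a b) :
    AA t m E ≤ AA t m (insert s(a, b) E) ∧ AA t m (insert s(a, b) E) ≤ (1 + 4 * t) * AA t m E := by
  obtain ⟨-, r, r0, e1, e2⟩ := g_cycle h0 (by linarith) hm he hn
  have k0 := kk_pos h0 (show t < 1 by linarith)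
  have hw := hm.wt h0.le (by linarith)
  have hw0 : Wt 0 (wt t m) E := hw.mono (by linarith) (subset_insert _ _)
  obtain ⟨-, w1, w2⟩ := hw _ (mem_insert_self _ _)
  have m1 := mu_nonneg k0 hw0 {a, b} {a, b}
  have m2 := mi2 (W := {a, b}) k0 hw0 (by simp) (by simp) (g_ne hm)
  have c0 : 0 ≤ wt t m s(a, b) / kk t := div_nonneg (by linarith) k0.le
  have c1 : wt t m s(a, b) / kk t ≤ 4 * t := by
    rw [div_le_iff₀ k0, kk, mul_assoc, mul_div_cancel₀ _ h0.ne']; nlinarith
  rw [e2]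
  refine ⟨le_add_of_nonneg_right (mul_nonneg r0.le (mul_nonneg c0 (by linarith))), ?_⟩
  have := mul_le_mul c1 (show _ - _ ≤ mu (kk t) (wt t m) E {a, b} ∅ +
    mu (kk t) (wt t m) E {a, b} {a, b} by linarith [mul_nonneg k0.le m1]) (sub_nonneg.2 m2)
    (by linarith)
  rw [e1]
  nlinarith [mul_le_mul_of_nonneg_left this r0.le]

theorem g_inv (h0 : 0 < t) (h1 : t ≤ 1 / 2) (hm : Mg m E) : 1 ≤ AA t m E ∧
    AA t m E ≤ exp (4 * t * be E + 2 * t ^ 2 * mul m E) ∧
      (1 + t ^ 2) ^ mul m E ≤ AA t m E * (1 + t ^ 2) ^ be E := by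
  induction E using Finset.induction_on with
  | empty => simp [g_empty, be, mul]
  | insert e E he ih =>
    induction e using Sym2.ind with | h a b => ?_
    obtain ⟨i1, i2, i3⟩ := ih (hm.mono (subset_insert _ _))
    have q1 : 1 ≤ 1 + t ^ 2 := by nlinarith
    by_cases hn : gen ⊥ E a b
    · obtain ⟨c1, c2⟩ := g_cycle' h0 h1 hm he hn
      have hmul := g_mul (m := m) _ he
      rw [(g_cycle h0 (by linarith) hm he hn).1]
      refine ⟨i1.trans c1, c2.trans ?_, ?_⟩
      · have : (mul m E : ℝ) ≤ mul m (insert s(a, b) E) := by exact_mod_cast (by omega)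
        refine (mul_le_mul ((add_comm _ _).trans_le (Real.add_one_le_exp _)) i2 (by linarith)
          (Real.exp_nonneg _)).trans ?_
        rw [← Real.exp_add]
        push_cast
        exact Real.exp_le_exp.2 (by nlinarith [sq_nonneg t])
      · refine (pow_le_pow_right₀ q1 (show _ ≤ mul m E + 1 by split_ifs at hmul <;> omega)).trans ?_
        rw [pow_succ _ (mul m E), pow_succ _ (be E), ← mul_assoc]
        exact mul_le_mul_of_nonneg_right
          (i3.trans (mul_le_mul_of_nonneg_right c1 (by positivity))) (by positivity)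
    · obtain ⟨e0, f, c, e1, e2, f1, f2⟩ := g_bridge h0 h1 hm he hn
      have f0 := (one_le_pow₀ q1).trans f1
      rw [e0, e1, e2]
      refine ⟨by nlinarith, (mul_le_mul f2 i2 (by linarith) (Real.exp_nonneg _)).trans_eq ?_, ?_⟩
      · rw [← Real.exp_add]; push_cast; congr 1; ring
      · rw [pow_add, mul_comm, mul_assoc]
        exact mul_le_mul f1 i3 (by positivity) (by linarith)

/-- a cycle edge with an end of small degree -/
theorem g_good (hU : PU) (hH : PHS) (h0 : 0 < t) (h1 : t ≤ 1 / 100) {X : ℕ}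
    (hm : Mg m (insert s(a, b) E)) (he : s(a, b) ∉ E) (hn : gen ⊥ E a b)
    (hd : (deg E a : ℝ) ≤ kk t / 8) (hX : exc E ∅ ≤ X) (hs : X * t ^ 2 ≤ 1 / 60) :
    (1 + t / 3) * AA t m E ≤ AA t m (insert s(a, b) E) := by
  obtain ⟨-, r, r0, e1, e2⟩ := g_cycle h0 (by linarith) hm he hn
  obtain ⟨k1, -, k3, k4, -⟩ := kk_small h0 h1
  have k0 : 0 < kk t := by linarith
  have hw := hm.wt h0.le (by linarith)
  have hw0 : Wt 0 (wt t m) E := hw.mono (by linarith) (subset_insert _ _)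
  obtain ⟨-, w1, -⟩ := hw _ (mem_insert_self _ _)
  have hc : cnt E {a, b} a ≤ deg E a + X :=
    ((hH V E fun e h => (hw0 e h).1).2.2 a b (g_ne hm)).trans
      (add_le_add (card_le_card sdiff_subset) ((exc_mono Subset.rfl (empty_subset _)).trans hX))
  have u := (hU V (kk t) (wt t m) E k0 hw0).1 {a, b} a b _ (by simp) (by simp) (g_ne hm) he hc
  have m0 := mu_nonneg k0 hw0 {a, b} ∅
  have m1 := mu_nonneg k0 hw0 {a, b} {a, b}
  have d1 : (com E a b : ℝ) ≤ deg E a := by exact_mod_cast card_le_card inter_subset_left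
  have s1 : 2 * (com E a b : ℝ) / kk t ≤ 1 / 4 := by rw [div_le_iff₀ k0]; linarith
  have s2 : 6 * ((deg E a + X : ℕ) : ℝ) / kk t ^ 2 ≤ 1 / 4 := by
    have x0 : (0 : ℝ) ≤ X := Nat.cast_nonneg _
    have s3 : 6 * (deg E a : ℝ) / kk t ^ 2 ≤ 1 / 8 := by
      rw [div_le_iff₀ (by positivity)]; nlinarith
    have s4 : 6 * (X : ℝ) / kk t ^ 2 ≤ 1 / 8 := by
      rw [div_eq_mul_one_div]; nlinarith [mul_le_mul_of_nonneg_left k3 x0]
    push_cast
    rw [mul_add, add_div]
    linarith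
  set p := mu (kk t) (wt t m) E {a, b} ∅
  set q := mu (kk t) (wt t m) E {a, b} {a, b}
  have v1 : kk t * q ≤ p / 2 := by nlinarith
  have v2 : 98 * q ≤ p / 2 := by nlinarith
  have c1 : 99 / 100 * t ≤ wt t m s(a, b) / kk t := by
    rw [div_eq_mul_one_div (wt t m s(a, b))]
    exact mul_le_mul (by linarith) k1 h0.le (by linarith)
  have v3 := mul_le_mul c1 (show p / 2 ≤ p - kk t * q by linarith) (by linarith) (by nlinarith)
  have v4 : t / 3 * (p + q) ≤ 99 / 100 * t * (p / 2) := by nlinarith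
  rw [e2, e1]
  nlinarith [mul_le_mul_of_nonneg_left (v4.trans v3) r0.le]

theorem g_exc (hH : PHS) (hm : Mg m E) (hl : ∀ v, deg E v ≠ 1) : exc E ∅ ≤ 2 * be E := by
  have e : exc E ∅ = ∑ v with deg E v ≠ 0, (deg E v - 2) := by
    rw [exc, sdiff_empty]
    exact (sum_filter_of_ne fun v _ h => by omega).symm
  rcases (univ.filter fun v => deg E v ≠ 0).eq_empty_or_nonempty with h | h
  · rw [e, h]; simp
  have h1 := (hH V E fun e h => (hm e h).1).1 _ h fun v hv => mem_filter.2 ⟨mem_univ _, hv⟩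
  have h2 : ∑ v with deg E v ≠ 0, deg E v = ∑ v with deg E v ≠ 0, (deg E v - 2 + 2) :=
    sum_congr rfl fun v hv => by have := (mem_filter.1 hv).2; have := hl v; omega
  rw [h2, sum_add_distrib, sum_const, smul_eq_mul] at h1
  omega

theorem g_core (hU : PU) (hH : PHS) (h0 : 0 < t) (h1 : t ≤ 1 / 100) (hm : Mg m E)
    (hl : ∀ v, deg E v ≠ 1) (hs : be E * t ^ 2 ≤ 1 / 1000) : exp (t / 12 * be E) ≤ AA t m E := by
  classical
  have hX := g_exc hH hm hl
  obtain ⟨-, k2, -, k4, -⟩ := kk_small h0 h1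
  have k0 : 0 < kk t := by linarith
  set B := univ.filter fun v => kk t / 8 < (deg E v : ℝ) with hB
  set D := (B ×ˢ B).image fun p => s(p.1, p.2) with hD
  have b0 : (0 : ℝ) ≤ be E := Nat.cast_nonneg _
  have key : exp (t / 6 * be E) ≤ AA t m E * exp (t / 6 * (E ∩ D).card) := by
    refine Finset.induction_on' (motive := fun F =>
      exp (t / 6 * be F) ≤ AA t m F * exp (t / 6 * (F ∩ D).card)) E (by simp [g_empty, be]) ?_
    intro e F h1e h2 he ih
    induction e using Sym2.ind with | h a b => ?_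
    have hm' : Mg m (insert s(a, b) F) := hm.mono (insert_subset h1e h2)
    have a0 := (g_inv h0 (by linarith) (hm.mono h2)).1
    have mono : exp (t / 6 * (F ∩ D).card) ≤ exp (t / 6 * (insert s(a, b) F ∩ D).card) :=
      Real.exp_le_exp.2 (mul_le_mul_of_nonneg_left (by
        exact_mod_cast card_le_card (inter_subset_inter_right (subset_insert _ _))) (by linarith))
    by_cases hn : gen ⊥ F a b
    · rw [(g_cycle h0 (by linarith) hm' he hn).1, Nat.cast_succ, mul_add, mul_one, Real.exp_add]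
      by_cases hd : s(a, b) ∈ D
      · rw [insert_inter_of_mem hd, card_insert_of_notMem fun h => he (mem_inter.1 h).1,
          Nat.cast_succ, mul_add, mul_one, Real.exp_add, ← mul_assoc]
        exact mul_le_mul_of_nonneg_right (ih.trans (mul_le_mul_of_nonneg_right
          (g_cycle' h0 (by linarith) hm' he hn).1 (Real.exp_nonneg _))) (Real.exp_nonneg _)
      · have hx : exc F ∅ ≤ 2 * be E := (exc_mono h2 Subset.rfl).trans hX
        have hs' : ((2 * be E : ℕ) : ℝ) * t ^ 2 ≤ 1 / 60 := by push_cast; linarith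
        have dm : ∀ v, v ∉ B → (deg F v : ℝ) ≤ kk t / 8 := fun v hv =>
          (Nat.cast_le.2 (deg_mono h2 v)).trans (not_lt.1 fun g => hv (mem_filter.2 ⟨mem_univ _, g⟩))
        have g : (1 + t / 3) * AA t m F ≤ AA t m (insert s(a, b) F) := by
          by_cases ha : a ∈ B
          · have hb : b ∉ B := fun hb => hd (mem_image.2 ⟨(a, b), mem_product.2 ⟨ha, hb⟩, rfl⟩)
            rw [Sym2.eq_swap] at hm' he ⊢
            exact g_good hU hH h0 h1 hm' he ((gen ⊥ F).symm' hn) (dm b hb) hx hs'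
          · exact g_good hU hH h0 h1 hm' he hn (dm a ha) hx hs'
        have ex : exp (t / 6) ≤ 1 + t / 3 := by
          have := Real.abs_exp_sub_one_le (x := t / 6) (abs_le.2 ⟨by linarith, by linarith⟩)
          rw [abs_of_pos (show 0 < t / 6 by linarith)] at this
          linarith [(abs_le.1 this).2]
        refine (mul_le_mul ih ex (Real.exp_nonneg _) (by positivity)).trans ?_
        rw [mul_comm, ← mul_assoc]
        exact mul_le_mul g mono (Real.exp_nonneg _) (by nlinarith)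
    · obtain ⟨e0, f, c, e1, -, f1, -⟩ := g_bridge h0 (by linarith) hm' he hn
      have f0 := (one_le_pow₀ (show 1 ≤ 1 + t ^ 2 by nlinarith)).trans f1
      rw [e0, e1]
      exact ih.trans (mul_le_mul (by nlinarith) mono (Real.exp_nonneg _) (by nlinarith))
  have c1 : (B.card : ℝ) * (kk t / 10) ≤ 2 * be E := by
    have h2 : B.card • (kk t / 10) ≤ ∑ v ∈ B, ((deg E v - 2 : ℕ) : ℝ) :=
      card_nsmul_le_sum _ _ _ fun v hv => by
        have h3 := (mem_filter.1 hv).2
        have h4 : 2 ≤ deg E v := by exact_mod_cast (show (2 : ℝ) ≤ deg E v by linarith)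
        rw [Nat.cast_sub h4]
        push_cast
        linarith
    have h5 : ∑ v ∈ B, (deg E v - 2) ≤ 2 * be E :=
      (sum_le_sum_of_subset fun v _ => by simp).trans hX
    rw [nsmul_eq_mul] at h2
    exact h2.trans (by exact_mod_cast h5)
  have c2 : (B.card : ℝ) ≤ 21 * be E * t := by
    have : (B.card : ℝ) ≤ 20 * be E * (1 / kk t) := by
      rw [mul_one_div, le_div_iff₀ k0]; linarith
    nlinarith
  have c3 : ((E ∩ D).card : ℝ) ≤ (B.card : ℝ) * B.card := by
    exact_mod_cast (card_le_card inter_subset_right).trans (card_image_le.trans_eq (card_product _ _))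
  have c4 : ((E ∩ D).card : ℝ) ≤ be E / 2 := by
    have := mul_le_mul c2 c2 (Nat.cast_nonneg _) (by positivity)
    nlinarith [mul_le_mul_of_nonneg_left hs b0]
  rw [← div_le_iff₀ (Real.exp_pos _), ← Real.exp_sub] at key
  exact (Real.exp_le_exp.2 (by nlinarith)).trans key

theorem g_grow (hU : PU) (hH : PHS) (h0 : 0 < t) (h1 : t ≤ 1 / 100) (hm : Mg m E)
    (hs : be E * t ^ 2 ≤ 1 / 1000) : exp (t / 12 * be E) ≤ AA t m E := by
  induction E using Finset.strongInduction with | H E ih => ?_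
  by_cases hl : ∀ v, deg E v ≠ 1
  · exact g_core hU hH h0 h1 hm hl hs
  obtain ⟨v, hv⟩ := not_forall.1 hl
  obtain ⟨a, ha⟩ := card_eq_one.1 (not_not.1 hv)
  have he : s(v, a) ∈ E := mem_nb.1 (ha ▸ mem_singleton_self a)
  have e := insert_erase he
  have hm' : Mg m (insert s(v, a) (E.erase s(v, a))) := e.symm ▸ hm
  have hn : ¬gen ⊥ (E.erase s(v, a)) v a := fun g => by
    obtain ⟨n, hw⟩ := (gen_bot_iff _ _ _).1 g
    rcases n with _ | n
    · exact g_ne hm' hw
    · obtain ⟨c, h2, -⟩ := hw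
      have h3 : c ∈ nb E v := mem_nb.2 (mem_erase.1 h2).2
      rw [ha, mem_singleton] at h3
      exact (mem_erase.1 h2).1 (by rw [h3])
  obtain ⟨e0, f, c, e1, -, f1, -⟩ := g_bridge h0 (by linarith) hm' (notMem_erase _ _) hn
  have f0 := (one_le_pow₀ (show 1 ≤ 1 + t ^ 2 by nlinarith)).trans f1
  have hm2 := hm.mono (erase_subset s(v, a) E)
  have a0 := (g_inv h0 (by linarith) hm2).1
  rw [e] at e0 e1
  rw [e0] at hs ⊢
  rw [e1]
  exact (ih _ (erase_ssubset he) hm2 hs).trans (by nlinarith)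

theorem g_big (hU : PU) (hH : PHS) (hm : Mg m E) {j : ℕ} (hj : 10 ^ 11 ≤ j) (h1 : be E ≤ j ^ 3)
    (h2 : j ^ 3 ≤ 16 * be E) (t1 : 1 / (j : ℝ) ^ 2 ≤ t) (t2 : t ≤ 6000 / (j : ℝ) ^ 2) :
    exp (j / (10 ^ 11 : ℕ)) ≤ AA t m E := by
  have j1 : (10 : ℝ) ^ 11 ≤ j := by exact_mod_cast hj
  have j0 : (0 : ℝ) < j := by linarith [show (0 : ℝ) < 10 ^ 11 by norm_num]
  have b1 : (be E : ℝ) ≤ j ^ 3 := by exact_mod_cast h1
  have b2 : (j : ℝ) ^ 3 ≤ 16 * be E := by exact_mod_cast h2
  have h0 : 0 < t := lt_of_lt_of_le (by positivity) t1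
  rw [div_le_iff₀ (by positivity)] at t1
  rw [le_div_iff₀ (by positivity)] at t2
  have s1 : t * j ≤ 6000 / 10 ^ 11 := by
    rw [le_div_iff₀ (by positivity)]; nlinarith [mul_pos h0 j0]
  have s2 : t ≤ 1 / 100 := by nlinarith
  have s3 : (be E : ℝ) * t ^ 2 ≤ 1 / 1000 := by
    have := mul_le_mul s1 t2 (by positivity) (by positivity)
    nlinarith [mul_le_mul_of_nonneg_right b1 (sq_nonneg t)]
  refine (Real.exp_le_exp.2 ?_).trans (g_grow hU hH h0 s2 hm s3)
  have s4 := mul_le_mul_of_nonneg_left t1 j0.le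
  have s5 := mul_le_mul_of_nonneg_left b2 h0.le
  push_cast
  nlinarith

theorem g_pow {A : ℝ} {p q : ℕ} (h1 : 1 ≤ A) (h2 : (1 + t ^ 2) ^ p ≤ A * (1 + t ^ 2) ^ q) :
    (1 + t ^ 2) ^ (p - q) ≤ A := by
  rcases le_total p q with h | h
  · rwa [Nat.sub_eq_zero_of_le h, pow_zero]
  · refine le_of_mul_le_mul_right ?_ (show 0 < (1 + t ^ 2) ^ q by positivity)
    rwa [← pow_add, Nat.sub_add_cancel h]

theorem gg (hU : PU) (hH : PHS) : PG := by
  refine ⟨10 ^ 11, by norm_num, fun V _ _ m m' E E' hm hm' => ⟨⟨fun t h0 h1 => ?_,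
    fun j hj h1 h2 t t1 t2 => g_big hU hH hm hj h1 (by omega) t1 t2⟩, fun t h0 h1 => ?_,
    fun j hj h1 h2 t t1 t2 => ?_⟩⟩
  · obtain ⟨i1, i2, i3⟩ := g_inv h0 h1 hm
    exact ⟨i2, g_pow i1 i3⟩
  · obtain ⟨i1, i2, i3⟩ := g_inv h0 h1 hm
    obtain ⟨l1, l2, l3⟩ := g_inv h0 h1 hm'
    refine ⟨(mul_le_mul i2 l2 (by linarith) (Real.exp_nonneg _)).trans_eq ?_,
      g_pow (one_le_mul_of_one_le_of_one_le i1 l1) ?_⟩
    · rw [← Real.exp_add]; push_cast; congr 1; ring
    · rw [pow_add, pow_add, mul_mul_mul_comm]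
      exact mul_le_mul i3 l3 (by positivity) (by positivity)
  · have j1 : (10 : ℝ) ^ 11 ≤ j := by exact_mod_cast hj
    have j0 : (0 : ℝ) < j := by linarith [show (0 : ℝ) < 10 ^ 11 by norm_num]
    have h0 : 0 < t := lt_of_lt_of_le (by positivity) t1
    have h3 : t ≤ 1 / 2 := t2.trans (by rw [div_le_iff₀ (by positivity)]; nlinarith)
    have i1 := (g_inv h0 h3 hm).1
    have l1 := (g_inv h0 h3 hm').1
    rcases le_total (be E) (be E') with h | h
    · exact (g_big hU hH hm' hj (by omega) (by omega) t1 t2).trans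
        (le_mul_of_one_le_left (by linarith) i1)
    · exact (g_big hU hH hm hj (by omega) (by omega) t1 t2).trans
        (le_mul_of_one_le_right (by linarith) l1)

end Pool.Agent.P.MP_833722_gt.TG
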