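import Pool.Agent.P.MP_833722_gt.TG.Defs

/-! Counting degrees and short walks. -/

set_option autoImplicit false

namespace Pool.Agent.P.MP_833722_gt.TG

open Finset

variable {V : Type} [Fintype V] [DecidableEq V]

theorem hs_mem (E : Finset (Sym2 V)) (v a : V) : a ∈ nb E v ↔ s(v, a) ∈ E := by simp [nb]

theorem hs_sum (E : Finset (Sym2 V)) : ∑ v, deg E v ≤ 2 * E.card := by
  have h1 : ∑ v, deg E v = (univ.filter fun p : V × V => s(p.1, p.2) ∈ E).card := by
    simp only [deg, nb, card_filter]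
    rw [Fintype.sum_prod_type]
  rw [h1]
  refine card_le_mul_card_image_of_maps_to (f := fun p : V × V => s(p.1, p.2))
    (fun p hp => (mem_filter.1 hp).2) 2 fun e _ => ?_
  induction e using Sym2.ind with | h a b => ?_
  refine (card_le_card (t := {(a, b), (b, a)}) fun p hp => ?_).trans card_le_two
  rcases Sym2.eq_iff.1 (mem_filter.1 hp).2 with ⟨h, g⟩ | ⟨h, g⟩
  · exact mem_insert.2 (Or.inl (Prod.ext h g))
  · exact mem_insert.2 (Or.inr (mem_singleton.2 (Prod.ext h g)))

theorem hs_rk (E : Finset (Sym2 V)) (U : Finset V) (hU : U.Nonempty) (h : ∀ v : V, deg E v ≠ 0 → v ∈ U) :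
    rk (gen ⊥ E) + 1 ≤ U.card := by
  obtain ⟨u, hu⟩ := hU
  let τ : Setoid V := ⟨fun a b => a = b ∨ (a ∈ U ∧ b ∈ U), fun _ => Or.inl rfl,
    fun g => g.elim (fun e => Or.inl e.symm) fun e => Or.inr e.symm, by
      rintro a b c (rfl | g) (rfl | g')
      · exact Or.inl rfl
      · exact Or.inr g'
      · exact Or.inr g
      · exact Or.inr ⟨g.1, g'.2⟩⟩
  have h1 : gen ⊥ E ≤ τ := gen_le bot_le fun a b g => Or.inr
    ⟨h a (card_ne_zero.2 ⟨b, (hs_mem E a b).2 g⟩),
      h b (card_ne_zero.2 ⟨a, (hs_mem E b a).2 (Sym2.eq_swap ▸ g)⟩)⟩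
  have h2 : Nat.card (insert u Uᶜ : Finset V) ≤ Nat.card (Quotient (gen ⊥ E)) := by
    refine Nat.card_le_card_of_injective (fun a => Quotient.mk _ a.1) fun a b g => ?_
    rcases h1 (Quotient.exact g) with e | e
    · exact Subtype.ext e
    · have ha := (mem_insert.1 a.2).resolve_right fun c => mem_compl.1 c e.1
      have hb := (mem_insert.1 b.2).resolve_right fun c => mem_compl.1 c e.2
      exact Subtype.ext (ha.trans hb.symm)
  rw [Nat.card_eq_fintype_card, Fintype.card_coe, card_insert_of_notMem (fun c => mem_compl.1 c hu),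
    card_compl] at h2
  have h3 := card_le_univ U
  have h4 := card_pos.2 ⟨u, hu⟩
  unfold rk
  omega

theorem hs_cnt (E : Finset (Sym2 V)) (W T : Finset V) (v : V)
    (h : ∀ a, s(v, a) ∈ E → a ∉ W →
      ((nb E a).erase v \ W).card ≤ deg E a - 2 + if a ∈ T then 1 else 0) :
    cnt E W v ≤ exc E W + T.card := by
  have h1 : cnt E W v = ∑ a, (univ.filter fun b : V =>
      s(v, a) ∈ E ∧ s(a, b) ∈ E ∧ a ∉ W ∧ b ∉ W ∧ b ≠ v).card := by
    simp only [cnt, card_filter]
    rw [Fintype.sum_prod_type]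
  have h2 : exc E W = ∑ a, if a ∈ univ \ W then deg E a - 2 else 0 := by
    rw [exc, Fintype.sum_ite_mem]
  have h3 : T.card = ∑ a, if a ∈ T then 1 else 0 := by
    rw [Fintype.sum_ite_mem, card_eq_sum_ones]
  rw [h1, h2, h3, ← sum_add_distrib]
  refine sum_le_sum fun a _ => ?_
  by_cases g : s(v, a) ∈ E ∧ a ∉ W
  · rw [if_pos (mem_sdiff.2 ⟨mem_univ _, g.2⟩)]
    refine (card_le_card fun b hb => ?_).trans (h a g.1 g.2)
    have := (mem_filter.1 hb).2
    exact mem_sdiff.2 ⟨mem_erase.2 ⟨this.2.2.2.2, (hs_mem E a b).2 this.2.1⟩, this.2.2.2.1⟩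
  · rw [filter_false_of_mem fun b _ c => g ⟨c.1, c.2.2.1⟩, card_empty]
    exact Nat.zero_le _

theorem hs : PHS := by
  intro V _ _ E _
  refine ⟨fun U hU h => ?_, fun W v hv => ?_, fun x y hxy => ?_⟩
  · have h1 := hs_sum E
    have h2 := hs_rk E U hU h
    have h3 : ∑ v ∈ U, deg E v ≤ ∑ v, deg E v := sum_le_sum_of_subset (subset_univ U)
    unfold be
    omega
  · have h1 := hs_cnt E W (nb E v) v fun a ha _ => by
      have h2 : v ∈ nb E a := (hs_mem E a v).2 (Sym2.eq_swap ▸ ha)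
      have h3 := card_le_card (sdiff_subset (s := (nb E a).erase v) (t := W))
      rw [card_erase_of_mem h2] at h3
      rw [if_pos ((hs_mem E v a).2 ha), deg]
      omega
    have h2 : deg E v - 2 ≤ exc E W :=
      single_le_sum (f := fun v => deg E v - 2) (fun _ _ => Nat.zero_le _)
        (mem_sdiff.2 ⟨mem_univ v, hv⟩)
    rw [deg] at h2
    omega
  · rw [add_comm]
    refine hs_cnt E {x, y} _ x fun a ha _ => ?_
    have h2 : x ∈ nb E a := (hs_mem E a x).2 (Sym2.eq_swap ▸ ha)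
    by_cases g : a ∈ nb E y
    · have h3 : y ∈ (nb E a).erase x :=
        mem_erase.2 ⟨hxy.symm, (hs_mem E a y).2 (Sym2.eq_swap ▸ (hs_mem E y a).1 g)⟩
      have h4 : ((nb E a).erase x \ {x, y}).card ≤ (((nb E a).erase x).erase y).card :=
        card_le_card fun b hb => mem_erase.2 ⟨fun c => (mem_sdiff.1 hb).2 (by simp [c]),
          (mem_sdiff.1 hb).1⟩
      rw [card_erase_of_mem h3, card_erase_of_mem h2] at h4
      rw [deg]
      omega
    · have h3 := card_le_card (sdiff_subset (s := (nb E a).erase x) (t := {x, y}))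
      rw [card_erase_of_mem h2] at h3
      rw [if_pos (mem_sdiff.2 ⟨(hs_mem E x a).2 ha, g⟩), deg]
      omega

end Pool.Agent.P.MP_833722_gt.TG
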