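import Pool.Agent.P.MP_833722_gt.TG.Base

/-! The main case: the bracket in terms of two networks. -/

set_option autoImplicit false

namespace Pool.Agent.P.MP_833722_gt.TG

open Finset

variable {V : Type} [Fintype V] [DecidableEq V]

theorem im_p (P : DP V) : P.Ep ⊆ P.E := filter_subset _ _

theorem im_m (P : DP V) : P.Em ⊆ P.E := filter_subset _ _

theorem im_not (P : DP V) {e : ℕ} (h : e ∈ P.Ep) : e ∉ P.Em := fun g => by
  simp only [DP.Ep, DP.Em, mem_filter] at h g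
  simp [h.2] at g

theorem im_or (P : DP V) {e : ℕ} : e ∈ P.E ↔ e ∈ P.Ep ∨ e ∈ P.Em := by
  rw [← mem_union, P.Ep_union_Em]

/-- the rank of a set in terms of the two sides -/
theorem im_rank (P : DP V) (h : P.LE) {A B : Finset ℕ} (hA : A ⊆ P.Ep) (hB : B ⊆ P.Em) :
    gr P.en (P.Ep \ A ∪ B) + A.card +
      (if gr P.en' (P.Em ∪ A) < gr P.en' P.Em + gr P.en' A ∨
        gr P.en (P.Ep ∪ B) < gr P.en P.Ep + gr P.en B then 1 else 0) =
      gr P.en P.Ep + gr P.en' A + gr P.en B := by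
  have a1 := fun e => @hA e
  have a2 := fun e => @hB e
  have a3 := fun e => @im_not _ _ _ P e
  have a4 := fun e => @im_or _ _ _ P e
  have d1 := P.dual A (hA.trans (im_p P))
  have d2 := P.dual (P.Em ∪ A) (union_subset (im_m P) (hA.trans (im_p P)))
  have d3 := P.dual P.Em (im_m P)
  rw [P.sdiff_Em] at d3
  rw [show P.E \ A = P.Ep \ A ∪ P.Em by ext e; simp only [mem_sdiff, mem_union]; grind] at d1
  rw [show P.E \ (P.Em ∪ A) = P.Ep \ A by ext e; simp only [mem_sdiff, mem_union]; grind,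
    card_union_of_disjoint (disjoint_left.2 fun e g g' => a3 e (a1 e g') g)] at d2
  have s1 := gr_submod P.en (P.Ep \ A ∪ P.Em) (P.Ep ∪ B)
  rw [show P.Ep \ A ∪ P.Em ∪ (P.Ep ∪ B) = P.E by
      ext e; simp only [mem_sdiff, mem_union]; grind,
    show (P.Ep \ A ∪ P.Em) ∩ (P.Ep ∪ B) = P.Ep \ A ∪ B by
      ext e; simp only [mem_sdiff, mem_union, mem_inter]; grind] at s1
  have s2 := gr_sub P.en (sdiff_subset (s := P.Ep) (t := A)) B
  have s3 := gr_sub P.en hB (P.Ep \ A)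
  have s4 := gr_sub P.en hB P.Ep
  have s5 := gr_sub P.en (sdiff_subset (s := P.Ep) (t := A)) P.Em
  have s6 := gr_union_le P.en (P.Ep \ A) B
  have s7 := gr_union_le P.en (P.Ep \ A) P.Em
  have s8 := gr_union_le P.en P.Ep B
  rw [union_comm P.Em, union_comm B] at s3 s4
  rw [P.Ep_union_Em] at s4 s5
  unfold DP.LE at h
  split_ifs <;> omega

theorem im_split (P : DP V) (f : Finset ℕ → ℝ) :
    ∑ S ∈ P.E.powerset, f S = ∑ A ∈ P.Ep.powerset, ∑ B ∈ P.Em.powerset, f (P.Ep \ A ∪ B) := by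
  have a3 := fun e => @im_not _ _ _ P e
  have a4 := fun e => @im_or _ _ _ P e
  rw [← sum_product']
  refine sum_nbij' (fun S => (P.Ep \ S, S ∩ P.Em)) (fun p => P.Ep \ p.1 ∪ p.2) ?_ ?_ ?_ ?_ ?_
  · intro S _
    simp
  · intro p hp
    simp only [mem_product, mem_powerset] at hp ⊢
    exact union_subset (sdiff_subset.trans (im_p P)) (hp.2.trans (im_m P))
  · intro S hS
    have := fun e => @mem_powerset.1 hS e
    ext e; simp only [mem_sdiff, mem_union, mem_inter]; grind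
  · intro p hp
    simp only [mem_product, mem_powerset] at hp
    have a1 := fun e => @hp.1 e
    have a2 := fun e => @hp.2 e
    refine Prod.ext ?_ ?_ <;> ext e <;> simp only [mem_sdiff, mem_union, mem_inter] <;> grind
  · intro S hS
    have := fun e => @mem_powerset.1 hS e
    congr 1
    ext e; simp only [mem_sdiff, mem_union, mem_inter]; grind

theorem im_m0 (N : Net V) {en : ℕ → Sym2 V} {F : Finset ℕ} (h1 : N.H = F.image en)
    (h2 : N.m = mlt en F) (t : ℝ) : N.m0 t = ∑ S ∈ F.powerset,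
      (-(1 - t)) ^ S.card * (-kk t)⁻¹ ^ gr en S * ind ¬gen ⊥ (S.image en) N.x N.y := by
  rw [Net.m0, mu, h1, h2, ← ZM_eq, ZM]
  exact sum_congr rfl fun S _ => by rw [ind_congr (sep_pair0 N.ne _)]

theorem im_m1 (N : Net V) {en : ℕ → Sym2 V} {F : Finset ℕ} (h1 : N.H = F.image en)
    (h2 : N.m = mlt en F) (t : ℝ) : N.m1 t = ∑ S ∈ F.powerset,
      (-(1 - t)) ^ S.card * (-kk t)⁻¹ ^ gr en S * ind (gen ⊥ (S.image en) N.x N.y) := by
  rw [Net.m1, mu, h1, h2, ← ZM_eq, ZM]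
  exact sum_congr rfl fun S _ => by rw [ind_congr (sep_pair1 _)]

theorem im_term {c v q k : ℝ} (h1 : c * v * q = 1) (h2 : q * -k = 1) {p p' : Prop} [Decidable p]
    [Decidable p'] {n a b r r0 r1 r2 : ℕ} (h : r + a + (if p' ∨ p then 1 else 0) = r0 + r1 + r2) :
    c ^ n * v ^ b * q ^ r = c ^ (n + a) * q ^ r0 *
      (v ^ a * q ^ r1 * ind (¬p') * (v ^ b * q ^ r2 * ind ¬p) -
        k * (v ^ a * q ^ r1 * ind (¬p') * (v ^ b * q ^ r2 * ind p)) -
        k * (v ^ a * q ^ r1 * ind p' * (v ^ b * q ^ r2 * ind ¬p)) -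
        k * (v ^ a * q ^ r1 * ind p' * (v ^ b * q ^ r2 * ind p))) := by
  have e : (c * v * q) ^ a = 1 := by rw [h1, one_pow]
  have e' : q ^ r0 * q ^ r1 * q ^ r2 = q ^ r * q ^ a * q ^ (if p' ∨ p then 1 else 0) := by
    rw [← pow_add, ← pow_add, ← pow_add, ← pow_add, h]
  rw [mul_pow, mul_pow] at e
  by_cases g : p <;> by_cases g' : p' <;>
    simp only [g, g', ind, not_true, not_false_iff, if_true, if_false, or_true, or_false,
      pow_one, pow_zero, pow_add] at e' ⊢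
  · linear_combination (c ^ n * c ^ a * v ^ a * v ^ b * k) * e' -
      (c ^ n * v ^ b * q ^ r) * e - (c ^ n * v ^ b * q ^ r * c ^ a * v ^ a * q ^ a) * h2
  · linear_combination (c ^ n * c ^ a * v ^ a * v ^ b * k) * e' -
      (c ^ n * v ^ b * q ^ r) * e - (c ^ n * v ^ b * q ^ r * c ^ a * v ^ a * q ^ a) * h2
  · linear_combination (c ^ n * c ^ a * v ^ a * v ^ b * k) * e' -
      (c ^ n * v ^ b * q ^ r) * e - (c ^ n * v ^ b * q ^ r * c ^ a * v ^ a * q ^ a) * h2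
  · linear_combination (-(c ^ n * c ^ a * v ^ a * v ^ b)) * e' - (c ^ n * v ^ b * q ^ r) * e

theorem im_RS (P : DP V) (h : P.LE) {en1 en2 : ℕ → Sym2 V} {N N' : Net V}
    (h1 : N.H = P.Em.image en1) (h2 : N.m = mlt en1 P.Em) (h3 : P.Port en1 N.x N.y)
    (g1 : N'.H = P.Ep.image en2) (g2 : N'.m = mlt en2 P.Ep) (g3 : P.sw.Port en2 N'.x N'.y)
    {t : ℝ} (t0 : 0 < t) (t1 : t < 1) :
    P.RS t = ((1 - t) / t) ^ P.Ep.card * (-kk t)⁻¹ ^ gr P.en P.Ep *
      ((N.m0 t - kk t * N.m1 t) * (N'.m0 t - kk t * N'.m1 t) -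
        kk t * (kk t + 1) * N.m1 t * N'.m1 t) := by
  classical
  have u0 : 1 - t ≠ 0 := by linarith
  have a3 := fun e => @im_not _ _ _ P e
  rw [show (N.m0 t - kk t * N.m1 t) * (N'.m0 t - kk t * N'.m1 t) -
      kk t * (kk t + 1) * N.m1 t * N'.m1 t = N'.m0 t * N.m0 t - kk t * (N'.m0 t * N.m1 t) -
        kk t * (N'.m1 t * N.m0 t) - kk t * (N'.m1 t * N.m1 t) by ring,
    im_m0 N h1 h2, im_m1 N h1 h2, im_m0 N' g1 g2, im_m1 N' g1 g2, DP.RS, im_split]
  simp only [sum_mul_sum]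
  simp only [mul_sum, ← sum_sub_distrib]
  refine sum_congr rfl fun A hA => sum_congr rfl fun B hB => ?_
  rw [mem_powerset] at hA hB
  have a1 := fun e => @hA e
  have a2 := fun e => @hB e
  have r := im_rank P h hA hB
  obtain ⟨p1, p2⟩ := h3 B hB
  obtain ⟨q1, q2⟩ := g3 A (by rwa [DP.sw_Em])
  simp only [DP.sw_en, DP.sw_Ep] at q1 q2
  rw [show (P.Ep \ A ∪ B) ∩ P.Ep = P.Ep \ A by
      ext e; simp only [mem_sdiff, mem_union, mem_inter]; grind,
    show (P.Ep \ A ∪ B) ∩ P.Em = B by ext e; simp only [mem_sdiff, mem_union, mem_inter]; grind,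
    ← card_sdiff_add_card_eq_card hA, p1, q1, ← p2, ← q2]
  refine im_term ?_ (inv_mul_cancel₀ (neg_ne_zero.2 (kk_pos t0 t1).ne')) r
  unfold kk
  field_simp

theorem imain (hE : PEval) (hP : PPort) (hS : PSym) (hC : PCMain) : PIMain := by
  obtain ⟨C, hC⟩ := hC
  refine ⟨C, fun V _ _ P h1 h2 h3 h4 => ?_⟩
  obtain ⟨en1, N, a1, a2, a3⟩ := hP V P h1 h2 h3
  obtain ⟨en2, N', b1, b2, b3⟩ := hP V P.sw ((hS V P).2.2.2.2.1 h1) ((hS V P).2.2.2.1 h2) h4
  rw [DP.sw_Em] at b1 b2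
  have c1 : rk (gen ⊥ N.H) = gr P.en P.Em := by rw [a1]; exact (a3 _ Subset.rfl).1
  have c2 : rk (gen ⊥ N'.H) = gr P.en' P.Ep := by
    rw [b1]; exact (b3 _ (by rw [DP.sw_Em])).1
  have c3 := P.dual P.Ep (im_p P)
  rw [P.sdiff_Ep] at c3
  have c4 := gr_mono P.en (im_p P)
  obtain ⟨d, hd⟩ := Nat.exists_eq_add_of_le (gr_le_card P.en P.Ep)
  refine ⟨(P.Ep.card : ℤ) - P.Em.card - 2 * gr P.en P.E - (4 * d : ℕ), Bm N N',
    fun a a0 a1' => ?_, hC V N N'⟩
  have t0 : 0 < a ^ 4 := by positivity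
  have t1 : a ^ 4 < 1 := pow_lt_one₀ a0.le a1' (by norm_num)
  have u0 : 0 < 1 - a ^ 4 := by linarith
  unfold DP.LE at h2
  obtain ⟨s, hs⟩ := Nat.exists_eq_add_of_le c4
  rw [(hE V P).1 a a0 a1', im_RS P h2 a1 a2 a3 b1 b2 b3 t0 t1, Bm, c1, c2,
    zpow_sub₀ a0.ne' _ (4 * d : ℕ), zpow_natCast, pow_mul, show gr P.en P.Em - 1 + (gr P.en' P.Ep - 1) = s + d by omega]
  simp only [abs_mul, abs_pow, abs_inv, abs_neg, abs_div, abs_of_pos u0, abs_of_pos t0,
    abs_of_pos (kk_pos t0 t1)]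
  generalize (a : ℝ) ^ ((P.Ep.card : ℤ) - P.Em.card - 2 * gr P.en P.E) = z
  generalize |(_ : ℝ) - _| = y
  rw [hs, hd, kk]
  generalize a ^ 4 = t at *
  generalize 1 - t = u at *
  simp only [pow_add, div_pow, inv_pow, sq, mul_pow]
  field_simp

end Pool.Agent.P.MP_833722_gt.TG
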