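import Pool.Agent.P.MP_833722_gt.TG.Base

/-! Pairs with at most one positive edge. -/

set_option autoImplicit false

namespace Pool.Agent.P.MP_833722_gt.TG

open Finset LaurentPolynomial

variable {V : Type} [Fintype V] [DecidableEq V]

omit [Fintype V] in
theorem is_mg {en : ℕ → Sym2 V} {F : Finset ℕ} (h : ∀ e ∈ F, ¬(en e).IsDiag) :
    Mg (mlt en F) (F.image en) := by
  intro s hs
  obtain ⟨e, he, rfl⟩ := mem_image.1 hs
  exact ⟨h e he, card_pos.2 ⟨e, mem_filter.2 ⟨he, rfl⟩⟩⟩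

theorem is_t {a : ℝ} (h0 : 0 < a) (h1 : a < 1) : 0 < a ^ 4 ∧ a ^ 4 < 1 :=
  ⟨by positivity, pow_lt_one₀ h0.le h1 (by norm_num)⟩

theorem is_em {P : DP V} {d : ℕ} (h : P.Ep = {d}) : d ∈ P.E ∧ P.Em = P.E.erase d := by
  refine ⟨(mem_filter.1 (show d ∈ P.Ep from h ▸ mem_singleton_self d)).1, ?_⟩
  rw [← P.sdiff_Ep, h, sdiff_singleton_eq_erase]

theorem is_com {en : ℕ → Sym2 V} {E F : Finset ℕ} {d : ℕ} {x y : V} (hF : F ⊆ E)
    (hd : ∀ e ∈ E, ¬(en e).IsDiag) (h : en d = s(x, y)) (hxy : x ≠ y) (hT : ¬Tri en E d) :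
    com (F.image en) x y = 0 := by
  rw [com, card_eq_zero, eq_empty_iff_forall_notMem]
  intro z hz
  obtain ⟨h1, h2⟩ := mem_inter.1 hz
  obtain ⟨e, he, e1⟩ := mem_image.1 (mem_nb.1 h1)
  obtain ⟨f, hf, e2⟩ := mem_image.1 (mem_nb.1 h2)
  have a1 := hd e (hF he)
  have a2 := hd f (hF hf)
  rw [e1, Sym2.mk_isDiag_iff] at a1
  rw [e2, Sym2.mk_isDiag_iff] at a2
  exact hT ⟨e, hF he, f, hF hf, x, y, z, hxy, a1, a2, h, e1, e2.trans Sym2.eq_swap⟩

theorem ipure (hE : PEval) (hS : PSym) (hG : PG) (h1 : POne) : PIPure := by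
  obtain ⟨C1, c1, hG⟩ := hG
  obtain ⟨C, hC⟩ := h1 1 C1 c1
  refine ⟨C, fun V _ _ P hN h2 hp => ?_⟩
  have mg := is_mg fun e he => ((hS V P).2.2.2.2.2.1 hN h2 e he).1
  have g := (hG V _ _ _ _ mg mg).1
  refine ⟨_, fun t => (1 - t) ^ gr P.en P.E * P.RS t, (hE V P).1, hC _ _ _ _ g fun t t0 t1 => ?_⟩
  have e : (1 - t) ^ gr P.en P.E * P.RS t = AA t (mlt P.en P.E) (P.E.image P.en) := by
    rw [(hE V P).2.1 hp, ZM_eq]; rfl
  have a : 0 ≤ AA t (mlt P.en P.E) (P.E.image P.en) :=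
    le_trans (by positivity) (g.1 t t0 (by linarith)).2
  simp only [e, abs_of_nonneg a, Nat.cast_one, one_mul]
  exact ⟨mul_le_of_le_one_left a (by linarith), le_rfl⟩

/-- the lowest term -/
theorem is_low (hE : PEval) (hS : PSym) (hP : PSp) (hC : PCS4) (P : DP V) (d : ℕ) (hN : P.NoSep)
    (h3 : 3 ≤ P.E.card) (hp : P.Ep = {d}) (hne : ∀ e ∈ P.Em, P.en e ≠ P.en d)
    (hT : ¬Tri P.en P.E d) :
    ∃ i : ℤ, i ≤ 6 - P.E.card - 2 * gr P.en P.E ∧ P.Br.coeff i ≠ 0 := by
  obtain ⟨hd, hm⟩ := is_em hp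
  have s6 := (hS V P).2.2.2.2.2.1 hN (by omega)
  have sub : P.Em ⊆ P.E := filter_subset _ _
  induction hxy : P.en d using Sym2.ind with | h x y => ?_
  have ne : x ≠ y := by
    have := (s6 d hd).1
    rwa [hxy, Sym2.mk_isDiag_iff] at this
  obtain ⟨t0, p0, ht⟩ := hC V (mlt P.en P.Em) (P.Em.image P.en) x y
    (is_mg fun e he => (s6 e (sub he)).1) ne
    (fun h => by
      obtain ⟨e, he, e1⟩ := mem_image.1 h
      exact hne e he (e1.trans hxy.symm))
    (is_com sub (fun e he => (s6 e he).1) hxy ne hT)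
  have cm : (P.Em.card : ℤ) = P.E.card - 1 := by
    rw [hm, card_erase_of_mem hd]; omega
  refine hP.lowb _ _ (1 / 4) (min 1 t0) (by norm_num) (lt_min one_pos p0) fun a a0 a1 => ?_
  obtain ⟨a1, a2⟩ := lt_min_iff.1 a1
  obtain ⟨b0, b1⟩ := is_t a0 a1
  have b2 : a ^ 4 < t0 := lt_of_le_of_lt (pow_le_of_le_one a0.le a1.le (by norm_num)) a2
  have e : (1 - a ^ 4) ^ gr P.en P.E * P.RS (a ^ 4) =
      -Bs (a ^ 4) (mlt P.en P.Em) (P.Em.image P.en) x y := by
    rw [(hE V P).2.2 d x y hp hxy _ b0 b1, ZM_eq, ZM_eq, ← (s6 d hd).2, ← hm, Bs, mu, mu]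
    simp only [sep_pair0 ne, sep_pair1, gr]
    ring
  rw [(hE V P).1 a a0 a1, e, abs_neg, hp, card_singleton, cm]
  have e2 : (6 - P.E.card - 2 * gr P.en P.E : ℤ) =
      ((1 : ℕ) : ℤ) - (P.E.card - 1) - 2 * gr P.en P.E + (4 : ℕ) := by push_cast; ring
  rw [e2, zpow_add₀ a0.ne', zpow_natCast]
  have := mul_le_mul_of_nonneg_left (ht _ b0 b2)
    (zpow_nonneg a0.le (((1 : ℕ) : ℤ) - (P.E.card - 1) - 2 * gr P.en P.E))
  linarith

theorem is4 (hE : PEval) (hS : PSym) (hP : PSp) (hC : PCS4) : PIS4 := by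
  intro V _ _ P d n hN h3 hp h1 h2 t1 t2 hW
  obtain ⟨i, i1, i2⟩ := is_low hE hS hP hC P d hN h3 hp h1 t1
  obtain ⟨j, j1, j2⟩ := is_low hE hS hP hC P.mi.sw d ((hS V P.mi).2.2.2.2.1 hN) h3
    (by simpa using hp) (by simpa using h2) t2
  rw [(hS V P.mi).1, (hS V P).2.1, invert_apply] at j2
  have := hW _ _ j2 i2
  have h := P.dual _ Subset.rfl
  rw [sdiff_self, bot_eq_empty, gr_empty] at h
  simp only [DP.sw_E, DP.mi_E, DP.sw_en, DP.mi_en'] at j1
  push_cast at this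
  omega

omit [Fintype V] in
theorem is_one {en : ℕ → Sym2 V} {j : ℕ} {a b : V} (h : en j = s(a, b)) :
    gen ⊥ (({j} : Finset ℕ).image en) = jn ⊥ a b := by
  rw [image_singleton, h, ← insert_empty_eq, gen_insert, gen_empty]

theorem is_two {en : ℕ → Sym2 V} {i j : ℕ} {a b c : V} (hi : en i = s(a, c)) (hj : en j = s(a, b))
    (h1 : a ≠ b) (h2 : a ≠ c) (h3 : b ≠ c) : gr en {i, j} = 2 := by
  rw [gr_insert en hi, is_one hj, rk_jn, rk_jn h1, rk_bot]
  rintro (h | h | h)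
  exacts [h2 h, h3 h.2, h1 h.1]

/-- orientation of an edge across a cut -/
theorem is_or {en : ℕ → Sym2 V} {R E : Finset ℕ} {d e : ℕ} {x y : V} (hR : R ⊆ E) (hd : d ∈ E)
    (he : e ∈ E) (hxy : en d = s(x, y)) (h0 : gr en R + 1 ≤ gr en E)
    (h1 : gr en (insert d R) = gr en E) (h2 : gr en (insert e R) = gr en E) :
    ∃ a v, en e = s(a, v) ∧ gen ⊥ (R.image en) x a ∧ gen ⊥ (R.image en) y v := by
  induction hpq : en e using Sym2.ind with | h p q => ?_
  have a1 : gen ⊥ ((insert d R).image en) = gen ⊥ (E.image en) :=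
    eq_of_rk (gen_mono le_rfl (image_subset_image (insert_subset hd hR))) h1.ge
  have a2 : gen ⊥ (E.image en) p q := gen_edge _ (hpq ▸ mem_image_of_mem en he)
  rw [← a1, image_insert, hxy, gen_insert] at a2
  rw [gr_insert en hpq] at h2
  rcases a2 with h | h | h
  · rw [jn_of_rel h] at h2
    unfold gr at h0 h2
    omega
  · exact ⟨p, q, rfl, Setoid.symm' _ h.1, h.2⟩
  · exact ⟨q, p, Sym2.eq_swap, h.2, Setoid.symm' _ h.1⟩

theorem ising (hE : PEval) (hS : PSym) (hC : PCut) : PISing := by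
  obtain ⟨C, hC⟩ := hC
  refine ⟨C, fun V _ _ P d hN h3 hp hne hT hT' => ?_⟩
  obtain ⟨e, he, f, hf, x', y', z', n1, n2, n3, q1, q2, q3⟩ := hT'
  obtain ⟨hd, hm⟩ := is_em hp
  have s6 := (hS V P).2.2.2.2.2.1 hN (by omega)
  have sub : P.Em ⊆ P.E := filter_subset _ _
  have de : d ≠ e := by
    rintro rfl
    exact n3 (Sym2.congr_right.1 (q1.symm.trans q2))
  have df : d ≠ f := by
    rintro rfl
    exact n2 (Sym2.congr_left.1 (q1.symm.trans q3))
  have ef : e ≠ f := by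
    rintro rfl
    exact n1 (Sym2.congr_left.1 ((q2.symm.trans q3).trans Sym2.eq_swap))
  set R := P.E \ {d, e, f} with hR
  have sR : R ⊆ P.E := sdiff_subset
  have pair : ∀ i j h : ℕ, i ∈ P.E → j ∈ P.E → h ∈ P.E → i ≠ j → i ≠ h → j ≠ h →
      (∀ g, g = d ∨ g = e ∨ g = f ↔ g = i ∨ g = j ∨ g = h) → gr P.en' {i, j} = 2 →
      gr P.en (insert h R) = gr P.en P.E := by
    intro i j h hi hj hh a1 a2 a3 a4 a5
    have := P.dual {i, j} (insert_subset hi (singleton_subset_iff.2 hj))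
    have e1 : P.E \ {i, j} = insert h R := by
      ext g
      simp only [hR, mem_sdiff, mem_insert, mem_singleton, a4]
      by_cases b : g = h
      · subst b; simp [hh, a2.symm, a3.symm]
      · simp [b]
    rw [e1, card_pair a1, a5] at this
    omega
  have gd := pair e f d he hf hd ef de.symm df.symm (fun g => by tauto)
    (is_two (q2.trans Sym2.eq_swap) q3 n3.symm n2.symm n1.symm)
  have ge := pair d f e hd hf he df de ef.symm (fun g => by tauto)
    (is_two (q1.trans Sym2.eq_swap) (q3.trans Sym2.eq_swap) n3 n1.symm n2.symm)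
  have g2 : gr P.en' {e, d} = 2 := is_two q2 q1 n1 n2 n3
  have gf := pair e d f he hd hf de.symm ef df (fun g => by tauto) g2
  have g0 : gr P.en R + 1 ≤ gr P.en P.E := by
    have := P.dual {d, e, f} (insert_subset hd (insert_subset he (singleton_subset_iff.2 hf)))
    have e1 : ({d, e, f} : Finset ℕ) = insert f {e, d} := by
      ext g; simp only [mem_insert, mem_singleton]; tauto
    have e2 : gr P.en' (insert f {e, d}) = 2 := by
      rw [gr_insert _ q3, jn_of_rel]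
      · exact g2
      · exact Setoid.trans' _ (Setoid.symm' _ (gen_edge (a := x') _ (by simp [q2])))
          (gen_edge _ (by simp [q1]))
    rw [← hR, card_eq_three.2 ⟨d, e, f, de, df, ef, rfl⟩, e1, e2] at this
    omega
  have g1 : gr P.en P.E = gr P.en R + 1 := by
    have := gr_insert_le P.en d R
    omega
  induction hxy : P.en d using Sym2.ind with | h x y => ?_
  have ne : x ≠ y := by
    have := (s6 d hd).1
    rwa [hxy, Sym2.mk_isDiag_iff] at this
  obtain ⟨a, v, r1, r2, r3⟩ := is_or sR hd he hxy g0 gd ge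
  obtain ⟨a', v', r1', r2', r3'⟩ := is_or sR hd hf hxy g0 gd gf
  have em : P.Em = insert f (insert e R) := by
    rw [hm]
    ext g
    simp only [hR, mem_erase, mem_sdiff, mem_insert, mem_singleton]
    by_cases b : g = f
    · subst b; simp [hf, df.symm]
    · by_cases b' : g = e
      · subst b'; simp [he, de.symm]
      · simp [b, b', and_comm]
  have im : insert s(a, v) (insert s(a', v') (R.image P.en)) = P.Em.image P.en := by
    rw [em, image_insert, image_insert, r1, r1', insert_comm]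
  have nadj : s(x, y) ∉ P.Em.image P.en := fun h => by
    obtain ⟨g, hg, e1⟩ := mem_image.1 h
    exact hne g hg (e1.trans hxy.symm)
  let K : Cut V := ⟨R.image P.en, mlt P.en R, x, y, a, v, a', v',
    is_mg fun g hg => (s6 g (sR hg)).1,
    fun h => by
      rw [gr_insert _ hxy, jn_of_rel h] at gd
      unfold gr at g0 gd
      omega,
    r2, r2', r3, r3', im ▸ nadj, im ▸ is_com sub (fun g hg => (s6 g hg).1) hxy ne hT,
    fun q c1 c2 h => by
      have e1 : P.E.image P.en = insert s(x, y) (P.Em.image P.en) := by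
        rw [← hxy, ← image_insert, hm, insert_erase hd]
      have := (hS V P).2.2.2.2.2.2 hN q (by rw [e1, deg_insert_of_ne c1 c2, ← im, h])
      rw [e1, card_insert_of_notMem nadj, ← im] at this
      have := card_pos.2 (insert_nonempty s(a, v) (insert s(a', v') (R.image P.en)))
      omega⟩
  refine ⟨(P.Ep.card : ℤ) - P.Em.card - 2 * gr P.en P.E, K.B, fun b b0 b1 => ?_, hC V K⟩
  obtain ⟨t0, t1⟩ := is_t b0 b1
  have z : ∀ (t : ℝ) Φ, ZM (kk t) (1 - t) P.en P.Em Φ = K.Zc t Φ := fun t Φ => by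
    rw [em, ZM_insert (by simp [hR, ef.symm]) r1', ZM_insert (by simp [hR]) r1, ZM_eq]
    rfl
  rw [(hE V P).1 b b0 b1, (hE V P).2.2 d x y hp hxy _ t0 t1, z, z, mul_neg, abs_neg, g1]
  rfl

end Pool.Agent.P.MP_833722_gt.TG
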