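import Pool.Agent.P.MP_833722_gt.TG.Base

/-! The lower bound for a connection along a shortest path. -/

set_option autoImplicit false

namespace Pool.Agent.P.MP_833722_gt.TG

open Finset

variable {V : Type}

theorem l2_path {E : Finset (Sym2 V)} : ∀ {L : ℕ} {x y : V}, Wk E L x y →
    ∃ v : ℕ → V, v 0 = x ∧ v L = y ∧ ∀ i < L, s(v i, v (i + 1)) ∈ E
  | 0, x, _, h => ⟨fun _ => x, rfl, h, fun _ hi => absurd hi (Nat.not_lt_zero _)⟩
  | L + 1, x, _, ⟨c, h1, h2⟩ => by
    obtain ⟨v, h3, h4, h5⟩ := l2_path h2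
    refine ⟨fun i => Nat.casesOn i x v, rfl, h4, fun i hi => ?_⟩
    cases i with
    | zero => show s(x, v 0) ∈ E; rw [h3]; exact h1
    | succ i => exact h5 i (by omega)

theorem l2_wk {E : Finset (Sym2 V)} {L : ℕ} {v : ℕ → V} (h : ∀ i < L, s(v i, v (i + 1)) ∈ E) :
    ∀ d i j : ℕ, i + d = j → j ≤ L → Wk E d (v i) (v j)
  | 0, i, _, e, _ => by rw [← e]; rfl
  | d + 1, i, j, e, hj => ⟨v (i + 1), h i (by omega), l2_wk h d (i + 1) j (by omega) hj⟩

variable [Fintype V] [DecidableEq V] {k u : ℝ} {w : Sym2 V → ℝ} {E : Finset (Sym2 V)}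

omit [Fintype V] in
theorem l2_sep {W B : Finset V} {a b : V} {π : Setoid V} (hB : B ⊆ W) (ha : a ∈ B) (hb : b ∈ W)
    (h : Sep W B π) : Sep W (insert b B) (jn π a b) := by
  intro p hp q hq
  have haW := hB ha
  rw [jn_iff, h p hp q hq, h p hp a haW, h b hb q hq, h p hp b hb, h a haW q hq]
  simp only [mem_insert]
  constructor
  · rintro ((g | g) | ⟨g1, g2⟩ | ⟨g1, g2⟩)
    · exact Or.inl g
    · exact Or.inr ⟨Or.inr g.1, Or.inr g.2⟩
    · exact Or.inr ⟨Or.inr (g1.elim (fun e => e ▸ ha) fun e => e.1),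
        g2.elim (fun e => Or.inl e.symm) fun e => Or.inr e.2⟩
    · exact Or.inr ⟨g1.elim Or.inl fun e => Or.inr e.1,
        Or.inr (g2.elim (fun e => e ▸ ha) fun e => e.2)⟩
  · rintro (g | ⟨g1 | g1, g2 | g2⟩)
    · exact Or.inl (Or.inl g)
    · exact Or.inl (Or.inl (g1.trans g2.symm))
    · exact Or.inr (Or.inr ⟨Or.inl g1, Or.inr ⟨ha, g2⟩⟩)
    · exact Or.inr (Or.inl ⟨Or.inr ⟨g1, ha⟩, Or.inl g2.symm⟩)
    · exact Or.inl (Or.inr ⟨g1, g2⟩)

/-- an edge joins one more terminal to the block -/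
theorem l2_step (hk : 0 < k) (hu : 0 ≤ u) (hw : Wt u w E) {W B : Finset V} {a b : V} (hB : B ⊆ W)
    (ha : a ∈ B) (hb : b ∈ W) (hb' : b ∉ B) (he : s(a, b) ∈ E) :
    u / k * mu k w E W B ≤ mu k w E W (insert b B) := by
  have hab : a ≠ b := fun e => hb' (e ▸ ha)
  have hw0 : Wt 0 w (E.erase s(a, b)) := hw.mono hu (erase_subset _ _)
  obtain ⟨-, h1, h2⟩ := hw _ he
  rw [← insert_erase he, mu_unaff (notMem_erase _ _) (hB ha) hb hab fun g => hb' g.2, mu, mu,
    Z_insert (notMem_erase _ _), ← Z_smul]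
  refine Z_mono hk hw0 fun S _ => ?_
  have h3 := ind_nonneg (Sep W (insert b B) (gen ⊥ S))
  have h4 : 0 ≤ w s(a, b) / k := div_nonneg (hu.trans h1) hk.le
  simp only [LL]
  by_cases g : Sep W B (gen ⊥ S)
  · rw [if_neg fun g' => ((g a (hB ha) b hb).1 g').elim hab fun e => hb' e.2, ind_pos g,
      ind_pos (l2_sep hB ha hb g), mul_one, mul_one]
    have := div_le_div_of_nonneg_right h1 hk.le
    linarith
  · rw [ind_neg g, mul_zero]
    split_ifs
    · exact mul_nonneg (by linarith) h3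
    · exact add_nonneg h3 (mul_nonneg h4 (ind_nonneg _))

theorem l2_zero (hw : Wt u w E) {T : Finset V} {a z : V} (hz : z ∉ T) (ha : a ∈ T)
    (h : ∀ c, s(a, c) ∈ E → c ∈ T) : mu k w E (insert z T) {z, a} = 0 := by
  have h0 : mu k w E (insert z T) {z, a} = Z k w E ⊥ (fun _ => 0 * 1) := by
    refine Z_congr fun S hS => ?_
    rw [zero_mul]
    refine ind_neg fun g => ?_
    have h1 : gen ⊥ S a z := (g a (mem_insert_of_mem ha) z (mem_insert_self _ _)).2
      (Or.inr ⟨by simp, by simp⟩)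
    obtain ⟨n, hn⟩ := (gen_bot_iff S a z).1 h1
    cases n with
    | zero => exact hz ((show a = z from hn) ▸ ha)
    | succ n =>
      obtain ⟨c, h2, -⟩ := hn
      have h3 := h c (hS h2)
      have h4 : a ≠ c := fun e => (hw _ (hS h2)).1 (Sym2.mk_isDiag_iff.2 e)
      rcases (g a (mem_insert_of_mem ha) c (mem_insert_of_mem h3)).1 (gen_edge _ h2) with e | e
      · exact h4 e
      · rcases mem_insert.1 e.2 with e1 | e1
        · exact hz (e1 ▸ h3)
        · exact h4 (mem_singleton.1 e1).symm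
  rw [h0, Z_smul, zero_mul]

/-- one more terminal, with few possible partners -/
theorem l2_add (hk : 0 < k) (hw : Wt 0 w E) {W T : Finset V} {X : ℕ} (hX : exc E W ≤ X) (p z : V)
    (h : ∀ a ∈ T, a ∉ W → a ≠ p → deg E a ≤ 2 → ∀ c, s(a, c) ∈ E → c ∈ T) :
    mu k w E T ∅ ≤ (1 + (X + W.card + 1) / k) * mu k w E (insert z T) ∅ := by
  have h0 := mu_nonneg hk hw (insert z T) ∅
  by_cases hz : z ∈ T
  · rw [insert_eq_of_mem hz] at h0 ⊢
    refine le_mul_of_one_le_left h0 (le_add_of_nonneg_right (by positivity))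
  set G := (univ \ W).filter (fun a => 2 < deg E a) ∪ insert p W with hG
  have h1 : G.card ≤ X + W.card + 1 := by
    refine (card_union_le _ _).trans ?_
    rw [add_assoc]
    refine add_le_add (le_trans ?_ hX) (card_insert_le _ _)
    rw [exc, card_filter]
    refine sum_le_sum fun a _ => ?_
    split_ifs <;> omega
  have h2 : ∑ a ∈ T, mu k w E (insert z T) {z, a} = ∑ a ∈ T ∩ G, mu k w E (insert z T) {z, a} := by
    refine (sum_subset inter_subset_left fun a ha hg => ?_).symm
    have h3 : a ∉ G := fun g => hg (mem_inter.2 ⟨ha, g⟩)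
    simp only [hG, mem_union, mem_filter, mem_sdiff, mem_univ, true_and, mem_insert, not_or,
      not_and, not_lt] at h3
    exact l2_zero hw hz ha (h a ha h3.2.2 h3.2.1 (h3.1 h3.2.2))
  rw [mu_add hz, h2, add_mul, one_mul]
  refine add_le_add le_rfl ((sum_le_card_nsmul _ _ (mu k w E (insert z T) ∅ / k)
    fun a ha => ?_).trans ?_)
  · have h3 := (mem_inter.1 ha).1
    rw [le_div_iff₀ hk, mul_comm]
    exact mi2 hk hw (mem_insert_self _ _) (mem_insert_of_mem h3) fun e => hz (e ▸ h3)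
  · have h3 : ((T ∩ G).card : ℝ) ≤ X + W.card + 1 := by
      exact_mod_cast (card_le_card inter_subset_right).trans h1
    rw [nsmul_eq_mul, div_mul_eq_mul_div, mul_div_assoc]
    exact mul_le_mul_of_nonneg_right h3 (div_nonneg h0 hk.le)

theorem l2 : PL2 := by
  intro V _ _ k u w E W x y X L hk hu hw hx hy hxy hX hL hmin
  obtain ⟨v, v0, vL, hv⟩ := l2_path hL
  have hw0 : Wt 0 w E := hw.mono hu Subset.rfl
  have inj : ∀ i j, i < j → j ≤ L → v i ≠ v j := by
    intro i j hij hj e
    refine hmin y hy hxy.symm (i + (L - j)) (by omega) ?_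
    have h1 := l2_wk hv i 0 i (by omega) (by omega)
    have h2 := l2_wk hv (L - j) j L (by omega) le_rfl
    rw [v0, e] at h1
    rw [vL] at h2
    exact h1.trans h2
  set P : ℕ → Finset V := fun i => (range (i + 1)).image v with hP
  have mP : ∀ i a, a ∈ P i ↔ ∃ j ≤ i, v j = a := fun i a => by
    simp only [hP, mem_image, mem_range, Nat.lt_succ_iff]
  have sP : ∀ i, P (i + 1) = insert (v (i + 1)) (P i) := fun i => by
    simp only [hP]
    rw [range_add_one (n := i + 1), image_insert]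
  have hC : ∀ i ≤ L, mu k w E W ∅ ≤ (1 + (X + W.card + 1) / k) ^ i * mu k w E (W ∪ P i) ∅ := by
    intro i
    induction i with
    | zero =>
      intro _
      have : W ∪ P 0 = W := union_eq_left.2 fun a ha => by
        obtain ⟨j, hj, rfl⟩ := (mP 0 a).1 ha
        rw [Nat.le_zero.1 hj, v0]; exact hx
      rw [this, pow_zero, one_mul]
    | succ i ih =>
      intro hi
      refine (ih (by omega)).trans ?_
      rw [pow_succ, mul_assoc, sP, union_insert]
      refine mul_le_mul_of_nonneg_left (l2_add hk hw0 hX (v i) _ ?_) (by positivity)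
      intro a ha haW hai hd c hc
      obtain ⟨j, hj, rfl⟩ := (mP i a).1 ((mem_union.1 ha).resolve_left haW)
      have h1 : j ≠ i := fun e => hai (e ▸ rfl)
      obtain _ | j := j
      · exact absurd (v0 ▸ hx) haW
      have h2 : ({v j, v (j + 2)} : Finset V) ⊆ nb E (v (j + 1)) := by
        refine insert_subset (mem_nb.2 ?_) (singleton_subset_iff.2 (mem_nb.2 (hv _ (by omega))))
        rw [Sym2.eq_swap]; exact hv _ (by omega)
      have h3 := eq_of_subset_of_card_le h2 (by
        rw [card_pair (inj j (j + 2) (by omega) (by omega))]; exact hd)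
      have h4 := mem_nb.2 hc
      rw [← h3] at h4
      refine mem_union_right _ ((mP i c).2 ?_)
      rcases mem_insert.1 h4 with e | e
      · exact ⟨j, by omega, e.symm⟩
      · exact ⟨j + 2, by omega, (mem_singleton.1 e).symm⟩
  have hB : ∀ i ≤ L, (u / k) ^ i * mu k w E (W ∪ P L) ∅ ≤ mu k w E (W ∪ P L) (P i) := by
    intro i
    induction i with
    | zero =>
      intro _
      rw [pow_zero, one_mul]
      refine Z_mono hk hw0 fun S _ => ind_mono fun g a ha b hb => (g a ha b hb).trans ?_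
      refine ⟨fun e => e.elim Or.inl fun e => absurd e.1 (notMem_empty _), fun e => Or.inl ?_⟩
      rcases e with e | ⟨e1, e2⟩
      · exact e
      · obtain ⟨i, hi, rfl⟩ := (mP 0 a).1 e1
        obtain ⟨j, hj, rfl⟩ := (mP 0 b).1 e2
        rw [Nat.le_zero.1 hi, Nat.le_zero.1 hj]
    | succ i ih =>
      intro hi
      rw [pow_succ', mul_assoc, sP]
      refine (mul_le_mul_of_nonneg_left (ih (by omega)) (div_nonneg hu hk.le)).trans
        (l2_step hk hu hw (fun a ha => ?_) ((mP _ _).2 ⟨i, le_rfl, rfl⟩)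
          (mem_union_right _ ((mP _ _).2 ⟨i + 1, hi, rfl⟩)) (fun g => ?_) (hv i (by omega)))
      · obtain ⟨j, hj, e⟩ := (mP i a).1 ha
        exact mem_union_right _ ((mP _ _).2 ⟨j, by omega, e⟩)
      · obtain ⟨j, hj, e⟩ := (mP i _).1 g
        exact inj j (i + 1) (by omega) hi e
  have hA : mu k w E (W ∪ P L) (P L) ≤ mu k w E W {x, y} := by
    have h1 : ∀ a ∈ W, a ∈ P L ↔ a ∈ ({x, y} : Finset V) := by
      intro a ha
      rw [mP, mem_insert, mem_singleton]
      refine ⟨fun ⟨j, hj, e⟩ => ?_, fun e => e.elim (fun e => ⟨0, Nat.zero_le _, v0.trans e.symm⟩)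
        fun e => ⟨L, le_rfl, vL.trans e.symm⟩⟩
      by_cases h2 : a = x
      · exact Or.inl h2
      rcases hj.eq_or_lt with rfl | h3
      · exact Or.inr (e.symm.trans vL)
      · have h4 := l2_wk hv j 0 j (by omega) hj
        rw [v0, e] at h4
        exact absurd h4 (hmin a ha h2 j h3)
    refine Z_mono hk hw0 fun S _ => ind_mono fun g a ha b hb => ?_
    rw [g a (mem_union_left _ ha) b (mem_union_left _ hb), h1 a ha, h1 b hb]
  refine le_trans ?_ ((hB L le_rfl).trans hA)
  refine (mul_le_mul_of_nonneg_left (hC L le_rfl) (by positivity)).trans (le_of_eq ?_)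
  rw [← mul_assoc, ← mul_pow]
  congr 2
  field_simp
  ring

end Pool.Agent.P.MP_833722_gt.TG
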