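import Pool.Agent.P.MP_833722_gt.TG.Base

/-! Merging two terminals. -/

set_option autoImplicit false

namespace Pool.Agent.P.MP_833722_gt.TG

open Finset

variable {V : Type} [Fintype V] [DecidableEq V]

/-- the map which sends `z` to `y` -/
def mrg_r (y z v : V) : V := if v = z then y else v

omit [Fintype V] in
theorem mrg_ne {y z v : V} (h : v ≠ z) : mrg_r y z v = v := if_neg h

omit [Fintype V] in
theorem mrg_z (y z : V) : mrg_r y z z = y := if_pos rfl

omit [Fintype V] in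
theorem mrg_rel (y z a : V) : jn ⊥ y z (mrg_r y z a) a := by
  by_cases h : a = z
  · rw [h, mrg_z]; exact jn_self _ _ _
  · rw [mrg_ne h]

omit [Fintype V] in
theorem mrg_eq {y z : V} (hyz : y ≠ z) (a b : V) (h : jn ⊥ y z a b) :
    mrg_r y z a = mrg_r y z b := by
  rcases h with h | ⟨h, g⟩ | ⟨h, g⟩
  · rw [show a = b from h]
  · rw [show a = y from h, ← show z = b from g, mrg_z, mrg_ne hyz]
  · rw [show a = z from h, ← show y = b from g, mrg_z, mrg_ne hyz]

theorem mrg_nb {H : Finset (Sym2 V)} (y z : V) {a b : V} (h : b ∈ nb H a) :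
    mrg_r y z b ∈ nb (H.image (Sym2.map (mrg_r y z))) (mrg_r y z a) :=
  mem_nb.2 (mem_image.2 ⟨_, mem_nb.1 h, rfl⟩)

theorem mrg_symm {H : Finset (Sym2 V)} {a b : V} (h : b ∈ nb H a) : a ∈ nb H b := by
  rw [mem_nb, Sym2.eq_swap]; exact mem_nb.1 h

theorem mrg_deg (H : Finset (Sym2 V)) {y z q : V} (hq : q ≠ z) :
    deg H q ≤ deg (H.image (Sym2.map (mrg_r y z))) q +
      if q ∈ nb H y ∩ nb H z then 1 else 0 := by
  have h1 : ∀ a ∈ nb H q, mrg_r y z a ∈ nb (H.image (Sym2.map (mrg_r y z))) q := fun a ha => by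
    have := mrg_nb y z ha
    rwa [mrg_ne hq] at this
  unfold deg
  split_ifs with h
  · have := card_le_card (s := (nb H q).erase z) fun a ha => by
      have := h1 a (mem_erase.1 ha).2
      rwa [mrg_ne (mem_erase.1 ha).1] at this
    have := pred_card_le_card_erase (s := nb H q) (a := z)
    omega
  · refine card_le_card_of_injOn _ h1 fun a ha b hb e => ?_
    by_cases h1 : a = z <;> by_cases h2 : b = z
    · rw [h1, h2]
    · rw [h1, mrg_z, mrg_ne h2] at e
      exact absurd (mem_inter.2 ⟨mrg_symm (e ▸ hb), mrg_symm (h1 ▸ ha)⟩) h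
    · rw [h2, mrg_z, mrg_ne h1] at e
      exact absurd (mem_inter.2 ⟨mrg_symm (e ▸ ha), mrg_symm (h2 ▸ hb)⟩) h
    · rwa [mrg_ne h1, mrg_ne h2] at e

theorem mrg (h : PHS) : PMg := by
  intro V _ _ m H y z U hm hyz hn hc hU
  have hne : ∀ {a b : V}, b ∈ nb H a → a ≠ b := fun h e =>
    (hm _ (mem_nb.1 h)).1 (Sym2.mk_isDiag_iff.2 e)
  have hG : Mg (fun s => ∑ e ∈ H.filter (fun e => Sym2.map (mrg_r y z) e = s), m e)
      (H.image (Sym2.map (mrg_r y z))) := fun s hs => by
    obtain ⟨e, he, rfl⟩ := mem_image.1 hs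
    refine ⟨?_, (hm e he).2.trans (single_le_sum (f := m) (fun _ _ => Nat.zero_le _)
      (mem_filter.2 ⟨he, rfl⟩))⟩
    induction e using Sym2.ind with | h a b => ?_
    rw [Sym2.map_mk, Sym2.mk_isDiag_iff]
    intro e
    have := (jn ⊥ y z).trans' ((jn ⊥ y z).symm' (mrg_rel y z a)) (e ▸ mrg_rel y z b)
    rcases this with g | ⟨g, g'⟩ | ⟨g, g'⟩
    · exact hne (mem_nb.2 he) g
    · exact hn (by rwa [← show a = y from g, show z = b from g'])
    · exact hn (by rwa [Sym2.eq_swap, ← show a = z from g, show y = b from g'])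
  have hρ : rk (jn (⊥ : Setoid V) y z) = 1 := by rw [rk_jn hyz, rk_bot]
  have hcon := fun S => (con (mrg_rel y z) (mrg_eq hyz) S).1
  have hy : ∀ a ∈ nb H y ∪ nb H z, a ≠ z := fun a ha e => (mem_union.1 ha).elim
    (fun g => hn (e ▸ mem_nb.1 g)) fun g => hne g e.symm
  have hy' : nb H y ∪ nb H z ⊆ nb (H.image (Sym2.map (mrg_r y z))) y := fun a ha => by
    rcases mem_union.1 ha with g | g <;> have := mrg_nb y z g
    · rwa [mrg_ne hyz, mrg_ne (hy a ha)] at this
    · rwa [mrg_z, mrg_ne (hy a ha)] at this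
  refine ⟨_, _, hG, fun t h0 h1 => ?_, ?_, ?_⟩
  · have e1 := hcon H
    rw [gen_jn, jn_of_rel hc, hρ] at e1
    rw [AA, ← e1, pow_succ', mul_assoc, nu_eq (kk_pos h0 h1).ne' (by simp) (by simp) hyz,
      Z_congr (ρ := jn ⊥ y z) (Φ := fun π => ind (Sep {y, z} {y, z} π)) (Ψ := fun _ => 1)
        fun S _ => ind_pos ((sep_pair1 _).2 (le_gen _ _ (jn_self _ _ _)))]
    congr 2
    have e2 := Z_merge (k := kk t) (ρ := ⊥) (Φ := fun _ => 1) (Sym2.map (mrg_r y z)) (wt t m) H
    simp only [wt, sub_sub_cancel, prod_pow_eq_pow_sum] at e2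
    refine e2.symm.trans (sum_congr rfl fun S _ => ?_)
    rw [← hcon S, rk_bot, Nat.sub_zero, Nat.add_sub_cancel]
    rfl
  · set Q := univ.filter fun q => q ≠ y ∧ q ≠ z ∧ deg H q ≠ 0 with hQ
    have a1 := (h V _ fun e he => (hG e he).1).1 (insert y Q) (insert_nonempty _ _) fun v hv => by
      obtain ⟨a, ha⟩ := card_ne_zero.1 hv
      obtain ⟨e, he, e1⟩ := mem_image.1 (mem_nb.1 ha)
      obtain ⟨c, hc, rfl⟩ := Sym2.mem_map.1 (e1 ▸ Sym2.mem_mk_left v a)
      obtain ⟨d, rfl⟩ := Sym2.mem_iff_exists.1 hc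
      by_cases h1 : c = z
      · rw [h1, mrg_z]; exact mem_insert_self _ _
      · rw [mrg_ne h1, mem_insert, or_iff_not_imp_left]
        exact fun h2 => mem_filter.2 ⟨mem_univ _, h2, h1, card_ne_zero.2 ⟨d, mem_nb.2 he⟩⟩
    have a2 : y ∉ Q := by simp [hQ]
    rw [sum_insert a2, card_insert_of_notMem a2] at a1
    have a3 : exc H {y, z} = ∑ q ∈ Q, (deg H q - 2) :=
      (sum_subset (fun q hq => by simpa using ⟨(mem_filter.1 hq).2.1, (mem_filter.1 hq).2.2.1⟩)
        fun q h1 h2 => by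
          simp only [hQ, mem_sdiff, mem_univ, mem_insert, mem_singleton, true_and, mem_filter,
            not_or, not_and, not_not] at h1 h2
          rw [h2 h1.1 h1.2, Nat.zero_sub]).symm
    have a4 : ∑ q ∈ Q, (deg H q - 2 + 2) ≤ ∑ q ∈ Q, (deg (H.image (Sym2.map (mrg_r y z))) q +
        (if q ∈ nb H y ∩ nb H z then 1 else 0) + if q ∈ U then 1 else 0) :=
      sum_le_sum fun q hq => by
        obtain ⟨-, b1, b2, b3⟩ := mem_filter.1 hq
        have := mrg_deg H (y := y) b2
        by_cases b4 : q ∈ U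
        · rw [if_pos b4]; omega
        · have := hU q b1 b2 b4
          omega
    have a5 : ∀ C : Finset V, ∑ q ∈ Q, (if q ∈ C then 1 else 0) ≤ C.card := fun C => by
      rw [sum_boole, filter_mem_eq_inter]; exact card_le_card inter_subset_right
    rw [sum_add_distrib, sum_add_distrib, sum_add_distrib, sum_const, smul_eq_mul] at a4
    have a6 := card_le_card hy'
    have a7 := card_sdiff_add_card (nb H y) (nb H z)
    have a8 := card_le_card (inter_subset_right (s₁ := nb H y) (s₂ := nb H z))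
    have := a5 U
    have := a5 (nb H y ∩ nb H z)
    unfold deg at *
    omega
  · refine card_le_card_of_injOn (fun a => s(y, a)) (fun a ha => ?_)
      fun a _ b _ e => Sym2.congr_right.1 e
    obtain ⟨g, g'⟩ := mem_inter.1 ha
    have a1 := hy a (mem_union_left _ g)
    refine mem_filter.2 ⟨mem_nb.1 (hy' (mem_union_left _ g)), le_trans ?_
      (sum_le_sum_of_subset (s := {s(y, a), s(z, a)}) fun e he => ?_)⟩
    · rw [sum_pair fun e => hyz (Sym2.congr_left.1 e)]
      exact add_le_add (hm _ (mem_nb.1 g)).2 (hm _ (mem_nb.1 g')).2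
    · rcases mem_insert.1 he with rfl | he
      · exact mem_filter.2 ⟨mem_nb.1 g, by rw [Sym2.map_mk, mrg_ne hyz, mrg_ne a1]⟩
      · rw [mem_singleton.1 he]
        exact mem_filter.2 ⟨mem_nb.1 g', by rw [Sym2.map_mk, mrg_z, mrg_ne a1]⟩

end Pool.Agent.P.MP_833722_gt.TG
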