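import Pool.Agent.P.MP_833722_gt.St

/-! Partitions generated by edges and their rank. -/

set_option autoImplicit false

namespace Pool.Agent.P.MP_833722_gt.TG

open Finset

variable {V : Type}

/-- join the classes of `a` and `b` -/
def jn (π : Setoid V) (a b : V) : Setoid V where
  r x y := π x y ∨ (π x a ∧ π b y) ∨ (π x b ∧ π a y)
  iseqv := ⟨fun x => Or.inl (π.refl' x), by
    rintro x y (h | h | h)
    · exact Or.inl (π.symm' h)
    · exact Or.inr (Or.inr ⟨π.symm' h.2, π.symm' h.1⟩)
    · exact Or.inr (Or.inl ⟨π.symm' h.2, π.symm' h.1⟩), by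
    rintro x y z (h | h | h) (g | g | g)
    · exact Or.inl (π.trans' h g)
    · exact Or.inr (Or.inl ⟨π.trans' h g.1, g.2⟩)
    · exact Or.inr (Or.inr ⟨π.trans' h g.1, g.2⟩)
    · exact Or.inr (Or.inl ⟨h.1, π.trans' h.2 g⟩)
    · exact Or.inr (Or.inl ⟨h.1, g.2⟩)
    · exact Or.inl (π.trans' h.1 g.2)
    · exact Or.inr (Or.inr ⟨h.1, π.trans' h.2 g⟩)
    · exact Or.inl (π.trans' h.1 g.2)
    · exact Or.inr (Or.inr ⟨h.1, g.2⟩)⟩

theorem jn_iff (π : Setoid V) (a b x y : V) :
    jn π a b x y ↔ π x y ∨ (π x a ∧ π b y) ∨ (π x b ∧ π a y) := Iff.rfl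

theorem jn_self (π : Setoid V) (a b : V) : jn π a b a b :=
  Or.inr (Or.inl ⟨π.refl' a, π.refl' b⟩)

theorem le_jn (π : Setoid V) (a b : V) : π ≤ jn π a b := fun _ _ h => Or.inl h

theorem jn_le {π τ : Setoid V} {a b : V} (h : π ≤ τ) (hab : τ a b) : jn π a b ≤ τ := by
  rintro x y (g | g | g)
  · exact h g
  · exact τ.trans' (h g.1) (τ.trans' hab (h g.2))
  · exact τ.trans' (h g.1) (τ.trans' (τ.symm' hab) (h g.2))

theorem jn_of_rel {π : Setoid V} {a b : V} (h : π a b) : jn π a b = π :=
  le_antisymm (jn_le le_rfl h) (le_jn _ _ _)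

theorem jn_comm (π : Setoid V) (a b : V) : jn π a b = jn π b a :=
  Setoid.ext fun x y => by simp only [jn_iff]; tauto

theorem jn_mono {π τ : Setoid V} (h : π ≤ τ) (a b : V) : jn π a b ≤ jn τ a b :=
  jn_le (h.trans (le_jn _ _ _)) (jn_self _ _ _)

theorem jn_jn (π : Setoid V) (a b c d : V) : jn (jn π a b) c d = jn (jn π c d) a b :=
  le_antisymm (jn_le (jn_mono (le_jn _ _ _) _ _) (le_jn _ _ _ (jn_self _ _ _)))
    (jn_le (jn_mono (le_jn _ _ _) _ _) (le_jn _ _ _ (jn_self _ _ _)))

/-- the partition generated by `ρ` and the edges `S` -/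
def gen (ρ : Setoid V) (S : Finset (Sym2 V)) : Setoid V :=
  Relation.EqvGen.setoid fun x y => ρ x y ∨ s(x, y) ∈ S

theorem le_gen (ρ : Setoid V) (S : Finset (Sym2 V)) : ρ ≤ gen ρ S :=
  fun _ _ h => Relation.EqvGen.rel _ _ (Or.inl h)

theorem gen_edge (ρ : Setoid V) {S : Finset (Sym2 V)} {a b : V} (h : s(a, b) ∈ S) :
    gen ρ S a b := Relation.EqvGen.rel _ _ (Or.inr h)

theorem gen_le {ρ τ : Setoid V} {S : Finset (Sym2 V)} (h : ρ ≤ τ)
    (hS : ∀ a b, s(a, b) ∈ S → τ a b) : gen ρ S ≤ τ := by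
  intro x y hxy
  induction hxy with
  | rel a b g => exact g.elim (fun g => h g) (hS a b)
  | refl a => exact τ.refl' a
  | symm a b _ ih => exact τ.symm' ih
  | trans a b c _ _ i1 i2 => exact τ.trans' i1 i2

@[simp] theorem gen_empty (ρ : Setoid V) : gen ρ ∅ = ρ :=
  le_antisymm (gen_le le_rfl fun _ _ h => absurd h (notMem_empty _)) (le_gen _ _)

theorem gen_mono {ρ τ : Setoid V} {S S' : Finset (Sym2 V)} (h : ρ ≤ τ) (hS : S ⊆ S') :
    gen ρ S ≤ gen τ S' := gen_le (h.trans (le_gen _ _)) fun _ _ g => gen_edge _ (hS g)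

/-- walks of length `n` -/
def Wk (E : Finset (Sym2 V)) : ℕ → V → V → Prop
  | 0, a, b => a = b
  | n + 1, a, b => ∃ c, s(a, c) ∈ E ∧ Wk E n c b

theorem Wk.trans {E : Finset (Sym2 V)} : ∀ {n m : ℕ} {a b c : V}, Wk E n a b → Wk E m b c →
    Wk E (n + m) a c
  | 0, m, a, b, c, h, g => by rw [Nat.zero_add, show a = b from h]; exact g
  | n + 1, m, a, b, c, ⟨d, h1, h2⟩, g => by
    rw [Nat.add_right_comm]; exact ⟨d, h1, h2.trans g⟩

theorem Wk.symm {E : Finset (Sym2 V)} : ∀ {n : ℕ} {a b : V}, Wk E n a b → Wk E n b a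
  | 0, _, _, h => Eq.symm h
  | n + 1, a, b, ⟨d, h1, h2⟩ =>
    h2.symm.trans (m := 1) ⟨a, by rw [Sym2.eq_swap]; exact h1, rfl⟩

theorem Wk.mono {E E' : Finset (Sym2 V)} (hE : E ⊆ E') : ∀ {n : ℕ} {a b : V}, Wk E n a b →
    Wk E' n a b
  | 0, _, _, h => h
  | _ + 1, _, _, ⟨d, h1, h2⟩ => ⟨d, hE h1, h2.mono hE⟩

theorem Wk.gen {E : Finset (Sym2 V)} (ρ : Setoid V) : ∀ {n : ℕ} {a b : V}, Wk E n a b →
    gen ρ E a b
  | 0, a, _, h => h ▸ (TG.gen ρ E).refl' a
  | _ + 1, _, _, ⟨_, h1, h2⟩ => (TG.gen ρ E).trans' (gen_edge _ h1) (h2.gen ρ)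

theorem gen_bot_iff (E : Finset (Sym2 V)) (a b : V) : gen ⊥ E a b ↔ ∃ n, Wk E n a b := by
  refine ⟨fun h => ?_, fun ⟨_, h⟩ => h.gen _⟩
  let τ : Setoid V := ⟨fun a b => ∃ n, Wk E n a b, fun _ => ⟨0, rfl⟩,
    fun ⟨n, h⟩ => ⟨n, h.symm⟩, fun ⟨_, h⟩ ⟨_, g⟩ => ⟨_, h.trans g⟩⟩
  exact gen_le (τ := τ) bot_le (fun a b h => ⟨1, b, h, rfl⟩) h

section dec

variable [DecidableEq V]

theorem gen_insert (ρ : Setoid V) (S : Finset (Sym2 V)) (a b : V) :
    gen ρ (insert s(a, b) S) = jn (gen ρ S) a b := by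
  refine le_antisymm (gen_le ((le_gen _ _).trans (le_jn _ _ _)) fun x y h => ?_)
    (jn_le (gen_mono le_rfl (subset_insert _ _)) (gen_edge _ (mem_insert_self _ _)))
  rcases mem_insert.1 h with h | h
  · rcases Sym2.eq_iff.1 h with ⟨rfl, rfl⟩ | ⟨rfl, rfl⟩
    · exact jn_self _ _ _
    · exact (jn _ _ _).symm' (jn_self _ _ _)
  · exact le_jn _ _ _ (gen_edge _ h)

theorem gen_jn (ρ : Setoid V) (S : Finset (Sym2 V)) (a b : V) :
    gen (jn ρ a b) S = jn (gen ρ S) a b :=
  le_antisymm (gen_le (jn_mono (le_gen _ _) _ _) fun _ _ h => le_jn _ _ _ (gen_edge _ h))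
    (jn_le (gen_mono (le_jn _ _ _) Subset.rfl) (le_gen _ _ (jn_self _ _ _)))

theorem gen_gen (ρ : Setoid V) (S S' : Finset (Sym2 V)) : gen (gen ρ S) S' = gen ρ (S ∪ S') :=
  le_antisymm (gen_le (gen_mono le_rfl subset_union_left) fun _ _ h =>
      gen_edge _ (mem_union_right _ h))
    (gen_le ((le_gen _ _).trans (le_gen _ _)) fun _ _ h => (mem_union.1 h).elim
      (fun h => le_gen _ _ (gen_edge _ h)) (gen_edge _))

end dec

variable [Fintype V]

/-- number of points minus number of classes -/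
noncomputable def rk (π : Setoid V) : ℕ := Fintype.card V - Nat.card (Quotient π)

theorem card_quot_le (π : Setoid V) : Nat.card (Quotient π) ≤ Fintype.card V := by
  rw [← Nat.card_eq_fintype_card]
  exact Nat.card_le_card_of_surjective _ Quotient.mk_surjective

@[simp] theorem rk_bot : rk (⊥ : Setoid V) = 0 := by
  have : Fintype.card V ≤ Nat.card (Quotient (⊥ : Setoid V)) := by
    rw [← Nat.card_eq_fintype_card]
    exact Nat.card_le_card_of_injective (Quotient.mk _) fun a b h => Quotient.exact h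
  unfold rk; omega

theorem card_jn {π : Setoid V} {a b : V} (h : ¬π a b) :
    Nat.card (Quotient (jn π a b)) + 1 = Nat.card (Quotient π) := by
  classical
  let f : Quotient π → Option (Quotient (jn π a b)) := fun q =>
    if q = Quotient.mk π b then none else
      some (Quotient.map' id (fun x y g => le_jn π a b g) q)
  have hf : Function.Bijective f := by
    constructor
    · intro p q e
      induction p using Quotient.inductionOn' with | h x => ?_
      induction q using Quotient.inductionOn' with | h y => ?_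
      simp only [f] at e
      split_ifs at e with h1 h2 h2
      · exact h1.trans h2.symm
      · have e1 : jn π a b x y := Quotient.exact (Option.some.inj e)
        rcases e1 with g | g | g
        · exact Quotient.sound g
        · exact (h2 (Quotient.sound (π.symm' g.2))).elim
        · exact (h1 (Quotient.sound g.1)).elim
    · rintro (_ | q)
      · exact ⟨Quotient.mk π b, by simp [f]⟩
      · induction q using Quotient.inductionOn' with | h x => ?_
        by_cases hx : π x b
        · refine ⟨Quotient.mk π a, ?_⟩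
          simp only [f]
          rw [if_neg fun g => h (Quotient.exact g)]
          exact congrArg some (Quotient.sound (Or.inr (Or.inl ⟨π.refl' a, π.symm' hx⟩)))
        · refine ⟨Quotient.mk π x, ?_⟩
          simp only [f]
          rw [if_neg fun g => hx (Quotient.exact g)]
          rfl
  rw [Nat.card_eq_of_bijective f hf, Finite.card_option]

theorem rk_jn {π : Setoid V} {a b : V} (h : ¬π a b) : rk (jn π a b) = rk π + 1 := by
  have := card_jn h
  have := card_quot_le π
  unfold rk; omega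

theorem rk_mono {π τ : Setoid V} (h : π ≤ τ) : rk π ≤ rk τ := by
  have : Nat.card (Quotient τ) ≤ Nat.card (Quotient π) :=
    Nat.card_le_card_of_surjective (Quotient.map' id fun x y g => h g) fun q => by
      induction q using Quotient.inductionOn' with | h x => exact ⟨Quotient.mk π x, rfl⟩
  unfold rk; omega

theorem rk_jn_le (π : Setoid V) (a b : V) : rk (jn π a b) ≤ rk π + 1 := by
  by_cases h : π a b
  · rw [jn_of_rel h]; omega
  · rw [rk_jn h]

theorem rk_jn_eq_iff (π : Setoid V) (a b : V) : rk (jn π a b) = rk π ↔ π a b := by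
  refine ⟨fun e => by_contra fun h => ?_, fun h => by rw [jn_of_rel h]⟩
  rw [rk_jn h] at e; omega

theorem eq_of_rk {π τ : Setoid V} (h : π ≤ τ) (e : rk τ ≤ rk π) : π = τ := by
  refine le_antisymm h fun a b g => by_contra fun g' => ?_
  have := rk_mono (jn_le h g)
  rw [rk_jn g'] at this; omega

variable [DecidableEq V]

theorem rk_gen_le (ρ : Setoid V) (S : Finset (Sym2 V)) : rk (gen ρ S) ≤ rk ρ + S.card := by
  induction S using Finset.induction_on with
  | empty => simp
  | insert e S he ih =>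
    induction e using Sym2.ind with | h a b => ?_
    have := rk_jn_le (gen ρ S) a b
    rw [gen_insert, card_insert_of_notMem he]; omega

/-- diminishing returns -/
theorem rk_gen_sub {π τ : Setoid V} (h : π ≤ τ) (S : Finset (Sym2 V)) :
    rk (gen τ S) + rk π ≤ rk (gen π S) + rk τ := by
  induction S using Finset.induction_on with
  | empty => simp [Nat.add_comm]
  | insert e S he ih =>
    induction e using Sym2.ind with | h a b => ?_
    rw [gen_insert, gen_insert]
    by_cases g : gen π S a b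
    · rw [jn_of_rel g, jn_of_rel (gen_mono h Subset.rfl g)]; exact ih
    · have := rk_jn_le (gen τ S) a b
      rw [rk_jn g]; omega

/-- every partition has a system of representatives -/
theorem exists_rep (ρ : Setoid V) : ∃ r : V → V, (∀ a, ρ (r a) a) ∧ ∀ a b, ρ a b → r a = r b :=
  ⟨fun a => (Quotient.mk ρ a).out, fun a => Quotient.exact (Quotient.out_eq _),
    fun _ _ h => congrArg Quotient.out (Quotient.sound h)⟩

/-- contraction by relabelling -/
theorem con {ρ : Setoid V} {r : V → V} (h1 : ∀ a, ρ (r a) a) (h2 : ∀ a b, ρ a b → r a = r b)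
    (S : Finset (Sym2 V)) : rk (gen ⊥ (S.image (Sym2.map r))) + rk ρ = rk (gen ρ S) ∧
      ∀ a b, gen ⊥ (S.image (Sym2.map r)) (r a) (r b) ↔ gen ρ S a b := by
  induction S using Finset.induction_on with
  | empty =>
    refine ⟨by simp, fun a b => ?_⟩
    rw [image_empty, gen_empty, gen_empty]
    exact ⟨fun h => ρ.trans' (ρ.symm' (h1 a)) ((show r a = r b from h) ▸ h1 b), h2 a b⟩
  | insert e S he ih =>
    induction e using Sym2.ind with | h c d => ?_
    rw [image_insert, Sym2.map_mk, gen_insert, gen_insert]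
    refine ⟨?_, fun a b => by simp only [jn_iff, ih.2]⟩
    by_cases g : gen ρ S c d
    · rw [jn_of_rel g, jn_of_rel ((ih.2 c d).2 g)]; exact ih.1
    · rw [rk_jn g, rk_jn (mt (ih.2 c d).1 g)]; have := ih.1; omega

/-- rank of a set of edges of a multigraph -/
noncomputable def gr {ι : Type} (en : ι → Sym2 V) (S : Finset ι) : ℕ := rk (gen ⊥ (S.image en))

section gr

variable {ι : Type} (en : ι → Sym2 V)

@[simp] theorem gr_empty : gr en ∅ = 0 := by simp [gr]

theorem gr_mono {S S' : Finset ι} (h : S ⊆ S') : gr en S ≤ gr en S' :=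
  rk_mono (gen_mono le_rfl (image_subset_image h))

theorem gr_le_card (S : Finset ι) : gr en S ≤ S.card := by
  have := rk_gen_le ⊥ (S.image en)
  have := card_image_le (s := S) (f := en)
  unfold gr; simp only [rk_bot] at *; omega

variable [DecidableEq ι]

theorem gr_insert {e : ι} {a b : V} (h : en e = s(a, b)) (S : Finset ι) :
    gr en (insert e S) = rk (jn (gen ⊥ (S.image en)) a b) := by
  rw [gr, image_insert, h, gen_insert]

/-- submodularity -/
theorem gr_sub {A B : Finset ι} (h : A ⊆ B) (S : Finset ι) :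
    gr en (B ∪ S) + gr en A ≤ gr en (A ∪ S) + gr en B := by
  have := rk_gen_sub (gen_mono (le_refl (⊥ : Setoid V)) (image_subset_image (f := en) h))
    (S.image en)
  rwa [gen_gen, gen_gen, ← image_union, ← image_union] at this

theorem gr_submod (A B : Finset ι) : gr en (A ∪ B) + gr en (A ∩ B) ≤ gr en A + gr en B := by
  have := gr_sub en (inter_subset_left (s₁ := A) (s₂ := B)) B
  rw [union_eq_right.2 inter_subset_right] at this
  omega

theorem gr_union_le (A B : Finset ι) : gr en (A ∪ B) ≤ gr en A + gr en B := by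
  have := gr_submod en A B; omega

theorem gr_insert_le (e : ι) (S : Finset ι) : gr en (insert e S) ≤ gr en S + 1 := by
  induction h : en e using Sym2.ind with | h a b => ?_
  rw [gr_insert en h]; exact rk_jn_le _ _ _

/-- contraction of the edges `F` of a multigraph -/
theorem gr_con (F : Finset ι) : ∃ r : V → V, ∀ S : Finset ι,
    gr (fun e => (en e).map r) S + gr en F = gr en (F ∪ S) ∧
      ∀ a b, gen ⊥ (S.image fun e => (en e).map r) (r a) (r b) ↔
        gen ⊥ ((F ∪ S).image en) a b := by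
  obtain ⟨r, h1, h2⟩ := exists_rep (gen ⊥ (F.image en))
  refine ⟨r, fun S => ?_⟩
  have := con h1 h2 (S.image en)
  rwa [gen_gen, ← image_union, image_image] at this

end gr

end Pool.Agent.P.MP_833722_gt.TG
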