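import Pool.Agent.P.MP_833722_gt.TG.Defs

/-! The negative edges as a two-terminal network. -/

set_option autoImplicit false

namespace Pool.Agent.P.MP_833722_gt.TG

open Finset

variable {V : Type} [Fintype V] [DecidableEq V]

theorem port_ins {en : ℕ → Sym2 V} {p : ℕ} {a b : V} (h : en p = s(a, b)) (S : Finset ℕ) :
    gr en (insert p S) = gr en S ↔ gen ⊥ (S.image en) a b := by
  rw [gr_insert en h]
  exact rk_jn_eq_iff _ _ _

/-- removing a pendant edge -/
theorem port_pend {H S : Finset (Sym2 V)} {v v' : V} (hH : H = insert s(v, v') S)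
    (hne : v ≠ v') (hS : ∀ b, s(v, b) ∉ S) :
    rk (gen ⊥ H) = rk (gen ⊥ S) + 1 ∧
      ∀ x y, x ≠ v → y ≠ v → gen ⊥ H x y → gen ⊥ S x y := by
  have h1 : gen ⊥ S ≤ Setoid.ker fun a => a = v := gen_le bot_le fun a b hab => by
    have ha : a ≠ v := by
      rintro rfl
      exact hS b hab
    have hb : b ≠ v := by
      rintro rfl
      exact hS a (by rwa [Sym2.eq_swap])
    exact propext (iff_of_false ha hb)
  have h2 : ∀ z, gen ⊥ S v z → z = v := fun z hz =>
    (show (v = v) = (z = v) from h1 hz) ▸ rfl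
  rw [hH, gen_insert]
  refine ⟨rk_jn fun h => hne (h2 _ h).symm, ?_⟩
  rintro x y hx hy (h | h | h)
  · exact h
  · exact (hx (h2 _ ((gen ⊥ S).symm' h.1))).elim
  · exact (hy (h2 _ h.2)).elim

theorem port (_h : PSym) : PPort := by
  intro V _ _ P hN hL hT
  have hL' : gr P.en P.Ep + gr P.en P.Em = gr P.en (P.Ep ∪ P.Em) + 1 := by
    rw [P.Ep_union_Em]
    exact hL
  have hd : ∀ e ∈ P.Ep, e ∉ P.Em := fun e h1 h2 => by
    have := (mem_filter.1 h1).2.symm.trans (mem_filter.1 h2).2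
    cases this
  obtain ⟨C, hC, hmax⟩ := exists_max_image
    (P.Ep.powerset.filter fun C => gr P.en C + gr P.en P.Em ≤ gr P.en (C ∪ P.Em)) card
    ⟨∅, by simp⟩
  obtain ⟨hC1, hC2⟩ := mem_filter.1 hC
  rw [mem_powerset] at hC1
  obtain ⟨p, hp, hpC⟩ : ∃ p ∈ P.Ep, p ∉ C := by
    by_contra hn
    push Not at hn
    rw [Subset.antisymm hC1 hn] at hC2
    omega
  have hp1 : insert p C ⊆ P.Ep := insert_subset hp hC1
  have hp2 : gr P.en (insert p C ∪ P.Em) < gr P.en (insert p C) + gr P.en P.Em := by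
    by_contra hn
    have := hmax (insert p C) (mem_filter.2 ⟨mem_powerset.2 hp1, not_lt.1 hn⟩)
    rw [card_insert_of_notMem hpC] at this
    omega
  have hp3 := gr_insert_le P.en p C
  have hp4 : gr P.en (C ∪ P.Em) ≤ gr P.en (insert p C ∪ P.Em) :=
    gr_mono _ (union_subset_union_left (subset_insert _ _))
  have hp5 := gr_union_le P.en C P.Em
  obtain ⟨r, hr⟩ := gr_con P.en C
  obtain ⟨a, b, hab⟩ : ∃ a b, P.en p = s(a, b) := by
    induction P.en p using Sym2.ind with | h a b => exact ⟨a, b, rfl⟩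
  set en1 : ℕ → Sym2 V := fun e => (P.en e).map r with hen
  have k0 : ∀ S ⊆ P.Em, gr P.en (C ∪ S) = gr P.en C + gr P.en S := fun S hS => by
    have h1 := gr_sub P.en hS C
    have h2 := gr_union_le P.en C S
    rw [union_comm P.Em, union_comm S] at h1
    omega
  have k1 : ∀ S ⊆ P.Em, gr en1 S = gr P.en S := fun S hS => by
    have h1 := (hr S).1
    have h2 := k0 S hS
    omega
  have k2 : ∀ S, gen ⊥ (S.image en1) (r a) (r b) ↔
      gr P.en (insert p C ∪ S) = gr P.en (C ∪ S) := fun S => by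
    rw [(hr S).2, insert_union, port_ins hab]
  have k3 : ∀ S ⊆ P.Em, (gr P.en (P.Ep ∪ S) < gr P.en P.Ep + gr P.en S ↔
      gen ⊥ (S.image en1) (r a) (r b)) := fun S hS => by
    have h1 := k0 S hS
    rw [k2]
    constructor
    · intro h
      have h2 := gr_submod P.en (insert p C ∪ P.Em) (P.Ep ∪ S)
      have h3 : gr P.en (P.Ep ∪ P.Em) ≤ gr P.en (insert p C ∪ P.Em ∪ (P.Ep ∪ S)) :=
        gr_mono _ (union_subset (subset_union_left.trans subset_union_right)
          (subset_union_right.trans subset_union_left))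
      have h4 : gr P.en (insert p C ∪ S) ≤ gr P.en ((insert p C ∪ P.Em) ∩ (P.Ep ∪ S)) :=
        gr_mono _ (subset_inter (union_subset_union_right hS) (union_subset_union_left hp1))
      have h5 : gr P.en (C ∪ S) ≤ gr P.en (insert p C ∪ S) :=
        gr_mono _ (union_subset_union_left (subset_insert _ _))
      omega
    · intro h
      have h2 := gr_sub P.en hp1 S
      omega
  have k4 : ∀ e ∈ P.Em, gr P.en (P.Ep ∪ {e}) = gr P.en P.Ep + 1 := fun e he => by
    have h1 := gr_insert_le P.en e P.Ep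
    have h2 : gr P.en P.Ep ≤ gr P.en (insert e P.Ep) := gr_mono _ (subset_insert _ _)
    have h3 : gr P.en (insert e P.Ep) ≠ gr P.en P.Ep := fun h => hT ⟨e, he, h⟩
    rw [union_comm, ← insert_eq]
    omega
  have k5 : ∀ e ∈ P.Em, ¬(en1 e).IsDiag := fun e he hdg => by
    obtain ⟨c, d, hcd⟩ : ∃ c d, en1 e = s(c, d) := by
      induction en1 e using Sym2.ind with | h c d => exact ⟨c, d, rfl⟩
    rw [hcd, Sym2.mk_isDiag_iff] at hdg
    have h1 := (port_ins hcd ∅).2 (hdg ▸ (gen ⊥ _).refl' c)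
    have h2 := k1 {e} (singleton_subset_iff.2 he)
    have h3 := gr_union_le P.en P.Ep {e}
    have h4 := k4 e he
    rw [insert_empty, gr_empty] at h1
    omega
  have hcon : gen ⊥ (P.Em.image en1) (r a) (r b) := (k2 _).2 (by omega)
  refine ⟨en1, ⟨P.Em.image en1, mlt en1 P.Em, r a, r b, fun s hs => ?_, fun h => ?_, fun h => ?_,
    hcon, fun v hx hy hv => ?_⟩, rfl, rfl, fun S hS => ⟨k1 S hS, k3 S hS⟩⟩
  · obtain ⟨e, he, rfl⟩ := mem_image.1 hs
    exact ⟨k5 e he, card_pos.2 ⟨e, mem_filter.2 ⟨he, rfl⟩⟩⟩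
  · have h1 := (k2 ∅).1 (h ▸ (gen ⊥ _).refl' _)
    rw [union_empty, union_empty] at h1
    omega
  · obtain ⟨e, he, h1⟩ := mem_image.1 h
    have h2 := (k3 {e} (singleton_subset_iff.2 he)).2 (gen_edge _ (by simp [h1]))
    have h3 := gr_le_card P.en {e}
    have h4 := k4 e he
    rw [card_singleton] at h3
    omega
  · obtain ⟨v', hv'⟩ := card_eq_one.1 hv
    have hm : ∀ z, s(v, z) ∈ P.Em.image en1 ↔ z = v' := fun z => by
      rw [← mem_singleton, ← hv', nb, mem_filter]
      simp only [mem_univ, true_and]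
    obtain ⟨e0, he0, he1⟩ := mem_image.1 ((hm v').2 rfl)
    set F := P.Em.filter fun e => en1 e = s(v, v') with hF
    have hFm : F ⊆ P.Em := filter_subset _ _
    have h1 := hN F (hFm.trans (filter_subset _ _)) ⟨e0, mem_filter.2 ⟨he0, he1⟩⟩ fun h =>
      hd p hp (hFm (h ▸ (mem_filter.1 hp).1))
    have h2 : gr en1 F ≤ 1 := by
      have h3 : F.image en1 ⊆ {s(v, v')} := fun s hs => by
        obtain ⟨e, he, rfl⟩ := mem_image.1 hs
        exact mem_singleton.2 (mem_filter.1 he).2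
      have h4 := rk_gen_le (⊥ : Setoid V) {s(v, v')}
      rw [rk_bot, card_singleton] at h4
      exact (rk_mono (gen_mono le_rfl h3)).trans h4
    have h3 := port_pend (H := P.Em.image en1) (S := (P.Em \ F).image en1) (v := v) (v' := v')
      (by
        ext s
        simp only [mem_insert, mem_image, mem_sdiff, hF, mem_filter]
        constructor
        · rintro ⟨e, he, rfl⟩
          by_cases h : en1 e = s(v, v')
          · exact Or.inl h
          · exact Or.inr ⟨e, ⟨he, fun g => h g.2⟩, rfl⟩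
        · rintro (rfl | ⟨e, he, rfl⟩)
          · exact ⟨e0, he0, he1⟩
          · exact ⟨e, he.1, rfl⟩)
      (fun h => k5 e0 he0 (by rw [he1, Sym2.mk_isDiag_iff]; exact h))
      (fun z hz => by
        obtain ⟨e, he, h⟩ := mem_image.1 hz
        obtain ⟨g1, g2⟩ := mem_sdiff.1 he
        have g3 := (hm z).1 (mem_image.2 ⟨e, g1, h⟩)
        exact g2 (mem_filter.2 ⟨g1, g3 ▸ h⟩))
    have h4 := (k3 _ sdiff_subset).2 (h3.2 _ _ hx.symm hy.symm hcon)
    have h5 : gr en1 P.Em = gr en1 (P.Em \ F) + 1 := h3.1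
    have h6 := k1 _ (sdiff_subset (s := P.Em) (t := F))
    have h7 := k1 _ hFm
    have h8 := k1 _ Subset.rfl
    have h9 : gr P.en (P.E \ F) ≤ gr P.en (P.Ep ∪ P.Em \ F) := gr_mono _ fun e he => by
      obtain ⟨g1, g2⟩ := mem_sdiff.1 he
      rw [← P.Ep_union_Em] at g1
      exact mem_union.2 ((mem_union.1 g1).imp id fun g => mem_sdiff.2 ⟨g, g2⟩)
    have h10 : gr P.en P.Ep + gr P.en P.Em = gr P.en P.E + 1 := hL
    omega

end Pool.Agent.P.MP_833722_gt.TG
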