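import Pool.Agent.P.MP_833722_gt.TG.Defs

/-! The second Reidemeister move for signed pairs. -/

set_option autoImplicit false

namespace Pool.Agent.P.MP_833722_gt.TG

open Finset LaurentPolynomial

theorem r2_zero (w : ℤ) (X : ℕ) :
    (T (1 + (1 + w)) * dl ^ X + (T (-1 + (-1 + w)) * dl ^ X + T (-1 + (1 + w)) * dl ^ (X + 1)) :
      ℤ[T;T⁻¹]) = 0 := by
  rw [show 1 + (1 + w) = 2 + w by ring, show -1 + (-1 + w) = -2 + w by ring,
    show -1 + (1 + w) = w by ring, T_add, T_add, pow_succ]
  have : (T 2 + T (-2) + dl : ℤ[T;T⁻¹]) = 0 := by rw [dl]; ring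
  linear_combination (T w * dl ^ X) * this

theorem r2 : PR2 := by
  intro V _ _ P e f hL hN h3 he hf hef
  obtain ⟨he1, he2⟩ := mem_filter.1 he
  obtain ⟨hf1, hf2⟩ := mem_filter.1 hf
  have hne : e ≠ f := by
    rintro rfl
    rw [he2] at hf2
    cases hf2
  have hF : ({e, f} : Finset ℕ) ⊆ P.E := insert_subset he1 (singleton_subset_iff.2 hf1)
  have hc : ({e, f} : Finset ℕ).card = 2 := card_pair hne
  obtain ⟨E', hE'⟩ : ∃ E', E' = P.E \ {e, f} := ⟨_, rfl⟩
  have hsub : E' ⊆ P.E := hE' ▸ sdiff_subset
  have heE : e ∉ E' := by simp [hE']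
  have hfE : f ∉ E' := by simp [hE']
  have hE : P.E = insert e (insert f E') := by
    rw [hE', insert_eq, insert_eq, ← union_assoc, ← insert_eq, union_sdiff_of_subset hF]
  have hins : ∀ S : Finset ℕ, gr P.en (insert f S) = gr P.en (insert e S) ∧
      gr P.en (insert e (insert f S)) = gr P.en (insert e S) := fun S => by
    simp only [gr, image_insert, hef, insert_idem, and_self]
  have hr : gr P.en E' = gr P.en P.E := by
    have h1 := hN {e, f} hF (insert_nonempty _ _) fun h => by
      rw [← h, hc] at h3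
      omega
    have h2 := (hins ∅).2
    have h4 := gr_insert_le P.en e ∅
    have h5 := gr_mono P.en hsub
    rw [gr_empty] at h4
    rw [insert_empty] at h2
    rw [← hE'] at h1
    omega
  obtain ⟨r, hcon⟩ := gr_con P.en' {e, f}
  have hdual : ∀ S ⊆ E', gr (fun x => (P.en' x).map r) S + gr P.en E' =
      S.card + gr P.en (E' \ S) := fun S hS => by
    have h1 := (hcon S).1
    have h2 := P.dual _ hF
    have h4 := P.dual ({e, f} ∪ S) (union_subset hF (hS.trans hsub))
    have h5 : Disjoint ({e, f} : Finset ℕ) S :=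
      Disjoint.mono_right hS (hE' ▸ disjoint_sdiff)
    rw [card_union_of_disjoint h5, show P.E \ ({e, f} ∪ S) = E' \ S by
      rw [hE']; exact sdiff_sdiff_left.symm] at h4
    rw [← hE'] at h2
    omega
  refine ⟨⟨E', P.en, fun x => (P.en' x).map r, P.sg, hdual⟩, ?_, ?_, 0, Or.inl ?_⟩
  · have := card_sdiff_add_card_eq_card hF
    show E'.card < _
    rw [hE']
    omega
  · have h1 : gr P.en (E'.filter fun x => P.sg x = true) ≤ gr P.en P.Ep :=
      gr_mono _ (filter_subset_filter _ hsub)
    have h2 : gr P.en (E'.filter fun x => P.sg x = false) ≤ gr P.en P.Em :=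
      gr_mono _ (filter_subset_filter _ hsub)
    have h4 : gr P.en P.Ep + gr P.en P.Em ≤ gr P.en P.E + 1 := hL
    show gr P.en (E'.filter fun x => P.sg x = true) + gr P.en (E'.filter fun x => P.sg x = false) ≤
      gr P.en E' + 1
    omega
  · rw [T_zero, one_mul]
    have heE' : e ∉ insert f E' := by simp [hne, heE]
    unfold DP.Br
    simp only [hr]
    generalize gr P.en P.E = ρ
    rw [hE, sum_powerset_insert heE', sum_powerset_insert hfE, sum_powerset_insert hfE,
      ← sum_add_distrib, ← sum_add_distrib, ← sum_add_distrib]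
    refine sum_congr rfl fun S hS => ?_
    have hS' := mem_powerset.1 hS
    have eS : e ∉ S := fun h => heE (hS' h)
    have fS : f ∉ S := fun h => hfE (hS' h)
    have eS' : e ∉ insert f S := by simp [hne, eS]
    have hw : ∀ U : Finset ℕ, (∀ x ∈ E', x ∈ U ↔ x ∈ S) →
        ∑ x ∈ insert e (insert f E'), (if decide (x ∈ U) = P.sg x then (-1 : ℤ) else 1) =
          (if e ∈ U then -1 else 1) + ((if f ∈ U then 1 else -1) +
            ∑ x ∈ E', if decide (x ∈ S) = P.sg x then (-1 : ℤ) else 1) := fun U hU => by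
      rw [sum_insert heE', sum_insert hfE, he2, hf2]
      congr 1
      · simp
      · congr 1
        · by_cases h : f ∈ U <;> simp [h]
        · exact sum_congr rfl fun x hx => by simp only [hU x hx]
    have ne1 : ∀ x ∈ E', x ≠ e := fun x hx h => heE (h ▸ hx)
    have ne2 : ∀ x ∈ E', x ≠ f := fun x hx h => hfE (h ▸ hx)
    rw [hw S fun _ _ => Iff.rfl, hw (insert f S) fun x hx => by simp [ne2 x hx],
      hw (insert e S) fun x hx => by simp [ne1 x hx],
      hw (insert e (insert f S)) fun x hx => by simp [ne1 x hx, ne2 x hx],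
      if_neg eS, if_neg fS, if_neg eS', if_pos (mem_insert_self f S), if_pos (mem_insert_self e S),
      if_neg (show f ∉ insert e S by simp [hne.symm, fS]), if_pos (mem_insert_self e _),
      if_pos (mem_insert_of_mem (mem_insert_self f S)), (hins S).1, (hins S).2,
      card_insert_of_notMem eS', card_insert_of_notMem fS, card_insert_of_notMem eS]
    have h1 := gr_le_card P.en (insert e S)
    rw [card_insert_of_notMem eS] at h1
    rw [show ρ - gr P.en (insert e S) + (S.card + 1 + 1 - gr P.en (insert e S)) =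
      ρ - gr P.en (insert e S) + (S.card + 1 - gr P.en (insert e S)) + 1 by omega, add_assoc,
      r2_zero, add_zero, ← add_assoc, add_neg_cancel, zero_add]

end Pool.Agent.P.MP_833722_gt.TG
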