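import Pool.Agent.P.MP_833722_gt.TG.Defs

/-! The fan reduction: a positive edge lying in a triangle and in a triad. -/

set_option autoImplicit false

namespace Pool.Agent.P.MP_833722_gt.TG

open Finset LaurentPolynomial

/-- the signed state sum of a function of the state -/
noncomputable def r3_F (sg : ℕ → Bool) (E : Finset ℕ) (φ : Finset ℕ → ℤ[T;T⁻¹]) : ℤ[T;T⁻¹] :=
  ∑ S ∈ E.powerset, T (∑ e ∈ E, if decide (e ∈ S) = sg e then -1 else 1) * φ S

theorem r3_ins (sg : ℕ → Bool) {E : Finset ℕ} {a : ℕ} (ha : a ∉ E) (φ : Finset ℕ → ℤ[T;T⁻¹]) :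
    r3_F sg (insert a E) φ = r3_F sg E fun S =>
      T (if sg a then 1 else -1) * φ S + T (if sg a then -1 else 1) * φ (insert a S) := by
  unfold r3_F
  rw [sum_powerset_insert ha, ← sum_add_distrib]
  refine sum_congr rfl fun S hS => ?_
  have hS' : a ∉ S := fun h => ha (mem_powerset.1 hS h)
  have h1 : (∑ e ∈ E, if decide (e ∈ insert a S) = sg e then (-1 : ℤ) else 1) =
      ∑ e ∈ E, if decide (e ∈ S) = sg e then (-1 : ℤ) else 1 :=
    sum_congr rfl fun e he => by
      have : e ≠ a := fun h => ha (h ▸ he)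
      simp [this]
  rw [sum_insert ha, sum_insert ha, h1, T_add, T_add]
  have e1 : (if decide (a ∈ S) = sg a then (-1 : ℤ) else 1) = if sg a then 1 else -1 := by
    cases sg a <;> simp [hS']
  have e2 : (if decide (a ∈ insert a S) = sg a then (-1 : ℤ) else 1) =
      if sg a then -1 else 1 := by
    cases sg a <;> simp
  rw [e1, e2]; ring

theorem r3_congr (sg : ℕ → Bool) {E : Finset ℕ} {φ ψ : Finset ℕ → ℤ[T;T⁻¹]}
    (h : ∀ S ⊆ E, φ S = ψ S) : r3_F sg E φ = r3_F sg E ψ :=
  sum_congr rfl fun S hS => by rw [h S (mem_powerset.1 hS)]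

variable {V : Type} [Fintype V]

theorem r3_rk (π : Setoid V) (x y z u v : V) (hd : ¬jn π z y x y) (hg : ¬jn π z y u v) :
    ∃ al b1 b2 ga : ℕ, rk (jn π z y) = rk π + al ∧ rk (jn π x z) = rk π + 1 ∧
      rk (jn (jn π z y) x z) = rk π + (al + 1) ∧ rk (jn π x y) = rk π + 1 ∧
      rk (jn (jn π z y) x y) = rk π + (al + 1) ∧ rk (jn (jn π x z) x y) = rk π + (al + 1) ∧
      rk (jn (jn (jn π z y) x z) x y) = rk π + (al + 1) ∧
      rk (jn π u v) = rk π + 1 ∧ rk (jn (jn π z y) u v) = rk π + (al + 1) ∧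
      rk (jn (jn π x z) u v) = rk π + (b2 + 1) ∧ rk (jn (jn (jn π z y) x z) u v) = rk π + ga ∧
      rk (jn (jn π x y) u v) = rk π + (b1 + 1) ∧ rk (jn (jn (jn π z y) x y) u v) = rk π + ga ∧
      rk (jn (jn (jn π x z) x y) u v) = rk π + ga ∧
      rk (jn (jn (jn (jn π z y) x z) x y) u v) = rk π + ga ∧
      ((al = 1 ∧ b1 = 1 ∧ b2 = 1 ∧ ga = 3) ∨ (al = 1 ∧ b1 = 0 ∧ b2 = 1 ∧ ga = 2) ∨
        (al = 1 ∧ b1 = 1 ∧ b2 = 0 ∧ ga = 2) ∨ (al = 0 ∧ b1 = 1 ∧ b2 = 1 ∧ ga = 2) ∨
        (al = 0 ∧ b1 = 0 ∧ b2 = 0 ∧ ga = 1)) := by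
  have he : ¬jn π z y x z := fun h => hd ((jn π z y).trans' h (jn_self _ _ _))
  have hxy : ¬π x y := fun h => hd (le_jn _ _ _ h)
  have hxz : ¬π x z := fun h => he (le_jn _ _ _ h)
  have huv : ¬π u v := fun h => hg (le_jn _ _ _ h)
  set τ := jn (jn π z y) x z with hτ
  have t1 : τ z y := le_jn _ _ _ (jn_self _ _ _)
  have t2 : τ x z := jn_self _ _ _
  have t3 : τ x y := τ.trans' t2 t1
  have p0 : π ≤ τ := (le_jn _ _ _).trans (le_jn _ _ _)
  have q1 : jn (jn π z y) x y = τ := by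
    refine le_antisymm (jn_le (le_jn _ _ _) t3) (jn_le (le_jn _ _ _) ?_)
    exact (jn _ x y).trans' (jn_self _ _ _) ((jn _ x y).symm' (le_jn _ _ _ (jn_self _ _ _)))
  have q2 : jn (jn π x z) x y = τ := by
    refine le_antisymm (jn_le (jn_le p0 t2) t3)
      (jn_le (jn_le ((le_jn _ _ _).trans (le_jn _ _ _)) ?_) (le_jn _ _ _ (jn_self _ _ _)))
    exact (jn _ x y).trans' ((jn _ x y).symm' (le_jn _ _ _ (jn_self _ _ _))) (jn_self _ _ _)
  have q3 : jn τ x y = τ := jn_of_rel t3
  rw [q1, q2, q3]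
  have r1 := rk_jn hxz
  have r2 := rk_jn hxy
  have r3 := rk_jn huv
  have r4 := rk_jn hg
  have r5 : rk τ = rk (jn π z y) + 1 := rk_jn he
  have l1 : jn π x z ≤ τ := jn_le p0 t2
  have l2 : jn π x y ≤ τ := jn_le p0 t3
  by_cases hzy : π z y
  · have s0 : jn π z y = π := jn_of_rel hzy
    have s1 : jn π x z = τ := by rw [hτ, s0]
    have s2 : jn π x y = τ := by rw [← q1, s0]
    rw [s0] at r4 r5 ⊢
    rw [s1, s2]
    by_cases h : τ u v
    · refine ⟨0, 0, 0, 1, ?_⟩
      rw [jn_of_rel h]; omega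
    · refine ⟨0, 1, 1, 2, ?_⟩
      rw [rk_jn h]; omega
  · have r6 := rk_jn hzy
    by_cases h : τ u v
    · have k : (jn π x y u v ∧ ¬jn π x z u v) ∨ (¬jn π x y u v ∧ jn π x z u v) := by
        have sy := @π.symm'
        have tr := @π.trans'
        have h' : jn (jn π z y) x z u v := h
        simp only [jn_iff] at h' hg ⊢
        grind
      rcases k with ⟨k1, k2⟩ | ⟨k1, k2⟩
      · refine ⟨1, 0, 1, 2, ?_⟩
        rw [jn_of_rel h, jn_of_rel k1, rk_jn k2]; omega
      · refine ⟨1, 1, 0, 2, ?_⟩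
        rw [jn_of_rel h, jn_of_rel k2, rk_jn k1]; omega
    · refine ⟨1, 1, 1, 3, ?_⟩
      rw [rk_jn h, rk_jn (fun g => h (l1 g)), rk_jn (fun g => h (l2 g))]; omega

theorem r3_pow (a c r j G t : ℕ) (h1 : j ≤ G) (h2 : j ≤ t) :
    dl ^ (r + G + a - (r + j) + (r + c + t - (r + j))) = dl ^ (a + c) * dl ^ (G - j + (t - j)) := by
  rw [← pow_add]; congr 1; omega

theorem r3_id (D : ℤ[T;T⁻¹]) (al b1 b2 ga : ℕ)
    (h : (al = 1 ∧ b1 = 1 ∧ b2 = 1 ∧ ga = 3) ∨ (al = 1 ∧ b1 = 0 ∧ b2 = 1 ∧ ga = 2) ∨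
        (al = 1 ∧ b1 = 1 ∧ b2 = 0 ∧ ga = 2) ∨ (al = 0 ∧ b1 = 1 ∧ b2 = 1 ∧ ga = 2) ∨
        (al = 0 ∧ b1 = 0 ∧ b2 = 0 ∧ ga = 1)) (X : ℕ → ℕ → ℤ[T;T⁻¹])
    (hX : ∀ j t, j ≤ ga → j ≤ t → X j t = D * dl ^ (ga - j + (t - j))) :
    T (-1) * (T (-1) * (T 1 * (T (-1) * X 0 0 + T 1 * X 1 1) +
          T (-1) * (T (-1) * X 1 1 + T 1 * X (b1 + 1) 2)) +
        T 1 * (T 1 * (T (-1) * X 1 1 + T 1 * X (b2 + 1) 2) +
          T (-1) * (T (-1) * X (al + 1) 2 + T 1 * X ga 3))) +
      T 1 * (T (-1) * (T 1 * (T (-1) * X al 1 + T 1 * X (al + 1) 2) +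
          T (-1) * (T (-1) * X (al + 1) 2 + T 1 * X ga 3)) +
        T 1 * (T 1 * (T (-1) * X (al + 1) 2 + T 1 * X ga 3) +
          T (-1) * (T (-1) * X (al + 1) 3 + T 1 * X ga 4))) =
    T (-1) * (T 1 * X 1 1 + T (-1) * X (b1 + 1) 2) +
      T 1 * (T 1 * X (b2 + 1) 2 + T (-1) * X ga 3) := by
  have hAB : (T 1 : ℤ[T;T⁻¹]) * T (-1) = 1 := by rw [← T_add]; simp
  have hdl : dl = -(T 1 * T 1) - T (-1) * T (-1) := by
    rw [← T_add, ← T_add]; rfl
  rcases h with ⟨rfl, rfl, rfl, rfl⟩ | ⟨rfl, rfl, rfl, rfl⟩ | ⟨rfl, rfl, rfl, rfl⟩ |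
    ⟨rfl, rfl, rfl, rfl⟩ | ⟨rfl, rfl, rfl, rfl⟩ <;>
  · simp (disch := omega) only [hX]
    norm_num only
    rw [hdl]
    generalize (T 1 : ℤ[T;T⁻¹]) = A at *
    generalize (T (-1) : ℤ[T;T⁻¹]) = B at *
    grind

variable [DecidableEq V]

theorem r3_free (en : ℕ → Sym2 V) {B S : Finset ℕ} {h : ℕ} (hS : S ⊆ B)
    (hB : gr en (insert h B) = gr en B + 1) : gr en (insert h S) = gr en S + 1 := by
  have h1 := gr_sub en hS {h}
  have h2 := gr_insert_le en h S
  rw [union_comm, union_comm S, ← insert_eq, ← insert_eq] at h1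
  omega

theorem r3_nrel (en : ℕ → Sym2 V) {S : Finset ℕ} {h : ℕ} {a b : V} (hh : en h = s(a, b))
    (hB : gr en (insert h S) = gr en S + 1) : ¬gen ⊥ (S.image en) a b := fun g => by
  rw [gr_insert en hh, jn_of_rel g] at hB
  unfold gr at hB; omega

theorem r3_main (P : DP V) (d e f g : ℕ) (R : Finset ℕ) (x y z : V) (hp : P.Ep = {d})
    (hE : P.E = insert g (insert d (insert e (insert f R))))
    (ng : g ∉ insert d (insert e (insert f R))) (nd : d ∉ insert e (insert f R))
    (ne : e ∉ insert f R) (nf : f ∉ R)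
    (ed : P.en d = s(x, y)) (ee : P.en e = s(x, z)) (ef : P.en f = s(z, y))
    (fd : gr P.en (insert d (insert f R)) = gr P.en (insert f R) + 1)
    (fg : gr P.en (insert g (insert f R)) = gr P.en (insert f R) + 1) : P.Red := by
  obtain ⟨u, v, eg⟩ : ∃ u v, P.en g = s(u, v) := by
    induction P.en g using Sym2.ind with | h a b => exact ⟨a, b, rfl⟩
  have key : ∀ S ⊆ R, _ := fun S hS => r3_rk (gen ⊥ (S.image P.en)) x y z u v
    (by
      have := r3_nrel P.en ed (r3_free P.en (insert_subset_insert f hS) fd)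
      rwa [image_insert, ef, gen_insert] at this)
    (by
      have := r3_nrel P.en eg (r3_free P.en (insert_subset_insert f hS) fg)
      rwa [image_insert, ef, gen_insert] at this)
  simp only [← ed, ← ee, ← ef, ← eg, ← gen_insert, ← image_insert] at key
  simp only [show ∀ S : Finset ℕ, rk (gen ⊥ (S.image P.en)) = gr P.en S from fun _ => rfl] at key
  have sgn : ∀ a ∈ P.E, P.sg a = true ↔ a = d := fun a ha => by
    rw [← mem_singleton (a := d), ← hp, DP.Ep, mem_filter]; simp [ha]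
  simp only [mem_insert, not_or] at ng nd ne
  have sd : P.sg d = true := (sgn d (by simp [hE])).2 rfl
  have se : P.sg e = false := by
    rw [← Bool.not_eq_true, sgn e (by simp [hE])]; exact fun h => nd.1 h.symm
  have sf : P.sg f = false := by
    rw [← Bool.not_eq_true, sgn f (by simp [hE])]; exact fun h => nd.2.1 h.symm
  have sg : P.sg g = false := by
    rw [← Bool.not_eq_true, sgn g (by simp [hE])]; exact ng.1
  obtain ⟨r, hr⟩ := gr_con P.en {g}
  obtain ⟨r', hr'⟩ := gr_con P.en' {f}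
  have g1 : gr P.en {g} = 1 := by
    have := r3_free P.en (empty_subset _) fg
    simpa using this
  have top : gr P.en (insert g (insert d (insert e R))) = gr P.en P.E := by
    obtain ⟨al, b1, b2, ga, h⟩ := key R Subset.rfl
    rw [hE]; omega
  have f1 : gr P.en' {f} = 1 := by
    have := P.dual {f} (by simp [hE])
    have e1 : P.E \ {f} = insert g (insert d (insert e R)) := by
      ext a; simp only [hE, mem_sdiff, mem_insert, mem_singleton]; grind
    rw [e1, top, card_singleton] at this; omega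
  have c1 : ∀ S, gr (fun e => (P.en e).map r) S + 1 = gr P.en (insert g S) := fun S => by
    rw [← g1, insert_eq]; exact (hr S).1
  have c2 : ∀ S, gr (fun e => (P.en' e).map r') S + 1 = gr P.en' (insert f S) := fun S => by
    rw [← f1, insert_eq]; exact (hr' S).1
  let P' : DP V := ⟨insert d (insert e R), fun e => (P.en e).map r, fun e => (P.en' e).map r',
    P.sg, fun S hS => by
      have hf : f ∉ S := fun h => by
        have := hS h; simp only [mem_insert] at this; grind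
      have hg : g ∉ S := fun h => by
        have := hS h; simp only [mem_insert] at this; grind
      have h1 := P.dual (insert f S) (by
        intro a ha
        have := @hS a
        simp only [hE, mem_insert] at *; grind)
      have e1 : P.E \ insert f S = insert g (insert d (insert e R) \ S) := by
        ext a; simp only [hE, mem_sdiff, mem_insert]; grind
      rw [e1, card_insert_of_notMem hf, ← c1, ← c2, ← top, ← c1] at h1
      omega⟩
  refine ⟨P', ?_, ?_, 0, Or.inl ?_⟩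
  · refine card_lt_card ⟨fun a ha => ?_, fun h => ?_⟩
    · simp only [P', hE, mem_insert] at ha ⊢; grind
    · have := h (show g ∈ P.E by simp [hE])
      simp only [P', mem_insert] at this; grind
  · have h1 : P'.Ep ⊆ {d} := fun a ha => by
      simp only [P', DP.Ep, mem_filter, mem_insert] at ha
      exact mem_singleton.2 ((sgn a (by simp only [hE, mem_insert]; grind)).1 ha.2)
    have h2 := gr_le_card P'.en P'.Ep
    have h3 := card_le_card h1
    have h4 : gr P'.en P'.Em ≤ gr P'.en P'.E := gr_mono _ (filter_subset _ _)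
    rw [card_singleton] at h3
    unfold DP.L1; omega
  · rw [T_zero, one_mul]
    change r3_F P.sg P.E (fun S => dl ^ (gr P.en P.E - gr P.en S + (S.card - gr P.en S))) =
      r3_F P.sg (insert d (insert e R)) fun S => dl ^ (gr P'.en P'.E - gr P'.en S +
        (S.card - gr P'.en S))
    have c3 : ∀ S : Finset ℕ, gr P'.en P'.E - gr P'.en S + (S.card - gr P'.en S) =
        gr P.en P.E - gr P.en (insert g S) + (S.card + 1 - gr P.en (insert g S)) := fun S => by
      have := c1 S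
      have := c1 (insert d (insert e R))
      simp only [P']; omega
    simp only [c3]
    generalize hρ : gr P.en P.E = ρ
    rw [hE, r3_ins _ (by simp [ng]), r3_ins _ (by simp [nd]), r3_ins _ (by simp [ne]),
      r3_ins _ nf, r3_ins _ (by simp [nd]), r3_ins _ ne.2]
    refine r3_congr _ fun S hS => ?_
    obtain ⟨al, b1, b2, ga, k1, k2, k3, k4, k5, k6, k7, k8, k9, k10, k11, k12, k13, k14, k15,
      hc⟩ := key S hS
    have hf : f ∉ S := fun h => nf (hS h)
    have he : e ∉ S := fun h => ne.2 (hS h)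
    have hd : d ∉ S := fun h => nd.2.2 (hS h)
    have hg : g ∉ S := fun h => ng.2.2.2 (hS h)
    have m1 : gr P.en (insert g (insert d (insert e (insert f S)))) ≤ ρ := by
      rw [← hρ, hE]; exact gr_mono _ (by gcongr)
    obtain ⟨a, ha⟩ : ∃ a, ρ = gr P.en S + ga + a := ⟨ρ - (gr P.en S + ga), by omega⟩
    obtain ⟨c, hc'⟩ : ∃ c, S.card = gr P.en S + c :=
      ⟨S.card - gr P.en S, by have := gr_le_card P.en S; omega⟩
    have := r3_id (dl ^ (a + c)) al b1 b2 ga hc
      (fun j t => dl ^ (ρ - (gr P.en S + j) + (S.card + t - (gr P.en S + j))))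
      (fun j t h1 h2 => by rw [ha, hc']; exact r3_pow _ _ _ _ _ _ h1 h2)
    simp (disch := simp [*]) only [sd, se, sf, sg, k1, k2, k3, k4, k5, k6, k7, k8, k9, k10, k11,
      k12, k13, k14, k15, card_insert_of_notMem, if_true, Bool.false_eq_true, if_false]
    exact this

theorem r3_tri (en : ℕ → Sym2 V) {d e f : ℕ} {x y z : V} (h1 : x ≠ y) (h2 : x ≠ z) (h3 : y ≠ z)
    (ed : en d = s(x, y)) (ee : en e = s(x, z)) (ef : en f = s(z, y)) :
    gr en {d, e, f} = 2 ∧ gr en {d, e} = 2 ∧ gr en {d, f} = 2 ∧ gr en {e, f} = 2 ∧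
      d ≠ e ∧ d ≠ f ∧ e ≠ f := by
  have hb : ∀ a b : V, (⊥ : Setoid V) a b ↔ a = b := fun _ _ => Iff.rfl
  have hd : ¬jn (⊥ : Setoid V) z y x y := by simp only [jn_iff, hb]; grind
  obtain ⟨al, b1, b2, ga, k1, k2, k3, k4, k5, k6, k7, -⟩ := r3_rk ⊥ x y z x y hd hd
  have k0 : rk (jn (⊥ : Setoid V) z y) = rk (⊥ : Setoid V) + 1 := rk_jn h3.symm
  rw [rk_bot] at *
  refine ⟨?_, ?_, ?_, ?_, ?_, ?_, ?_⟩
  iterate 4
    simp only [← insert_empty_eq, gr, image_insert, image_empty, ed, ee, ef, gen_insert, gen_empty]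
    omega
  all_goals
    rintro rfl
    simp only [ed, ee, Sym2.eq_iff] at *
    grind

theorem r3_mid (P : DP V) (d e f g : ℕ) (x y z : V) (hp : P.Ep = {d}) (md : d ∈ P.E)
    (me : e ∈ P.E) (mf : f ∈ P.E) (mg : g ∈ P.E) (de : d ≠ e) (df : d ≠ f) (ef' : e ≠ f)
    (dg : d ≠ g) (eg : e ≠ g) (fg' : f ≠ g)
    (ed : P.en d = s(x, y)) (ee : P.en e = s(x, z)) (ef : P.en f = s(z, y))
    (fr : ∀ h ∈ ({d, e, g} : Finset ℕ),
      gr P.en (insert h (P.E \ {d, e, g})) = gr P.en (P.E \ {d, e, g}) + 1) : P.Red := by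
  have e1 : P.E \ {d, e, g} = insert f (P.E \ {d, e, f, g}) := by
    ext a; simp only [mem_sdiff, mem_insert, mem_singleton]; grind
  rw [e1] at fr
  refine r3_main P d e f g (P.E \ {d, e, f, g}) x y z hp ?_ ?_ ?_ ?_ ?_ ed ee ef
    (fr d (by simp)) (fr g (by simp))
  · ext a; simp only [mem_sdiff, mem_insert, mem_singleton]; grind
  all_goals simp only [mem_sdiff, mem_insert, mem_singleton]; grind

theorem r3 : PR3 := by
  rintro V _ _ P d hp ⟨e, me, f, mf, x, y, z, h1, h2, h3, ed, ee, ef⟩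
    ⟨g, mg, h, mh, x', y', z', h1', h2', h3', ed', eg', eh'⟩
  obtain ⟨a1, a2, a3, a4, de, df, ef'⟩ := r3_tri P.en h1 h2 h3 ed ee ef
  obtain ⟨b1, b2, b3, b4, dg, dh, gh⟩ := r3_tri P.en' h1' h2' h3' ed' eg' eh'
  have md : d ∈ P.E := (mem_filter.1 (show d ∈ P.Ep by simp [hp])).1
  have top : gr P.en P.E = gr P.en (P.E \ {d, g, h}) + 1 := by
    have := P.dual {d, g, h} (by intro a; simp only [mem_insert, mem_singleton]; grind)
    rw [b1, card_eq_three.2 ⟨d, g, h, dg, dh, gh, rfl⟩] at this; omega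
  have pr : ∀ a b c : ℕ, ({a, b, c} : Finset ℕ) = {d, g, h} → a ≠ b → a ≠ c → b ≠ c →
      gr P.en' {b, c} = 2 →
      gr P.en (insert a (P.E \ {d, g, h})) = gr P.en (P.E \ {d, g, h}) + 1 := by
    intro a b c e0 n1 n2 n3 hr
    have sub : ({a, b, c} : Finset ℕ) ⊆ P.E := by
      rw [e0]; intro a; simp only [mem_insert, mem_singleton]; grind
    have := P.dual {b, c} ((subset_insert _ _).trans sub)
    have e1 : P.E \ {b, c} = insert a (P.E \ {d, g, h}) := by
      have := sub (mem_insert_self _ _)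
      rw [← e0]; ext q; simp only [mem_sdiff, mem_insert, mem_singleton]; grind
    rw [hr, card_pair n3, e1] at this; omega
  have fr : ∀ a ∈ ({d, g, h} : Finset ℕ),
      gr P.en (insert a (P.E \ {d, g, h})) = gr P.en (P.E \ {d, g, h}) + 1 := by
    intro a ha
    simp only [mem_insert, mem_singleton] at ha
    rcases ha with rfl | rfl | rfl
    · exact pr _ g h rfl dg dh gh b4
    · exact pr _ d h (insert_comm _ _ _) dg.symm gh dh b3
    · exact pr _ d g (by ext q; simp only [mem_insert, mem_singleton]; grind) dh.symm gh.symm dg b2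
  have fr' : ∀ a ∈ ({d, h, g} : Finset ℕ),
      gr P.en (insert a (P.E \ {d, h, g})) = gr P.en (P.E \ {d, h, g}) + 1 := by
    rw [pair_comm h g]; exact fr
  have both : ∀ a b : ℕ, P.en a = s(x, z) → P.en b = s(z, y) →
      ({d, a, b} : Finset ℕ) ⊆ {d, g, h} → False := by
    intro a b ea eb hs
    have n1 := r3_nrel P.en ed (fr d (hs (by simp)))
    have n2 := r3_nrel P.en ea (fr a (hs (by simp)))
    have n3 := r3_nrel P.en eb (fr b (hs (by simp)))
    have le : gr P.en (insert d (insert a (P.E \ {d, g, h}))) ≤ gr P.en P.E := by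
      refine gr_mono _ fun q hq => ?_
      have := @hs a
      simp only [mem_sdiff, mem_insert, mem_singleton] at *; grind
    rw [gr_insert P.en ed, image_insert, ea, gen_insert, rk_jn, rk_jn n2, top] at le
    · unfold gr at le; omega
    · generalize gen ⊥ _ = π at *
      have sy := @π.symm'
      simp only [jn_iff]; grind
  have ed2 : P.en d = s(y, x) := ed.trans Sym2.eq_swap
  have ee2 : P.en e = s(z, x) := ee.trans Sym2.eq_swap
  have ef2 : P.en f = s(y, z) := ef.trans Sym2.eq_swap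
  by_cases c1 : e = g
  · subst c1
    by_cases c2 : f = h
    · subst c2; exact (both e f ee ef Subset.rfl).elim
    · exact r3_mid P d e f h x y z hp md me mf mh de df ef' dh gh c2 ed ee ef fr
  by_cases c2 : e = h
  · subst c2
    by_cases c3 : f = g
    · subst c3; exact (both e f ee ef (by rw [pair_comm e f])).elim
    · exact r3_mid P d e f g x y z hp md me mf mg de df ef' dg c1 c3 ed ee ef fr'
  by_cases c3 : f = g
  · subst c3
    exact r3_mid P d f e h y x z hp md mf me mh df de ef'.symm dh gh c2 ed2 ef2 ee2 fr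
  by_cases c4 : f = h
  · subst c4
    exact r3_mid P d f e g y x z hp md mf me mg df de ef'.symm dg c3 c1 ed2 ef2 ee2 fr'
  have := r3_free P.en (S := {e, f})
    (by intro q; simp only [mem_sdiff, mem_insert, mem_singleton]; grind) (fr d (by simp))
  omega

end Pool.Agent.P.MP_833722_gt.TG
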