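import Pool.Agent.P.MP_833722_gt.TG.Port
import Pool.Agent.P.MP_833722_gt.Lag

/-! Symmetries of signed pairs, separators and the trivial bounds. -/

set_option autoImplicit false

namespace Pool.Agent.P.MP_833722_gt.TG

open Finset LaurentPolynomial

variable {V : Type} [Fintype V] [DecidableEq V]

theorem sym_diag {en : ℕ → Sym2 V} {e : ℕ} (h : (en e).IsDiag) (S : Finset ℕ) :
    gr en (insert e S) = gr en S := by
  obtain ⟨c, d, hcd⟩ : ∃ c d, en e = s(c, d) := by
    induction en e using Sym2.ind with | h c d => exact ⟨c, d, rfl⟩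
  rw [hcd, Sym2.mk_isDiag_iff] at h
  exact (port_ins hcd S).2 (h ▸ (gen ⊥ _).refl' c)

theorem sym_dual (P : DP V) {F : Finset ℕ} (hF : F ⊆ P.E) :
    gr P.en' F + gr P.en' (P.E \ F) + gr P.en P.E =
      gr P.en' P.E + (gr P.en F + gr P.en (P.E \ F)) := by
  have h1 := P.dual F hF
  have h2 := P.dual' F hF
  omega

theorem sym_sw (P : DP V) : P.sw.Br = P.Br := by
  unfold DP.Br
  symm
  refine sum_nbij' (fun S => P.E \ S) (fun S => P.E \ S) (fun S _ => ?_) (fun S _ => ?_)
    (fun S hS => ?_) (fun S hS => ?_) fun S hS => ?_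
  · exact mem_powerset.2 sdiff_subset
  · exact mem_powerset.2 sdiff_subset
  · exact Finset.sdiff_sdiff_eq_self (mem_powerset.1 hS)
  · exact Finset.sdiff_sdiff_eq_self (mem_powerset.1 hS)
  · have hS' := mem_powerset.1 hS
    have h1 := P.dual' S hS'
    have h2 := P.dual _ (sdiff_subset (s := P.E) (t := S))
    rw [Finset.sdiff_sdiff_eq_self hS'] at h2
    have h3 := gr_le_card P.en S
    have h4 := gr_mono P.en hS'
    simp only [DP.sw_E, DP.sw_en]
    congr 2
    · refine sum_congr rfl fun e he => ?_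
      by_cases h : e ∈ S <;> cases hs : P.sg e <;> simp [DP.sw, h, he, hs]
    · omega

theorem sym_mi (P : DP V) : P.mi.Br = invert P.Br := by
  have hd : invert dl = dl := by
    simp only [dl, map_sub, map_neg, invert_T, neg_neg]
    ring
  unfold DP.Br
  rw [map_sum]
  refine sum_congr rfl fun S _ => ?_
  rw [map_mul, map_pow, hd, invert_T, ← sum_neg_distrib]
  congr 2
  refine sum_congr rfl fun e _ => ?_
  by_cases h : e ∈ S <;> cases hs : P.sg e <;> simp [DP.mi, h, hs]

theorem sym : PSym := by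
  intro V _ _ P
  have h0 := sym_dual P (F := P.Ep) (filter_subset _ _)
  rw [P.sdiff_Ep] at h0
  refine ⟨sym_sw P, sym_mi P, fun h => ?_, fun h => ?_, fun h F hF h1 h2 => ?_,
    fun h h2 e he => ?_, fun h v hv => ?_⟩
  · simp only [DP.L1, DP.sw_E, DP.sw_en, DP.sw_Ep, DP.sw_Em] at h ⊢
    omega
  · simp only [DP.LE, DP.sw_E, DP.sw_en, DP.sw_Ep, DP.sw_Em] at h ⊢
    omega
  · have h3 := h F hF h1 h2
    have h4 := sym_dual P hF
    simp only [DP.sw_E, DP.sw_en]
    omega
  · have h3 := h {e} (singleton_subset_iff.2 he) (singleton_nonempty e) fun g => by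
      rw [← g, card_singleton] at h2
      omega
    have h4 := gr_le_card P.en {e}
    have h5 := gr_mono P.en (erase_subset e P.E)
    rw [card_singleton] at h4
    rw [sdiff_singleton_eq_erase] at h3
    refine ⟨fun g => ?_, by omega⟩
    have h6 := sym_diag g ∅
    rw [insert_empty, gr_empty] at h6
    omega
  · obtain ⟨v', hv'⟩ := card_eq_one.1 hv
    have hm : ∀ z, s(v, z) ∈ P.E.image P.en ↔ z = v' := fun z => by
      rw [← mem_singleton, ← hv', nb, mem_filter]
      simp only [mem_univ, true_and]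
    obtain ⟨e0, he0, he1⟩ := mem_image.1 ((hm v').2 rfl)
    set F := P.E.filter fun e => P.en e = s(v, v') with hF
    have hFm : F ⊆ P.E := filter_subset _ _
    have h3 : F.image P.en = {s(v, v')} := by
      refine eq_singleton_iff_unique_mem.2 ⟨mem_image.2 ⟨e0, mem_filter.2 ⟨he0, he1⟩, he1⟩,
        fun s hs => ?_⟩
      obtain ⟨e, he, rfl⟩ := mem_image.1 hs
      exact (mem_filter.1 he).2
    by_cases hFE : F = P.E
    · rw [← hFE, h3, card_singleton]
    exfalso
    have h1 := h F hFm ⟨e0, mem_filter.2 ⟨he0, he1⟩⟩ hFE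
    have h2 : gr P.en F = rk (jn ⊥ v v') := by
      rw [gr, h3, ← insert_empty, gen_insert, gen_empty]
    have h4 := gr_mono P.en (sdiff_subset (s := P.E) (t := F))
    by_cases hvv : v = v'
    · rw [jn_of_rel (π := ⊥) hvv, rk_bot] at h2
      omega
    have h5 := rk_jn_le (⊥ : Setoid V) v v'
    rw [rk_bot] at h5
    have h6 := (port_pend (H := P.E.image P.en) (S := (P.E \ F).image P.en) (v := v) (v' := v')
      (by rw [insert_eq, ← h3, ← image_union, union_sdiff_of_subset hFm]) hvv
      (fun z hz => by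
        obtain ⟨e, he, g⟩ := mem_image.1 hz
        obtain ⟨g1, g2⟩ := mem_sdiff.1 he
        have g3 := (hm z).1 (mem_image.2 ⟨e, g1, g⟩)
        exact g2 (mem_filter.2 ⟨g1, g3 ▸ g⟩))).1
    have h7 : gr P.en P.E = gr P.en (P.E \ F) + 1 := h6
    omega

/-- ranks add along a separator -/
theorem sym_sep (en : ℕ → Sym2 V) {F G S1 S2 : Finset ℕ} (h : gr en F + gr en G ≤ gr en (F ∪ G))
    (h1 : S1 ⊆ F) (h2 : S2 ⊆ G) : gr en (S1 ∪ S2) = gr en S1 + gr en S2 := by
  have a1 := gr_sub en h1 G
  have a2 := gr_sub en h2 S1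
  have a3 := gr_union_le en S1 S2
  rw [union_comm G, union_comm S2] at a2
  omega

/-- restriction to a separator -/
def symRes (P : DP V) (F G : Finset ℕ) (hE : F ∪ G = P.E) (hd : Disjoint F G)
    (h : gr P.en F + gr P.en G ≤ gr P.en (F ∪ G)) : DP V :=
  ⟨F, P.en, P.en', P.sg, fun S hS => by
    have h1 := P.dual S (hE ▸ hS.trans subset_union_left)
    have h2 := sym_sep P.en h (sdiff_subset (t := S)) Subset.rfl
    have h3 := sym_sep P.en h Subset.rfl Subset.rfl
    rw [← hE, union_sdiff_distrib, sdiff_eq_self_of_disjoint (hd.mono_left hS).symm] at h1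
    omega⟩

theorem symRes_L1 (P : DP V) (F G : Finset ℕ) (hE : F ∪ G = P.E) (hd : Disjoint F G)
    (h : gr P.en F + gr P.en G ≤ gr P.en (F ∪ G)) (hL : P.L1) : (symRes P F G hE hd h).L1 := by
  have h1 := sym_sep P.en h (filter_subset (fun e => P.sg e = true) F)
    (filter_subset (fun e => P.sg e = true) G)
  have h2 := sym_sep P.en h (filter_subset (fun e => P.sg e = false) F)
    (filter_subset (fun e => P.sg e = false) G)
  have h3 := gr_union_le P.en (G.filter fun e => P.sg e = true) (G.filter fun e => P.sg e = false)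
  have h4 : (G.filter fun e => P.sg e = true) ∪ (G.filter fun e => P.sg e = false) = G := by
    ext e
    simp only [mem_union, mem_filter]
    cases P.sg e <;> simp
  have h5 := gr_union_le P.en F G
  rw [← filter_union, hE] at h1 h2
  rw [h4] at h3
  rw [hE] at h5
  simp only [DP.L1, DP.Ep, DP.Em, symRes] at hL ⊢
  omega

theorem sym_mul (P : DP V) (F G : Finset ℕ) (hE : F ∪ G = P.E) (hd : Disjoint F G)
    (h : gr P.en F + gr P.en G ≤ gr P.en (F ∪ G)) (hE' : G ∪ F = P.E)
    (h' : gr P.en G + gr P.en F ≤ gr P.en (G ∪ F)) :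
    P.Br = (symRes P F G hE hd h).Br * (symRes P G F hE' hd.symm h').Br := by
  simp only [DP.Br, symRes]
  rw [sum_mul_sum, ← sum_product', ← hE]
  symm
  refine sum_nbij' (fun p => p.1 ∪ p.2) (fun S => (S ∩ F, S ∩ G)) (fun p hp => ?_) (fun S _ => ?_)
    (fun p hp => ?_) (fun S hS => ?_) fun p hp => ?_
  · simp only [mem_product, mem_powerset] at hp ⊢
    exact union_subset_union hp.1 hp.2
  · simp only [mem_product, mem_powerset]
    exact ⟨inter_subset_right, inter_subset_right⟩
  · simp only [mem_product, mem_powerset] at hp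
    refine Prod.ext ?_ ?_
    · show (p.1 ∪ p.2) ∩ F = p.1
      rw [union_inter_distrib_right, inter_eq_left.2 hp.1,
        disjoint_iff_inter_eq_empty.1 (hd.symm.mono_left hp.2), union_empty]
    · show (p.1 ∪ p.2) ∩ G = p.2
      rw [union_inter_distrib_right, inter_eq_left.2 hp.2,
        disjoint_iff_inter_eq_empty.1 (hd.mono_left hp.1), empty_union]
  · rw [← inter_union_distrib_left, inter_eq_left.2 (mem_powerset.1 hS)]
  · simp only [mem_product, mem_powerset] at hp
    obtain ⟨p1, p2⟩ := hp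
    have h1 := sym_sep P.en h p1 p2
    have h2 := sym_sep P.en h Subset.rfl Subset.rfl
    have h3 := card_union_of_disjoint (hd.mono p1 p2)
    have h4 := gr_mono P.en p1
    have h5 := gr_mono P.en p2
    have h6 := gr_le_card P.en p.1
    have h7 := gr_le_card P.en p.2
    rw [mul_mul_mul_comm, ← T_add, ← pow_add, sum_union hd]
    congr 2
    · congr 1
      · refine sum_congr rfl fun e he => ?_
        have : e ∉ p.2 := fun g => disjoint_left.1 hd he (p2 g)
        exact if_congr (by simp [this]) rfl rfl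
      · refine sum_congr rfl fun e he => ?_
        have : e ∉ p.1 := fun g => disjoint_left.1 hd (p1 g) he
        exact if_congr (by simp [this]) rfl rfl
    · omega

theorem sym_root : ∃ a : ℂˣ, ‖(a : ℂ)‖ = 1 ∧ (a : ℂ) + (a⁻¹ : ℂˣ) = -1 := by
  obtain ⟨w, hw⟩ : ∃ w : ℂ, w ^ 2 + w + 1 = 0 := by
    refine ⟨⟨-1 / 2, √3 / 2⟩, ?_⟩
    have := Real.mul_self_sqrt (show (0 : ℝ) ≤ 3 by norm_num)
    apply Complex.ext <;> simp [pow_two] <;> nlinarith
  have h3 : w ^ 3 = 1 := by linear_combination (w - 1) * hw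
  refine ⟨⟨w, w ^ 2, by linear_combination h3, by linear_combination h3⟩, ?_, ?_⟩
  · exact Complex.norm_eq_one_of_pow_eq_one h3 (by norm_num)
  · show w + w ^ 2 = -1
    linear_combination hw

theorem sym_ev (P : DP V) {a : ℂˣ} (ha : (a : ℂ) + (a⁻¹ : ℂˣ) = -1) :
    evA a P.Br = (-1) ^ P.E.card := by
  have hd : evA a dl = 1 := by
    rw [evA_dl]
    linear_combination (-((a : ℂ) + (a⁻¹ : ℂˣ)) + 1) * ha + 2 * a.mul_inv
  have h1 : ∀ (c : ℕ → ℤ) (s : Finset ℕ), ((a ^ ∑ e ∈ s, c e : ℂˣ) : ℂ) =
      ∏ e ∈ s, ((a ^ c e : ℂˣ) : ℂ) := fun c s => by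
    induction s using Finset.induction_on with
    | empty => simp
    | insert e s he ih => rw [sum_insert he, prod_insert he, zpow_add, Units.val_mul, ih]
  have h2 := prod_add (fun e => ((a ^ (if true = P.sg e then (-1 : ℤ) else 1) : ℂˣ) : ℂ))
    (fun e => ((a ^ (if false = P.sg e then (-1 : ℤ) else 1) : ℂˣ) : ℂ)) P.E
  rw [prod_congr rfl (g := fun _ => -1) fun e _ => by
    cases P.sg e
    · simpa using ha
    · simpa [add_comm] using ha, prod_const] at h2
  rw [h2, DP.Br, map_sum]
  refine sum_congr rfl fun S hS => ?_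
  rw [map_mul, map_pow, hd, one_pow, mul_one, evA_T, h1, ← prod_sdiff (mem_powerset.1 hS),
    mul_comm]
  congr 1
  · exact prod_congr rfl fun e he => by rw [decide_eq_true he]
  · exact prod_congr rfl fun e he => by rw [decide_eq_false (mem_sdiff.1 he).2]

theorem r1 (h : PSp) : PR1 := by
  intro V _ _ P
  obtain ⟨a, ha1, ha2⟩ := sym_root
  have hev := sym_ev P ha2
  have hne : P.Br ≠ 0 := fun g => by
    rw [g, map_zero] at hev
    exact pow_ne_zero _ (by norm_num) hev.symm
  refine ⟨fun F hF hL hr => ?_, ?_, hne, fun hW => ?_⟩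
  · have hE : F ∪ P.E \ F = P.E := union_sdiff_of_subset hF
    have hE' : P.E \ F ∪ F = P.E := sdiff_union_of_subset hF
    have g : gr P.en F + gr P.en (P.E \ F) ≤ gr P.en (F ∪ P.E \ F) := by rwa [hE]
    have g' : gr P.en (P.E \ F) + gr P.en F ≤ gr P.en (P.E \ F ∪ F) := by rwa [hE', add_comm]
    exact ⟨_, _, rfl, rfl, symRes_L1 P F _ hE disjoint_sdiff g hL,
      symRes_L1 P _ F hE' sdiff_disjoint g' hL, sym_mul P F _ hE disjoint_sdiff g hE' g'⟩
  · have h1 : ∀ (s : Finset (Finset ℕ)) (f : Finset ℕ → ℤ[T;T⁻¹]),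
        nrm (∑ S ∈ s, f S) ≤ ∑ S ∈ s, nrm (f S) := fun s f => by
      induction s using Finset.induction_on with
      | empty => simp [nrm]
      | insert S s hS ih =>
        rw [sum_insert hS, sum_insert hS]
        exact (h.nadd _ _).trans (Nat.add_le_add_left ih _)
    refine (h1 _ _).trans ((sum_le_card_nsmul _ _ (2 ^ P.E.card) fun S hS => ?_).trans ?_)
    · rw [h.nT]
      refine (h.ndl _).trans (Nat.pow_le_pow_right (by norm_num) ?_)
      have hS' := mem_powerset.1 hS
      have b1 := gr_union_le P.en S (P.E \ S)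
      have b2 := gr_le_card P.en (P.E \ S)
      have b3 := card_sdiff_add_card_eq_card hS'
      rw [union_sdiff_of_subset hS'] at b1
      omega
    · rw [card_powerset, smul_eq_mul, ← mul_pow]
      exact le_rfl
  · obtain ⟨k, hk⟩ : ∃ k, P.Br.coeff k ≠ 0 := by
      by_contra g
      push Not at g
      exact hne (LaurentPolynomial.ext g)
    have h1 : P.Br.coeff.support = {k} := eq_singleton_iff_unique_mem.2
      ⟨Finsupp.mem_support_iff.2 hk, fun i hi => by
        have b1 := hW i k (Finsupp.mem_support_iff.1 hi) hk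
        have b2 := hW k i hk (Finsupp.mem_support_iff.1 hi)
        omega⟩
    have h2 := evA_eq_sum a P.Br (s := {k}) fun i hi => h1 ▸ Finsupp.mem_support_iff.2 hi
    have h3 := congrArg norm (hev.symm.trans h2)
    rw [sum_singleton, norm_mul, Units.val_zpow_eq_zpow_val, norm_zpow, ha1, one_zpow, mul_one,
      norm_pow, norm_neg, norm_one, one_pow, Complex.norm_intCast] at h3
    rw [nrm, h1, sum_singleton]
    have h4 : |P.Br.coeff k| = 1 := by exact_mod_cast h3.symm
    rw [Int.abs_eq_natAbs] at h4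
    exact_mod_cast h4

end Pool.Agent.P.MP_833722_gt.TG
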