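import Pool.Agent.P.MP_833722_gt.TG.Defs

/-! The two-scale inequality. -/

set_option autoImplicit false

namespace Pool.Agent.P.MP_833722_gt.TG

open Real (exp)

theorem ts_big {a η y l₀ O₀ O₁ : ℝ} {r n : ℕ} (ha : 24 ≤ a) (h0 : 0 ≤ η) (hη : η ≤ exp (-(a / 2)))
    (h1 : η ≤ 1) (hy : a / 8 ≤ y) (hl : exp (-(2 * y + η)) ≤ l₀) (hO : l₀ / 2 < O₀)
    (hr : O₀ ≤ exp a ^ 3 * η ^ r) (hn : n ≤ 2 * r + 3) (h : (1 / exp a ^ 4) ^ n ≤ O₁) :
    2 * exp (-(600 * y) + η) ≤ O₁ := by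
  have e2 : (2 : ℝ) ≤ exp 1 := by linarith [Real.add_one_le_exp (1 : ℝ)]
  have h2 : exp (-(2 * y + η)) ≤ exp (1 + (3 * a + r * -(a / 2))) := by
    rw [Real.exp_add 1, Real.exp_add (3 * a), Real.exp_nat_mul,
      show 3 * a = (3 : ℕ) * a by norm_num, Real.exp_nat_mul]
    calc _ ≤ 2 * (exp a ^ 3 * η ^ r) := by linarith
      _ ≤ _ := by gcongr
  rw [Real.exp_le_exp] at h2
  have h3 : (n : ℝ) * a ≤ (2 * r + 3) * a := by
    gcongr; exact_mod_cast hn
  refine le_trans ?_ h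
  rw [← Real.exp_nat_mul, one_div, ← Real.exp_neg, ← Real.exp_nat_mul]
  calc _ ≤ exp 1 * exp (-(600 * y) + η) := by gcongr
    _ ≤ _ := by
      rw [← Real.exp_add, Real.exp_le_exp]
      push_cast
      nlinarith

theorem ts_small {s η y y' l₀ O₀ O₁ : ℝ} (s0 : 0 < s) (s1 : s ≤ 1 / 25)
    (hη : η ≤ s ^ 2) (y0 : 0 ≤ y') (y1 : y' ≤ y) (hy : s ≤ exp (-(2 * y)))
    (hl : exp (-(2 * y + η)) ≤ l₀) (hO : l₀ / 2 < O₀) (hm : O₀ ≤ 5 * min 1 y' + η)
    (h : (1 - exp (-(600 * y') + η)) / 4 ≤ O₁) : 2 * exp (-(600 * y) + η) ≤ O₁ := by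
  have m0 : 0 ≤ min 1 y' := le_min zero_le_one y0
  have m1 := min_le_left 1 y'
  have m2 := min_le_right 1 y'
  generalize min 1 y' = m at *
  have e1 : η ≤ s / 25 := by nlinarith
  have e2 : s / 2 ≤ exp (-(2 * y + η)) := by
    rw [neg_add, Real.exp_add]
    have := Real.add_one_le_exp (-η)
    calc s / 2 = s * (1 / 2) := by ring
      _ ≤ _ := by gcongr; linarith
  have e3 : η ≤ m := by linarith
  have e4 : 1 / 20 ≤ y := by linarith [Real.add_one_le_exp (-(2 * y + η))]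
  have e5 : exp (-(600 * y') + η) ≤ 1 - m / 2 := by
    have h1 : exp (-(600 * y') + η) * (1 + m) ≤ 1 := by
      calc _ ≤ exp (-m) * exp m := by
            gcongr
            · linarith
            · linarith [Real.add_one_le_exp m]
        _ = 1 := by rw [← Real.exp_add]; simp
    refine le_of_mul_le_mul_right (h1.trans ?_) (by linarith : 0 < 1 + m)
    nlinarith
  have e6 : 192 * exp (-(600 * y) + η) ≤ exp (-(2 * y + η)) := by
    have h1 := Real.quadratic_le_exp_of_nonneg (x := 29) (by norm_num)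
    calc _ ≤ exp 29 * exp (-(600 * y) + η) := by gcongr; linarith
      _ ≤ _ := by rw [← Real.exp_add, Real.exp_le_exp]; linarith
  linarith

theorem ts : PTS := by
  intro C₀
  refine ⟨C₀ ^ 2 + ⌈exp 24⌉₊, fun j hj y y' l₀ l₁ O₀ O₁ L y0 y1 a1 a2 a3 a4 a5 a6 => ?_⟩
  have j1 : exp 24 ≤ j := (Nat.le_ceil _).trans (by exact_mod_cast (by omega))
  have j0 : (0 : ℝ) < j := (Real.exp_pos _).trans_le j1
  have j2 : (C₀ : ℝ) ^ 2 ≤ j := by exact_mod_cast (by omega : C₀ ^ 2 ≤ j)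
  obtain ⟨a, ha⟩ : ∃ a, (j : ℝ) = exp a := ⟨_, (Real.exp_log j0).symm⟩
  rw [ha] at j1 j2 a1 a2 a3 a4 a5 a6
  rw [Real.exp_le_exp] at j1
  have h0 : 0 ≤ C₀ / exp a := by positivity
  have hη : C₀ / exp a ≤ exp (-(a / 2)) := by
    rw [div_le_iff₀ (Real.exp_pos _), ← Real.exp_add]
    refine (abs_le_of_sq_le_sq' (j2.trans_eq ?_) (Real.exp_pos _).le).2
    rw [sq, ← Real.exp_add]; congr 1; ring
  refine or_iff_not_imp_left.2 fun hO => le_trans (b := 2 * exp (-(600 * y) + C₀ / exp a))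
    (by linarith) ?_
  rcases le_total (a / 8) y with h | h
  · exact ts_big j1 h0 hη (hη.trans (Real.exp_le_one_iff.2 (by linarith))) h a1 (not_le.1 hO) a5
      (by omega) a6
  · refine ts_small (s := exp (-(a / 4))) (Real.exp_pos _) ?_ (hη.trans_eq ?_) y0 y1
      (Real.exp_le_exp.2 (by linarith)) a1 (not_le.1 hO) a3 a4
    · have h1 := Real.quadratic_le_exp_of_nonneg (x := 6) (by norm_num)
      rw [Real.exp_neg, ← one_div]
      gcongr
      exact le_trans (by linarith) (Real.exp_le_exp.2 (by linarith : 6 ≤ a / 4))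
    · rw [sq, ← Real.exp_add]; congr 1; ring

end Pool.Agent.P.MP_833722_gt.TG
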