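import Pool.Agent.P.MP_833722_gt.TG.Defs

/-! Closing the one-scale and the two-scale arguments. -/

set_option autoImplicit false

namespace Pool.Agent.P.MP_833722_gt.TG

open Real (exp)

theorem two_fin {C C₁ b m j : ℕ} {A B : ℝ → ℝ} (hG : Gr C₁ A b m) (h1 : 1 ≤ C₁) (hC : C₁ ≤ C)
    (hj : C ≤ j) (hb : b ≤ j ^ 3) {t : ℝ} (t0 : 0 < t) (t1 : 1 / (j : ℝ) ^ 2 ≤ t)
    (t2 : t ≤ 6000 / (j : ℝ) ^ 2) (t3 : t ≤ 1 / 2) (h : t / 4 * A t ≤ |B t|) :
    1 / (j : ℝ) ^ 2 ≤ t ∧ t ≤ 1 / 2 ∧ t / 4 * (1 + t ^ 2) ^ (m - b) ≤ |B t| ∧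
      (j ^ 3 ≤ 8 * b → t / 4 * exp (j / C) ≤ |B t|) := by
  refine ⟨t1, t3, le_trans (mul_le_mul_of_nonneg_left (hG.1 t t0 t3).2 (by positivity)) h,
    fun h8 => le_trans (mul_le_mul_of_nonneg_left ?_ (by positivity)) h⟩
  refine le_trans (Real.exp_le_exp.2 ?_) (hG.2 j (hC.trans hj) hb h8 t t1 t2)
  have a1 : (0 : ℝ) < C₁ := by exact_mod_cast h1
  have a2 : (C₁ : ℝ) ≤ C := by exact_mod_cast hC
  gcongr

theorem two_small {C C₁ b m : ℕ} {A : ℝ → ℝ} (hG : Gr C₁ A b m) (hC : 100 ≤ C) {t : ℝ}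
    (t0 : 0 < t) (h : t * (C * (b + m + 1)) ≤ 1) :
    t * C ≤ 1 ∧ t * (b + 1) * C ≤ 1 ∧ t * m * C ≤ 1 ∧ t ≤ 1 / 100 ∧ 1 ≤ A t ∧ A t ≤ 3 := by
  have a1 : (100 : ℝ) ≤ C := by exact_mod_cast hC
  have b0 : (0 : ℝ) ≤ t * C * b := by positivity
  have m0 : (0 : ℝ) ≤ t * C * m := by positivity
  have c0 : (0 : ℝ) ≤ t * C := by positivity
  have h1 : t * C ≤ 1 := by linarith
  have h2 : t * (b + 1) * C ≤ 1 := by linarith
  have h3 : t * m * C ≤ 1 := by linarith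
  have h4 : t ≤ 1 / 100 := by nlinarith
  obtain ⟨g1, g2⟩ := hG.1 t t0 (by linarith)
  refine ⟨h1, h2, h3, h4, le_trans (one_le_pow₀ (by nlinarith)) g2, g1.trans ?_⟩
  have b1 : (0 : ℝ) ≤ t * b := by positivity
  have m1 : (0 : ℝ) ≤ t * m := by positivity
  have b2 : t * b ≤ 1 / 100 := by nlinarith
  have m2 : t * m ≤ 1 / 100 := by nlinarith
  have h5 : 4 * t * b + 2 * t ^ 2 * m ≤ 1 := by nlinarith
  exact (Real.exp_le_exp.2 h5).trans (Real.exp_one_lt_d9.le.trans (by norm_num))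

theorem one : POne := by
  intro C₀ C₁ h1
  refine ⟨3 * C₀ + C₁ + 100, fun B A b m hG H => ⟨b, m, fun t t0 ht => ?_, fun j hj hb => ?_⟩⟩
  · obtain ⟨-, -, -, a4, a5, a6⟩ := two_small hG (by omega) t0 ht
    obtain ⟨h2, h3⟩ := H t t0 a4
    refine ⟨h3.trans ?_, le_trans (le_mul_of_one_le_right (by positivity) a5) h2⟩
    have : (0 : ℝ) ≤ C₀ := Nat.cast_nonneg _
    have : (0 : ℝ) ≤ C₁ := Nat.cast_nonneg _
    push_cast
    nlinarith
  · have j1 : (100 : ℝ) ≤ j := by exact_mod_cast (by omega : 100 ≤ j)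
    have t0 : 0 < 1 / (j : ℝ) ^ 2 := by positivity
    have t1 : 1 / (j : ℝ) ^ 2 ≤ 1 / 100 := one_div_le_one_div_of_le (by norm_num) (by nlinarith)
    exact ⟨_, two_fin hG h1 (by omega) hj hb t0 le_rfl (by gcongr; norm_num) (by linarith)
      (H _ t0 t1).1⟩

theorem two_er {C₀ b j : ℕ} (hj : 1 ≤ j) (hb : b ≤ j ^ 3) {t : ℝ} (t0 : 0 < t)
    (t1 : t ≤ 6000 / (j : ℝ) ^ 2) : er C₀ b t ≤ ((72006000 * C₀ : ℕ) : ℝ) / j := by
  have j1 : (1 : ℝ) ≤ j := by exact_mod_cast hj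
  have b1 : (b : ℝ) + 1 ≤ 2 * (j : ℝ) ^ 3 := by
    have h1 : (b : ℝ) ≤ (j : ℝ) ^ 3 := by exact_mod_cast hb
    have h2 : 1 ≤ (j : ℝ) ^ 3 := one_le_pow₀ j1
    linarith
  have h1 : t ≤ 6000 / j := t1.trans (by gcongr; nlinarith)
  unfold er
  calc _ ≤ C₀ * (6000 / j) + C₀ * (2 * (j : ℝ) ^ 3) * (6000 / (j : ℝ) ^ 2) ^ 2 := by gcongr
    _ = _ := by push_cast; field_simp; ring

theorem two (h : PTS) : PTwo := by
  intro C₀ C₁ h0 h1
  obtain ⟨C₂, H⟩ := h (72006000 * C₀)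
  refine ⟨72006000 * C₀ + C₁ + C₂, fun B l O A b m p p' L hG hp hm hT =>
    ⟨b, m, fun t t0 ht => ?_, fun j hj hb => ?_⟩⟩
  · obtain ⟨a1, a2, a3, a4, a5, a6⟩ := two_small hG (by omega) t0 ht
    obtain ⟨C, hC⟩ : ∃ C : ℝ, C = ((72006000 * C₀ + C₁ + C₂ : ℕ) : ℝ) := ⟨_, rfl⟩
    rw [← hC] at a1 a2 a3 ⊢
    have c0 : (1 : ℝ) ≤ C₀ := by exact_mod_cast h0
    have c1 : 100 * (C₀ : ℝ) ≤ C := by
      rw [hC]; exact_mod_cast (by omega)
    have b0 : 0 ≤ t * (b + 1) := by positivity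
    have m0 : 0 ≤ t * m := by positivity
    have e1 : C₀ * t ≤ 1 / 100 := by nlinarith
    have e2 : C₀ * (t * (b + 1)) ≤ 1 / 100 := by nlinarith
    have e3 : C₀ * (b + 1) * t ^ 2 ≤ 1 / 100 := by nlinarith
    have e4 : er C₀ b t ≤ 2 / 100 := by unfold er; linarith
    have e5 : t * m ≤ 1 / 100 := by nlinarith
    have p1 : (p : ℝ) ≤ m := by exact_mod_cast hm
    have p2 : (p' : ℝ) ≤ p := by exact_mod_cast hp
    have e6 : p * t ≤ 1 / 100 := by nlinarith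
    have e7 : p' * t ≤ 1 / 100 := by nlinarith
    obtain ⟨g1, g2, g3, -, g5, -⟩ := hT t t0 a4 (by linarith)
    have e8 := Real.add_one_le_exp (-(2 * p * t + er C₀ b t))
    have e9 := min_le_right 1 (p' * t)
    have e : O t ≤ l t / 2 := by linarith
    refine ⟨(g2 e).trans (by nlinarith),
      le_trans (le_mul_of_one_le_right (by positivity) a5) (g1 (Or.inl e))⟩
  · have c0 : (1 : ℝ) ≤ C₀ := by exact_mod_cast h0
    have j1 : 72006000 * (C₀ : ℝ) ≤ j := by exact_mod_cast (by omega : 72006000 * C₀ ≤ j)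
    have j2 : (1000 : ℝ) ≤ j := by linarith
    have s0 : 0 < 1 / (j : ℝ) ^ 2 := by positivity
    have t0 : 0 < 6000 / (j : ℝ) ^ 2 := by positivity
    have st : 1 / (j : ℝ) ^ 2 ≤ 6000 / (j : ℝ) ^ 2 := by gcongr; norm_num
    have t1 : 6000 / (j : ℝ) ^ 2 ≤ 1 / 100 := by
      rw [div_le_iff₀ (by positivity)]; nlinarith
    have es := two_er (C₀ := C₀) (by omega) hb s0 st
    have et := two_er (C₀ := C₀) (by omega) hb t0 le_rfl
    obtain ⟨η, hη⟩ : ∃ η : ℝ, η = ((72006000 * C₀ : ℕ) : ℝ) / j := ⟨_, rfl⟩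
    have η1 : η ≤ 1 := by
      rw [hη, div_le_one (by linarith)]; push_cast; exact j1
    have q : ∀ t : ℝ, 0 < t → C₀ * (b + 1) * t ^ 2 ≤ er C₀ b t := fun t ht =>
      le_add_of_nonneg_left (by positivity)
    have H1 := H j (by omega) (p * (1 / (j : ℝ) ^ 2)) (p' * (1 / (j : ℝ) ^ 2))
      (l (1 / (j : ℝ) ^ 2)) (l (6000 / (j : ℝ) ^ 2)) (O (1 / (j : ℝ) ^ 2))
      (O (6000 / (j : ℝ) ^ 2)) L
    rw [← hη] at es et H1
    obtain ⟨f1, -, f3, -, f5, -, f7, -⟩ := hT _ s0 (st.trans t1) ((q _ s0).trans (es.trans η1))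
    obtain ⟨g1, -, -, g4, -, g6, -, g8⟩ := hT _ t0 t1 ((q _ t0).trans (et.trans η1))
    have p2 : (p' : ℝ) ≤ p := by exact_mod_cast hp
    have e1 : ∀ x : ℝ, x * (6000 / (j : ℝ) ^ 2) / 10 = 600 * (x * (1 / (j : ℝ) ^ 2)) := fun x => by
      ring
    rw [e1] at g4 g6
    have H2 := H1 (by positivity) (by gcongr) (le_trans (Real.exp_le_exp.2 (by linarith)) f3)
      (g4.trans (Real.exp_le_exp.2 (by linarith))) (by linarith) (by
        have : exp (-(600 * (p' * (1 / (j : ℝ) ^ 2))) + er C₀ b (6000 / (j : ℝ) ^ 2)) ≤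
            exp (-(600 * (p' * (1 / (j : ℝ) ^ 2))) + η) := Real.exp_le_exp.2 (by linarith)
        linarith) (f7.trans (by
        refine mul_le_mul ?_ (pow_le_pow_left₀ (by positivity) ((q _ s0).trans es) _)
          (by positivity) (by positivity)
        rw [div_div_eq_mul_div, div_one, pow_succ' _ 2]
        gcongr
        linarith)) (le_trans (by
        refine pow_le_pow_left₀ (by positivity) (one_div_le_one_div_of_le (by positivity) ?_) _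
        have a1 : (b : ℝ) ≤ (j : ℝ) ^ 3 := by exact_mod_cast hb
        have a2 : 1 ≤ (j : ℝ) ^ 3 := one_le_pow₀ (by linarith)
        have a3 : 1 / (6000 / (j : ℝ) ^ 2) ≤ (j : ℝ) ^ 3 := by
          rw [one_div_div, div_le_iff₀ (by norm_num), pow_succ _ 2]
          nlinarith [sq_nonneg (j : ℝ)]
        calc _ ≤ (C₀ : ℝ) * (3 * (j : ℝ) ^ 3) := by gcongr; linarith
          _ = 3 * C₀ * (j : ℝ) ^ 3 := by ring
          _ ≤ j * (j : ℝ) ^ 3 := by gcongr; linarith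
          _ = _ := by ring) g8)
    rcases H2 with H2 | H2
    · exact ⟨_, two_fin hG h1 (by omega) hj hb s0 le_rfl st (by linarith) (f1 (Or.inl H2))⟩
    · exact ⟨_, two_fin hG h1 (by omega) hj hb t0 st le_rfl (by linarith) (g1 (Or.inr H2))⟩

end Pool.Agent.P.MP_833722_gt.TG
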