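import Pool.Agent.P.MP_833722_gt.TG.Base

/-! Upper bounds for connection probabilities. -/

set_option autoImplicit false

namespace Pool.Agent.P.MP_833722_gt.TG

open Finset

section aux

variable {V : Type} [Fintype V] [DecidableEq V] {k : ℝ} {w : Sym2 V → ℝ} {E : Finset (Sym2 V)}
  {W : Finset V} {x y : V}

omit [Fintype V] in
theorem u_ins {B : Finset V} {π : Setoid V} {a : V} (h : Sep W B π) (hx : x ∈ W) (hB : x ∈ B)
    (ha : a ∉ W) (hxa : π x a) : Sep (insert a W) (insert a B) π := by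
  have h1 : ∀ q ∈ W, (π a q ↔ q ∈ B) := fun q hq =>
    ⟨fun g => ((h x hx q hq).1 (π.trans' hxa g)).elim (fun e => e ▸ hB) fun e => e.2,
      fun g => π.trans' (π.symm' hxa) ((h x hx q hq).2 (Or.inr ⟨hB, g⟩))⟩
  have h2 : ∀ q ∈ W, q ≠ a := fun q hq e => ha (e ▸ hq)
  intro p hp q hq
  rcases mem_insert.1 hp with rfl | hp' <;> rcases mem_insert.1 hq with rfl | hq'
  · exact ⟨fun _ => Or.inl rfl, fun _ => π.refl' _⟩
  · simp [h1 q hq', h2 q hq', (h2 q hq').symm]
  · rw [show π p q ↔ π q p from ⟨π.symm', π.symm'⟩]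
    simp [h1 p hp', h2 p hp']
  · simp [h p hp' q hq', h2 p hp', h2 q hq']

/-- the walks counted by `cnt` -/
def uC (E : Finset (Sym2 V)) (W : Finset V) (v : V) : Finset (V × V) :=
  univ.filter fun p : V × V => s(v, p.1) ∈ E ∧ s(p.1, p.2) ∈ E ∧ p.1 ∉ W ∧ p.2 ∉ W ∧ p.2 ≠ v

theorem u_path {S : Finset (Sym2 V)} (hl : ∀ e ∈ E, ¬e.IsDiag) (hS : S ⊆ E) (hx : x ∈ W)
    (hy : y ∈ W) (hxy : x ≠ y) (hn : s(x, y) ∉ E) (h : Sep W {x, y} (gen ⊥ S)) :
    (∃ a ∈ (nb E x ∩ nb E y) \ W, Sep (insert a W) {x, a, y} (gen ⊥ S)) ∨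
      ∃ p ∈ uC E W x, Sep (insert p.1 (insert p.2 W)) {x, p.1, p.2, y} (gen ⊥ S) := by
  classical
  have h0 : ∃ n, Wk S n x y := (gen_bot_iff _ _ _).1 ((h x hx y hy).2 (Or.inr (by simp)))
  have hl' : ∀ p q, s(p, q) ∈ S → p ≠ q := fun p q g e => hl _ (hS g) (Sym2.mk_isDiag_iff.2 e)
  have out : ∀ q, gen ⊥ S x q → q ≠ x → q ≠ y → q ∉ W := fun q g g1 g2 hq => by
    have := (h x hx q hq).1 g
    simp [g1, g2, g1.symm] at this
  have h1 := Nat.find_spec h0
  have h2 := fun m => Nat.find_min h0 (m := m)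
  generalize Nat.find h0 = n at h1 h2
  match n, h1, h2 with
  | 0, h1, _ => exact absurd h1 hxy
  | 1, ⟨a, g1, g2⟩, _ => exact absurd (hS ((show a = y from g2) ▸ g1)) hn
  | n + 2, ⟨a, g1, b, g2, g3⟩, h2 =>
    have a1 : gen ⊥ S x a := gen_edge _ g1
    have a2 : gen ⊥ S x b := (gen ⊥ S).trans' a1 (gen_edge _ g2)
    have a3 : a ∉ W := out a a1 (hl' _ _ g1).symm fun e => hn (hS (e ▸ g1))
    by_cases hb : b = y
    · subst hb
      refine Or.inl ⟨a, mem_sdiff.2 ⟨mem_inter.2 ⟨mem_nb.2 (hS g1), mem_nb.2 ?_⟩, a3⟩, ?_⟩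
      · rw [Sym2.eq_swap]
        exact hS g2
      · rw [insert_comm x a]
        exact u_ins h hx (by simp) a3 a1
    · have a4 : b ≠ x := fun e => h2 n (by omega) (e ▸ g3)
      have a5 : b ∉ W := out b a2 a4 hb
      refine Or.inr ⟨(a, b), mem_filter.2 ⟨mem_univ _, hS g1, hS g2, a3, a5, a4⟩, ?_⟩
      rw [insert_comm x a, insert_comm x b]
      exact u_ins (u_ins h hx (by simp) a5 a2) (mem_insert_of_mem hx) (by simp)
        (by simp [a3, hl' _ _ g2]) a1

theorem u_cover (hk : 0 < k) (hw : Wt 0 w E) (hx : x ∈ W) (hy : y ∈ W) (hxy : x ≠ y)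
    (hn : s(x, y) ∉ E) : mu k w E W {x, y} ≤
      ∑ a ∈ (nb E x ∩ nb E y) \ W, mu k w E (insert a W) {x, a, y} +
        ∑ p ∈ uC E W x, mu k w E (insert p.1 (insert p.2 W)) {x, p.1, p.2, y} := by
  unfold mu
  rw [← Z_sum, ← Z_sum, ← Z_add]
  refine Z_mono hk hw fun S hS => ?_
  have n1 : 0 ≤ ∑ a ∈ (nb E x ∩ nb E y) \ W, ind (Sep (insert a W) {x, a, y} (gen ⊥ S)) :=
    sum_nonneg fun _ _ => ind_nonneg _
  have n2 : 0 ≤ ∑ p ∈ uC E W x,
      ind (Sep (insert p.1 (insert p.2 W)) {x, p.1, p.2, y} (gen ⊥ S)) :=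
    sum_nonneg fun _ _ => ind_nonneg _
  by_cases h : Sep W {x, y} (gen ⊥ S)
  · rw [ind_pos h]
    rcases u_path (fun e he => (hw e he).1) hS hx hy hxy hn h with ⟨a, ha, g⟩ | ⟨p, hp, g⟩
    · have := single_le_sum (f := fun a => ind (Sep (insert a W) {x, a, y} (gen ⊥ S)))
        (fun _ _ => ind_nonneg _) ha
      rw [ind_pos g] at this
      linarith
    · have := single_le_sum (f := fun p : V × V =>
        ind (Sep (insert p.1 (insert p.2 W)) {x, p.1, p.2, y} (gen ⊥ S)))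
        (fun _ _ => ind_nonneg _) hp
      rw [ind_pos g] at this
      linarith
  · rw [ind_neg h]
    linarith

theorem u_four (hk : 0 < k) (hw : Wt 0 w E) (hx : x ∈ W) (hy : y ∈ W) (hxy : x ≠ y) {p : V × V}
    (hp : p ∈ uC E W x) {θ : ℝ} (hθ : 0 ≤ θ)
    (h : ∀ v, v = x ∨ v = p.1 ∨ v = p.2 → k * mu k w E (insert p.1 (insert p.2 W)) {v, y} ≤
      θ * mu k w E (insert p.1 (insert p.2 W)) ∅) :
    k * mu k w E (insert p.1 (insert p.2 W)) {x, p.1, p.2, y} ≤
      6 / k ^ 2 * θ * mu k w E W ∅ := by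
  obtain ⟨-, -, g2, g3, g4, -⟩ := mem_filter.1 hp
  have n : ∀ {q v : V}, q ∉ W → v ∈ W → q ≠ v := fun hq hv e => hq (e ▸ hv)
  have a1 := mul_le_mul_of_nonneg_left (mi4 hk hw (W := insert p.1 (insert p.2 W)) (x := x)
    (a := p.1) (b := p.2) (y := y) (by simp [hx]) (by simp) (by simp) (by simp [hy])
    (n g3 hx).symm (n g4 hx).symm hxy (fun e => (hw _ g2).1 (Sym2.mk_isDiag_iff.2 e))
    (n g3 hy) (n g4 hy)) hk.le
  have a2 := h x (Or.inl rfl)
  have a3 := h p.1 (Or.inr (Or.inl rfl))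
  have a4 := h p.2 (Or.inr (Or.inr rfl))
  have a5 := mul_le_mul_of_nonneg_left (mu_anti hk hw (W := W) (W' := insert p.1 (insert p.2 W))
    ((subset_insert _ _).trans (subset_insert _ _))) hθ
  rw [mul_assoc, div_mul_eq_mul_div, le_div_iff₀ (by positivity)]
  nlinarith

theorem u_sum {ι : Type} (s : Finset ι) (f : ι → ℝ) (c : ℝ) (n : ℕ) (hc : 0 ≤ c) (hn : s.card ≤ n)
    (h : ∀ i ∈ s, k * f i ≤ c) : k * ∑ i ∈ s, f i ≤ n * c := by
  rw [mul_sum]
  refine (sum_le_card_nsmul _ _ _ h).trans ?_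
  rw [nsmul_eq_mul]
  exact mul_le_mul_of_nonneg_right (by exact_mod_cast hn) hc

end aux

theorem uu : PU := by
  intro V _ _ k w E hk hw
  refine ⟨fun W x y X hx hy hxy hn hX => ?_, fun W₀ X r => ?_⟩
  · have m0 := mu_nonneg hk hw W ∅
    have a1 := mul_le_mul_of_nonneg_left (u_cover hk hw hx hy hxy hn) hk.le
    have a2 := u_sum (k := k) ((nb E x ∩ nb E y) \ W) (fun a => mu k w E (insert a W) {x, a, y})
      (2 / k * mu k w E W ∅) (com E x y) (by positivity) (card_le_card sdiff_subset)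
      fun a ha => by
        have g := (mem_sdiff.1 ha).2
        have n : ∀ {v : V}, v ∈ W → a ≠ v := fun hv e => g (e ▸ hv)
        have hx' : x ∈ insert a W := mem_insert_of_mem hx
        have hy' : y ∈ insert a W := mem_insert_of_mem hy
        have b1 := mul_le_mul_of_nonneg_left
          (mi3 hk hw hx' (mem_insert_self a W) hy' (n hx).symm hxy (n hy)) hk.le
        have b2 := mi2 hk hw hx' hy' hxy
        have b3 := mi2 hk hw (mem_insert_self a W) hy' (n hy)
        have b4 := mu_anti hk hw (subset_insert a W)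
        rw [div_mul_eq_mul_div, le_div_iff₀ hk]
        nlinarith
    have a3 := u_sum (k := k) (uC E W x)
      (fun p => mu k w E (insert p.1 (insert p.2 W)) {x, p.1, p.2, y})
      (6 / k ^ 2 * 1 * mu k w E W ∅) X (by positivity) hX fun p hp =>
        u_four hk hw hx hy hxy hp zero_le_one fun v hv => by
          obtain ⟨-, -, -, g3, g4, -⟩ := mem_filter.1 hp
          rw [one_mul]
          refine mi2 hk hw ?_ (by simp [hy]) ?_
          · rcases hv with rfl | rfl | rfl <;> simp [hx]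
          · rcases hv with rfl | rfl | rfl
            exacts [hxy, fun e => g3 (e ▸ hy), fun e => g4 (e ▸ hy)]
    calc _ ≤ _ := a1
      _ ≤ com E x y * (2 / k * mu k w E W ∅) + X * (6 / k ^ 2 * 1 * mu k w E W ∅) := by
          rw [mul_add]
          exact add_le_add a2 a3
      _ = _ := by ring
  · induction r with
    | zero =>
      intro W x y _ hx hy _ _ hn
      rw [pow_zero, one_mul]
      exact mi2 hk hw hx hy (hn 0 le_rfl)
    | succ r ih =>
      intro W x y hW hx hy hX hX' hn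
      have hxy : x ≠ y := hn 0 (by omega)
      have m0 := mu_nonneg hk hw W ∅
      have a1 := mul_le_mul_of_nonneg_left
        (u_cover hk hw hx hy hxy fun g => hn 1 (by omega) ⟨y, g, rfl⟩) hk.le
      have a2 : (nb E x ∩ nb E y) \ W = ∅ := by
        refine eq_empty_of_forall_notMem fun a ha => hn 2 (by omega) ?_
        have g := mem_inter.1 (mem_sdiff.1 ha).1
        exact ⟨a, mem_nb.1 g.1, y, by rw [Sym2.eq_swap]; exact mem_nb.1 g.2, rfl⟩
      have a3 := u_sum (k := k) (uC E W x)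
        (fun p => mu k w E (insert p.1 (insert p.2 W)) {x, p.1, p.2, y})
        (6 / k ^ 2 * (6 * X / k ^ 2) ^ r * mu k w E W ∅) X (by positivity)
        ((cnt_mono Subset.rfl hW x).trans hX) fun p hp =>
          u_four hk hw hx hy hxy hp (by positivity) fun v hv => by
            obtain ⟨-, g1, g2, g3, g4, -⟩ := mem_filter.1 hp
            refine ih _ v y (hW.trans ((subset_insert _ _).trans (subset_insert _ _))) ?_
              (by simp [hy]) ?_ hX' fun n h1 h2 => ?_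
            · rcases hv with rfl | rfl | rfl <;> simp [hx]
            · rcases hv with rfl | rfl | rfl
              exacts [hX, hX' _ fun e => g3 (hW e), hX' _ fun e => g4 (hW e)]
            · rcases hv with rfl | rfl | rfl
              exacts [hn n (by omega) h2, hn (n + 1) (by omega) ⟨_, g1, h2⟩,
                hn (n + 2) (by omega) ⟨_, g1, _, g2, h2⟩]
      rw [a2, sum_empty, zero_add] at a1
      calc _ ≤ _ := a1
        _ ≤ _ := a3
        _ = _ := by ring

end Pool.Agent.P.MP_833722_gt.TG
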